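import Pool.Agent.R233.BergK

set_option autoImplicit false

open MeasureTheory Topology Filter Set Real
open scoped ENNReal NNReal ComplexConjugate

namespace Pool.Agent.R233

lemma box_psi (a : ℕ) {β γ t : ℝ} (ht : 0 < t) (ht1 : t ≤ 1)
    (h1 : 1 ≤ β * (8 * a : ℕ)) (h2 : 1 ≤ γ * (4 : ℕ)) (h3 : 1 ≤ β * (2 * a : ℕ) + γ * (2 : ℕ))
    (z w : ℂ) (hz : ‖z‖ ≤ t ^ β) (hw : ‖w‖ ≤ t ^ γ) : psi a z w ≤ 3 * t := by
  have key : ∀ (δ : ℝ) (k : ℕ), (t ^ δ) ^ k = t ^ (δ * k) := by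
    intro δ k
    rw [← Real.rpow_natCast, ← Real.rpow_mul ht.le]
  have le1 : ∀ e : ℝ, 1 ≤ e → t ^ e ≤ t := by
    intro e he
    calc t ^ e ≤ t ^ (1 : ℝ) := Real.rpow_le_rpow_of_exponent_ge ht ht1 he
      _ = t := Real.rpow_one t
  have e1 : ‖z‖ ^ (8 * a) ≤ t := by
    calc ‖z‖ ^ (8 * a) ≤ (t ^ β) ^ (8 * a) := by gcongr
      _ = t ^ (β * (8 * a : ℕ)) := key _ _
      _ ≤ t := le1 _ h1
  have e2 : ‖w‖ ^ 4 ≤ t := by
    calc ‖w‖ ^ 4 ≤ (t ^ γ) ^ 4 := by gcongr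
      _ = t ^ (γ * (4 : ℕ)) := key _ _
      _ ≤ t := le1 _ h2
  have e3 : ‖z‖ ^ (2 * a) * ‖w‖ ^ 2 ≤ t := by
    calc ‖z‖ ^ (2 * a) * ‖w‖ ^ 2 ≤ (t ^ β) ^ (2 * a) * (t ^ γ) ^ 2 := by gcongr
      _ = t ^ (β * (2 * a : ℕ)) * t ^ (γ * (2 : ℕ)) := by rw [key, key]
      _ = t ^ (β * (2 * a : ℕ) + γ * (2 : ℕ)) := (Real.rpow_add ht _ _).symm
      _ ≤ t := le1 _ h3
  unfold psi
  linarith

lemma exp_le_one_sub {x : ℝ} (h0 : 0 ≤ x) (h1 : x ≤ 1 / 2) : exp (-(2 * x)) ≤ 1 - x := by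
  rw [exp_neg, inv_le_comm₀ (exp_pos _) (by linarith)]
  have h2 := add_one_le_exp (2 * x)
  refine le_trans ?_ h2
  rw [inv_le_comm₀ (by linarith) (by linarith), ← sub_nonneg]
  have : 1 - x - (2 * x + 1)⁻¹ = x * (1 - 2 * x) / (2 * x + 1) := by
    field_simp
    ring
  rw [this]
  apply div_nonneg
  · apply mul_nonneg h0; linarith
  · linarith

lemma KK_lower2 (a m : ℕ) {s β γ : ℝ} (hs : 0 < s)
    (h1 : 1 ≤ β * (8 * a : ℕ)) (h2 : 1 ≤ γ * (4 : ℕ)) (h3 : 1 ≤ β * (2 * a : ℕ) + γ * (2 : ℕ)) :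
    ∃ κ : ℝ, 0 < κ ∧ ∀ j : ℕ, 2 ≤ j →
      ENNReal.ofReal (κ * (1 / (3 * j) : ℝ) ^ (β * (a * s + 2) + 2 * γ)) ≤ KK a m j s := by
  refine ⟨(1 / 2) ^ ((a : ℝ) * s) * exp (-(s + (m + 1))) * (π ^ 2 / 16), by positivity, ?_⟩
  intro j hj
  have hj2 : (2 : ℝ) ≤ j := by exact_mod_cast hj
  have hj0 : (0 : ℝ) < j := by linarith
  set t : ℝ := 1 / (3 * j) with ht
  have ht0 : 0 < t := by positivity
  have ht1 : t ≤ 1 := by
    rw [ht, div_le_one (by positivity)]; linarith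
  have h3t : 3 * t = 1 / j := by rw [ht]; field_simp
  have hjinv : (1 : ℝ) / j ≤ 1 / 2 := by
    rw [div_le_div_iff₀ hj0 (by norm_num)]; linarith
  refine le_trans ?_ (KK_lower a m j s hs.le (t ^ β) (t ^ γ) (1 - 1 / j) (by positivity)
    (by positivity) (by linarith) ?_)
  · apply ENNReal.ofReal_le_ofReal
    have e1 : (t ^ β / 2) ^ ((a : ℝ) * s) = (1 / 2) ^ ((a : ℝ) * s) * t ^ (β * (a * s)) := by
      rw [div_eq_mul_one_div, Real.mul_rpow (by positivity) (by norm_num), ← Real.rpow_mul ht0.le]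
      ring
    have e2 : exp (-(s + (m + 1))) ≤ (1 - 1 / (j : ℝ)) ^ ((j : ℝ) * s / 2 + (m + 1)) := by
      calc exp (-(s + (m + 1))) ≤ exp (-(2 * (1 / (j : ℝ))) * ((j : ℝ) * s / 2 + (m + 1))) := by
            apply exp_le_exp.2
            have hm0 : (0 : ℝ) ≤ m := Nat.cast_nonneg m
            have : (2 * (1 / (j : ℝ))) * ((j : ℝ) * s / 2 + (m + 1)) =
              s + (2 / j) * (m + 1) := by field_simp
            have h5 : (2 : ℝ) / j ≤ 1 := by rw [div_le_one hj0]; exact hj2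
            have h6 : (2 / (j : ℝ)) * (m + 1) ≤ 1 * (m + 1) := by gcongr
            linarith
        _ = (exp (-(2 * (1 / (j : ℝ))))) ^ ((j : ℝ) * s / 2 + (m + 1)) := by rw [exp_mul]
        _ ≤ _ := by
            apply Real.rpow_le_rpow (exp_pos _).le _ (by positivity)
            exact exp_le_one_sub (by positivity) hjinv
    have e3 : (π * (t ^ β / 4) ^ 2) * (π * (t ^ γ) ^ 2) =
        (π ^ 2 / 16) * t ^ (β * 2 + 2 * γ) := by
      have k1 : (t ^ β) ^ 2 = t ^ (β * 2) := by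
        rw [← Real.rpow_natCast, ← Real.rpow_mul ht0.le]; norm_num
      have k2 : (t ^ γ) ^ 2 = t ^ (2 * γ) := by
        rw [← Real.rpow_natCast, ← Real.rpow_mul ht0.le, mul_comm γ]; norm_num
      rw [div_pow, k1, k2, Real.rpow_add ht0]
      ring
    have e4 : t ^ (β * (a * s + 2) + 2 * γ) = t ^ (β * (a * s)) * t ^ (β * 2 + 2 * γ) := by
      rw [← Real.rpow_add ht0]
      congr 1
      ring
    rw [e1, e3, e4]
    calc (1 / 2) ^ ((a : ℝ) * s) * exp (-(s + (m + 1))) * (π ^ 2 / 16) *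
          (t ^ (β * (a * s)) * t ^ (β * 2 + 2 * γ))
        = (1 / 2) ^ ((a : ℝ) * s) * t ^ (β * (a * s)) * exp (-(s + (m + 1))) *
          ((π ^ 2 / 16) * t ^ (β * 2 + 2 * γ)) := by ring
      _ ≤ _ := by gcongr
  · intro z w hz hw
    have := box_psi a ht0 ht1 h1 h2 h3 z w hz hw
    rw [h3t] at this
    linarith

/-- two powers cannot be compared in the wrong direction -/
lemma pow_contra {b g κ C : ℝ} (hκ : 0 < κ) (hbg : b < g)
    (h : ∀ j : ℕ, 2 ≤ j → κ * (1 / (3 * j) : ℝ) ^ b ≤ C * (1 / (3 * j) : ℝ) ^ g) : False := by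
  have h1 : Tendsto (fun j : ℕ => ((3 * j : ℝ)) ^ (g - b)) atTop atTop := by
    refine (tendsto_rpow_atTop (by linarith)).comp ?_
    exact Tendsto.const_mul_atTop (by norm_num) tendsto_natCast_atTop_atTop
  obtain ⟨j, hj1, hj2⟩ := ((h1.eventually_gt_atTop (C / κ)).and (eventually_ge_atTop 2)).exists
  have h2 := h j hj2
  have hj0 : (0 : ℝ) < j := by
    have : (2 : ℝ) ≤ j := by exact_mod_cast hj2
    linarith
  set t : ℝ := 1 / (3 * j) with ht
  have ht0 : 0 < t := by positivity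
  have h3 : (3 * j : ℝ) ^ (g - b) = t ^ (b - g) := by
    rw [ht, one_div, Real.inv_rpow (by positivity), ← Real.rpow_neg (by positivity)]
    congr 1
    ring
  rw [h3] at hj1
  have h4 : t ^ (b - g) * t ^ g = t ^ b := by
    rw [← Real.rpow_add ht0]; congr 1; ring
  have hg : 0 < t ^ g := by positivity
  rw [div_lt_iff₀ hκ] at hj1
  have : C * t ^ g < κ * t ^ b := by
    rw [← h4]
    nlinarith
  linarith

theorem core (a m : ℕ) (ha : 1 ≤ a) {P Q : ℝ} (hPQ : P.HolderConjugate Q)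
    (hP : P < 2 - 2 / a) (C : ℝ≥0) :
    ∃ j : ℕ, 2 ≤ j ∧ ¬ (AA a m j P ^ (1 / P) * AA a m j Q ^ (1 / Q) ≤ C * AA a m j 2) := by
  by_contra hcon
  push Not at hcon
  have haR : (1 : ℝ) ≤ a := by exact_mod_cast ha
  have haR0 : (0 : ℝ) < a := by linarith
  have hP1 : 1 < P := hPQ.lt
  have hQ1 : 1 < Q := hPQ.symm.lt
  have hP0 : 0 < P := by linarith
  have hQ0 : 0 < Q := by linarith
  obtain ⟨κP, hκP, hKP⟩ := KK_lower2 a m (s := P) (β := 1 / (4 * a)) (γ := 1 / 4) hP0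
    (by push_cast; field_simp; norm_num) (by norm_num)
    (by push_cast; field_simp; norm_num)
  obtain ⟨κQ, hκQ, hKQ⟩ := KK_lower2 a m (s := Q) (β := 1 / (8 * a)) (γ := 3 / 8) hQ0
    (by push_cast; field_simp; norm_num) (by norm_num)
    (by push_cast; field_simp; norm_num)
  set αP : ℝ := 1 / (4 * a) * (a * P + 2) + 2 * (1 / 4) with hαP
  set αQ : ℝ := 1 / (8 * a) * (a * Q + 2) + 2 * (3 / 8) with hαQ
  set Γ' : ℝ := Gamma (2 / ((8 * a : ℕ) : ℝ) + 1) with hΓ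
  have hΓ0 : 0 < Γ' := Gamma_pos_of_pos (by positivity)
  have main : ∀ j : ℕ, 2 ≤ j → (κP ^ (1 / P) * κQ ^ (1 / Q)) *
      (1 / (3 * j) : ℝ) ^ (αP / P + αQ / Q) ≤
      (C * (π * Γ' * π * 3 ^ (1 + 1 / (4 * (a : ℝ))))) *
        (1 / (3 * j) : ℝ) ^ (1 + 1 / (4 * (a : ℝ))) := by
    intro j hj
    have hj2 : (2 : ℝ) ≤ j := by exact_mod_cast hj
    have hj0 : (0 : ℝ) < j := by linarith
    have h1 := hcon j hj
    rw [AA_eq a m j P hP0.le, AA_eq a m j Q hQ0.le, AA_eq a m j 2 (by norm_num),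
      ENNReal.mul_rpow_of_nonneg _ _ (by positivity),
      ENNReal.mul_rpow_of_nonneg _ _ (by positivity)] at h1
    set JP := Jf m 1 ((j : ℝ) * P) with hJP
    set JQ := Jf m 1 ((j : ℝ) * Q) with hJQ
    set X : ℝ≥0∞ := JP ^ (1 / P) * JQ ^ (1 / Q) with hX
    have hX0 : X ≠ 0 := by
      have a1 : JP ≠ 0 := Jf_ne_zero m _ (by positivity)
      have a2 : JQ ≠ 0 := Jf_ne_zero m _ (by positivity)
      have b1 : JP ≠ ∞ := Jf_ne_top m _ (by positivity)
      have b2 : JQ ≠ ∞ := Jf_ne_top m _ (by positivity)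
      refine mul_ne_zero ?_ ?_
      · exact (ENNReal.rpow_pos (pos_iff_ne_zero.2 a1) b1).ne'
      · exact (ENNReal.rpow_pos (pos_iff_ne_zero.2 a2) b2).ne'
    have hXt : X ≠ ∞ := by
      have b1 : JP ≠ ∞ := Jf_ne_top m _ (by positivity)
      have b2 : JQ ≠ ∞ := Jf_ne_top m _ (by positivity)
      exact ENNReal.mul_ne_top (ENNReal.rpow_ne_top_of_nonneg (by positivity) b1)
        (ENNReal.rpow_ne_top_of_nonneg (by positivity) b2)
    have hJ := Jf_holder m hPQ j hj0.le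
    have h2 : (KK a m j P ^ (1 / P) * KK a m j Q ^ (1 / Q)) * X ≤ (C * KK a m j 2) * X := by
      calc (KK a m j P ^ (1 / P) * KK a m j Q ^ (1 / Q)) * X
          = KK a m j P ^ (1 / P) * JP ^ (1 / P) * (KK a m j Q ^ (1 / Q) * JQ ^ (1 / Q)) := by
            rw [hX]; ring
        _ ≤ C * (KK a m j 2 * Jf m 1 ((j : ℝ) * 2)) := h1
        _ ≤ C * (KK a m j 2 * X) := by gcongr
        _ = (C * KK a m j 2) * X := by ring
    have h3 : KK a m j P ^ (1 / P) * KK a m j Q ^ (1 / Q) ≤ C * KK a m j 2 := by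
      rwa [ENNReal.mul_le_mul_iff_left hX0 hXt] at h2
    set t : ℝ := 1 / (3 * j) with ht
    have ht0 : 0 < t := by positivity
    have h4 : ENNReal.ofReal ((κP * t ^ αP) ^ (1 / P) * (κQ * t ^ αQ) ^ (1 / Q)) ≤
        ENNReal.ofReal (C * (π * (j : ℝ) ^ (-2 / ((8 * a : ℕ) : ℝ)) * Γ' * (π / j))) := by
      calc ENNReal.ofReal ((κP * t ^ αP) ^ (1 / P) * (κQ * t ^ αQ) ^ (1 / Q))
          = ENNReal.ofReal (κP * t ^ αP) ^ (1 / P) * ENNReal.ofReal (κQ * t ^ αQ) ^ (1 / Q) := by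
            rw [ENNReal.ofReal_mul (by positivity),
              ENNReal.ofReal_rpow_of_nonneg (by positivity) (by positivity),
              ENNReal.ofReal_rpow_of_nonneg (by positivity) (by positivity)]
        _ ≤ KK a m j P ^ (1 / P) * KK a m j Q ^ (1 / Q) := by
            gcongr
            · exact hKP j hj
            · exact hKQ j hj
        _ ≤ C * KK a m j 2 := h3
        _ ≤ C * ENNReal.ofReal (π * (j : ℝ) ^ (-2 / ((8 * a : ℕ) : ℝ)) * Γ' * (π / j)) := by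
            gcongr
            exact KK_upper a m j ha (by omega)
        _ = _ := by
            rw [ENNReal.ofReal_mul (NNReal.coe_nonneg C), ENNReal.ofReal_coe_nnreal]
    rw [ENNReal.ofReal_le_ofReal_iff (by positivity)] at h4
    have e1 : (κP * t ^ αP) ^ (1 / P) * (κQ * t ^ αQ) ^ (1 / Q) =
        (κP ^ (1 / P) * κQ ^ (1 / Q)) * t ^ (αP / P + αQ / Q) := by
      rw [Real.mul_rpow hκP.le (by positivity), Real.mul_rpow hκQ.le (by positivity),
        ← Real.rpow_mul ht0.le, ← Real.rpow_mul ht0.le, Real.rpow_add ht0]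
      rw [mul_one_div, mul_one_div]
      ring
    have e2 : (j : ℝ) ^ (-2 / ((8 * a : ℕ) : ℝ)) * (1 / j) =
        3 ^ (1 + 1 / (4 * (a : ℝ))) * t ^ (1 + 1 / (4 * (a : ℝ))) := by
      rw [← Real.mul_rpow (by norm_num) ht0.le]
      have : 3 * t = (j : ℝ)⁻¹ := by rw [ht]; field_simp
      rw [this, Real.inv_rpow hj0.le, ← Real.rpow_neg hj0.le, one_div, ← Real.rpow_neg_one,
        ← Real.rpow_add hj0]
      congr 1
      push_cast
      field_simp
      ring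
    rw [e1] at h4
    refine h4.trans (le_of_eq ?_)
    calc C * (π * (j : ℝ) ^ (-2 / ((8 * a : ℕ) : ℝ)) * Γ' * (π / j))
        = C * (π * Γ' * π) * ((j : ℝ) ^ (-2 / ((8 * a : ℕ) : ℝ)) * (1 / j)) := by ring
      _ = _ := by rw [e2]; ring
  refine pow_contra (by positivity) ?_ main
  -- compare the exponents
  have hinv : 1 / Q = 1 - 1 / P := by
    have := hPQ.inv_add_inv_eq_one
    rw [← one_div, ← one_div] at this
    linarith
  have e3 : αP / P + αQ / Q = 1 + 1 / (4 * (a : ℝ)) +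
      (1 / (8 * a)) * (a - (2 * a - 2) * (1 / P)) := by
    have f1 : αP / P = 1 / 4 + (1 / (4 * a)) * 2 * (1 / P) + 1 / 2 * (1 / P) := by
      rw [hαP]; field_simp; ring
    have f2 : αQ / Q = 1 / 8 + (1 / (8 * a)) * 2 * (1 / Q) + 3 / 4 * (1 / Q) := by
      rw [hαQ]; field_simp; ring
    rw [f1, f2, hinv]
    field_simp
    ring
  rw [e3]
  have h5 : (a : ℝ) - (2 * a - 2) * (1 / P) < 0 := by
    have : (a : ℝ) * P < 2 * a - 2 := by
      have h6 : a * P < a * (2 - 2 / a) := by gcongr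
      have h7 : (a : ℝ) * (2 - 2 / a) = 2 * a - 2 := by field_simp
      linarith
    rw [sub_neg, mul_one_div, lt_div_iff₀ hP0]
    exact this
  have h8 : 0 < 1 / (8 * (a : ℝ)) := by positivity
  nlinarith

end Pool.Agent.R233
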