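import Pool.Agent.R233.Psc

set_option autoImplicit false

open MeasureTheory Topology Filter Asymptotics Set
open scoped ENNReal NNReal ContDiff

namespace Pool.Agent.R233

/-- comparison of powers -/
lemma pow_cmp {κ C : ℝ} {a b : ℕ} (hκ : 0 < κ)
    (h : ∀ᶠ s : ℝ in 𝓝[>] 0, κ * s ^ a ≤ C * s ^ b) : b ≤ a := by
  by_contra hab
  push Not at hab
  obtain ⟨d, hd⟩ := Nat.exists_eq_add_of_lt hab
  have h1 : Tendsto (fun s : ℝ => C * s ^ (d + 1)) (𝓝[>] 0) (𝓝 0) := by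
    have : Tendsto (fun s : ℝ => C * s ^ (d + 1)) (𝓝 0) (𝓝 (C * 0 ^ (d + 1))) :=
      (Continuous.tendsto (by fun_prop) 0)
    simp only [ne_eq, Nat.add_eq_zero_iff, one_ne_zero, and_false, not_false_eq_true, zero_pow,
      mul_zero] at this
    exact this.mono_left nhdsWithin_le_nhds
  have h2 : ∀ᶠ s : ℝ in 𝓝[>] 0, C * s ^ (d + 1) < κ := h1.eventually (gt_mem_nhds hκ)
  have h3 : ∀ᶠ s : ℝ in 𝓝[>] 0, (0 : ℝ) < s := self_mem_nhdsWithin
  obtain ⟨s, hs1, hs2, hs3⟩ := (h.and (h2.and h3)).exists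
  have : κ * s ^ a ≤ (C * s ^ (d + 1)) * s ^ a := by
    calc κ * s ^ a ≤ C * s ^ b := hs1
      _ = (C * s ^ (d + 1)) * s ^ a := by rw [hd]; ring
  have hp : 0 < s ^ a := by positivity
  have := le_of_mul_le_mul_right this hp
  linarith

/-- If `w(t) = t^m u(t)` with `u` continuous, `u(0) ≠ 0`, and `w = O(|t|^k)`, then `k ≤ m`. -/
lemma order_le {w u : ℂ → ℂ} {m k : ℕ} (hu : ContinuousAt u 0) (hu0 : u 0 ≠ 0)
    (hw : ∀ᶠ t in 𝓝 0, w t = t ^ m * u t) (hO : w =O[𝓝 0] fun t : ℂ => ‖t‖ ^ k) : k ≤ m := by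
  obtain ⟨C, hC⟩ := hO.bound
  have h0 : 0 < ‖u 0‖ := norm_pos_iff.2 hu0
  have h1 : ∀ᶠ t in 𝓝 (0 : ℂ), ‖u 0‖ / 2 < ‖u t‖ :=
    hu.norm.eventually (lt_mem_nhds (by linarith))
  have h2 : ∀ᶠ t in 𝓝 (0 : ℂ), ‖u 0‖ / 2 * ‖t‖ ^ m ≤ C * ‖t‖ ^ k := by
    filter_upwards [hw, hC, h1] with t ht1 ht2 ht3
    rw [ht1, norm_mul, norm_pow, norm_pow, norm_norm] at ht2
    refine le_trans ?_ ht2
    rw [mul_comm]
    gcongr
  refine pow_cmp (κ := ‖u 0‖ / 2) (C := C) (by positivity) ?_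
  have h3 : Tendsto (fun s : ℝ => (s : ℂ)) (𝓝[>] 0) (𝓝 0) := by
    have : Tendsto (fun s : ℝ => (s : ℂ)) (𝓝 0) (𝓝 ((0 : ℝ) : ℂ)) :=
      Complex.continuous_ofReal.tendsto 0
    rw [Complex.ofReal_zero] at this
    exact this.mono_left nhdsWithin_le_nhds
  filter_upwards [h3.eventually h2, self_mem_nhdsWithin] with s hs hs0
  rwa [Complex.norm_real, Real.norm_of_nonneg (le_of_lt hs0)] at hs

/-- the order of `c^d - a^d` is at most `d` times the order of `c - a` -/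
lemma order_pow {c g : ℂ → ℂ} {a : ℂ} {m d k : ℕ} (hd : 1 ≤ d) (hg : ContinuousAt g 0)
    (hg0 : g 0 ≠ 0) (hc : ContinuousAt c 0) (hc0 : c 0 = a)
    (hw : ∀ᶠ t in 𝓝 0, c t - a = t ^ m * g t)
    (hO : (fun t => c t ^ d - a ^ d) =O[𝓝 0] fun t : ℂ => ‖t‖ ^ k) : k ≤ d * m := by
  by_cases ha : a = 0
  · subst ha
    rw [mul_comm]
    refine order_le (w := fun t => c t ^ d - 0 ^ d) (u := fun t => g t ^ d) (hg.pow d)
      (pow_ne_zero _ hg0) ?_ hO
    filter_upwards [hw] with t ht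
    rw [sub_zero] at ht
    rw [ht, zero_pow (by omega), mul_pow, ← pow_mul]
    ring
  · have h1 : k ≤ m := by
      refine order_le (w := fun t => c t ^ d - a ^ d)
        (u := fun t => g t * ∑ i ∈ Finset.range d, c t ^ i * a ^ (d - 1 - i)) ?_ ?_ ?_ hO
      · refine hg.mul ?_
        exact tendsto_finsetSum _ fun i _ => (hc.pow i).mul continuousAt_const
      · refine mul_ne_zero hg0 ?_
        rw [hc0]
        have : ∑ i ∈ Finset.range d, a ^ i * a ^ (d - 1 - i) = (d : ℂ) * a ^ (d - 1) := by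
          rw [Finset.sum_congr rfl (g := fun _ => a ^ (d - 1)), Finset.sum_const,
            Finset.card_range, nsmul_eq_mul]
          intro i hi
          rw [Finset.mem_range] at hi
          rw [← pow_add]
          congr 1
          omega
        rw [this]
        refine mul_ne_zero ?_ (pow_ne_zero _ ha)
        exact_mod_cast (by omega : d ≠ 0)
      · filter_upwards [hw] with t ht
        have : c t ^ d - a ^ d = (c t - a) *
            ∑ i ∈ Finset.range d, c t ^ i * a ^ (d - 1 - i) := by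
          rw [mul_comm]
          exact (Commute.all (c t) a).geom_sum₂_mul d |>.symm
        rw [this, ht]
        ring
    calc k ≤ m := h1
      _ ≤ d * m := Nat.le_mul_of_pos_left m (by omega)

/-- The key estimate: if `ρ = ∑ |F_l|² - 1`, then the order of `ρ ∘ γ` is at most twice the order
of `F ∘ γ - F(γ(0))`. -/
lemma order_sq {ι : Type*} [Fintype ι] (G : ι → ℂ → ℂ) (hG : ∀ l, AnalyticAt ℂ (G l) 0)
    (h1 : ∑ l, ‖G l 0‖ ^ 2 = 1) {k m : ℕ} (l0 : ι) (u : ℂ → ℂ) (hu : ContinuousAt u 0)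
    (hu0 : u 0 ≠ 0) (hw : ∀ᶠ t in 𝓝 0, G l0 t - G l0 0 = t ^ m * u t)
    (hO : (fun t => ∑ l, ‖G l t‖ ^ 2 - 1) =O[𝓝 0] fun t : ℂ => ‖t‖ ^ k) : k ≤ 2 * m := by
  obtain ⟨C, hC⟩ := hO.bound
  have h0 : 0 < ‖u 0‖ := norm_pos_iff.2 hu0
  have hu1 : ∀ᶠ t in 𝓝 (0 : ℂ), ‖u 0‖ / 2 < ‖u t‖ :=
    hu.norm.eventually (lt_mem_nhds (by linarith))
  have han : ∀ᶠ t in 𝓝 (0 : ℂ), ∀ l, AnalyticAt ℂ (G l) t := by
    rw [eventually_all]
    exact fun l => (hG l).eventually_analyticAt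
  obtain ⟨R, hR, hball⟩ := Metric.eventually_nhds_iff_ball.1 (hC.and (hu1.and (hw.and han)))
  refine pow_cmp (κ := (‖u 0‖ / 2) ^ 2) (C := C) (by positivity) ?_
  have hRev : ∀ᶠ s : ℝ in 𝓝[>] 0, s < R :=
    (gt_mem_nhds hR).filter_mono nhdsWithin_le_nhds
  filter_upwards [hRev, self_mem_nhdsWithin] with s hsR hs0
  have hs0' : (0 : ℝ) < s := hs0
  have hmem : ∀ t ∈ Metric.closedBall (0 : ℂ) s, t ∈ Metric.ball (0 : ℂ) R := by
    intro t ht
    rw [mem_closedBall_zero_iff] at ht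
    rw [mem_ball_zero_iff]
    linarith
  -- the harmonic part
  set h : ℂ → ℂ := fun t => ∑ l, 2 * (starRingEnd ℂ) (G l 0) * (G l t - G l 0) with hh
  have hdiff : DiffContOnCl ℂ h (Metric.ball 0 s) := by
    apply DifferentiableOn.diffContOnCl
    rw [closure_ball _ hs0'.ne']
    intro t ht
    have := (hball t (hmem t ht)).2.2.2
    refine DifferentiableWithinAt.fun_sum fun l _ => ?_
    exact (((this l).differentiableAt.sub_const _).const_mul _).differentiableWithinAt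
  have hcont : ContinuousOn (fun t => h t) (Metric.sphere 0 |s|) := by
    rw [abs_of_pos hs0']
    have := hdiff.continuousOn
    rw [closure_ball _ hs0'.ne'] at this
    exact this.mono Metric.sphere_subset_closedBall
  have hmean : Real.circleAverage h 0 s = h 0 := by
    have hs' : |s| = s := abs_of_pos hs0'
    apply DiffContOnCl.circleAverage
    rwa [hs']
  have hh0 : h 0 = 0 := by simp [hh]
  have hint : CircleIntegrable h 0 s := hcont.circleIntegrable'
  have hre : Real.circleAverage (fun ζ => (h ζ).re) 0 s = 0 := by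
    have h2 := Complex.reCLM.circleAverage_comp_comm (c := 0) (R := s) (f := h) hint
    have h3 : (Complex.reCLM ∘ h) = fun ζ => (h ζ).re := rfl
    rw [h3] at h2
    rw [h2, hmean, hh0]
    rfl
  have hid : ∀ t, ∑ l, ‖G l t‖ ^ 2 - 1 = (h t).re + ∑ l, ‖G l t - G l 0‖ ^ 2 := by
    intro t
    rw [← h1, hh, Complex.re_sum, ← Finset.sum_sub_distrib, ← Finset.sum_add_distrib]
    refine Finset.sum_congr rfl fun l _ => ?_
    simp only [← Complex.normSq_eq_norm_sq, Complex.normSq_apply, Complex.sub_re,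
      Complex.mul_re, Complex.conj_re, Complex.conj_im, Complex.mul_im, Complex.re_ofNat,
      Complex.im_ofNat, Complex.sub_im]
    ring
  have hcontG : ∀ l, ContinuousOn (G l) (Metric.sphere 0 |s|) := by
    intro l t ht
    rw [abs_of_pos hs0'] at ht
    exact ((hball t (hmem t (Metric.sphere_subset_closedBall ht))).2.2.2 l).continuousAt.continuousWithinAt
  have hsph : ∀ t ∈ Metric.sphere (0 : ℂ) |s|, ‖t‖ = s ∧ t ∈ Metric.ball (0 : ℂ) R := by
    intro t ht
    rw [abs_of_pos hs0'] at ht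
    exact ⟨by simpa using ht, hmem t (Metric.sphere_subset_closedBall ht)⟩
  have hA : Real.circleAverage (fun t => ((‖u 0‖ / 2) ^ 2 * s ^ (2 * m)) + (h t).re) 0 s ≤
      Real.circleAverage (fun _ => C * s ^ k) 0 s := by
    apply Real.circleAverage_mono
    · refine ContinuousOn.circleIntegrable' ?_
      exact continuousOn_const.add (Complex.continuous_re.comp_continuousOn hcont)
    · exact continuousOn_const.circleIntegrable'
    · intro t ht
      obtain ⟨ht1, ht2⟩ := hsph t ht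
      obtain ⟨b1, b2, b3, b4⟩ := hball t ht2
      have e1 : ‖G l0 t - G l0 0‖ ^ 2 ≤ ∑ l, ‖G l t - G l 0‖ ^ 2 :=
        Finset.single_le_sum (f := fun l => ‖G l t - G l 0‖ ^ 2) (fun l _ => by positivity)
          (Finset.mem_univ l0)
      have e2 : (‖u 0‖ / 2) ^ 2 * s ^ (2 * m) ≤ ‖G l0 t - G l0 0‖ ^ 2 := by
        rw [b3, norm_mul, norm_pow, ht1, mul_pow, ← pow_mul, mul_comm m 2, mul_comm]
        gcongr
      have e3 : ∑ l, ‖G l t‖ ^ 2 - 1 ≤ C * s ^ k := by
        rw [norm_pow, norm_norm, ht1] at b1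
        exact (le_abs_self _).trans b1
      rw [hid t] at e3
      linarith
  rw [Real.circleAverage_const] at hA
  have e4 : Real.circleAverage (fun t => ((‖u 0‖ / 2) ^ 2 * s ^ (2 * m)) + (h t).re) 0 s =
      (‖u 0‖ / 2) ^ 2 * s ^ (2 * m) := by
    have e : (fun t => ((‖u 0‖ / 2) ^ 2 * s ^ (2 * m)) + (h t).re) =
      (fun _ : ℂ => ((‖u 0‖ / 2) ^ 2 * s ^ (2 * m))) + (fun t => (h t).re) := rfl
    rw [e, Real.circleAverage_add, hre, Real.circleAverage_const, add_zero]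
    · exact continuousOn_const.circleIntegrable'
    · exact (Complex.continuous_re.comp_continuousOn hcont).circleIntegrable'
  rw [e4] at hA
  exact hA

/-- Domains `∑ |F_l|² < 1` such that a power of every coordinate is among the `F_l` are of finite
type. -/
theorem finite_type_sum_sq {n : ℕ} {ι : Type*} [Fintype ι] (F : ι → (Fin n → ℂ) → ℂ)
    (hF : ∀ l, Differentiable ℂ (F l)) (D : ℕ)
    (hD : ∀ i : Fin n, ∃ l, ∃ d, 1 ≤ d ∧ d ≤ D ∧ ∀ x, F l x = x i ^ d)
    (p : Fin n → ℂ) (hp : ∑ l, ‖F l p‖ ^ 2 = 1) :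
    dAngeloType (fun x => ∑ l, ‖F l x‖ ^ 2 - 1) p ≤ ((2 * D : ℕ) : ℝ≥0∞) := by
  refine iSup₂_le fun γ hγ => ?_
  obtain ⟨hγa, hγ0, hγn⟩ := hγ
  apply ENNReal.div_le_of_le_mul
  have ha : AnalyticAt ℂ (fun t => γ t - p) 0 := hγa.sub analyticAt_const
  have hne : analyticOrderAt (fun t => γ t - p) 0 ≠ ⊤ := by
    intro h
    rw [analyticOrderAt_eq_top] at h
    apply hγn
    filter_upwards [h] with t ht
    exact sub_eq_zero.1 ht
  obtain ⟨g, hg, hg0, hgt⟩ := (ha.analyticOrderAt_ne_top).1 hne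
  set m : ℕ := analyticOrderNatAt (fun t => γ t - p) 0 with hm
  simp only [sub_zero] at hgt
  obtain ⟨i, hi⟩ : ∃ i, g 0 i ≠ 0 := by
    by_contra hcon
    push Not at hcon
    exact hg0 (funext hcon)
  obtain ⟨l0, d, hd1, hdD, hl0⟩ := hD i
  have hmν : (m : ℕ∞) ≤ vanishingOrder (fun t => γ t - p) := by
    refine le_iSup₂ (f := fun (m : ℕ) (_ : (fun t => γ t - p) =O[𝓝 0] fun t : ℂ => ‖t‖ ^ m) =>
      (m : ℕ∞)) m ?_
    have h1 : g =O[𝓝 0] (fun _ => (1 : ℝ)) := hg.continuousAt.isBigO_one ℝ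
    have h2 : (fun t : ℂ => t ^ m • g t) =O[𝓝 0] fun t : ℂ => ‖t‖ ^ m := by
      refine IsBigO.of_norm_left ?_
      have h3 := (isBigO_refl (fun t : ℂ => ‖t‖ ^ m) (𝓝 0)).mul h1.norm_left
      simp only [mul_one] at h3
      refine h3.congr_left fun t => ?_
      rw [norm_smul, norm_pow]
    exact h2.congr' (by filter_upwards [hgt] with t ht; exact ht.symm) EventuallyEq.rfl
  -- the coordinate `i`
  have hci : AnalyticAt ℂ (fun t => γ t i) 0 :=
    (ContinuousLinearMap.proj (R := ℂ) (φ := fun _ : Fin n => ℂ) i).analyticAt _ |>.comp hγa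
  have hgi : AnalyticAt ℂ (fun t => g t i) 0 :=
    (ContinuousLinearMap.proj (R := ℂ) (φ := fun _ : Fin n => ℂ) i).analyticAt _ |>.comp hg
  have hci' : ∀ᶠ t in 𝓝 (0 : ℂ), γ t i - p i = t ^ m * g t i := by
    filter_upwards [hgt] with t ht
    have := congrFun ht i
    simpa using this
  have hcd : ∀ k : ℕ, (fun t => γ t i ^ d - p i ^ d) =O[𝓝 0] (fun t : ℂ => ‖t‖ ^ k) →
      k ≤ d * m := fun k hk =>
    order_pow hd1 hgi.continuousAt hi hci.continuousAt (by rw [hγ0]) hci' hk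
  -- the order of `F_l0 ∘ γ`
  have hGan : ∀ l, AnalyticAt ℂ (fun t => F l (γ t)) 0 := by
    intro l
    rw [Complex.analyticAt_iff_eventually_differentiableAt] at hγa ⊢
    filter_upwards [hγa] with t ht
    exact ((hF l) (γ t)).comp t ht
  have hGl0 : AnalyticAt ℂ (fun t => F l0 (γ t) - F l0 (γ 0)) 0 := (hGan l0).sub analyticAt_const
  have hGne : analyticOrderAt (fun t => F l0 (γ t) - F l0 (γ 0)) 0 ≠ ⊤ := by
    intro h
    rw [analyticOrderAt_eq_top] at h
    have : (fun t => γ t i ^ d - p i ^ d) =O[𝓝 0] (fun t : ℂ => ‖t‖ ^ (d * m + 1)) := by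
      have h2 : (fun t => γ t i ^ d - p i ^ d) =ᶠ[𝓝 0] fun _ => (0 : ℂ) := by
        filter_upwards [h] with t ht
        rw [hl0, hl0, hγ0] at ht
        exact ht
      exact (isBigO_zero _ _).congr' h2.symm EventuallyEq.rfl
    have := hcd _ this
    omega
  obtain ⟨u, hu, hu0, hut⟩ := (hGl0.analyticOrderAt_ne_top).1 hGne
  set l : ℕ := analyticOrderNatAt (fun t => F l0 (γ t) - F l0 (γ 0)) 0 with hl
  simp only [sub_zero, smul_eq_mul] at hut
  have hlm : l ≤ d * m := by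
    apply hcd
    have h1 : u =O[𝓝 0] (fun _ => (1 : ℝ)) := hu.continuousAt.isBigO_one ℝ
    have h2 : (fun t : ℂ => t ^ l * u t) =O[𝓝 0] fun t : ℂ => ‖t‖ ^ l := by
      refine IsBigO.of_norm_left ?_
      have h3 := (isBigO_refl (fun t : ℂ => ‖t‖ ^ l) (𝓝 0)).mul h1.norm_left
      simp only [mul_one] at h3
      refine h3.congr_left fun t => ?_
      rw [norm_mul, norm_pow]
    refine h2.congr' ?_ EventuallyEq.rfl
    filter_upwards [hut] with t ht
    rw [← ht, hl0, hl0, hγ0]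
  have hmain : vanishingOrder (fun t => ∑ l, ‖F l (γ t)‖ ^ 2 - 1) ≤ ((2 * D * m : ℕ) : ℕ∞) := by
    refine iSup₂_le fun k hk => ?_
    have := order_sq (fun l t => F l (γ t)) hGan (by simp only [hγ0]; exact hp) (k := k) (m := l)
      l0 u hu.continuousAt hu0 hut hk
    have h5 : k ≤ 2 * D * m := by
      calc k ≤ 2 * l := this
        _ ≤ 2 * (d * m) := by gcongr
        _ ≤ 2 * (D * m) := by gcongr
        _ = 2 * D * m := by ring
    exact_mod_cast h5
  calc ((vanishingOrder (fun t => ∑ l, ‖F l (γ t)‖ ^ 2 - 1) : ℕ∞) : ℝ≥0∞)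
      ≤ (((2 * D * m : ℕ) : ℕ∞) : ℝ≥0∞) := by
        exact_mod_cast hmain
    _ = ((2 * D : ℕ) : ℝ≥0∞) * ((m : ℕ∞) : ℝ≥0∞) := by push_cast; ring
    _ ≤ ((2 * D : ℕ) : ℝ≥0∞) * ((vanishingOrder (fun t => γ t - p) : ℕ∞) : ℝ≥0∞) := by
        gcongr

end Pool.Agent.R233
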