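import Pool.Agent.R233.Torus

set_option autoImplicit false

open MeasureTheory Topology Filter Set Real
open scoped ENNReal NNReal ComplexConjugate

namespace Pool.Agent.R233

lemma circleAverage_swap {F : ℂ → ℂ → ℂ}
    (hF : Continuous (fun q : ℝ × ℝ => F (circleMap 0 1 q.1) (circleMap 0 1 q.2))) :
    circleAverage (fun d => circleAverage (fun c => F c d) 0 1) 0 1 =
      circleAverage (fun c => circleAverage (fun d => F c d) 0 1) 0 1 := by
  simp only [circleAverage_def]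
  rw [intervalIntegral.integral_smul, intervalIntegral.integral_smul]
  congr 2
  have h2 : (0 : ℝ) ≤ 2 * π := by positivity
  simp only [intervalIntegral.integral_of_le h2]
  set ν : Measure ℝ := volume.restrict (Ioc 0 (2 * π)) with hν
  have hint : Integrable (Function.uncurry fun (θ η : ℝ) =>
      F (circleMap 0 1 θ) (circleMap 0 1 η)) (ν.prod ν) := by
    have hK : IsCompact (Icc (0 : ℝ) (2 * π) ×ˢ Icc (0 : ℝ) (2 * π)) :=
      isCompact_Icc.prod isCompact_Icc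
    obtain ⟨M, hM⟩ := hK.exists_bound_of_continuousOn hF.continuousOn
    have : IsFiniteMeasure ν := by
      rw [hν]; infer_instance
    refine Integrable.of_bound hF.aestronglyMeasurable M ?_
    rw [hν, Measure.prod_restrict, ae_restrict_iff' (measurableSet_Ioc.prod measurableSet_Ioc)]
    refine ae_of_all _ fun q hq => ?_
    exact hM q ⟨Ioc_subset_Icc_self hq.1, Ioc_subset_Icc_self hq.2⟩
  exact (integral_integral_swap hint).symm

section

variable {m : ℕ}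

lemma two_ne_zero3 : (2 : Fin (m + 3)) ≠ 0 := by
  rw [Fin.ne_iff_vne, Fin.val_two]
  exact two_ne_zero

/-- the point with coordinates `s`, `0`, `t`, `0`, ..., `0` -/
def pt (m : ℕ) (s t : ℂ) : Fin (m + 3) → ℂ := fun i => if i = 0 then s else if i = 2 then t else 0

lemma pt_zero (s t : ℂ) : pt m s t 0 = s := by simp [pt]

lemma pt_two (s t : ℂ) : pt m s t 2 = t := by
  simp [pt, two_ne_zero3]

lemma pt_continuous : Continuous (fun q : ℂ × ℂ => pt m q.1 q.2) := by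
  unfold pt
  refine continuous_pi fun i => ?_
  by_cases h : i = 0
  · simp only [h, if_true]; fun_prop
  · by_cases h2 : i = 2
    · simp only [if_neg h, if_pos h2]; fun_prop
    · simp only [h, h2, if_false]; fun_prop

/-- double Taylor coefficient -/
noncomputable def BB (a j : ℕ) (h : (Fin (m + 3) → ℂ) → ℂ) (s t : ℂ) : ℂ :=
  circleAverage (fun d : ℂ => (d ^ j)⁻¹ *
    circleAverage (fun c : ℂ => (c ^ a)⁻¹ * h (pt m (c * s) (d * t))) 0 1) 0 1

variable {Ω : Set (Fin (m + 3) → ℂ)}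

lemma hdiff1 (ho : IsOpen Ω) {h : (Fin (m + 3) → ℂ) → ℂ}
    (hR : ∀ x ∈ Ω, ∀ y : Fin (m + 3) → ℂ, (∀ i, ‖y i‖ ≤ ‖x i‖) → y ∈ Ω)
    (hd : DifferentiableOn ℂ h Ω) {s t : ℂ} (hst : pt m s t ∈ Ω) (z : ℂ) (hz : ‖z‖ ≤ 1) :
    DifferentiableAt ℂ (fun z => h (pt m (z * s) t)) z := by
  have h1 : pt m (z * s) t ∈ Ω := by
    refine hR _ hst _ fun i => ?_
    unfold pt
    by_cases h : i = 0
    · simp only [h, if_true, norm_mul]
      calc ‖z‖ * ‖s‖ ≤ 1 * ‖s‖ := by gcongr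
        _ = ‖s‖ := one_mul _
    · simp only [h, if_false]
      exact le_rfl
  have h2 : DifferentiableAt ℂ h (pt m (z * s) t) := (hd _ h1).differentiableAt (ho.mem_nhds h1)
  have h3 : DifferentiableAt ℂ (fun z : ℂ => pt m (z * s) t) z := by
    unfold pt
    rw [differentiableAt_pi]
    intro i
    by_cases h : i = 0
    · simp only [h, if_true]; fun_prop
    · simp only [h, if_false]; fun_prop
  exact DifferentiableAt.comp z h2 h3

lemma hdiff2 (ho : IsOpen Ω) {h : (Fin (m + 3) → ℂ) → ℂ}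
    (hR : ∀ x ∈ Ω, ∀ y : Fin (m + 3) → ℂ, (∀ i, ‖y i‖ ≤ ‖x i‖) → y ∈ Ω)
    (hd : DifferentiableOn ℂ h Ω) {s t : ℂ} (hst : pt m s t ∈ Ω) (z : ℂ) (hz : ‖z‖ ≤ 1) :
    DifferentiableAt ℂ (fun z => h (pt m s (z * t))) z := by
  have h1 : pt m s (z * t) ∈ Ω := by
    refine hR _ hst _ fun i => ?_
    unfold pt
    by_cases h : i = 0
    · simp only [h, if_true]
      exact le_rfl
    · by_cases h2 : i = 2
      · simp only [h2, if_true, norm_mul]
        have h20 : (2 : Fin (m + 3)) ≠ 0 := by rw [← h2]; exact h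
        simp only [h20, if_false, norm_mul]
        calc ‖z‖ * ‖t‖ ≤ 1 * ‖t‖ := by gcongr
          _ = ‖t‖ := one_mul _
      · simp only [h, h2, if_false]
        exact le_rfl
  have h2 : DifferentiableAt ℂ h (pt m s (z * t)) := (hd _ h1).differentiableAt (ho.mem_nhds h1)
  have h3 : DifferentiableAt ℂ (fun z : ℂ => pt m s (z * t)) z := by
    unfold pt
    rw [differentiableAt_pi]
    intro i
    by_cases h : i = 0
    · simp only [h, if_true]; fun_prop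
    · by_cases h2 : i = 2
      · simp only [if_neg h, if_pos h2]; fun_prop
      · simp only [h, h2, if_false]; fun_prop
  exact DifferentiableAt.comp z h2 h3

lemma pt_mem (hR : ∀ x ∈ Ω, ∀ y : Fin (m + 3) → ℂ, (∀ i, ‖y i‖ ≤ ‖x i‖) → y ∈ Ω)
    {s t s' t' : ℂ} (hst : pt m s t ∈ Ω) (hs : ‖s'‖ ≤ ‖s‖) (ht : ‖t'‖ ≤ ‖t‖) :
    pt m s' t' ∈ Ω := by
  refine hR _ hst _ fun i => ?_
  unfold pt
  by_cases h : i = 0
  · simp only [h, if_true]; exact hs
  · by_cases h2 : i = 2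
    · simp only [h2]
      have h20 : (2 : Fin (m + 3)) ≠ 0 := by rw [← h2]; exact h
      simp only [h20, if_false, if_true]; exact ht
    · simp only [h, h2, if_false]; exact le_rfl

lemma BB_scale1 (ho : IsOpen Ω)
    (hR : ∀ x ∈ Ω, ∀ y : Fin (m + 3) → ℂ, (∀ i, ‖y i‖ ≤ ‖x i‖) → y ∈ Ω) (a j : ℕ)
    {h : (Fin (m + 3) → ℂ) → ℂ} (hd : DifferentiableOn ℂ h Ω) {s t : ℂ} (hst : pt m s t ∈ Ω)
    (σ : ℂ) (hσ : ‖σ‖ ≤ 1) : BB a j h (σ * s) t = σ ^ a * BB a j h s t := by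
  unfold BB
  have h1 : ∀ d ∈ Metric.sphere (0 : ℂ) |1|,
      (d ^ j)⁻¹ * circleAverage (fun c : ℂ => (c ^ a)⁻¹ * h (pt m (c * (σ * s)) (d * t))) 0 1 =
      σ ^ a • ((d ^ j)⁻¹ * circleAverage (fun c : ℂ => (c ^ a)⁻¹ * h (pt m (c * s) (d * t))) 0 1) := by
    intro d hd'
    have hdn : ‖d‖ = 1 := by simpa using hd'
    have hst' : pt m s (d * t) ∈ Ω := pt_mem hR hst le_rfl (by rw [norm_mul, hdn, one_mul])
    have h2 := coeff_scale (g := fun z => h (pt m (z * s) (d * t)))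
      (fun z hz => hdiff1 ho hR hd hst' z hz) a σ hσ
    have h3 : (fun c : ℂ => (c ^ a)⁻¹ * h (pt m (c * σ * s) (d * t))) =
      fun c : ℂ => (c ^ a)⁻¹ * h (pt m (c * (σ * s)) (d * t)) := by
      funext c
      rw [mul_assoc]
    rw [h3] at h2
    rw [h2, smul_eq_mul]
    ring
  rw [circleAverage_congr_sphere h1, circleAverage_fun_smul, smul_eq_mul]

lemma cont_torus (ho : IsOpen Ω)
    (hR : ∀ x ∈ Ω, ∀ y : Fin (m + 3) → ℂ, (∀ i, ‖y i‖ ≤ ‖x i‖) → y ∈ Ω) (a j : ℕ)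
    {h : (Fin (m + 3) → ℂ) → ℂ} (hd : DifferentiableOn ℂ h Ω) {s t : ℂ} (hst : pt m s t ∈ Ω) :
    Continuous (fun q : ℝ × ℝ => ((circleMap 0 1 q.2) ^ j)⁻¹ * (((circleMap 0 1 q.1) ^ a)⁻¹ *
      h (pt m (circleMap 0 1 q.1 * s) (circleMap 0 1 q.2 * t)))) := by
  have hne : ∀ θ : ℝ, circleMap 0 1 θ ≠ 0 := by
    intro θ h0
    have := norm_circleMap_one θ
    rw [h0, norm_zero] at this
    exact zero_ne_one this
  have c1 : Continuous (fun q : ℝ × ℝ => circleMap 0 1 q.1) :=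
    (continuous_circleMap 0 1).comp continuous_fst
  have c2 : Continuous (fun q : ℝ × ℝ => circleMap 0 1 q.2) :=
    (continuous_circleMap 0 1).comp continuous_snd
  have c3 : Continuous (fun q : ℝ × ℝ =>
      h (pt m (circleMap 0 1 q.1 * s) (circleMap 0 1 q.2 * t))) := by
    refine hd.continuousOn.comp_continuous ?_ ?_
    · exact pt_continuous.comp ((c1.mul continuous_const).prodMk (c2.mul continuous_const))
    · intro q
      refine pt_mem hR hst ?_ ?_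
      · rw [norm_mul, norm_circleMap_one, one_mul]
      · rw [norm_mul, norm_circleMap_one, one_mul]
  exact ((c2.pow j).inv₀ fun q => pow_ne_zero _ (hne _)).mul
    (((c1.pow a).inv₀ fun q => pow_ne_zero _ (hne _)).mul c3)

lemma BB_scale2 (ho : IsOpen Ω)
    (hR : ∀ x ∈ Ω, ∀ y : Fin (m + 3) → ℂ, (∀ i, ‖y i‖ ≤ ‖x i‖) → y ∈ Ω) (a j : ℕ)
    {h : (Fin (m + 3) → ℂ) → ℂ} (hd : DifferentiableOn ℂ h Ω) {s t : ℂ} (hst : pt m s t ∈ Ω)
    (τ : ℂ) (hτ : ‖τ‖ ≤ 1) : BB a j h s (τ * t) = τ ^ j * BB a j h s t := by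
  have hswap : ∀ t', pt m s t' ∈ Ω → BB a j h s t' = circleAverage (fun c : ℂ => (c ^ a)⁻¹ *
      circleAverage (fun d : ℂ => (d ^ j)⁻¹ * h (pt m (c * s) (d * t'))) 0 1) 0 1 := by
    intro t' ht'
    have h1 := circleAverage_swap (F := fun c d => (d ^ j)⁻¹ * ((c ^ a)⁻¹ *
      h (pt m (c * s) (d * t')))) (cont_torus ho hR a j hd ht')
    unfold BB
    have e1 : (fun d : ℂ => (d ^ j)⁻¹ *
        circleAverage (fun c : ℂ => (c ^ a)⁻¹ * h (pt m (c * s) (d * t'))) 0 1) =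
        fun d : ℂ => circleAverage (fun c : ℂ => (d ^ j)⁻¹ * ((c ^ a)⁻¹ *
          h (pt m (c * s) (d * t')))) 0 1 := by
      funext d
      have := circleAverage_fun_smul (𝕜 := ℂ) (a := (d ^ j)⁻¹) (c := 0) (R := 1)
        (f := fun c : ℂ => (c ^ a)⁻¹ * h (pt m (c * s) (d * t')))
      simp only [smul_eq_mul] at this
      rw [this]
    have e2 : (fun c : ℂ => (c ^ a)⁻¹ *
        circleAverage (fun d : ℂ => (d ^ j)⁻¹ * h (pt m (c * s) (d * t'))) 0 1) =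
        fun c : ℂ => circleAverage (fun d : ℂ => (d ^ j)⁻¹ * ((c ^ a)⁻¹ *
          h (pt m (c * s) (d * t')))) 0 1 := by
      funext c
      have := circleAverage_fun_smul (𝕜 := ℂ) (a := (c ^ a)⁻¹) (c := 0) (R := 1)
        (f := fun d : ℂ => (d ^ j)⁻¹ * h (pt m (c * s) (d * t')))
      simp only [smul_eq_mul] at this
      rw [← this]
      congr 1
      funext d
      ring
    rw [e1, e2]
    exact h1
  have ht2 : pt m s (τ * t) ∈ Ω := pt_mem hR hst le_rfl (by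
    rw [norm_mul]
    calc ‖τ‖ * ‖t‖ ≤ 1 * ‖t‖ := by gcongr
      _ = ‖t‖ := one_mul _)
  rw [hswap _ ht2, hswap _ hst]
  have h1 : ∀ c ∈ Metric.sphere (0 : ℂ) |1|,
      (c ^ a)⁻¹ * circleAverage (fun d : ℂ => (d ^ j)⁻¹ * h (pt m (c * s) (d * (τ * t)))) 0 1 =
      τ ^ j • ((c ^ a)⁻¹ * circleAverage (fun d : ℂ => (d ^ j)⁻¹ * h (pt m (c * s) (d * t))) 0 1) := by
    intro c hc'
    have hcn : ‖c‖ = 1 := by simpa using hc'
    have hst' : pt m (c * s) t ∈ Ω := pt_mem hR hst (by rw [norm_mul, hcn, one_mul]) le_rfl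
    have h2 := coeff_scale (g := fun z => h (pt m (c * s) (z * t)))
      (fun z hz => hdiff2 ho hR hd hst' z hz) j τ hτ
    have h3 : (fun d : ℂ => (d ^ j)⁻¹ * h (pt m (c * s) (d * τ * t))) =
      fun d : ℂ => (d ^ j)⁻¹ * h (pt m (c * s) (d * (τ * t))) := by
      funext d
      rw [mul_assoc]
    rw [h3] at h2
    rw [h2, smul_eq_mul]
    ring
  rw [circleAverage_congr_sphere h1, circleAverage_fun_smul, smul_eq_mul]

lemma BB_const (ho : IsOpen Ω) (h0 : (0 : Fin (m + 3) → ℂ) ∈ Ω)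
    (hR : ∀ x ∈ Ω, ∀ y : Fin (m + 3) → ℂ, (∀ i, ‖y i‖ ≤ ‖x i‖) → y ∈ Ω) (a j : ℕ)
    (ha : 1 ≤ a) (hj : 1 ≤ j)
    {h : (Fin (m + 3) → ℂ) → ℂ} (hd : DifferentiableOn ℂ h Ω) :
    ∃ C : ℂ, ∀ s t : ℂ, pt m s t ∈ Ω → BB a j h s t = C * (s ^ a * t ^ j) := by
  -- a reference point
  obtain ⟨ε, hε, hεΩ⟩ : ∃ ε : ℝ, 0 < ε ∧ pt m ε ε ∈ Ω := by
    have hc : ContinuousAt (fun e : ℝ => pt m (e : ℂ) (e : ℂ)) 0 := by
      have : Continuous (fun e : ℝ => pt m (e : ℂ) (e : ℂ)) :=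
        pt_continuous.comp (by fun_prop : Continuous fun e : ℝ => ((e : ℂ), (e : ℂ)))
      exact this.continuousAt
    have hz : pt m ((0 : ℝ) : ℂ) ((0 : ℝ) : ℂ) = 0 := by
      funext i
      simp [pt]
    have h1 : ∀ᶠ e : ℝ in 𝓝 (0 : ℝ), pt m (e : ℂ) (e : ℂ) ∈ Ω := by
      apply hc.eventually_mem
      rw [hz]
      exact ho.mem_nhds h0
    have h2 : ∀ᶠ e : ℝ in 𝓝[>] (0 : ℝ), pt m (e : ℂ) (e : ℂ) ∈ Ω ∧ 0 < e :=
      (h1.filter_mono nhdsWithin_le_nhds).and self_mem_nhdsWithin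
    obtain ⟨e, he1, he2⟩ := h2.exists
    exact ⟨e, he2, he1⟩
  have hεc : (ε : ℂ) ≠ 0 := by exact_mod_cast hε.ne'
  refine ⟨BB a j h ε ε / (ε ^ a * ε ^ j), fun s t hst => ?_⟩
  by_cases hs : s = 0
  · subst hs
    have := BB_scale1 ho hR a j hd hst 0 (by simp)
    rw [mul_zero] at this
    rw [this, zero_pow (by omega)]
    simp
  by_cases ht : t = 0
  · subst ht
    have := BB_scale2 ho hR a j hd hst 0 (by simp)
    rw [mul_zero] at this
    rw [this, zero_pow (by omega)]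
    simp
  -- common smaller point
  set μ0 : ℝ := min ‖s‖ ε with hμ0
  set μ2 : ℝ := min ‖t‖ ε with hμ2
  have hs0 : 0 < ‖s‖ := norm_pos_iff.2 hs
  have ht0 : 0 < ‖t‖ := norm_pos_iff.2 ht
  have hμ0p : 0 < μ0 := lt_min hs0 hε
  have hμ2p : 0 < μ2 := lt_min ht0 hε
  have both : ∀ s' t' : ℂ, s' ≠ 0 → t' ≠ 0 → pt m s' t' ∈ Ω → μ0 ≤ ‖s'‖ → μ2 ≤ ‖t'‖ →
      BB a j h μ0 μ2 = (μ0 / s') ^ a * ((μ2 / t') ^ j * BB a j h s' t') := by
    intro s' t' hs' ht' hst' h1 h2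
    have hs'0 : 0 < ‖s'‖ := norm_pos_iff.2 hs'
    have ht'0 : 0 < ‖t'‖ := norm_pos_iff.2 ht'
    have n1 : ‖(μ0 : ℂ) / s'‖ ≤ 1 := by
      rw [norm_div, Complex.norm_real, Real.norm_of_nonneg hμ0p.le, div_le_one hs'0]
      exact h1
    have n2 : ‖(μ2 : ℂ) / t'‖ ≤ 1 := by
      rw [norm_div, Complex.norm_real, Real.norm_of_nonneg hμ2p.le, div_le_one ht'0]
      exact h2
    have hm : pt m s' ((μ2 : ℂ) / t' * t') ∈ Ω := pt_mem hR hst' le_rfl (by
      rw [norm_mul]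
      calc ‖(μ2 : ℂ) / t'‖ * ‖t'‖ ≤ 1 * ‖t'‖ := by gcongr
        _ = ‖t'‖ := one_mul _)
    have e1 := BB_scale1 ho hR a j hd hm ((μ0 : ℂ) / s') n1
    have e2 := BB_scale2 ho hR a j hd hst' ((μ2 : ℂ) / t') n2
    rw [e2] at e1
    rw [div_mul_cancel₀ _ hs', div_mul_cancel₀ _ ht'] at e1
    exact e1
  have b1 := both s t hs ht hst (min_le_left _ _) (min_le_left _ _)
  have b2 := both ε ε hεc hεc hεΩ (by
    rw [Complex.norm_real, Real.norm_of_nonneg hε.le]; exact min_le_right _ _) (by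
    rw [Complex.norm_real, Real.norm_of_nonneg hε.le]; exact min_le_right _ _)
  rw [b1] at b2
  have m0 : (μ0 : ℂ) ≠ 0 := by exact_mod_cast hμ0p.ne'
  have m2 : (μ2 : ℂ) ≠ 0 := by exact_mod_cast hμ2p.ne'
  rw [div_pow, div_pow, div_pow, div_pow] at b2
  field_simp at b2 ⊢
  linear_combination b2

/-- **Projection on a monomial.** -/
theorem proj_core (ho : IsOpen Ω) (h0 : (0 : Fin (m + 3) → ℂ) ∈ Ω)
    (hR : ∀ x ∈ Ω, ∀ y : Fin (m + 3) → ℂ, (∀ i, ‖y i‖ ≤ ‖x i‖) → y ∈ Ω) (a j : ℕ)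
    (ha : 1 ≤ a) (hj : 1 ≤ j)
    {h : (Fin (m + 3) → ℂ) → ℂ} (hd : DifferentiableOn ℂ h Ω) (hi : IntegrableOn h Ω) :
    ∃ C : ℂ, ∀ u : (Fin (m + 3) → ℂ) → ℂ, Measurable u → (∃ M : ℝ, ∀ x ∈ Ω, ‖u x‖ ≤ M) →
      (∀ (c : ℂ) (S : Finset (Fin (m + 3))), ‖c‖ = 1 → 0 ∉ S → 2 ∉ S → ∀ x,
        u (mulS S c x) = u x) →
      (∀ c : ℂ, ‖c‖ = 1 → ∀ x, u (mulS {0} c x) = c ^ a * u x) →
      (∀ c : ℂ, ‖c‖ = 1 → ∀ x, u (mulS {2} c x) = c ^ j * u x) →
      ∫ x in Ω, u x * conj (h x) = ∫ x in Ω, u x * conj (C * (x 0 ^ a * x 2 ^ j)) := by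
  obtain ⟨C, hC⟩ := BB_const ho h0 hR a j ha hj hd
  refine ⟨C, fun u hu ⟨M, hM⟩ hr1 hr2 hr3 => ?_⟩
  have h20 : (2 : Fin (m + 3)) ≠ 0 := two_ne_zero3
  have hinv : ∀ S : Finset (Fin (m + 3)), ∀ c : ℂ, ‖c‖ ≤ 1 → ∀ x ∈ Ω, mulS S c x ∈ Ω := by
    intro S c hc x hx
    refine hR x hx _ fun i => ?_
    unfold mulS
    by_cases h : i ∈ S
    · simp only [h, if_true, norm_mul]
      calc ‖c‖ * ‖x i‖ ≤ 1 * ‖x i‖ := by gcongr
        _ = ‖x i‖ := one_mul _
    · simp only [h, if_false]; exact le_rfl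
  have hΩ : MeasurableSet Ω := ho.measurableSet
  set B : Finset (Fin (m + 3)) := Finset.univ.filter (fun i => i ≠ 0 ∧ i ≠ 2) with hB
  have hB0 : (0 : Fin (m + 3)) ∉ B := by simp [hB]
  have hB2 : (2 : Fin (m + 3)) ∉ B := by simp [hB]
  have s1 := avg_int B 0 hΩ (fun c hc => hinv B c hc.le) hi hu hM
    (fun c hc x => by rw [pow_zero, one_mul]; exact hr1 c B hc hB0 hB2 x)
  have s2 := avg_int {0} a hΩ (fun c hc => hinv _ c hc.le) s1.1 hu hM hr2
  have s3 := avg_int {2} j hΩ (fun c hc => hinv _ c hc.le) s2.1 hu hM hr3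
  rw [s1.2, s2.2, s3.2]
  apply setIntegral_congr_fun hΩ
  intro x hx
  -- compute the triple average
  have e1 : ∀ y ∈ Ω, avg B 0 h y = h (mulS B 0 y) := by
    intro y hy
    unfold avg
    have hg : DiffContOnCl ℂ (fun c : ℂ => h (mulS B c y)) (Metric.ball 0 |1|) := by
      rw [abs_one]
      apply DifferentiableOn.diffContOnCl
      rw [closure_ball _ one_ne_zero]
      intro z hz
      have hz' : ‖z‖ ≤ 1 := by simpa using hz
      have h1 := hinv B z hz' y hy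
      have h2 : DifferentiableAt ℂ h (mulS B z y) := (hd _ h1).differentiableAt (ho.mem_nhds h1)
      have h3 : DifferentiableAt ℂ (fun z : ℂ => mulS B z y) z := by
        unfold mulS
        rw [differentiableAt_pi]
        intro i
        by_cases h : i ∈ B
        · simp only [h, if_true]; fun_prop
        · simp only [h, if_false]; fun_prop
      exact (DifferentiableAt.comp z h2 h3).differentiableWithinAt
    have := hg.circleAverage
    simp only [pow_zero, inv_one, one_mul]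
    exact this
  have e2 : ∀ y ∈ Ω, avg {0} a (avg B 0 h) y =
      circleAverage (fun c : ℂ => (c ^ a)⁻¹ * h (pt m (c * y 0) (y 2))) 0 1 := by
    intro y hy
    unfold avg
    apply circleAverage_congr_sphere
    intro c hc
    have hcn : ‖c‖ = 1 := by simpa using hc
    have h1 := e1 _ (hinv {0} c hcn.le y hy)
    unfold avg at h1
    simp only [h1]
    congr 2
    funext i
    unfold mulS pt
    by_cases h : i = 0
    · subst h; simp [hB]
    · by_cases h2 : i = 2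
      · subst h2; simp [hB, h20]
      · simp [hB, h, h2]
  have e3 : avg {2} j (avg {0} a (avg B 0 h)) x = BB a j h (x 0) (x 2) := by
    unfold BB
    rw [avg]
    apply circleAverage_congr_sphere
    intro d hd'
    have hdn : ‖d‖ = 1 := by simpa using hd'
    simp only
    rw [e2 _ (hinv {2} d hdn.le x hx)]
    have f1 : mulS {2} d x 0 = x 0 := by
      unfold mulS; simp [h20.symm]
    have f2 : mulS {2} d x 2 = d * x 2 := by
      unfold mulS; simp
    rw [f1, f2]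
  have hpt : pt m (x 0) (x 2) ∈ Ω := by
    refine hR x hx _ fun i => ?_
    unfold pt
    by_cases h : i = 0
    · simp [h]
    · by_cases h2 : i = 2
      · subst h2; simp [h20]
      · simp [h, h2]
  simp only
  rw [e3, hC _ _ hpt]

end

end Pool.Agent.R233
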