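import Pool.Agent.R233.BergInt
import Pool.Agent.R233.FinType
import Pool.Agent.R233.Proj

set_option autoImplicit false

open MeasureTheory Topology Filter Set Real
open scoped ENNReal NNReal ComplexConjugate ContDiff

namespace Pool.Agent.R233

/-- exponents -/
def ex (a m : ℕ) : Fin (m + 3) → ℕ := Fin.cons (4 * a) (Fin.cons 2 fun _ => 1)

/-- the holomorphic functions whose squares are added up -/
def FF (a m : ℕ) : Fin (m + 3) ⊕ Unit → (Fin (m + 3) → ℂ) → ℂ :=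
  Sum.elim (fun i x => x i ^ ex a m i) (fun _ x => x 0 ^ a * x 1)

/-- the function of the first two coordinates -/
noncomputable def psi (a : ℕ) (z w : ℂ) : ℝ := ‖z‖ ^ (8 * a) + ‖w‖ ^ 4 + ‖z‖ ^ (2 * a) * ‖w‖ ^ 2

/-- `Phi = ∑ |F_l|²` -/
noncomputable def Phi (a m : ℕ) (x : Fin (m + 3) → ℂ) : ℝ := ∑ l, ‖FF a m l x‖ ^ 2

/-- the domain -/
def Dom (a m : ℕ) : Set (Fin (m + 3) → ℂ) := {x | Phi a m x < 1}

lemma Phi_eq (a m : ℕ) (x : Fin (m + 3) → ℂ) :
    Phi a m x = psi a (x 0) (x 1) + ∑ i : Fin (m + 1), ‖x i.succ.succ‖ ^ 2 := by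
  unfold Phi FF psi
  rw [Fintype.sum_sum_type, Fin.sum_univ_succ, Fin.sum_univ_succ]
  simp only [Sum.elim_inl, Sum.elim_inr, ex, Fin.cons_zero, Fin.cons_succ, pow_one,
    Finset.univ_unique, Finset.sum_const, Finset.card_singleton, one_smul, norm_pow, norm_mul,
    mul_pow]
  have h1 : (0 : Fin (m + 2)).succ = (1 : Fin (m + 3)) := rfl
  rw [h1]
  ring

lemma FF_diff (a m : ℕ) (l) : Differentiable ℂ (FF a m l) := by
  rcases l with i | _
  · have : FF a m (Sum.inl i) = fun x => x i ^ ex a m i := rfl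
    rw [this]; fun_prop
  · have : FF a m (Sum.inr ()) = fun x => x 0 ^ a * x 1 := rfl
    rw [this]; fun_prop

lemma FF_contDiff (a m : ℕ) (l) : ContDiff ℂ ∞ (FF a m l) := by
  rcases l with i | _
  · have : FF a m (Sum.inl i) = fun x => x i ^ ex a m i := rfl
    rw [this]; fun_prop
  · have : FF a m (Sum.inr ()) = fun x => x 0 ^ a * x 1 := rfl
    rw [this]; fun_prop

lemma Phi_contDiff (a m : ℕ) : ContDiff ℝ ∞ (Phi a m) := by
  unfold Phi
  refine ContDiff.sum fun l _ => ?_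
  have h1 : ContDiff ℝ ∞ (FF a m l) := (FF_contDiff a m l).restrict_scalars ℝ
  exact h1.norm_sq ℝ

lemma Phi_continuous (a m : ℕ) : Continuous (Phi a m) := (Phi_contDiff a m).continuous

lemma Phi_mono (a m : ℕ) {x y : Fin (m + 3) → ℂ} (h : ∀ i, ‖y i‖ ≤ ‖x i‖) :
    Phi a m y ≤ Phi a m x := by
  rw [Phi_eq, Phi_eq]
  unfold psi
  have h0 := h 0
  have h1 := h 1
  gcongr with i _
  exact h _

lemma Dom_complete (a m : ℕ) : ∀ x ∈ Dom a m, ∀ y : Fin (m + 3) → ℂ, (∀ i, ‖y i‖ ≤ ‖x i‖) →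
    y ∈ Dom a m := fun _ hx _ hy => (Phi_mono a m hy).trans_lt hx

lemma Dom_open (a m : ℕ) : IsOpen (Dom a m) := isOpen_lt (Phi_continuous a m) continuous_const

lemma Phi_zero (a m : ℕ) (ha : 1 ≤ a) : Phi a m 0 = 0 := by
  rw [Phi_eq]
  unfold psi
  simp
  omega

lemma zero_mem_Dom (a m : ℕ) (ha : 1 ≤ a) : (0 : Fin (m + 3) → ℂ) ∈ Dom a m := by
  show Phi a m 0 < 1
  rw [Phi_zero a m ha]
  exact one_pos

lemma Dom_connected (a m : ℕ) (ha : 1 ≤ a) : IsConnected (Dom a m) := by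
  have h1 : StarConvex ℝ 0 (Dom a m) := by
    rw [starConvex_zero_iff]
    intro x hx t ht0 ht1
    refine Dom_complete a m x hx _ fun i => ?_
    rw [Pi.smul_apply, norm_smul, Real.norm_of_nonneg ht0]
    calc t * ‖x i‖ ≤ 1 * ‖x i‖ := by gcongr
      _ = ‖x i‖ := one_mul _
  exact (h1.isPathConnected (zero_mem_Dom a m ha)).isConnected

lemma norm_le_of_mem (a m : ℕ) (ha : 1 ≤ a) {x : Fin (m + 3) → ℂ} (hx : Phi a m x ≤ 1)
    (i : Fin (m + 3)) : ‖x i‖ ≤ 1 := by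
  have h1 : ‖FF a m (Sum.inl i) x‖ ^ 2 ≤ Phi a m x :=
    Finset.single_le_sum (f := fun l => ‖FF a m l x‖ ^ 2) (fun l _ => by positivity)
      (Finset.mem_univ _)
  have h2 : ‖FF a m (Sum.inl i) x‖ ^ 2 = (‖x i‖ ^ ex a m i) ^ 2 := by
    have : FF a m (Sum.inl i) x = x i ^ ex a m i := rfl
    rw [this, norm_pow]
  rw [h2] at h1
  by_contra hcon
  push Not at hcon
  have hex : ex a m i ≠ 0 := by
    unfold ex
    refine Fin.cases ?_ (fun i => ?_) i
    · simp; omega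
    · refine Fin.cases ?_ (fun i => ?_) i
      · simp
      · simp
  have h3 : 1 < ‖x i‖ ^ ex a m i := one_lt_pow₀ hcon hex
  nlinarith

lemma Dom_bounded (a m : ℕ) (ha : 1 ≤ a) : Bornology.IsBounded (Dom a m) := by
  apply (Metric.isBounded_closedBall (x := (0 : Fin (m + 3) → ℂ)) (r := 1)).subset
  intro x hx
  rw [mem_closedBall_zero_iff, pi_norm_le_iff_of_nonneg zero_le_one]
  exact norm_le_of_mem a m ha (le_of_lt hx)

lemma Dom_psc (a m : ℕ) (ha : 1 ≤ a) : IsPseudoconvex (Dom a m) :=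
  psc_of_submean (Phi a m) (Phi_continuous a m)
    (fun x b => submean_sq (FF a m) (FF_diff a m) x b) (Dom_bounded a m ha)

lemma frontier_Dom (a m : ℕ) {x : Fin (m + 3) → ℂ} (hx : x ∈ frontier (Dom a m)) :
    Phi a m x = 1 := by
  have h1 := frontier_lt_subset_eq (Phi_continuous a m) (continuous_const (y := (1 : ℝ))) hx
  exact h1

lemma Phi_smul (a m : ℕ) (x : Fin (m + 3) → ℂ) (t : ℝ) :
    Phi a m (t • x) = t ^ (8 * a) * ‖x 0‖ ^ (8 * a) + t ^ 4 * ‖x 1‖ ^ 4 +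
      t ^ (2 * a + 2) * (‖x 0‖ ^ (2 * a) * ‖x 1‖ ^ 2) +
      t ^ 2 * ∑ i : Fin (m + 1), ‖x i.succ.succ‖ ^ 2 := by
  rw [Phi_eq]
  unfold psi
  simp only [Pi.smul_apply, norm_smul, mul_pow, Real.norm_eq_abs]
  have e1 : |t| ^ (8 * a) = t ^ (8 * a) := by
    rw [show 8 * a = 2 * (4 * a) by ring, pow_mul, sq_abs, ← pow_mul]
  have e2 : |t| ^ 4 = t ^ 4 := by
    rw [show 4 = 2 * 2 by rfl, pow_mul, sq_abs, ← pow_mul]
  have e3 : |t| ^ (2 * a) = t ^ (2 * a) := by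
    rw [pow_mul, sq_abs, ← pow_mul]
  rw [e1, e2, e3, sq_abs, ← Finset.mul_sum]
  ring

lemma fderiv_ne (a m : ℕ) (ha : 1 ≤ a) {x : Fin (m + 3) → ℂ} (hx : Phi a m x = 1) :
    fderiv ℝ (Phi a m) x ≠ 0 := by
  intro h0
  have hd : HasFDerivAt (Phi a m) (fderiv ℝ (Phi a m) x) x :=
    ((Phi_contDiff a m).differentiable (by simp) x).hasFDerivAt
  have h1 : HasDerivAt (fun t : ℝ => t • x) x 1 := by
    simpa using (hasDerivAt_id (1 : ℝ)).smul_const x
  have h2 : HasDerivAt (fun t : ℝ => Phi a m (t • x)) (fderiv ℝ (Phi a m) x x) 1 := by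
    have hd' : HasFDerivAt (Phi a m) (fderiv ℝ (Phi a m) x) ((1 : ℝ) • x) := by
      rw [one_smul]; exact hd
    exact hd'.comp_hasDerivAt 1 h1
  rw [h0] at h2
  simp only [ContinuousLinearMap.zero_apply, Phi_smul] at h2
  set A := ‖x 0‖ ^ (8 * a)
  set B := ‖x 1‖ ^ 4
  set C := ‖x 0‖ ^ (2 * a) * ‖x 1‖ ^ 2
  set D := ∑ i : Fin (m + 1), ‖x i.succ.succ‖ ^ 2
  have hA : 0 ≤ A := by positivity
  have hB : 0 ≤ B := by positivity
  have hC : 0 ≤ C := by positivity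
  have hD : 0 ≤ D := Finset.sum_nonneg fun i _ => by positivity
  have hsum : A + B + C + D = 1 := by
    rw [← hx, Phi_eq]; rfl
  have h3 : HasDerivAt (fun t : ℝ => t ^ (8 * a) * A + t ^ 4 * B + t ^ (2 * a + 2) * C + t ^ 2 * D)
      ((8 * a : ℕ) * 1 ^ (8 * a - 1) * A + (4 : ℕ) * 1 ^ (4 - 1) * B +
        (2 * a + 2 : ℕ) * 1 ^ (2 * a + 2 - 1) * C + (2 : ℕ) * 1 ^ (2 - 1) * D) 1 :=
    (((hasDerivAt_pow (8 * a) (1 : ℝ)).mul_const A).add ((hasDerivAt_pow 4 (1 : ℝ)).mul_const B)).add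
      ((hasDerivAt_pow (2 * a + 2) (1 : ℝ)).mul_const C) |>.add
      ((hasDerivAt_pow 2 (1 : ℝ)).mul_const D)
  have h4 := h2.unique h3
  simp only [one_pow, mul_one] at h4
  push_cast at h4
  have ha' : (1 : ℝ) ≤ a := by exact_mod_cast ha
  nlinarith

lemma Dom_finite (a m : ℕ) (ha : 1 ≤ a) : IsFiniteTypeDomain (Dom a m) := by
  refine ⟨Dom_open a m, Dom_connected a m ha, Dom_bounded a m ha, Dom_psc a m ha,
    fun x => Phi a m x - 1, ⟨?_, ?_, ?_⟩, ?_⟩
  · exact (Phi_contDiff a m).sub contDiff_const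
  · ext x
    simp only [Dom, mem_ofPred_eq]
    constructor
    · intro h; linarith
    · intro h; linarith
  · intro x hx
    rw [fderiv_sub_const]
    exact fderiv_ne a m ha (frontier_Dom a m hx)
  · intro p hp
    have h1 := finite_type_sum_sq (FF a m) (FF_diff a m) (4 * a) (fun i =>
      ⟨Sum.inl i, ex a m i, ?_, ?_, fun x => rfl⟩) p (frontier_Dom a m hp)
    · exact h1.trans_lt (by exact_mod_cast ENNReal.natCast_lt_top _)
    · unfold ex
      refine Fin.cases ?_ (fun i => ?_) i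
      · simp; omega
      · refine Fin.cases ?_ (fun i => ?_) i
        · simp
        · simp
    · unfold ex
      refine Fin.cases ?_ (fun i => ?_) i
      · simp
      · refine Fin.cases ?_ (fun i => ?_) i
        · simp; omega
        · simp; omega

end Pool.Agent.R233
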