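import Pool.Agent.R233.BergCore

set_option autoImplicit false

open MeasureTheory Topology Filter Set Real
open scoped ENNReal NNReal ComplexConjugate

namespace Pool.Agent.R233

/-- `g` belongs to the Bergman space `A²(Ω)`: it is holomorphic on `Ω` and square integrable. -/
def MemBergman {n : ℕ} (Ω : Set (Fin n → ℂ)) (g : (Fin n → ℂ) → ℂ) : Prop :=
  DifferentiableOn ℂ g Ω ∧ MemLp g 2 (volume.restrict Ω)

/-- `g` is the Bergman projection of the function `f ∈ L²(Ω)`: `g ∈ A²(Ω)` and `f - g` is orthogonal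
to `A²(Ω)` in `L²(Ω)`. -/
def IsBergmanProjection {n : ℕ} (Ω : Set (Fin n → ℂ)) (f g : (Fin n → ℂ) → ℂ) : Prop :=
  MemBergman Ω g ∧ ∀ h, MemBergman Ω h → ∫ x in Ω, (f x - g x) * conj (h x) = 0

/-- The Bergman projection of `Ω` is bounded on `L^p(Ω)`: there is a constant `C` such that the
Bergman projection `g` of every `f ∈ L²(Ω) ∩ L^p(Ω)` satisfies `‖g‖_p ≤ C ‖f‖_p`. -/
def BergmanProjectionBounded {n : ℕ} (Ω : Set (Fin n → ℂ)) (p : ℝ) : Prop :=
  ∃ C : ℝ≥0, ∀ f g : (Fin n → ℂ) → ℂ, MemLp f 2 (volume.restrict Ω) →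
    MemLp f (ENNReal.ofReal p) (volume.restrict Ω) → IsBergmanProjection Ω f g →
    eLpNorm g (ENNReal.ofReal p) (volume.restrict Ω) ≤
      C * eLpNorm f (ENNReal.ofReal p) (volume.restrict Ω)

section

variable (a m j : ℕ)

/-- the monomial -/
def F0 (x : Fin (m + 3) → ℂ) : ℂ := x 0 ^ a * x 2 ^ j

lemma F0_diff : Differentiable ℂ (F0 a m j) := by unfold F0; fun_prop

lemma F0_cont : Continuous (F0 a m j) := (F0_diff a m j).continuous

lemma F0_norm_le (ha : 1 ≤ a) {x : Fin (m + 3) → ℂ} (hx : x ∈ Dom a m) : ‖F0 a m j x‖ ≤ 1 := by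
  have h := norm_le_of_mem a m ha (le_of_lt hx)
  unfold F0
  rw [norm_mul, norm_pow, norm_pow]
  have h1 : ‖x 0‖ ^ a ≤ 1 := pow_le_one₀ (norm_nonneg _) (h 0)
  have h2 : ‖x 2‖ ^ j ≤ 1 := pow_le_one₀ (norm_nonneg _) (h 2)
  calc ‖x 0‖ ^ a * ‖x 2‖ ^ j ≤ 1 * 1 := by gcongr
    _ = 1 := one_mul 1

lemma Dom_finMeas (ha : 1 ≤ a) : IsFiniteMeasure (volume.restrict (Dom a m)) :=
  ⟨by rw [Measure.restrict_apply_univ]; exact (Dom_bounded a m ha).measure_lt_top⟩

lemma AA_ne_top (ha : 1 ≤ a) {s : ℝ} (hs : 0 ≤ s) : AA a m j s ≠ ∞ := by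
  have h1 : AA a m j s ≤ ∫⁻ _ in Dom a m, 1 := by
    refine setLIntegral_mono measurable_const fun x hx => ?_
    have h3 : ‖F0 a m j x‖ₑ ≤ 1 := by
      rw [← ofReal_norm]
      exact ENNReal.ofReal_le_one.2 (F0_norm_le a m j ha hx)
    exact ENNReal.rpow_le_one h3 hs
  refine ne_top_of_le_ne_top ?_ h1
  rw [setLIntegral_one]
  exact (Dom_bounded a m ha).measure_lt_top.ne

lemma AA_ne_zero (ha : 1 ≤ a) (hj : 2 ≤ j) {s : ℝ} (hs : 0 < s) : AA a m j s ≠ 0 := by
  rw [AA_eq a m j s hs.le]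
  refine mul_ne_zero ?_ (Jf_ne_zero m _ (by positivity))
  have haR : (1 : ℝ) ≤ a := by exact_mod_cast ha
  have haR0 : (0 : ℝ) < a := by linarith
  obtain ⟨κ, hκ, hK⟩ := KK_lower2 a m (s := s) (β := 1 / (4 * a)) (γ := 1 / 4) hs
    (by push_cast; field_simp; norm_num) (by norm_num)
    (by push_cast; field_simp; norm_num)
  have h1 := hK j hj
  have hj0 : (0 : ℝ) < j := by
    have : (2 : ℝ) ≤ j := by exact_mod_cast hj
    linarith
  refine (lt_of_lt_of_le ?_ h1).ne'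
  rw [ENNReal.ofReal_pos]
  positivity

lemma enorm_F0_rpow (x : Fin (m + 3) → ℂ) {s : ℝ} (hs : 0 ≤ s) :
    ‖x 0 ^ a * x 2 ^ j‖ₑ ^ s = ENNReal.ofReal (‖F0 a m j x‖ ^ s) := by
  rw [← ENNReal.ofReal_rpow_of_nonneg (norm_nonneg _) hs, ofReal_norm]
  rfl

lemma integral_F0 {s : ℝ} (hs : 0 ≤ s) :
    ∫ x in Dom a m, ‖F0 a m j x‖ ^ s = (AA a m j s).toReal := by
  rw [integral_eq_lintegral_of_nonneg_ae]
  · congr 1
    apply lintegral_congr
    intro x
    exact (enorm_F0_rpow a m j x hs).symm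
  · exact ae_of_all _ fun x => by positivity
  · have := (F0_cont a m j).norm.measurable
    exact (this.pow_const s).aestronglyMeasurable

lemma int_F0 (ha : 1 ≤ a) {s : ℝ} (hs : 0 ≤ s) :
    Integrable (fun x => ‖F0 a m j x‖ ^ s) (volume.restrict (Dom a m)) := by
  have := Dom_finMeas a m ha
  refine Integrable.of_bound ((F0_cont a m j).norm.measurable.pow_const s).aestronglyMeasurable 1 ?_
  rw [ae_restrict_iff' (Dom_open a m).measurableSet]
  refine ae_of_all _ fun x hx => ?_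
  rw [Real.norm_of_nonneg (by positivity)]
  exact Real.rpow_le_one (norm_nonneg _) (F0_norm_le a m j ha hx) hs

theorem bdd_imp (ha : 1 ≤ a) (hj : 2 ≤ j) {p q : ℝ} (hpq : p.HolderConjugate q) {C : ℝ≥0}
    (hC : ∀ f g : (Fin (m + 3) → ℂ) → ℂ, MemLp f 2 (volume.restrict (Dom a m)) →
    MemLp f (ENNReal.ofReal p) (volume.restrict (Dom a m)) → IsBergmanProjection (Dom a m) f g →
    eLpNorm g (ENNReal.ofReal p) (volume.restrict (Dom a m)) ≤
      C * eLpNorm f (ENNReal.ofReal p) (volume.restrict (Dom a m))) :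
    AA a m j p ^ (1 / p) * AA a m j q ^ (1 / q) ≤ C * AA a m j 2 := by
  have hfin := Dom_finMeas a m ha
  have hp1 : 1 < p := hpq.lt
  have hq1 : 1 < q := hpq.symm.lt
  have hp0 : 0 < p := by linarith
  have hq0 : 0 < q := by linarith
  set F := F0 a m j with hF
  set c : ℝ := (AA a m j q).toReal / (AA a m j 2).toReal with hc
  have hA2 : AA a m j 2 ≠ 0 := AA_ne_zero a m j ha hj (by norm_num)
  have hA2t : AA a m j 2 ≠ ∞ := AA_ne_top a m j ha (by norm_num)
  have hAq : AA a m j q ≠ 0 := AA_ne_zero a m j ha hj hq0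
  have hAqt : AA a m j q ≠ ∞ := AA_ne_top a m j ha hq0.le
  have hA2r : 0 < (AA a m j 2).toReal := ENNReal.toReal_pos hA2 hA2t
  have hc0 : 0 ≤ c := by positivity
  set f : (Fin (m + 3) → ℂ) → ℂ := fun x => F x * ((‖F x‖ ^ (q - 2) : ℝ) : ℂ) with hf
  set g : (Fin (m + 3) → ℂ) → ℂ := fun x => (c : ℂ) * F x with hg
  have hFm : Measurable F := (F0_cont a m j).measurable
  have hfm : Measurable f := by
    refine hFm.mul ?_
    exact Complex.measurable_ofReal.comp (hFm.norm.pow_const _)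
  have hfn : ∀ x, ‖f x‖ = ‖F x‖ ^ (q - 1) := by
    intro x
    rw [hf]
    simp only [norm_mul, Complex.norm_real]
    rw [Real.norm_of_nonneg (by positivity)]
    by_cases h0 : ‖F x‖ = 0
    · rw [h0, zero_mul, Real.zero_rpow (by linarith)]
    · have h1 : 0 < ‖F x‖ := lt_of_le_of_ne (norm_nonneg _) (Ne.symm h0)
      calc ‖F x‖ * ‖F x‖ ^ (q - 2) = ‖F x‖ ^ (1 : ℝ) * ‖F x‖ ^ (q - 2) := by rw [Real.rpow_one]
        _ = ‖F x‖ ^ (1 + (q - 2)) := (Real.rpow_add h1 _ _).symm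
        _ = _ := by congr 1; ring
  have hFle : ∀ x ∈ Dom a m, ‖F x‖ ≤ 1 := fun x hx => F0_norm_le a m j ha hx
  have hfle : ∀ x ∈ Dom a m, ‖f x‖ ≤ 1 := by
    intro x hx
    rw [hfn]
    exact Real.rpow_le_one (norm_nonneg _) (hFle x hx) (by linarith)
  have hfLp : ∀ r : ℝ≥0∞, MemLp f r (volume.restrict (Dom a m)) := by
    intro r
    refine MemLp.of_bound hfm.aestronglyMeasurable 1 ?_
    rw [ae_restrict_iff' (Dom_open a m).measurableSet]
    exact ae_of_all _ hfle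
  have hgm : Measurable g := hFm.const_mul _
  have hgle : ∀ x ∈ Dom a m, ‖g x‖ ≤ c := by
    intro x hx
    rw [hg]
    simp only [norm_mul, Complex.norm_real, Real.norm_of_nonneg hc0]
    calc c * ‖F x‖ ≤ c * 1 := by gcongr; exact hFle x hx
      _ = c := mul_one c
  have hgB : MemBergman (Dom a m) g := by
    refine ⟨((F0_diff a m j).const_mul _).differentiableOn, ?_⟩
    refine MemLp.of_bound hgm.aestronglyMeasurable c ?_
    rw [ae_restrict_iff' (Dom_open a m).measurableSet]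
    exact ae_of_all _ hgle
  have h20 : (2 : Fin (m + 3)) ≠ 0 := two_ne_zero3
  -- rotations
  have rot0 : ∀ (c' : ℂ), ‖c'‖ = 1 → ∀ x, F (mulS {0} c' x) = c' ^ a * F x := by
    intro c' _ x
    have f1 : mulS {0} c' x 0 = c' * x 0 := by simp [mulS]
    have f2 : mulS {0} c' x 2 = x 2 := by simp [mulS, h20]
    show mulS {0} c' x 0 ^ a * mulS {0} c' x 2 ^ j = c' ^ a * (x 0 ^ a * x 2 ^ j)
    rw [f1, f2]; ring
  have rot2 : ∀ (c' : ℂ), ‖c'‖ = 1 → ∀ x, F (mulS {2} c' x) = c' ^ j * F x := by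
    intro c' _ x
    have f1 : mulS {2} c' x 0 = x 0 := by simp [mulS, h20.symm]
    have f2 : mulS {2} c' x 2 = c' * x 2 := by simp [mulS]
    show mulS {2} c' x 0 ^ a * mulS {2} c' x 2 ^ j = c' ^ j * (x 0 ^ a * x 2 ^ j)
    rw [f1, f2]; ring
  have rotS : ∀ (c' : ℂ) (S : Finset (Fin (m + 3))), ‖c'‖ = 1 → 0 ∉ S → 2 ∉ S → ∀ x,
      F (mulS S c' x) = F x := by
    intro c' S _ h0 h2 x
    have f1 : mulS S c' x 0 = x 0 := by simp [mulS, h0]
    have f2 : mulS S c' x 2 = x 2 := by simp [mulS, h2]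
    show mulS S c' x 0 ^ a * mulS S c' x 2 ^ j = x 0 ^ a * x 2 ^ j
    rw [f1, f2]
  have hu_form : ∀ x, f x - g x = F x * (((‖F x‖ ^ (q - 2) - c : ℝ)) : ℂ) := by
    intro x
    rw [hf, hg]
    push_cast
    ring
  have horth : ∫ x in Dom a m, (f x - g x) * conj (F x) = 0 := by
    have e1 : ∀ x, (f x - g x) * conj (F x) = ((‖F x‖ ^ q - c * ‖F x‖ ^ (2 : ℝ) : ℝ) : ℂ) := by
      intro x
      rw [hu_form]
      have e2 : F x * conj (F x) = ((‖F x‖ ^ 2 : ℝ) : ℂ) := by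
        rw [Complex.mul_conj, Complex.normSq_eq_norm_sq]
      have e3 : ‖F x‖ ^ 2 * ‖F x‖ ^ (q - 2) = ‖F x‖ ^ q := by
        by_cases h0 : ‖F x‖ = 0
        · rw [h0, Real.zero_rpow hq0.ne']; simp
        · have h1 : 0 < ‖F x‖ := lt_of_le_of_ne (norm_nonneg _) (Ne.symm h0)
          rw [← Real.rpow_natCast, ← Real.rpow_add h1]
          congr 1
          push_cast
          ring
      calc F x * (((‖F x‖ ^ (q - 2) - c : ℝ)) : ℂ) * conj (F x)
          = (F x * conj (F x)) * (((‖F x‖ ^ (q - 2) - c : ℝ)) : ℂ) := by ring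
        _ = ((‖F x‖ ^ 2 * (‖F x‖ ^ (q - 2) - c) : ℝ) : ℂ) := by rw [e2]; push_cast; ring
        _ = _ := by
          congr 1
          rw [mul_sub, e3]
          have : ‖F x‖ ^ (2 : ℝ) = ‖F x‖ ^ 2 := by rw [← Real.rpow_natCast]; norm_num
          rw [this]
          ring
    simp_rw [e1]
    rw [integral_complex_ofReal, integral_sub (int_F0 a m j ha hq0.le)
      ((int_F0 a m j ha (by norm_num)).const_mul c), integral_const_mul,
      integral_F0 a m j hq0.le, integral_F0 a m j (by norm_num), hc]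
    rw [div_mul_cancel₀ _ hA2r.ne', sub_self, Complex.ofReal_zero]
  have hproj : IsBergmanProjection (Dom a m) f g := by
    refine ⟨hgB, fun h hh => ?_⟩
    have hhi : IntegrableOn h (Dom a m) := hh.2.integrable (by norm_num)
    obtain ⟨K, hK⟩ := proj_core (Dom_open a m) (zero_mem_Dom a m ha) (Dom_complete a m) a j ha
      (by omega) hh.1 hhi
    have h1 := hK (fun x => f x - g x) (hfm.sub hgm) ⟨1 + c, fun x hx =>
      (norm_sub_le _ _).trans (add_le_add (hfle x hx) (hgle x hx))⟩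
      (fun c' S hc' h0 h2 x => by
        simp only [hu_form, rotS c' S hc' h0 h2 x])
      (fun c' hc' x => by
        simp only [hu_form, rot0 c' hc' x, norm_mul, norm_pow, hc', one_pow, one_mul]
        ring)
      (fun c' hc' x => by
        simp only [hu_form, rot2 c' hc' x, norm_mul, norm_pow, hc', one_pow, one_mul]
        ring)
    rw [h1]
    have e1 : ∀ x : Fin (m + 3) → ℂ, (f x - g x) * conj (K * (x 0 ^ a * x 2 ^ j)) =
        conj K * ((f x - g x) * conj (F x)) := by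
      intro x
      have : (x 0 ^ a * x 2 ^ j) = F x := rfl
      rw [this, map_mul]
      ring
    simp_rw [e1]
    rw [integral_const_mul, horth, mul_zero]
  have hmain := hC f g (hfLp 2) (hfLp _) hproj
  have hpt : ENNReal.ofReal p ≠ ∞ := ENNReal.ofReal_ne_top
  have hp0' : ENNReal.ofReal p ≠ 0 := by
    rw [ENNReal.ofReal_ne_zero_iff]; exact hp0
  have nf : eLpNorm f (ENNReal.ofReal p) (volume.restrict (Dom a m)) = AA a m j q ^ (1 / p) := by
    rw [eLpNorm_eq_lintegral_rpow_enorm_toReal hp0' hpt, ENNReal.toReal_ofReal hp0.le]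
    congr 1
    unfold AA
    apply lintegral_congr
    intro x
    rw [enorm_F0_rpow a m j x hq0.le, ← ofReal_norm, hfn,
      ENNReal.ofReal_rpow_of_nonneg (by positivity) hp0.le, ← Real.rpow_mul (norm_nonneg _)]
    congr 2
    have := hpq.symm.sub_one_mul_conj
    exact this
  have ng : eLpNorm g (ENNReal.ofReal p) (volume.restrict (Dom a m)) =
      (AA a m j q / AA a m j 2) * AA a m j p ^ (1 / p) := by
    rw [eLpNorm_eq_lintegral_rpow_enorm_toReal hp0' hpt, ENNReal.toReal_ofReal hp0.le]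
    have e1 : ∀ x, ‖g x‖ₑ ^ p = ENNReal.ofReal c ^ p * ‖x 0 ^ a * x 2 ^ j‖ₑ ^ p := by
      intro x
      have : ‖g x‖ₑ = ENNReal.ofReal c * ‖x 0 ^ a * x 2 ^ j‖ₑ := by
        show ‖(c : ℂ) * F x‖ₑ = _
        rw [enorm_mul]
        congr 1
        rw [← ofReal_norm, Complex.norm_real, Real.norm_of_nonneg hc0]
      rw [this, ENNReal.mul_rpow_of_nonneg _ _ hp0.le]
    simp_rw [e1]
    rw [lintegral_const_mul, ENNReal.mul_rpow_of_nonneg _ _ (by positivity), ← ENNReal.rpow_mul,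
      mul_one_div_cancel hp0.ne', ENNReal.rpow_one]
    · congr 1
      rw [hc, ENNReal.ofReal_div_of_pos hA2r, ENNReal.ofReal_toReal hAqt,
        ENNReal.ofReal_toReal hA2t]
    · have : Measurable (fun x : Fin (m + 3) → ℂ => ‖x 0 ^ a * x 2 ^ j‖ₑ) := by fun_prop
      exact this.pow_const p
  rw [nf, ng] at hmain
  set A := AA a m j q
  set B := AA a m j 2
  set D := AA a m j p ^ (1 / p)
  have hAp0 : A ^ (1 / p) ≠ 0 := (ENNReal.rpow_pos (pos_iff_ne_zero.2 hAq) hAqt).ne'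
  have hApt : A ^ (1 / p) ≠ ∞ := ENNReal.rpow_ne_top_of_nonneg (by positivity) hAqt
  have hsum : (1 : ℝ) / p + 1 / q = 1 := by
    have := hpq.inv_add_inv_eq_one
    rw [← one_div, ← one_div] at this
    exact this
  have hAA : A ^ (1 / p) * A ^ (1 / q) = A := by
    rw [← ENNReal.rpow_add _ _ hAq hAqt, hsum, ENNReal.rpow_one]
  have h5 : A ^ (1 / p) * (D * A ^ (1 / q)) ≤ A ^ (1 / p) * (C * B) := by
    calc A ^ (1 / p) * (D * A ^ (1 / q)) = (A ^ (1 / p) * A ^ (1 / q)) * D := by ring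
      _ = A * D := by rw [hAA]
      _ = (A / B * D) * B := by
        rw [ENNReal.div_eq_inv_mul]
        calc A * D = (B⁻¹ * B) * (A * D) := by rw [ENNReal.inv_mul_cancel hA2 hA2t, one_mul]
          _ = _ := by ring
      _ ≤ (C * A ^ (1 / p)) * B := by gcongr
      _ = _ := by ring
  rwa [ENNReal.mul_le_mul_iff_right hAp0 hApt] at h5

end

/-- the main theorem -/
theorem bergman_main (n : ℕ) (hn : 3 ≤ n) (p₀ : ℝ) (h1 : 1 < p₀) (h2 : p₀ < 2) :
    ∃ Ω : Set (Fin n → ℂ), IsFiniteTypeDomain Ω ∧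
      ∀ p : ℝ, 1 < p → (p ≤ p₀ ∨ p₀ / (p₀ - 1) ≤ p) → ¬ BergmanProjectionBounded Ω p := by
  obtain ⟨m, rfl⟩ : ∃ m, n = m + 3 := ⟨n - 3, by omega⟩
  obtain ⟨a, ha⟩ := exists_nat_gt (max 1 (2 / (2 - p₀)))
  have ha1 : (1 : ℝ) < a := (le_max_left _ _).trans_lt ha
  have ha2 : 2 / (2 - p₀) < a := (le_max_right _ _).trans_lt ha
  have ha0 : (0 : ℝ) < a := by linarith
  have ha' : 1 ≤ a := by exact_mod_cast ha1.le
  have hlt : p₀ < 2 - 2 / a := by
    have h3 : 0 < 2 - p₀ := by linarith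
    rw [div_lt_iff₀ h3] at ha2
    have : 2 / (a : ℝ) < 2 - p₀ := by
      rw [div_lt_iff₀ ha0]; linarith
    linarith
  refine ⟨Dom a m, Dom_finite a m ha', fun p hp hpp hb => ?_⟩
  obtain ⟨C, hC⟩ := hb
  have hpq : p.HolderConjugate (p / (p - 1)) := Real.HolderConjugate.conjExponent hp
  set q := p / (p - 1) with hq
  rcases hpp with hpp | hpp
  · obtain ⟨j, hj, hcore⟩ := core a m ha' hpq (hpp.trans_lt hlt) C
    exact hcore (bdd_imp a m j ha' hj hpq hC)
  · have hq' : q ≤ p₀ := by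
      have h4 : 0 < p₀ - 1 := by linarith
      have h5 : 0 < p - 1 := by linarith
      rw [div_le_iff₀ h4] at hpp
      rw [hq, div_le_iff₀ h5]
      nlinarith
    obtain ⟨j, hj, hcore⟩ := core a m ha' hpq.symm (hq'.trans_lt hlt) C
    apply hcore
    rw [mul_comm]
    exact bdd_imp a m j ha' hj hpq hC

end Pool.Agent.R233
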