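import Mathlib

set_option autoImplicit false

open MeasureTheory Topology Filter Set Real
open scoped ENNReal NNReal ComplexConjugate

namespace Pool.Agent.R233

/-- Fubini for the first coordinate -/
lemma lint_cons {k : ℕ} (f : (Fin (k + 1) → ℂ) → ℝ≥0∞) (hf : Measurable f) :
    ∫⁻ x, f x = ∫⁻ z : ℂ, ∫⁻ v : Fin k → ℂ, f (Fin.cons z v) := by
  have hmp := (volume_preserving_piFinSuccAbove (fun _ : Fin (k + 1) => ℂ) 0).symm
  rw [← hmp.lintegral_comp hf]
  have : (volume : Measure (ℂ × (Fin k → ℂ))) = (volume : Measure ℂ).prod volume := rfl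
  have e : ∀ q : ℂ × (Fin k → ℂ),
      (MeasurableEquiv.piFinSuccAbove (fun _ : Fin (k + 1) => ℂ) 0).symm q =
        Fin.cons q.1 q.2 := by
    intro q
    simp [MeasurableEquiv.piFinSuccAbove, Fin.insertNthEquiv, Fin.insertNth_zero']
  rw [this, lintegral_prod]
  · simp only [e]
  · exact (hf.comp (MeasurableEquiv.measurable _)).aemeasurable

lemma cons_meas {k : ℕ} : Measurable (fun q : ℂ × (Fin k → ℂ) => (Fin.cons q.1 q.2 : Fin (k + 1) → ℂ)) := by
  rw [measurable_pi_iff]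
  intro i
  refine Fin.cases ?_ (fun i => ?_) i
  · simpa using measurable_fst
  · have : Measurable fun x : ℂ × (Fin k → ℂ) => x.2 i := (measurable_pi_apply i).comp measurable_snd
    simpa using this

/-- Fubini for the first two coordinates -/
lemma lint_cons2 {k : ℕ} (f : (Fin (k + 1 + 1) → ℂ) → ℝ≥0∞) (hf : Measurable f) :
    ∫⁻ x, f x = ∫⁻ z : ℂ, ∫⁻ w : ℂ, ∫⁻ v : Fin k → ℂ, f (Fin.cons z (Fin.cons w v)) := by
  rw [lint_cons f hf]
  apply lintegral_congr
  intro z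
  apply lint_cons (fun y => f (Fin.cons z y))
  exact hf.comp (cons_meas.comp (measurable_const.prodMk measurable_id))

/-- the ball -/
def Bt (m : ℕ) (τ : ℝ) : Set (Fin (m + 1) → ℂ) := {v | ∑ i, ‖v i‖ ^ 2 < τ}

/-- moments of the ball -/
noncomputable def Jf (m : ℕ) (τ q : ℝ) : ℝ≥0∞ := ∫⁻ v in Bt m τ, ‖v 0‖ₑ ^ q

lemma Bt_meas (m : ℕ) (τ : ℝ) : MeasurableSet (Bt m τ) := by
  apply IsOpen.measurableSet
  exact isOpen_lt (by fun_prop) continuous_const

lemma Jf_scale (m : ℕ) (τ q : ℝ) (hq : 0 ≤ q) :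
    Jf m τ q = ENNReal.ofReal τ ^ (q / 2 + (m + 1)) * Jf m 1 q := by
  by_cases hτ : τ ≤ 0
  · have h1 : Bt m τ = ∅ := by
      ext v
      simp only [Bt, mem_ofPred_eq, mem_empty_iff_false, iff_false, not_lt]
      exact hτ.trans (Finset.sum_nonneg fun i _ => by positivity)
    rw [Jf, h1, Measure.restrict_empty, lintegral_zero_measure, ENNReal.ofReal_of_nonpos hτ,
      ENNReal.zero_rpow_of_pos (by positivity), zero_mul]
  · push Not at hτ
    set r : ℝ := √τ with hr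
    have hr0 : 0 < r := Real.sqrt_pos.2 hτ
    have hrs : r ^ 2 = τ := Real.sq_sqrt hτ.le
    have hfr : Module.finrank ℝ (Fin (m + 1) → ℂ) = 2 * (m + 1) := by
      rw [Module.finrank_pi_fintype]
      simp [Complex.finrank_real_complex]
      ring
    have hmap := Measure.map_addHaar_smul (volume : Measure (Fin (m + 1) → ℂ)) hr0.ne'
    rw [hfr] at hmap
    set f : (Fin (m + 1) → ℂ) → ℝ≥0∞ := (Bt m τ).indicator (fun v => ‖v 0‖ₑ ^ q) with hf
    have hfm : Measurable f := by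
      refine Measurable.indicator ?_ (Bt_meas m τ)
      fun_prop
    have h1 : Jf m τ q = ∫⁻ v, f v := by
      rw [Jf, hf, lintegral_indicator (Bt_meas m τ)]
    have h2 : ENNReal.ofReal |(r ^ (2 * (m + 1)))⁻¹| * ∫⁻ v, f v = ∫⁻ v, f (r • v) := by
      rw [← lintegral_map hfm (measurable_const_smul r), hmap, lintegral_smul_measure, smul_eq_mul]
    have hd : 0 < r ^ (2 * (m + 1)) := by positivity
    have h3 : ∫⁻ v, f v = ENNReal.ofReal (r ^ (2 * (m + 1))) * ∫⁻ v, f (r • v) := by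
      rw [← h2, ← mul_assoc, ← ENNReal.ofReal_mul hd.le, abs_of_pos (by positivity),
        mul_inv_cancel₀ hd.ne', ENNReal.ofReal_one, one_mul]
    have hrr : ENNReal.ofReal r ^ (2 : ℝ) = ENNReal.ofReal τ := by
      rw [ENNReal.rpow_two, ← ENNReal.ofReal_pow hr0.le, hrs]
    have h4 : ∀ v, f (r • v) = ENNReal.ofReal τ ^ (q / 2) *
        (Bt m 1).indicator (fun v => ‖v 0‖ₑ ^ q) v := by
      intro v
      have hmem : r • v ∈ Bt m τ ↔ v ∈ Bt m 1 := by
        simp only [Bt, mem_ofPred_eq, Pi.smul_apply, norm_smul, mul_pow, Real.norm_eq_abs,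
          sq_abs, ← Finset.mul_sum, hrs]
        constructor
        · intro h
          have : τ * ∑ i, ‖v i‖ ^ 2 < τ * 1 := by linarith
          exact lt_of_mul_lt_mul_left this hτ.le
        · intro h
          nlinarith
      by_cases hv : v ∈ Bt m 1
      · rw [hf, indicator_of_mem (hmem.2 hv), indicator_of_mem hv, Pi.smul_apply, enorm_smul,
          ENNReal.mul_rpow_of_nonneg _ _ hq]
        congr 1
        rw [← hrr, ← ENNReal.rpow_mul]
        congr 1
        · rw [Real.enorm_eq_ofReal hr0.le]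
        · ring
      · rw [hf, indicator_of_notMem (fun h => hv (hmem.1 h)), indicator_of_notMem hv, mul_zero]
    rw [h1, h3]
    simp_rw [h4]
    rw [lintegral_const_mul, lintegral_indicator (Bt_meas m 1), ← Jf, ← mul_assoc]
    · congr 1
      rw [pow_mul, hrs, ENNReal.ofReal_pow hτ.le, ← ENNReal.rpow_natCast, ← ENNReal.rpow_add]
      · congr 1
        push_cast
        ring
      · simpa using hτ
      · exact ENNReal.ofReal_ne_top
    · refine Measurable.indicator ?_ (Bt_meas m 1)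
      fun_prop

lemma Bt_subset (m : ℕ) : Bt m 1 ⊆ Metric.closedBall 0 1 := by
  intro v hv
  rw [mem_closedBall_zero_iff, pi_norm_le_iff_of_nonneg zero_le_one]
  intro i
  have h1 : ‖v i‖ ^ 2 ≤ ∑ i, ‖v i‖ ^ 2 :=
    Finset.single_le_sum (f := fun i => ‖v i‖ ^ 2) (fun i _ => by positivity) (Finset.mem_univ i)
  have h2 : ∑ i, ‖v i‖ ^ 2 < 1 := hv
  nlinarith [norm_nonneg (v i)]

lemma Jf_ne_top (m : ℕ) (q : ℝ) (hq : 0 ≤ q) : Jf m 1 q ≠ ∞ := by
  have h1 : Jf m 1 q ≤ ∫⁻ _ in Bt m 1, 1 := by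
    refine setLIntegral_mono measurable_const fun v hv => ?_
    have h2 := Bt_subset m hv
    rw [mem_closedBall_zero_iff, pi_norm_le_iff_of_nonneg zero_le_one] at h2
    have h3 : ‖v 0‖ₑ ≤ 1 := by
      rw [← ofReal_norm]
      exact ENNReal.ofReal_le_one.2 (h2 0)
    exact ENNReal.rpow_le_one h3 hq
  refine ne_top_of_le_ne_top ?_ h1
  rw [setLIntegral_one]
  exact ((measure_mono (Bt_subset m)).trans_lt Metric.isBounded_closedBall.measure_lt_top).ne

lemma Jf_ne_zero (m : ℕ) (q : ℝ) (hq : 0 ≤ q) : Jf m 1 q ≠ 0 := by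
  intro h
  rw [Jf, lintegral_eq_zero_iff (by fun_prop)] at h
  have hU : IsOpen {v : Fin (m + 1) → ℂ | ∑ i, ‖v i‖ ^ 2 < 1 ∧ v 0 ≠ 0} := by
    have e : {v : Fin (m + 1) → ℂ | ∑ i, ‖v i‖ ^ 2 < 1 ∧ v 0 ≠ 0} =
      {v | ∑ i, ‖v i‖ ^ 2 < 1} ∩ {v | v 0 ≠ 0} := rfl
    rw [e]
    exact (isOpen_lt (by fun_prop) continuous_const).inter
      (isOpen_ne_fun (by fun_prop) continuous_const)
  have hne : {v : Fin (m + 1) → ℂ | ∑ i, ‖v i‖ ^ 2 < 1 ∧ v 0 ≠ 0}.Nonempty := by
    refine ⟨Fin.cons (1 / 2) 0, ?_, ?_⟩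
    · rw [Fin.sum_univ_succ]
      simp
      norm_num
    · simp
  have hpos := hU.measure_pos (volume : Measure (Fin (m + 1) → ℂ)) hne
  have h2 : volume {v : Fin (m + 1) → ℂ | ∑ i, ‖v i‖ ^ 2 < 1 ∧ v 0 ≠ 0} = 0 := by
    have h3 : ∀ᵐ v ∂(volume : Measure (Fin (m + 1) → ℂ)), v ∈ Bt m 1 → ‖v 0‖ₑ ^ q = 0 := by
      rw [← ae_restrict_iff' (Bt_meas m 1)]
      exact h
    refine measure_mono_null ?_ h3
    intro v hv hv2
    have h4 := hv2 hv.1
    rw [ENNReal.rpow_eq_zero_iff] at h4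
    rcases h4 with h4 | h4
    · exact hv.2 (by simpa using h4.1)
    · exact absurd h4.1 (by simp)
  rw [h2] at hpos
  exact lt_irrefl _ hpos

/-- Hoelder's inequality for the moments -/
lemma Jf_holder (m : ℕ) {p q : ℝ} (hpq : p.HolderConjugate q) (j : ℝ) (hj : 0 ≤ j) :
    Jf m 1 (j * 2) ≤ Jf m 1 (j * p) ^ (1 / p) * Jf m 1 (j * q) ^ (1 / q) := by
  have h1 := ENNReal.lintegral_mul_le_Lp_mul_Lq ((volume : Measure (Fin (m + 1) → ℂ)).restrict (Bt m 1))
    hpq (f := fun v => ‖v 0‖ₑ ^ j) (g := fun v => ‖v 0‖ₑ ^ j)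
    (Measurable.aemeasurable (by fun_prop)) (Measurable.aemeasurable (by fun_prop))
  unfold Jf
  refine le_of_eq_of_le ?_ (h1.trans (le_of_eq ?_))
  · apply lintegral_congr
    intro v
    simp only [Pi.mul_apply]
    rw [← ENNReal.rpow_add_of_nonneg _ _ hj hj]
    congr 1
    ring
  · congr 3
    · funext v
      rw [← ENNReal.rpow_mul]
    · funext v
      rw [← ENNReal.rpow_mul]

end Pool.Agent.R233
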