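import Pool.Agent.R233.BergDom

set_option autoImplicit false

open MeasureTheory Topology Filter Set Real
open scoped ENNReal NNReal ComplexConjugate ContDiff

namespace Pool.Agent.R233

lemma psi_nonneg (a : ℕ) (z w : ℂ) : 0 ≤ psi a z w := by unfold psi; positivity

lemma psi_continuous (a : ℕ) : Continuous (fun q : ℂ × ℂ => psi a q.1 q.2) := by
  unfold psi; fun_prop

/-- the integral over the first two variables -/
noncomputable def KK (a m j : ℕ) (s : ℝ) : ℝ≥0∞ :=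
  ∫⁻ z : ℂ, ∫⁻ w : ℂ, ‖z‖ₑ ^ ((a : ℝ) * s) *
    ENNReal.ofReal (1 - psi a z w) ^ ((j : ℝ) * s / 2 + (m + 1))

/-- the integral of `|z₀^a z₂^j|^s` over the domain -/
noncomputable def AA (a m j : ℕ) (s : ℝ) : ℝ≥0∞ :=
  ∫⁻ x in Dom a m, ‖x 0 ^ a * x 2 ^ j‖ₑ ^ s

lemma AA_eq (a m j : ℕ) (s : ℝ) (hs : 0 ≤ s) :
    AA a m j s = KK a m j s * Jf m 1 ((j : ℝ) * s) := by
  set f : (Fin (m + 1 + 1 + 1) → ℂ) → ℝ≥0∞ :=
    (Dom a m).indicator (fun x => ‖x 0 ^ a * x 2 ^ j‖ₑ ^ s) with hf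
  have hfm : Measurable f := by
    refine Measurable.indicator ?_ (Dom_open a m).measurableSet
    fun_prop
  have h1 : AA a m j s = ∫⁻ x, f x := by
    rw [AA, hf, lintegral_indicator (Dom_open a m).measurableSet]
  rw [h1, lint_cons2 f hfm]
  have h2 : ∀ (z w : ℂ) (v : Fin (m + 1) → ℂ), f (Fin.cons z (Fin.cons w v)) =
      ‖z‖ₑ ^ ((a : ℝ) * s) *
        (Bt m (1 - psi a z w)).indicator (fun v => ‖v 0‖ₑ ^ ((j : ℝ) * s)) v := by
    intro z w v
    set x : Fin (m + 3) → ℂ := Fin.cons z (Fin.cons w v) with hx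
    have x0 : x 0 = z := rfl
    have x1 : x 1 = w := rfl
    have x2 : x 2 = v 0 := rfl
    have hmem : x ∈ Dom a m ↔ v ∈ Bt m (1 - psi a z w) := by
      simp only [Dom, Bt, mem_ofPred_eq]
      rw [Phi_eq, x0, x1]
      have : ∀ i : Fin (m + 1), x i.succ.succ = v i := fun i => rfl
      simp only [this]
      constructor
      · intro h; linarith
      · intro h; linarith
    by_cases hv : v ∈ Bt m (1 - psi a z w)
    · rw [hf, indicator_of_mem (hmem.2 hv), indicator_of_mem hv, x0, x2, enorm_mul, enorm_pow,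
        enorm_pow, ENNReal.mul_rpow_of_nonneg _ _ hs, ← ENNReal.rpow_natCast,
        ← ENNReal.rpow_natCast, ← ENNReal.rpow_mul, ← ENNReal.rpow_mul]
    · rw [hf, indicator_of_notMem (fun h => hv (hmem.1 h)), indicator_of_notMem hv, mul_zero]
  simp_rw [h2]
  have h3 : ∀ z w : ℂ, ∫⁻ v : Fin (m + 1) → ℂ, ‖z‖ₑ ^ ((a : ℝ) * s) *
        (Bt m (1 - psi a z w)).indicator (fun v => ‖v 0‖ₑ ^ ((j : ℝ) * s)) v =
      ‖z‖ₑ ^ ((a : ℝ) * s) *
    ENNReal.ofReal (1 - psi a z w) ^ ((j : ℝ) * s / 2 + (m + 1)) * Jf m 1 ((j : ℝ) * s) := by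
    intro z w
    rw [lintegral_const_mul, lintegral_indicator (Bt_meas m _), ← Jf,
      Jf_scale m _ _ (by positivity), mul_assoc]
    refine Measurable.indicator ?_ (Bt_meas m _)
    fun_prop
  simp_rw [h3]
  rw [KK]
  have hmeas : Measurable (fun q : ℂ × ℂ => ‖q.1‖ₑ ^ ((a : ℝ) * s) *
    ENNReal.ofReal (1 - psi a q.1 q.2) ^ ((j : ℝ) * s / 2 + (m + 1))) := by
    have := (psi_continuous a).measurable
    fun_prop
  have h4 : ∀ z : ℂ, ∫⁻ w : ℂ, ‖z‖ₑ ^ ((a : ℝ) * s) *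
    ENNReal.ofReal (1 - psi a z w) ^ ((j : ℝ) * s / 2 + (m + 1)) * Jf m 1 ((j : ℝ) * s) =
    (∫⁻ w : ℂ, ‖z‖ₑ ^ ((a : ℝ) * s) *
    ENNReal.ofReal (1 - psi a z w) ^ ((j : ℝ) * s / 2 + (m + 1))) * Jf m 1 ((j : ℝ) * s) := by
    intro z
    rw [lintegral_mul_const]
    exact hmeas.comp (measurable_const.prodMk measurable_id)
  simp_rw [h4]
  rw [lintegral_mul_const]
  exact hmeas.lintegral_prod_right'

/-- lower bound for `KK` by a box -/
lemma KK_lower (a m j : ℕ) (s : ℝ) (hs : 0 ≤ s) (r σ c : ℝ) (hr : 0 < r) (hσ : 0 < σ)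
    (hc : 0 ≤ c) (hbox : ∀ z w : ℂ, ‖z‖ ≤ r → ‖w‖ ≤ σ → c ≤ 1 - psi a z w) :
    ENNReal.ofReal ((r / 2) ^ ((a : ℝ) * s) * c ^ ((j : ℝ) * s / 2 + (m + 1)) *
      ((π * (r / 4) ^ 2) * (π * σ ^ 2))) ≤ KK a m j s := by
  set S0 : Set ℂ := Metric.ball ((3 * r / 4 : ℝ) : ℂ) (r / 4) with hS0
  set S1 : Set ℂ := Metric.ball 0 σ with hS1
  have hz : ∀ z ∈ S0, r / 2 ≤ ‖z‖ ∧ ‖z‖ ≤ r := by
    intro z hz
    rw [hS0, mem_ball_iff_norm] at hz
    have h1 : ‖((3 * r / 4 : ℝ) : ℂ)‖ = 3 * r / 4 := by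
      rw [Complex.norm_real, Real.norm_of_nonneg (by positivity)]
    constructor
    · have := norm_sub_norm_le ((3 * r / 4 : ℝ) : ℂ) z
      rw [norm_sub_rev, h1] at this
      linarith
    · have := norm_sub_norm_le z ((3 * r / 4 : ℝ) : ℂ)
      rw [h1] at this
      linarith
  have hw : ∀ w ∈ S1, ‖w‖ ≤ σ := by
    intro w hw
    rw [hS1, mem_ball_zero_iff] at hw
    exact hw.le
  set κ : ℝ := (r / 2) ^ ((a : ℝ) * s) * c ^ ((j : ℝ) * s / 2 + (m + 1)) with hκ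
  have hκ0 : 0 ≤ κ := by positivity
  have hpt : ∀ z ∈ S0, ∀ w ∈ S1, ENNReal.ofReal κ ≤ ‖z‖ₑ ^ ((a : ℝ) * s) *
      ENNReal.ofReal (1 - psi a z w) ^ ((j : ℝ) * s / 2 + (m + 1)) := by
    intro z hz' w hw'
    rw [hκ, ENNReal.ofReal_mul (by positivity),
      ← ENNReal.ofReal_rpow_of_nonneg (by positivity) (by positivity),
      ← ENNReal.ofReal_rpow_of_nonneg hc (by positivity)]
    gcongr
    · rw [← ofReal_norm]
      exact ENNReal.ofReal_le_ofReal (hz z hz').1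
    · exact hbox z w (hz z hz').2 (hw w hw')
  have v0 : volume S0 = ENNReal.ofReal (π * (r / 4) ^ 2) := by
    rw [hS0, Complex.volume_ball, mul_comm π, ENNReal.ofReal_mul (by positivity),
      ENNReal.ofReal_pow (by positivity)]
    congr 1
    rw [← NNReal.coe_real_pi, ENNReal.ofReal_coe_nnreal]
  have v1 : volume S1 = ENNReal.ofReal (π * σ ^ 2) := by
    rw [hS1, Complex.volume_ball, mul_comm π, ENNReal.ofReal_mul (by positivity),
      ENNReal.ofReal_pow (by positivity)]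
    congr 1
    rw [← NNReal.coe_real_pi, ENNReal.ofReal_coe_nnreal]
  calc ENNReal.ofReal (κ * ((π * (r / 4) ^ 2) * (π * σ ^ 2)))
      = ∫⁻ z in S0, ∫⁻ w in S1, ENNReal.ofReal κ := by
        rw [setLIntegral_const, setLIntegral_const, v0, v1, ← ENNReal.ofReal_mul hκ0,
          ← ENNReal.ofReal_mul (by positivity)]
        congr 1
        ring
    _ ≤ ∫⁻ z in S0, ∫⁻ w : ℂ, ‖z‖ₑ ^ ((a : ℝ) * s) *
          ENNReal.ofReal (1 - psi a z w) ^ ((j : ℝ) * s / 2 + (m + 1)) := by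
        refine setLIntegral_mono' Metric.isOpen_ball.measurableSet fun z hz' => ?_
        refine le_trans ?_ (setLIntegral_le_lintegral S1 _)
        exact setLIntegral_mono' Metric.isOpen_ball.measurableSet fun w hw' => hpt z hz' w hw'
    _ ≤ KK a m j s := setLIntegral_le_lintegral S0 _

/-- Gaussian type integral -/
lemma lint_exp (b p : ℝ) (hb : 0 < b) (hp : 1 ≤ p) :
    ∫⁻ z : ℂ, ENNReal.ofReal (exp (-b * ‖z‖ ^ p)) =
      ENNReal.ofReal (π * b ^ (-2 / p) * Gamma (2 / p + 1)) := by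
  have h1 := Complex.integral_exp_neg_mul_rpow hp hb
  have hpos : 0 < π * b ^ (-2 / p) * Gamma (2 / p + 1) := by
    have : 0 < Gamma (2 / p + 1) := Gamma_pos_of_pos (by positivity)
    positivity
  have hint : Integrable (fun z : ℂ => exp (-b * ‖z‖ ^ p)) := by
    by_contra hcon
    rw [integral_undef hcon] at h1
    linarith
  rw [← ofReal_integral_eq_lintegral_ofReal hint (ae_of_all _ fun z => (exp_pos _).le), h1]

/-- upper bound for `KK` at the exponent `2` -/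
lemma KK_upper (a m j : ℕ) (ha : 1 ≤ a) (hj : 1 ≤ j) :
    KK a m j 2 ≤ ENNReal.ofReal (π * (j : ℝ) ^ (-2 / ((8 * a : ℕ) : ℝ)) *
      Gamma (2 / ((8 * a : ℕ) : ℝ) + 1) * (π / j)) := by
  have hj0 : (0 : ℝ) < j := by exact_mod_cast hj
  have ha8 : (1 : ℝ) ≤ ((8 * a : ℕ) : ℝ) := by exact_mod_cast (by omega : 1 ≤ 8 * a)
  have hpt : ∀ z w : ℂ, ‖z‖ₑ ^ ((a : ℝ) * 2) *
      ENNReal.ofReal (1 - psi a z w) ^ ((j : ℝ) * 2 / 2 + (m + 1)) ≤
      ENNReal.ofReal (‖z‖ ^ (2 * a) * exp (-j * ‖z‖ ^ (8 * a))) *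
        ENNReal.ofReal (exp (-(j * ‖z‖ ^ (2 * a)) * ‖w‖ ^ (2 : ℝ))) := by
    intro z w
    rw [ENNReal.ofReal_mul (by positivity), mul_assoc]
    have e1 : ‖z‖ₑ ^ ((a : ℝ) * 2) = ENNReal.ofReal (‖z‖ ^ (2 * a)) := by
      rw [show (a : ℝ) * 2 = ((2 * a : ℕ) : ℝ) by push_cast; ring, ENNReal.rpow_natCast,
        ENNReal.ofReal_pow (norm_nonneg _), ofReal_norm]
    rw [e1]
    gcongr
    by_cases h : 1 - psi a z w ≤ 0
    · rw [ENNReal.ofReal_of_nonpos h, ENNReal.zero_rpow_of_pos (by positivity)]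
      exact zero_le
    · push Not at h
      rw [ENNReal.ofReal_rpow_of_pos h, ← ENNReal.ofReal_mul (exp_pos _).le, ← exp_add]
      apply ENNReal.ofReal_le_ofReal
      have hpsi := psi_nonneg a z w
      have h1 : (1 - psi a z w) ^ ((j : ℝ) * 2 / 2 + (m + 1)) ≤ (1 - psi a z w) ^ (j : ℝ) := by
        apply Real.rpow_le_rpow_of_exponent_ge h (by linarith)
        have : (0 : ℝ) ≤ m := Nat.cast_nonneg m
        linarith
      have h2 : (1 - psi a z w) ^ (j : ℝ) ≤ (exp (-psi a z w)) ^ (j : ℝ) := by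
        apply Real.rpow_le_rpow h.le _ hj0.le
        have := add_one_le_exp (-psi a z w)
        linarith
      refine h1.trans (h2.trans ?_)
      rw [← exp_mul]
      apply exp_le_exp.2
      have e2 : ‖w‖ ^ (2 : ℝ) = ‖w‖ ^ 2 := by rw [← Real.rpow_natCast]; norm_num
      rw [e2]
      unfold psi
      have : 0 ≤ ‖w‖ ^ 4 := by positivity
      nlinarith
  have hinner : ∀ z : ℂ, ∫⁻ w : ℂ, ‖z‖ₑ ^ ((a : ℝ) * 2) *
      ENNReal.ofReal (1 - psi a z w) ^ ((j : ℝ) * 2 / 2 + (m + 1)) ≤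
      ENNReal.ofReal (exp (-j * ‖z‖ ^ ((8 * a : ℕ) : ℝ))) * ENNReal.ofReal (π / j) := by
    intro z
    by_cases hz : z = 0
    · subst hz
      have : ‖(0 : ℂ)‖ₑ ^ ((a : ℝ) * 2) = 0 := by
        rw [enorm_zero, ENNReal.zero_rpow_of_pos]
        have : (1 : ℝ) ≤ a := by exact_mod_cast ha
        positivity
      simp only [this, zero_mul, lintegral_zero]
      exact zero_le
    · have hz0 : 0 < ‖z‖ := norm_pos_iff.2 hz
      calc ∫⁻ w : ℂ, ‖z‖ₑ ^ ((a : ℝ) * 2) *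
            ENNReal.ofReal (1 - psi a z w) ^ ((j : ℝ) * 2 / 2 + (m + 1))
          ≤ ∫⁻ w : ℂ, ENNReal.ofReal (‖z‖ ^ (2 * a) * exp (-j * ‖z‖ ^ (8 * a))) *
              ENNReal.ofReal (exp (-(j * ‖z‖ ^ (2 * a)) * ‖w‖ ^ (2 : ℝ))) :=
            lintegral_mono fun w => hpt z w
        _ = ENNReal.ofReal (‖z‖ ^ (2 * a) * exp (-j * ‖z‖ ^ (8 * a))) *
              ENNReal.ofReal (π * (j * ‖z‖ ^ (2 * a)) ^ (-2 / (2 : ℝ)) *
                Gamma (2 / 2 + 1)) := by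
            rw [lintegral_const_mul, lint_exp _ _ (by positivity) (by norm_num)]
            fun_prop
        _ = ENNReal.ofReal (exp (-j * ‖z‖ ^ ((8 * a : ℕ) : ℝ))) * ENNReal.ofReal (π / j) := by
            rw [← ENNReal.ofReal_mul (by positivity), ← ENNReal.ofReal_mul (by positivity)]
            congr 1
            have g : Gamma (2 / 2 + 1) = 1 := by norm_num
            rw [g, Real.rpow_natCast, show (-2 / (2 : ℝ)) = -1 by norm_num, Real.rpow_neg_one]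
            field_simp
  calc KK a m j 2 ≤ ∫⁻ z : ℂ, ENNReal.ofReal (exp (-j * ‖z‖ ^ ((8 * a : ℕ) : ℝ))) *
        ENNReal.ofReal (π / j) := lintegral_mono hinner
    _ = _ := by
      rw [lintegral_mul_const, lint_exp _ _ hj0 ha8, ← ENNReal.ofReal_mul]
      · have : 0 < Gamma (2 / ((8 * a : ℕ) : ℝ) + 1) := Gamma_pos_of_pos (by positivity)
        positivity
      · fun_prop

end Pool.Agent.R233
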