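import Mathlib

set_option autoImplicit false

/-!
Basic definitions of several complex variables used by the results of this folder.
-/

open MeasureTheory Topology Filter Asymptotics Set
open scoped ENNReal NNReal ContDiff

namespace Pool.Agent.R233

variable {E : Type*} [NormedAddCommGroup E] [NormedSpace ℂ E]

/-- `Ω` is pseudoconvex: it has a continuous plurisubharmonic exhaustion function `φ`, that is, `φ`
is continuous on `Ω`, satisfies the sub-mean value inequality on every closed complex disc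
`{a + ζ b : |ζ| ≤ 1}` contained in `Ω`, and has compact sublevel sets in `Ω`. -/
def IsPseudoconvex (Ω : Set E) : Prop :=
  ∃ φ : E → ℝ, ContinuousOn φ Ω ∧
    (∀ a b : E, (∀ ζ : ℂ, ‖ζ‖ ≤ 1 → a + ζ • b ∈ Ω) →
      φ a ≤ Real.circleAverage (fun ζ : ℂ => φ (a + ζ • b)) 0 1) ∧
    ∀ c : ℝ, IsCompact {z | z ∈ Ω ∧ φ z ≤ c}

/-- `ρ` is a global `C^∞` defining function of `Ω`: `ρ` is `C^∞`, `Ω = {ρ < 0}`, and `dρ ≠ 0` at
all boundary points of `Ω`. -/
def IsDefiningFunction (Ω : Set E) (ρ : E → ℝ) : Prop :=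
  ContDiff ℝ ∞ ρ ∧ Ω = {z | ρ z < 0} ∧ ∀ z ∈ frontier Ω, fderiv ℝ ρ z ≠ 0

/-- The order of vanishing at `0` of a function `g` of one complex variable: the supremum of the
`m` with `g(t) = O(|t|^m)` as `t → 0`. -/
noncomputable def vanishingOrder {F : Type*} [NormedAddCommGroup F] (g : ℂ → F) : ℕ∞ :=
  ⨆ (m : ℕ) (_ : g =O[𝓝 0] fun t : ℂ => ‖t‖ ^ m), (m : ℕ∞)

/-- The D'Angelo 1-type at `p` computed with the defining function `ρ`: the supremum of
`ν(ρ ∘ γ) / ν(γ - p)` over all nonconstant germs `γ` at `0` of holomorphic curves with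
`γ(0) = p`. -/
noncomputable def dAngeloType (ρ : E → ℝ) (p : E) : ℝ≥0∞ :=
  ⨆ (γ : ℂ → E) (_ : AnalyticAt ℂ γ 0 ∧ γ 0 = p ∧ ¬ ∀ᶠ t in 𝓝 0, γ t = p),
    ((vanishingOrder (fun t => ρ (γ t)) : ℕ∞) : ℝ≥0∞) /
      ((vanishingOrder (fun t => γ t - p) : ℕ∞) : ℝ≥0∞)

/-- `Ω` is a smoothly bounded pseudoconvex domain of finite type: a bounded domain (connected,
nonempty, open) which is pseudoconvex and has a `C^∞` defining function `ρ` such that the D'Angelo
type of every boundary point is finite. -/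
def IsFiniteTypeDomain (Ω : Set E) : Prop :=
  IsOpen Ω ∧ IsConnected Ω ∧ Bornology.IsBounded Ω ∧ IsPseudoconvex Ω ∧
    ∃ ρ : E → ℝ, IsDefiningFunction Ω ρ ∧ ∀ p ∈ frontier Ω, dAngeloType ρ p < ⊤

end Pool.Agent.R233
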