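import Pool.Agent.R233.FinType

set_option autoImplicit false

open MeasureTheory Topology Filter Set Real
open scoped ENNReal NNReal ComplexConjugate ContDiff

namespace Pool.Agent.R233.Egg

open Pool.Agent.R233

/-- The open Euclidean ball of radius `r` around `0` in `ℂⁿ`. -/
def eball (n : ℕ) (r : ℝ) : Set (Fin n → ℂ) := {z | ∑ i, ‖z i‖ ^ 2 < r ^ 2}

/-- The squeezing function of `D`: `s_D(z)` is the supremum of the radii `r > 0` such that
`B(0,r) ⊆ F(D)` for some injective holomorphic map `F : D → B(0,1)` with `F(z) = 0`. -/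
noncomputable def squeezing {n : ℕ} (D : Set (Fin n → ℂ)) (z : Fin n → ℂ) : ℝ :=
  sSup {r : ℝ | 0 < r ∧ ∃ F : (Fin n → ℂ) → (Fin n → ℂ), DifferentiableOn ℂ F D ∧ InjOn F D ∧
    MapsTo F D (eball n 1) ∧ F z = 0 ∧ eball n r ⊆ F '' D}

/-- Four times the Levi form of `ρ` at `p` in the direction `w`. -/
noncomputable def leviForm {n : ℕ} (ρ : (Fin n → ℂ) → ℝ) (p w : Fin n → ℂ) : ℝ :=
  iteratedFDeriv ℝ 2 ρ p ![w, w] + iteratedFDeriv ℝ 2 ρ p ![Complex.I • w, Complex.I • w]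

/-- `w` is a complex tangent vector at `p` to the level set of `ρ`. -/
def IsComplexTangent {n : ℕ} (ρ : (Fin n → ℂ) → ℝ) (p w : Fin n → ℂ) : Prop :=
  fderiv ℝ ρ p w = 0 ∧ fderiv ℝ ρ p (Complex.I • w) = 0

/-- `p` is a strongly pseudoconvex boundary point of `D`. -/
def IsStronglyPseudoconvexAt {n : ℕ} (D : Set (Fin n → ℂ)) (p : Fin n → ℂ) : Prop :=
  ∃ ρ : (Fin n → ℂ) → ℝ, IsDefiningFunction D ρ ∧
    ∀ w, w ≠ 0 → IsComplexTangent ρ p w → 0 < leviForm ρ p w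

/-- The Levi form of the boundary of `D` at `p` has at least `k` positive eigenvalues: it is
positive definite on some `k`-dimensional complex subspace of the complex tangent space. -/
def LeviPositiveEigenvalues {n : ℕ} (D : Set (Fin n → ℂ)) (p : Fin n → ℂ) (k : ℕ) : Prop :=
  ∃ ρ : (Fin n → ℂ) → ℝ, IsDefiningFunction D ρ ∧ ∃ W : Submodule ℂ (Fin n → ℂ),
    Module.finrank ℂ W = k ∧ ∀ w ∈ W, IsComplexTangent ρ p w ∧ (w ≠ 0 → 0 < leviForm ρ p w)

section

variable (k m : ℕ)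

/-- exponents -/
def ee : Fin (m + 2) → ℕ := Fin.cons 1 (Fin.cons k fun _ => 1)

/-- holomorphic functions -/
def GG (i : Fin (m + 2)) (x : Fin (m + 2) → ℂ) : ℂ := x i ^ ee k m i

/-- the defining function plus one -/
noncomputable def Ph (x : Fin (m + 2) → ℂ) : ℝ := ∑ i, ‖GG k m i x‖ ^ 2

/-- the egg `|x₀|² + |x₁|^{2k} + |x₂|² + ... < 1` -/
def Egg : Set (Fin (m + 2) → ℂ) := {x | Ph k m x < 1}

/-- sum of squares of the other coordinates -/
noncomputable def rest (x : Fin (m + 2) → ℂ) : ℝ := ∑ i : Fin m, ‖x i.succ.succ‖ ^ 2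

lemma Ph_eq (x : Fin (m + 2) → ℂ) :
    Ph k m x = ‖x 0‖ ^ 2 + ‖x 1‖ ^ (2 * k) + rest m x := by
  unfold Ph GG ee rest
  rw [Fin.sum_univ_succ, Fin.sum_univ_succ]
  simp only [Fin.cons_zero, Fin.cons_succ, pow_one, norm_pow]
  have h1 : (0 : Fin (m + 1)).succ = (1 : Fin (m + 2)) := rfl
  rw [h1]
  ring

lemma sum_sq_eq (x : Fin (m + 2) → ℂ) :
    ∑ i, ‖x i‖ ^ 2 = ‖x 0‖ ^ 2 + ‖x 1‖ ^ 2 + rest m x := by
  unfold rest
  rw [Fin.sum_univ_succ, Fin.sum_univ_succ]
  have h1 : (0 : Fin (m + 1)).succ = (1 : Fin (m + 2)) := rfl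
  rw [h1]
  ring

lemma rest_nonneg (x : Fin (m + 2) → ℂ) : 0 ≤ rest m x :=
  Finset.sum_nonneg fun i _ => by positivity

lemma GG_diff (i) : Differentiable ℂ (GG k m i) := by unfold GG; fun_prop

lemma Ph_contDiff : ContDiff ℝ ∞ (Ph k m) := by
  unfold Ph
  refine ContDiff.sum fun l _ => ?_
  have h0 : ContDiff ℂ ∞ (GG k m l) := by unfold GG; fun_prop
  have h1 : ContDiff ℝ ∞ (GG k m l) := h0.restrict_scalars ℝ
  exact h1.norm_sq ℝ

lemma Ph_continuous : Continuous (Ph k m) := (Ph_contDiff k m).continuous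

lemma ee_pos (hk : 1 ≤ k) (i) : 1 ≤ ee k m i := by
  unfold ee
  refine Fin.cases ?_ (fun i => ?_) i
  · simp
  · refine Fin.cases ?_ (fun i => ?_) i
    · simpa using hk
    · simp

lemma ee_le (hk : 1 ≤ k) (i) : ee k m i ≤ k := by
  unfold ee
  refine Fin.cases ?_ (fun i => ?_) i
  · simpa using hk
  · refine Fin.cases ?_ (fun i => ?_) i
    · simp
    · simpa using hk

lemma Egg_open : IsOpen (Egg k m) := isOpen_lt (Ph_continuous k m) continuous_const

lemma Ph_convex : ConvexOn ℝ univ (Ph k m) := by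
  unfold Ph
  have h1 : ∀ i : Fin (m + 2), ConvexOn ℝ univ (fun x : Fin (m + 2) → ℂ => ‖GG k m i x‖ ^ 2) := by
    intro i
    have e : (fun x : Fin (m + 2) → ℂ => ‖GG k m i x‖ ^ 2) = fun x => ‖x i‖ ^ (2 * ee k m i) := by
      funext x
      unfold GG
      rw [norm_pow, ← pow_mul, mul_comm]
    rw [e]
    have h2 : ConvexOn ℝ univ (fun x : Fin (m + 2) → ℂ => ‖x i‖) :=
      (convexOn_univ_norm (E := ℂ)).comp_linearMap
        (LinearMap.proj (R := ℝ) (φ := fun _ : Fin (m + 2) => ℂ) i)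
    exact h2.pow (fun x _ => norm_nonneg _) _
  have h2 : ∀ s : Finset (Fin (m + 2)), ConvexOn ℝ univ
      (fun x : Fin (m + 2) → ℂ => ∑ i ∈ s, ‖GG k m i x‖ ^ 2) := by
    intro s
    induction s using Finset.induction_on with
    | empty => simpa using convexOn_const (0 : ℝ) convex_univ
    | insert i s hi ih =>
      simp only [Finset.sum_insert hi]
      exact (h1 i).add ih
  exact h2 _

lemma Egg_convex : Convex ℝ (Egg k m) := by
  have := (Ph_convex k m).convex_lt 1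
  simpa [Egg] using this

lemma Ph_zero (hk : 1 ≤ k) : Ph k m 0 = 0 := by
  rw [Ph_eq]
  simp [rest]
  omega

lemma norm_le_egg (hk : 1 ≤ k) {x : Fin (m + 2) → ℂ} (hx : Ph k m x ≤ 1) (i) : ‖x i‖ ≤ 1 := by
  have h1 : ‖GG k m i x‖ ^ 2 ≤ Ph k m x :=
    Finset.single_le_sum (f := fun l => ‖GG k m l x‖ ^ 2) (fun l _ => by positivity)
      (Finset.mem_univ _)
  have h2 : ‖GG k m i x‖ ^ 2 = (‖x i‖ ^ ee k m i) ^ 2 := by
    unfold GG; rw [norm_pow]
  rw [h2] at h1
  by_contra hcon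
  push Not at hcon
  have hex : ee k m i ≠ 0 := by have := ee_pos k m hk i; omega
  have h3 : 1 < ‖x i‖ ^ ee k m i := one_lt_pow₀ hcon hex
  nlinarith

lemma Egg_bounded (hk : 1 ≤ k) : Bornology.IsBounded (Egg k m) := by
  apply (Metric.isBounded_closedBall (x := (0 : Fin (m + 2) → ℂ)) (r := 1)).subset
  intro x hx
  rw [mem_closedBall_zero_iff, pi_norm_le_iff_of_nonneg zero_le_one]
  exact norm_le_egg k m hk (le_of_lt hx)

lemma frontier_Egg {x : Fin (m + 2) → ℂ} (hx : x ∈ frontier (Egg k m)) : Ph k m x = 1 :=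
  frontier_lt_subset_eq (Ph_continuous k m) (continuous_const (y := (1 : ℝ))) hx

lemma Ph_smul (x : Fin (m + 2) → ℂ) (t : ℝ) :
    Ph k m (t • x) = t ^ 2 * ‖x 0‖ ^ 2 + t ^ (2 * k) * ‖x 1‖ ^ (2 * k) + t ^ 2 * rest m x := by
  rw [Ph_eq]
  unfold rest
  simp only [Pi.smul_apply, norm_smul, mul_pow, Real.norm_eq_abs]
  have e3 : |t| ^ (2 * k) = t ^ (2 * k) := by
    rw [pow_mul, sq_abs, ← pow_mul]
  rw [e3, sq_abs, ← Finset.mul_sum]

lemma fderiv_ne_egg (hk : 1 ≤ k) {x : Fin (m + 2) → ℂ} (hx : Ph k m x = 1) :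
    fderiv ℝ (Ph k m) x ≠ 0 := by
  intro h0
  have hd : HasFDerivAt (Ph k m) (fderiv ℝ (Ph k m) x) x :=
    ((Ph_contDiff k m).differentiable (by simp) x).hasFDerivAt
  have h1 : HasDerivAt (fun t : ℝ => t • x) x 1 := by
    simpa using (hasDerivAt_id (1 : ℝ)).smul_const x
  have h2 : HasDerivAt (fun t : ℝ => Ph k m (t • x)) (fderiv ℝ (Ph k m) x x) 1 := by
    have hd' : HasFDerivAt (Ph k m) (fderiv ℝ (Ph k m) x) ((1 : ℝ) • x) := by
      rw [one_smul]; exact hd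
    exact hd'.comp_hasDerivAt 1 h1
  rw [h0] at h2
  simp only [_root_.zero_apply, Ph_smul] at h2
  set A := ‖x 0‖ ^ 2
  set B := ‖x 1‖ ^ (2 * k)
  set D := rest m x with hDdef
  have hA : 0 ≤ A := by positivity
  have hB : 0 ≤ B := by positivity
  have hD : 0 ≤ D := rest_nonneg m x
  have hsum : A + B + D = 1 := by
    rw [← hx, Ph_eq]
  have h3 : HasDerivAt (fun t : ℝ => t ^ 2 * A + t ^ (2 * k) * B + t ^ 2 * D)
      ((2 : ℕ) * 1 ^ (2 - 1) * A + (2 * k : ℕ) * 1 ^ (2 * k - 1) * B +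
        (2 : ℕ) * 1 ^ (2 - 1) * D) 1 :=
    (((hasDerivAt_pow 2 (1 : ℝ)).mul_const A).add
      ((hasDerivAt_pow (2 * k) (1 : ℝ)).mul_const B)).add
      ((hasDerivAt_pow 2 (1 : ℝ)).mul_const D)
  have h4 := h2.unique h3
  simp only [one_pow, mul_one] at h4
  push_cast at h4
  have ha' : (1 : ℝ) ≤ k := by exact_mod_cast hk
  nlinarith

lemma Egg_def (hk : 1 ≤ k) : IsDefiningFunction (Egg k m) (fun x => Ph k m x - 1) := by
  refine ⟨(Ph_contDiff k m).sub contDiff_const, ?_, ?_⟩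
  · ext x
    simp only [Egg, mem_ofPred_eq]
    constructor
    · intro h; linarith
    · intro h; linarith
  · intro x hx
    rw [fderiv_sub_const]
    exact fderiv_ne_egg k m hk (frontier_Egg k m hx)

lemma Egg_finite (hk : 1 ≤ k) : IsFiniteTypeDomain (Egg k m) := by
  refine ⟨Egg_open k m, ?_, Egg_bounded k m hk, ?_, fun x => Ph k m x - 1, Egg_def k m hk, ?_⟩
  · refine (Egg_convex k m).isConnected ⟨0, ?_⟩
    show Ph k m 0 < 1
    rw [Ph_zero k m hk]; exact one_pos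
  · exact psc_of_submean (Ph k m) (Ph_continuous k m)
      (fun x b => submean_sq (GG k m) (GG_diff k m) x b) (Egg_bounded k m hk)
  · intro p hp
    have h1 := finite_type_sum_sq (GG k m) (GG_diff k m) k (fun i =>
      ⟨i, ee k m i, ee_pos k m hk i, ee_le k m hk i, fun x => rfl⟩) p (frontier_Egg k m hp)
    exact h1.trans_lt (by exact_mod_cast ENNReal.natCast_lt_top _)

end

end Pool.Agent.R233.Egg
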