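import Pool.Agent.R233.Egg

set_option autoImplicit false

open MeasureTheory Topology Filter Set Real
open scoped ENNReal NNReal ComplexConjugate ContDiff

namespace Pool.Agent.R233.Egg

open Pool.Agent.R233

variable {n : ℕ}

lemma deriv_line {ρ : (Fin n → ℂ) → ℝ} (hρ : ContDiff ℝ ∞ ρ) (p w : Fin n → ℂ) :
    deriv (fun t : ℝ => ρ (p + t • w)) = fun t : ℝ => fderiv ℝ ρ (p + t • w) w := by
  funext t
  have h1 : HasDerivAt (fun t : ℝ => p + t • w) w t := by
    have := ((hasDerivAt_id t).smul_const w).const_add p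
    simpa using this
  have h2 : HasFDerivAt ρ (fderiv ℝ ρ (p + t • w)) (p + t • w) :=
    (hρ.differentiable (by simp) _).hasFDerivAt
  exact (h2.comp_hasDerivAt t h1).deriv

lemma deriv2_line {ρ : (Fin n → ℂ) → ℝ} (hρ : ContDiff ℝ ∞ ρ) (p w : Fin n → ℂ) :
    deriv (deriv (fun t : ℝ => ρ (p + t • w))) 0 = iteratedFDeriv ℝ 2 ρ p ![w, w] := by
  rw [deriv_line hρ, iteratedFDeriv_two_apply]
  have h1 : HasDerivAt (fun t : ℝ => p + t • w) w 0 := by
    have := ((hasDerivAt_id (0 : ℝ)).smul_const w).const_add p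
    simpa using this
  have h3 : Differentiable ℝ (fderiv ℝ ρ) :=
    (hρ.fderiv_right (m := 1) (by norm_cast)).differentiable (by norm_num)
  have h2 : HasFDerivAt (fderiv ℝ ρ) (fderiv ℝ (fderiv ℝ ρ) p) (p + (0 : ℝ) • w) := by
    rw [zero_smul, add_zero]
    exact (h3 p).hasFDerivAt
  have h4 := h2.comp_hasDerivAt (0 : ℝ) h1
  have h5 := h4.clm_apply (hasDerivAt_const (0 : ℝ) w)
  simp only [Function.comp_def, map_zero, add_zero] at h5
  rw [h5.deriv]
  rfl

lemma line_contDiff {ρ : (Fin n → ℂ) → ℝ} (hρ : ContDiff ℝ ∞ ρ) (p w : Fin n → ℂ) :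
    ContDiff ℝ ∞ (fun t : ℝ => ρ (p + t • w)) := by
  exact hρ.comp (by fun_prop)

lemma second_nonneg {g : ℝ → ℝ} (hg : ContDiff ℝ ∞ g) (h0 : g 0 = 0)
    (hpos : ∀ᶠ t in 𝓝 (0 : ℝ), 0 ≤ g t) : deriv g 0 = 0 ∧ 0 ≤ deriv (deriv g) 0 := by
  have h1 : IsLocalMin g 0 := by
    filter_upwards [hpos] with t ht
    rw [h0]; exact ht
  have h2 := h1.deriv_eq_zero
  refine ⟨h2, ?_⟩
  by_contra hneg
  push Not at hneg
  have h3 := isLocalMax_of_deriv_deriv_neg hneg h2 hg.continuous.continuousAt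
  have h4 : g =ᶠ[𝓝 0] fun _ => (0 : ℝ) := by
    filter_upwards [hpos, h3] with t ht1 ht2
    rw [h0] at ht2
    exact le_antisymm ht2 ht1
  have h5 : deriv g =ᶠ[𝓝 0] fun _ => (0 : ℝ) := by
    have := h4.deriv
    simpa using this
  have h6 := h5.deriv_eq
  simp only [deriv_const'] at h6
  linarith

lemma flat_second {g : ℝ → ℝ} (hg : ContDiff ℝ ∞ g) (h0 : g 0 = 0)
    (hpos : ∀ᶠ t in 𝓝 (0 : ℝ), 0 ≤ g t) {L : ℝ}
    (hle : ∀ᶠ t in 𝓝 (0 : ℝ), g t ≤ L * t ^ 4) : deriv g 0 = 0 ∧ deriv (deriv g) 0 = 0 := by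
  obtain ⟨h1, h2⟩ := second_nonneg hg h0 hpos
  refine ⟨h1, le_antisymm ?_ h2⟩
  have h3 : ContDiff ℝ ∞ (fun t : ℝ => L * t ^ 4 - g t) := by fun_prop
  obtain ⟨_, h4⟩ := second_nonneg h3 (by simp [h0]) (by
    filter_upwards [hle] with t ht
    linarith)
  have e1 : deriv (fun t : ℝ => L * t ^ 4 - g t) = fun t => L * (4 * t ^ 3) - deriv g t := by
    funext t
    have a1 : HasDerivAt (fun t : ℝ => L * t ^ 4) (L * (4 * t ^ 3)) t := by
      have := (hasDerivAt_pow 4 t).const_mul L
      simpa using this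
    have a2 : HasDerivAt g (deriv g t) t := ((hg.differentiable (by simp)) t).hasDerivAt
    exact (a1.sub a2).deriv
  have hg' : ContDiff ℝ ∞ (deriv g) := by
    have := (contDiff_infty_iff_deriv (f := g)).1 hg
    exact this.2
  have e2 : deriv (fun t => L * (4 * t ^ 3) - deriv g t) 0 = - deriv (deriv g) 0 := by
    have a1 : HasDerivAt (fun t : ℝ => L * (4 * t ^ 3)) (L * (4 * (3 * 0 ^ 2))) 0 := by
      have := ((hasDerivAt_pow 3 (0 : ℝ)).const_mul 4).const_mul L
      simpa using this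
    have a2 : HasDerivAt (deriv g) (deriv (deriv g) 0) 0 :=
      ((hg'.differentiable (by simp)) 0).hasDerivAt
    have a3 : HasDerivAt (fun t : ℝ => L * (4 * t ^ 3) - deriv g t)
        (L * (4 * (3 * 0 ^ 2)) - deriv (deriv g) 0) 0 := a1.sub a2
    rw [a3.deriv]
    ring
  rw [e1, e2] at h4
  linarith

section

variable (k m : ℕ)

/-- the boundary point `(1, 0, ..., 0)` -/
def pp (m : ℕ) : Fin (m + 2) → ℂ := fun i => if i = 0 then 1 else 0

lemma pp0 : pp m 0 = 1 := by simp [pp]
lemma pp1 : pp m 1 = 0 := by simp [pp]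
lemma pps (i : Fin m) : pp m i.succ.succ = 0 := by
  have : i.succ.succ ≠ 0 := Fin.succ_ne_zero _
  simp [pp, this]

/-- the degenerate direction, multiplied by `c` -/
def vv (m : ℕ) (c : ℂ) : Fin (m + 2) → ℂ := fun i => if i = 1 then c else 0

lemma vv0 (c : ℂ) : vv m c 0 = 0 := by simp [vv]
lemma vv1 (c : ℂ) : vv m c 1 = c := by simp [vv]
lemma vvs (c : ℂ) (i : Fin m) : vv m c i.succ.succ = 0 := by
  have : i.succ.succ ≠ 1 := by
    intro h
    have h2 : i.succ = (0 : Fin (m + 1)) := Fin.succ_injective _ h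
    exact Fin.succ_ne_zero _ h2
  simp [vv, this]

lemma Ph_line (hk : 1 ≤ k) (c : ℂ) (hc : ‖c‖ = 1) (t b : ℝ) :
    Ph k m (pp m + t • vv m c - b • pp m) = (1 - b) ^ 2 + t ^ (2 * k) := by
  have hr : rest m (pp m + t • vv m c - b • pp m) = 0 := by
    unfold rest
    apply Finset.sum_eq_zero
    intro i _
    simp [pps, vvs]
  rw [Ph_eq, hr]
  simp only [Pi.sub_apply, Pi.add_apply, Pi.smul_apply, pp0, pp1, vv0, vv1, smul_zero, add_zero,
    sub_zero, zero_add, mul_one, Complex.real_smul]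
  have e3 : |t| ^ (2 * k) = t ^ (2 * k) := by
    rw [pow_mul, sq_abs, ← pow_mul]
  rw [norm_mul, hc, mul_one, Complex.norm_real, Real.norm_eq_abs, e3]
  congr 1
  have : ((1 : ℂ) - (b : ℂ)) = ((1 - b : ℝ) : ℂ) := by push_cast; ring
  rw [this, Complex.norm_real, Real.norm_eq_abs, sq_abs]

lemma Ph_line0 (hk : 1 ≤ k) (c : ℂ) (hc : ‖c‖ = 1) (t : ℝ) :
    Ph k m (pp m + t • vv m c) = 1 + t ^ (2 * k) := by
  have := Ph_line k m hk c hc t 0
  simpa using this

lemma pp_frontier (hk : 1 ≤ k) : pp m ∈ frontier (Egg k m) := by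
  rw [(Egg_open k m).frontier_eq]
  constructor
  · rw [mem_closure_iff_seq_limit]
    refine ⟨fun j : ℕ => pp m - (1 / ((j : ℝ) + 1)) • pp m, ?_, ?_⟩
    · intro j
      show Ph k m _ < 1
      have := Ph_line k m hk 1 (by simp) 0 (1 / ((j : ℝ) + 1))
      simp only [zero_smul, add_zero] at this
      rw [this, zero_pow (by omega), add_zero]
      have h1 : 0 < 1 / ((j : ℝ) + 1) := by positivity
      have h2 : 1 / ((j : ℝ) + 1) ≤ 1 := by
        rw [div_le_one (by positivity)]
        have : (0 : ℝ) ≤ j := Nat.cast_nonneg j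
        linarith
      nlinarith
    · have h1 : Tendsto (fun j : ℕ => 1 / ((j : ℝ) + 1)) atTop (𝓝 0) :=
        tendsto_one_div_add_atTop_nhds_zero_nat
      have h2 : Tendsto (fun j : ℕ => pp m - (1 / ((j : ℝ) + 1)) • pp m) atTop
          (𝓝 (pp m - (0 : ℝ) • pp m)) := tendsto_const_nhds.sub (h1.smul_const _)
      simpa using h2
  · intro h
    have h1 : Ph k m (pp m) < 1 := h
    have := Ph_line0 k m hk 1 (by simp) 0
    simp only [zero_smul, add_zero] at this
    rw [this, zero_pow (by omega)] at h1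
    linarith

lemma not_spc (hk : 2 ≤ k) : ¬ IsStronglyPseudoconvexAt (Egg k m) (pp m) := by
  rintro ⟨ρ, ⟨hρ, hD, hne⟩, hlevi⟩
  have hk1 : 1 ≤ k := by omega
  have hsmall : ∀ c : ℂ, ‖c‖ = 1 →
      deriv (fun t : ℝ => ρ (pp m + t • vv m c)) 0 = 0 ∧
      deriv (deriv (fun t : ℝ => ρ (pp m + t • vv m c))) 0 = 0 := by
    intro c hc
    have hout : ∀ t : ℝ, 0 ≤ ρ (pp m + t • vv m c) := by
      intro t
      by_contra hcon
      push Not at hcon
      have h1 : pp m + t • vv m c ∈ Egg k m := by rw [hD]; exact hcon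
      have h2 : Ph k m (pp m + t • vv m c) < 1 := h1
      rw [Ph_line0 k m hk1 c hc] at h2
      have : 0 ≤ t ^ (2 * k) := by rw [pow_mul]; positivity
      linarith
    have hp0 : ρ (pp m) = 0 := by
      apply le_antisymm
      · have h1 : pp m ∈ closure (Egg k m) := frontier_subset_closure (pp_frontier k m hk1)
        rw [hD] at h1
        exact closure_lt_subset_le hρ.continuous continuous_const h1
      · have := hout 0
        simpa using this
    obtain ⟨K, s, hs, hK⟩ := (hρ.contDiffAt (x := pp m)).of_le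
      (show (1 : WithTop ℕ∞) ≤ (((⊤ : ℕ∞)) : WithTop ℕ∞) by exact_mod_cast le_top) |>.exists_lipschitzOnWith
    refine flat_second (L := (K : ℝ) * ‖pp m‖) (line_contDiff hρ _ _) (by simpa using hp0)
      (Eventually.of_forall hout) ?_
    have c1 : Tendsto (fun t : ℝ => pp m + t • vv m c) (𝓝 0) (𝓝 (pp m)) := by
      have : Continuous (fun t : ℝ => pp m + t • vv m c) := by fun_prop
      have := this.tendsto 0
      simpa using this
    have c2 : Tendsto (fun t : ℝ => pp m + t • vv m c - (t ^ (2 * k)) • pp m) (𝓝 0)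
        (𝓝 (pp m)) := by
      have : Continuous (fun t : ℝ => pp m + t • vv m c - (t ^ (2 * k)) • pp m) := by fun_prop
      have := this.tendsto 0
      rw [zero_pow (by omega)] at this
      simpa using this
    have c3 : ∀ᶠ t in 𝓝 (0 : ℝ), |t| < 1 := by
      have : Tendsto (fun t : ℝ => |t|) (𝓝 0) (𝓝 |0|) := continuous_abs.tendsto 0
      rw [abs_zero] at this
      exact this.eventually (gt_mem_nhds one_pos)
    filter_upwards [c1.eventually_mem hs, c2.eventually_mem hs, c3] with t t1 t2 t3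
    by_cases ht : t = 0
    · subst ht
      simp [hp0]
    have hb0 : 0 < t ^ (2 * k) := by
      rw [pow_mul]; positivity
    have habs : t ^ (2 * k) = |t| ^ (2 * k) := by
      rw [pow_mul, pow_mul, sq_abs]
    have hb1 : t ^ (2 * k) < 1 := by
      rw [habs]
      exact pow_lt_one₀ (abs_nonneg t) t3 (by omega)
    have hb4 : t ^ (2 * k) ≤ t ^ 4 := by
      have : t ^ 4 = |t| ^ 4 := by
        rw [show 4 = 2 * 2 by rfl, pow_mul, pow_mul, sq_abs]
      rw [habs, this]
      exact pow_le_pow_of_le_one (abs_nonneg t) t3.le (by omega)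
    have hin : ρ (pp m + t • vv m c - (t ^ (2 * k)) • pp m) < 0 := by
      have h1 : pp m + t • vv m c - (t ^ (2 * k)) • pp m ∈ Egg k m := by
        show Ph k m _ < 1
        rw [Ph_line k m hk1 c hc]
        nlinarith
      rw [hD] at h1
      exact h1
    have hlip := hK.dist_le_mul _ t1 _ t2
    rw [Real.dist_eq, dist_eq_norm, sub_sub_cancel, norm_smul, Real.norm_of_nonneg hb0.le] at hlip
    have h5 := (abs_le.1 hlip).2
    calc ρ (pp m + t • vv m c) ≤ (K : ℝ) * (t ^ (2 * k) * ‖pp m‖) := by linarith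
      _ = (K : ℝ) * ‖pp m‖ * t ^ (2 * k) := by ring
      _ ≤ (K : ℝ) * ‖pp m‖ * t ^ 4 := by gcongr
  have hI : Complex.I • vv m 1 = vv m Complex.I := by
    funext i
    simp [vv]
  have h1 := hsmall 1 (by simp)
  have h2 := hsmall Complex.I (by simp)
  have hv : vv m 1 ≠ 0 := by
    intro h
    have := congrFun h 1
    rw [vv1] at this
    simp at this
  have t1 : fderiv ℝ ρ (pp m) (vv m 1) = 0 := by
    have := h1.1
    rw [deriv_line hρ] at this
    simpa using this
  have t2 : fderiv ℝ ρ (pp m) (Complex.I • vv m 1) = 0 := by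
    rw [hI]
    have := h2.1
    rw [deriv_line hρ] at this
    simpa using this
  have h3 := hlevi (vv m 1) hv ⟨t1, t2⟩
  unfold leviForm at h3
  rw [hI, ← deriv2_line hρ, ← deriv2_line hρ, h1.2, h2.2] at h3
  linarith

/-- embedding of the strongly pseudoconvex directions -/
def emb (m : ℕ) : (Fin m → ℂ) →ₗ[ℂ] (Fin (m + 2) → ℂ) where
  toFun v := Fin.cons 0 (Fin.cons 0 v)
  map_add' v w := by
    funext i
    refine Fin.cases ?_ (fun i => ?_) i
    · simp
    · refine Fin.cases ?_ (fun i => ?_) i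
      · simp
      · simp
  map_smul' c v := by
    funext i
    refine Fin.cases ?_ (fun i => ?_) i
    · simp
    · refine Fin.cases ?_ (fun i => ?_) i
      · simp
      · simp

lemma levi_pos (hk : 1 ≤ k) : LeviPositiveEigenvalues (Egg k m) (pp m) m := by
  refine ⟨fun x => Ph k m x - 1, Egg_def k m hk, LinearMap.range (emb m), ?_, ?_⟩
  · rw [LinearMap.finrank_range_of_inj]
    · simp
    · intro v w h
      funext i
      have := congrFun h i.succ.succ
      simpa [emb] using this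
  · rintro w ⟨v, rfl⟩
    have hsm : ContDiff ℝ ∞ (fun x => Ph k m x - 1) := (Ph_contDiff k m).sub contDiff_const
    have key : ∀ c : ℂ, ‖c‖ = 1 → (fun t : ℝ => Ph k m (pp m + t • (c • emb m v)) - 1) =
        fun t : ℝ => t ^ 2 * ∑ i, ‖v i‖ ^ 2 := by
      intro c hc
      funext t
      have e0 : (pp m + t • (c • emb m v)) 0 = 1 := by simp [pp0, emb]
      have e1 : (pp m + t • (c • emb m v)) 1 = 0 := by
        have : emb m v 1 = 0 := rfl
        simp [pp1, this]
      have e2 : ∀ i : Fin m, (pp m + t • (c • emb m v)) i.succ.succ = (t : ℂ) * (c * v i) := by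
        intro i
        have : emb m v i.succ.succ = v i := rfl
        simp [pps, this]
      rw [Ph_eq, e0, e1]
      unfold rest
      simp only [e2, norm_mul, hc, one_mul, mul_pow, Complex.norm_real, Real.norm_eq_abs, sq_abs,
        norm_one, one_pow, norm_zero]
      rw [zero_pow (by omega), ← Finset.mul_sum]
      ring
    have d1 : ∀ c : ℂ, ‖c‖ = 1 →
        deriv (fun t : ℝ => Ph k m (pp m + t • (c • emb m v)) - 1) =
          fun t => 2 * t * ∑ i, ‖v i‖ ^ 2 := by
      intro c hc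
      rw [key c hc]
      funext t
      have := (hasDerivAt_pow 2 t).mul_const (∑ i, ‖v i‖ ^ 2)
      simpa using this.deriv
    have d2 : ∀ c : ℂ, ‖c‖ = 1 →
        deriv (deriv (fun t : ℝ => Ph k m (pp m + t • (c • emb m v)) - 1)) 0 =
          2 * ∑ i, ‖v i‖ ^ 2 := by
      intro c hc
      rw [d1 c hc]
      have h1 : HasDerivAt (fun t : ℝ => 2 * t * ∑ i, ‖v i‖ ^ 2) (2 * 1 * ∑ i, ‖v i‖ ^ 2) 0 :=
        ((hasDerivAt_id (0 : ℝ)).const_mul 2).mul_const _
      rw [h1.deriv]
      ring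
    have l1 := deriv_line hsm (pp m) ((1 : ℂ) • emb m v)
    have l2 := deriv_line hsm (pp m) (Complex.I • emb m v)
    have m1 := deriv2_line hsm (pp m) ((1 : ℂ) • emb m v)
    have m2 := deriv2_line hsm (pp m) (Complex.I • emb m v)
    rw [d1 1 (by simp)] at l1
    rw [d1 Complex.I (by simp)] at l2
    rw [d2 1 (by simp)] at m1
    rw [d2 Complex.I (by simp)] at m2
    rw [one_smul] at l1 m1
    refine ⟨⟨?_, ?_⟩, ?_⟩
    · have := congrFun l1 0
      simpa using this.symm
    · have := congrFun l2 0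
      simpa using this.symm
    · intro hw
      unfold leviForm
      rw [← m1, ← m2]
      have hv : v ≠ 0 := by
        rintro rfl
        exact hw (map_zero _)
      obtain ⟨i, hi⟩ := Function.ne_iff.1 hv
      have hpos : 0 < ∑ i, ‖v i‖ ^ 2 := by
        apply Finset.sum_pos' (fun i _ => by positivity)
        refine ⟨i, Finset.mem_univ _, ?_⟩
        have : 0 < ‖v i‖ := norm_pos_iff.2 hi
        positivity
      linarith

end

end Pool.Agent.R233.Egg
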