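import Pool.Agent.R233.Egg2

set_option autoImplicit false

open Topology Filter Set

namespace Pool.Agent.R233.Egg

open Pool.Agent.R233

/-- assemble a vector -/
def mk {m : ℕ} (u v : ℂ) (w : Fin m → ℂ) : Fin (m + 2) → ℂ := Fin.cons u (Fin.cons v w)

section

variable {m : ℕ}

lemma mk0 (u v : ℂ) (w : Fin m → ℂ) : mk u v w 0 = u := rfl
lemma mk1 (u v : ℂ) (w : Fin m → ℂ) : mk u v w 1 = v := rfl
lemma mks (u v : ℂ) (w : Fin m → ℂ) (i : Fin m) : mk u v w i.succ.succ = w i := rfl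

lemma ext3 {x y : Fin (m + 2) → ℂ} (h0 : x 0 = y 0) (h1 : x 1 = y 1)
    (hs : ∀ i : Fin m, x i.succ.succ = y i.succ.succ) : x = y := by
  funext i
  refine Fin.cases h0 (fun i => ?_) i
  refine Fin.cases h1 (fun i => ?_) i
  exact hs i

lemma mk_diff {S : Set (Fin (m + 2) → ℂ)} {u v : (Fin (m + 2) → ℂ) → ℂ}
    {w : (Fin (m + 2) → ℂ) → Fin m → ℂ} (hu : DifferentiableOn ℂ u S)
    (hv : DifferentiableOn ℂ v S) (hw : ∀ i, DifferentiableOn ℂ (fun x => w x i) S) :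
    DifferentiableOn ℂ (fun x => mk (u x) (v x) (w x)) S := by
  rw [differentiableOn_pi]
  intro i
  refine Fin.cases ?_ (fun i => ?_) i
  · exact hu
  · refine Fin.cases ?_ (fun i => ?_) i
    · exact hv
    · exact hw i

lemma sum_mk (u v : ℂ) (w : Fin m → ℂ) :
    ∑ i, ‖mk u v w i‖ ^ 2 = ‖u‖ ^ 2 + ‖v‖ ^ 2 + ∑ i, ‖w i‖ ^ 2 := by
  rw [sum_sq_eq]
  rfl

end

lemma mob (t : ℝ) (z : ℂ) :
    ‖1 - (t : ℂ) * z‖ ^ 2 - ‖z - t‖ ^ 2 = (1 - t ^ 2) * (1 - ‖z‖ ^ 2) := by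
  simp only [Complex.sq_norm, Complex.normSq_apply, Complex.sub_re, Complex.sub_im,
    Complex.one_re, Complex.one_im, Complex.mul_re, Complex.mul_im, Complex.ofReal_re,
    Complex.ofReal_im]
  ring

lemma mob' (t : ℝ) (z : ℂ) :
    ‖1 + (t : ℂ) * z‖ ^ 2 - ‖z + t‖ ^ 2 = (1 - t ^ 2) * (1 - ‖z‖ ^ 2) := by
  simp only [Complex.sq_norm, Complex.normSq_apply, Complex.add_re, Complex.add_im,
    Complex.one_re, Complex.one_im, Complex.mul_re, Complex.mul_im, Complex.ofReal_re,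
    Complex.ofReal_im]
  ring

lemma pow_le_quad {x : ℝ} (h0 : 0 ≤ x) (h1 : x ≤ 1) (k : ℕ) :
    (1 - x) ^ k ≤ 1 - k * x + (k * x) ^ 2 / 2 := by
  induction k with
  | zero => simp
  | succ k ih =>
    rw [pow_succ]
    have hk : (0 : ℝ) ≤ k := Nat.cast_nonneg k
    have h2 : (1 - x) ^ k * (1 - x) ≤ (1 - k * x + (k * x) ^ 2 / 2) * (1 - x) :=
      mul_le_mul_of_nonneg_right ih (by linarith)
    push_cast
    have h3 : 0 ≤ (k * x) ^ 2 * x := by positivity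
    nlinarith [sq_nonneg x]

lemma bern {x : ℝ} (h1 : x ≤ 1) (k : ℕ) : 1 - k * x ≤ (1 - x) ^ k := by
  have := one_add_mul_le_pow (a := -x) (by linarith) k
  have e : (1 : ℝ) + -x = 1 - x := by ring
  rw [e] at this
  linarith

section

variable (k m : ℕ)

/-- the map from the egg to the ball -/
noncomputable def GM (c s t : ℝ) (x : Fin (m + 2) → ℂ) : Fin (m + 2) → ℂ :=
  mk (s * (x 0 / c) / (1 - t * x 1)) ((x 1 - t) / (1 - t * x 1))
    (fun i => s * (x i.succ.succ / c) / (1 - t * x 1))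

/-- its inverse -/
noncomputable def HM (c s t : ℝ) (w : Fin (m + 2) → ℂ) : Fin (m + 2) → ℂ :=
  mk (c * (s * w 0 / (1 + t * w 1))) ((w 1 + t) / (1 + t * w 1))
    (fun i => c * (s * w i.succ.succ / (1 + t * w 1)))

variable {k m} {c s t : ℝ}

lemma den_ne {t : ℝ} (ht0 : 0 ≤ t) (ht : t < 1) {z : ℂ} (hz : ‖z‖ ≤ 1) :
    (1 : ℂ) - t * z ≠ 0 := by
  intro h
  have h1 : (1 : ℂ) = t * z := by linear_combination h
  have h2 := congrArg norm h1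
  rw [norm_one, norm_mul, Complex.norm_real, Real.norm_of_nonneg ht0] at h2
  nlinarith [norm_nonneg z]

lemma den_ne' {t : ℝ} (ht0 : 0 ≤ t) (ht : t < 1) {z : ℂ} (hz : ‖z‖ ≤ 1) :
    (1 : ℂ) + t * z ≠ 0 := by
  have := den_ne ht0 ht (z := -z) (by simpa using hz)
  intro h
  apply this
  linear_combination h

lemma alg1 {a b c d s : ℂ} (hd : d ≠ 0) (h : a - b * d = c * s) : a / d - b = c * (s / d) := by
  have h1 : a / d - b = (a - b * d) / d := by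
    field_simp
  rw [h1, h, mul_div_assoc]

lemma div_diffOn {E : Type*} [NormedAddCommGroup E] [NormedSpace ℂ E] {S : Set E}
    {f g : E → ℂ} (hf : DifferentiableOn ℂ f S) (hg : DifferentiableOn ℂ g S)
    (h : ∀ x ∈ S, g x ≠ 0) : DifferentiableOn ℂ (fun x => f x / g x) S := by
  simp only [div_eq_mul_inv]
  exact hf.mul (hg.inv h)

lemma GM_HM (hc : 0 < c) (hs : 0 < s) (ht0 : 0 ≤ t) (ht : t < 1) (hst : s ^ 2 + t ^ 2 = 1)
    {w : Fin (m + 2) → ℂ} (hw : ‖w 1‖ ≤ 1) : GM m c s t (HM m c s t w) = w := by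
  have hd := den_ne' ht0 ht hw
  have hstC : (s : ℂ) ^ 2 + (t : ℂ) ^ 2 = 1 := by exact_mod_cast hst
  have hsC : (s : ℂ) ≠ 0 := by exact_mod_cast hs.ne'
  have hcC : (c : ℂ) ≠ 0 := by exact_mod_cast hc.ne'
  have e1 : (1 : ℂ) - t * ((w 1 + t) / (1 + t * w 1)) = s ^ 2 / (1 + t * w 1) := by
    field_simp
    linear_combination - hstC
  apply ext3
  · simp only [GM, HM, mk0, mk1]
    rw [e1]
    field_simp
  · simp only [GM, HM, mk1]
    have e2 : (w 1 + t) / (1 + t * w 1) - t = w 1 * (s ^ 2 / (1 + t * w 1)) := by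
      apply alg1 hd
      linear_combination (-w 1) * hstC
    rw [e1, e2, mul_div_assoc, div_self (div_ne_zero (pow_ne_zero 2 hsC) hd), mul_one]
  · intro i
    simp only [GM, HM, mks, mk1]
    rw [e1]
    field_simp

lemma HM_GM (hc : 0 < c) (hs : 0 < s) (ht0 : 0 ≤ t) (ht : t < 1) (hst : s ^ 2 + t ^ 2 = 1)
    {x : Fin (m + 2) → ℂ} (hw : ‖x 1‖ ≤ 1) : HM m c s t (GM m c s t x) = x := by
  have hd := den_ne ht0 ht hw
  have hstC : (s : ℂ) ^ 2 + (t : ℂ) ^ 2 = 1 := by exact_mod_cast hst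
  have hsC : (s : ℂ) ≠ 0 := by exact_mod_cast hs.ne'
  have hcC : (c : ℂ) ≠ 0 := by exact_mod_cast hc.ne'
  have e1 : (1 : ℂ) + t * ((x 1 - t) / (1 - t * x 1)) = s ^ 2 / (1 - t * x 1) := by
    field_simp
    linear_combination - hstC
  apply ext3
  · simp only [GM, HM, mk0, mk1]
    rw [e1]
    field_simp
  · simp only [GM, HM, mk1]
    have e2 : (x 1 - t) / (1 - t * x 1) + t = x 1 * (s ^ 2 / (1 - t * x 1)) := by
      rw [← sub_neg_eq_add ((x 1 - t) / (1 - t * x 1))]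
      apply alg1 hd
      linear_combination (-x 1) * hstC
    rw [e1, e2, mul_div_assoc, div_self (div_ne_zero (pow_ne_zero 2 hsC) hd), mul_one]
  · intro i
    simp only [GM, HM, mks, mk1]
    rw [e1]
    field_simp

lemma GM_diff (hk : 1 ≤ k) (ht0 : 0 ≤ t) (ht : t < 1) :
    DifferentiableOn ℂ (GM m c s t) (Egg k m) := by
  have hd : ∀ x ∈ Egg k m, (1 : ℂ) - t * x 1 ≠ 0 := fun x hx =>
    den_ne ht0 ht (norm_le_egg k m hk (le_of_lt hx) 1)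
  apply mk_diff
  · refine div_diffOn ?_ ?_ hd <;> fun_prop
  · refine div_diffOn ?_ ?_ hd <;> fun_prop
  · intro i
    refine div_diffOn ?_ ?_ hd <;> fun_prop

lemma GM_maps (hk : 1 ≤ k) (hck : c ^ 2 = k) (ht0 : 0 ≤ t) (ht : t < 1)
    (hs : 0 < s) (hst : s ^ 2 + t ^ 2 = 1) {x : Fin (m + 2) → ℂ} (hx : x ∈ Egg k m) :
    GM m c s t x ∈ eball (m + 2) 1 := by
  have hx1 : ‖x 1‖ ≤ 1 := norm_le_egg k m hk (le_of_lt hx) 1
  have hd := den_ne ht0 ht hx1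
  have hx' : ‖x 0‖ ^ 2 + ‖x 1‖ ^ (2 * k) + rest m x < 1 := by
    rw [← Ph_eq]; exact hx
  show ∑ i, ‖GM m c s t x i‖ ^ 2 < 1 ^ 2
  unfold GM
  rw [sum_mk]
  simp only [norm_div, norm_mul, div_pow, mul_pow, Complex.norm_real, Real.norm_eq_abs, sq_abs]
  rw [hck]
  have e1 : ∑ i : Fin m, s ^ 2 * (‖x i.succ.succ‖ ^ 2 / k) / ‖1 - (t : ℂ) * x 1‖ ^ 2 =
      s ^ 2 * (rest m x / k) / ‖1 - (t : ℂ) * x 1‖ ^ 2 := by
    unfold rest
    rw [Finset.sum_div, Finset.mul_sum, Finset.sum_div]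
  rw [e1]
  have hdp : 0 < ‖1 - (t : ℂ) * x 1‖ ^ 2 := by positivity
  rw [← add_div, ← add_div, div_lt_iff₀ hdp, one_pow, one_mul]
  have hm := mob t (x 1)
  have hkp : (0 : ℝ) < k := by exact_mod_cast hk
  have h2 : ‖x 0‖ ^ 2 / k + rest m x / k < 1 - ‖x 1‖ ^ 2 := by
    rw [← add_div, div_lt_iff₀ hkp]
    have h3 := bern (x := 1 - ‖x 1‖ ^ 2) (by nlinarith [sq_nonneg ‖x 1‖]) k
    have e2 : (1 : ℝ) - (1 - ‖x 1‖ ^ 2) = ‖x 1‖ ^ 2 := by ring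
    rw [e2, ← pow_mul] at h3
    linarith
  have hs2 : 0 < s ^ 2 := by positivity
  have h3 := mul_lt_mul_of_pos_left h2 hs2
  have e3 : 1 - t ^ 2 = s ^ 2 := by linarith
  rw [e3] at hm
  linarith

lemma HM_maps (hk : 1 ≤ k) (hck : c ^ 2 = k) (ht0 : 0 ≤ t) (ht : t < 1)
    (hs : 0 < s) (hst : s ^ 2 + t ^ 2 = 1) {r : ℝ} (hr0 : 0 < r) (hr1 : r < 1)
    (hsm : k * s ^ 2 < (1 - r ^ 2) * (1 - r) ^ 2) {w : Fin (m + 2) → ℂ}
    (hw : w ∈ eball (m + 2) r) : HM m c s t w ∈ Egg k m := by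
  have hw' : ‖w 0‖ ^ 2 + ‖w 1‖ ^ 2 + rest m w < r ^ 2 := by
    rw [← sum_sq_eq]; exact hw
  have hR := rest_nonneg m w
  have hw1 : ‖w 1‖ < r := by
    have : ‖w 1‖ ^ 2 < r ^ 2 := by nlinarith [sq_nonneg ‖w 0‖]
    exact lt_of_pow_lt_pow_left₀ 2 hr0.le this
  have hd := den_ne' ht0 ht (hw1.le.trans hr1.le)
  have hdr : 1 - r ≤ ‖1 + (t : ℂ) * w 1‖ := by
    have h1 : ‖(t : ℂ) * w 1‖ ≤ r := by
      rw [norm_mul, Complex.norm_real, Real.norm_of_nonneg ht0]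
      nlinarith [norm_nonneg (w 1)]
    have h2 : ‖(1 : ℂ)‖ - ‖(t : ℂ) * w 1‖ ≤ ‖1 + (t : ℂ) * w 1‖ := by
      have := norm_sub_norm_le (1 : ℂ) (-((t : ℂ) * w 1))
      simpa using this
    rw [norm_one] at h2
    linarith
  show Ph k m (HM m c s t w) < 1
  rw [Ph_eq]
  set N := ‖1 + (t : ℂ) * w 1‖ ^ 2 with hN
  have hNp : 0 < N := by positivity
  have hNr : (1 - r) ^ 2 ≤ N := by
    rw [hN]
    have : 0 < 1 - r := by linarith
    gcongr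
  have e0 : ‖HM m c s t w 0‖ ^ 2 = k * (s ^ 2 * ‖w 0‖ ^ 2 / N) := by
    simp only [HM, mk0, norm_div, norm_mul, div_pow, mul_pow, Complex.norm_real,
      Real.norm_eq_abs, sq_abs]
    rw [hck]
  have es : rest m (HM m c s t w) = k * (s ^ 2 * rest m w / N) := by
    unfold rest
    simp only [HM, mks, norm_div, norm_mul, div_pow, mul_pow, Complex.norm_real,
      Real.norm_eq_abs, sq_abs]
    rw [hck, ← Finset.mul_sum, ← Finset.sum_div, ← Finset.mul_sum]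
  have e1 : ‖HM m c s t w 1‖ ^ 2 = 1 - s ^ 2 * (1 - ‖w 1‖ ^ 2) / N := by
    simp only [HM, mk1, norm_div, div_pow]
    have hm := mob' t (w 1)
    have e3 : 1 - t ^ 2 = s ^ 2 := by linarith
    rw [e3] at hm
    rw [← hN] at hm ⊢
    rw [← hm]
    field_simp
    ring
  set κ := s ^ 2 * (1 - ‖w 1‖ ^ 2) / N with hκ
  have hκ0 : 0 ≤ κ := by
    have : 0 ≤ 1 - ‖w 1‖ ^ 2 := by nlinarith [norm_nonneg (w 1)]
    positivity
  have hκ1 : κ ≤ 1 := by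
    have : 0 ≤ ‖HM m c s t w 1‖ ^ 2 := by positivity
    linarith
  have hκ2 : κ ≤ s ^ 2 / N := by
    rw [hκ]
    apply div_le_div_of_nonneg_right _ hNp.le
    have : 0 ≤ s ^ 2 * ‖w 1‖ ^ 2 := by positivity
    linarith
  have h4 := pow_le_quad hκ0 hκ1 k
  rw [e0, es, pow_mul, e1]
  have hkp : (0 : ℝ) < k := by exact_mod_cast hk
  have h5 : κ - (s ^ 2 * ‖w 0‖ ^ 2 / N + s ^ 2 * rest m w / N) =
      s ^ 2 / N * (1 - ‖w 1‖ ^ 2 - ‖w 0‖ ^ 2 - rest m w) := by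
    rw [hκ]; ring
  have hsN : 0 < s ^ 2 / N := by positivity
  have h6 : s ^ 2 / N * (1 - r ^ 2) <
      κ - (s ^ 2 * ‖w 0‖ ^ 2 / N + s ^ 2 * rest m w / N) := by
    rw [h5]
    exact mul_lt_mul_of_pos_left (by linarith) hsN
  have h7 : k * (s ^ 2 / N) ≤ 1 - r ^ 2 := by
    rw [mul_div_assoc', div_le_iff₀ hNp]
    have : 0 < 1 - r ^ 2 := by nlinarith
    calc k * s ^ 2 ≤ (1 - r ^ 2) * (1 - r) ^ 2 := hsm.le
      _ ≤ (1 - r ^ 2) * N := by gcongr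
  have h8 : (k : ℝ) * κ ^ 2 ≤ s ^ 2 / N * (1 - r ^ 2) := by
    calc (k : ℝ) * κ ^ 2 ≤ k * (s ^ 2 / N) ^ 2 := by gcongr
      _ = s ^ 2 / N * (k * (s ^ 2 / N)) := by ring
      _ ≤ s ^ 2 / N * (1 - r ^ 2) := by gcongr
  have h9 : (k : ℝ) * κ ^ 2 / 2 < κ - (s ^ 2 * ‖w 0‖ ^ 2 / N + s ^ 2 * rest m w / N) := by
    have : 0 ≤ (k : ℝ) * κ ^ 2 := by positivity
    linarith
  have h10 := mul_lt_mul_of_pos_left h9 hkp
  nlinarith [h10, h4]

end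

end Pool.Agent.R233.Egg
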