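import Pool.Agent.R233.Egg3

set_option autoImplicit false

open Topology Filter Set

namespace Pool.Agent.R233.Egg

open Pool.Agent.R233

section

variable (k m : ℕ)

/-- automorphism of the egg -/
noncomputable def PM (a η : ℝ) (x : Fin (m + 2) → ℂ) : Fin (m + 2) → ℂ :=
  mk ((x 0 + a) / (1 + a * x 0)) (x 1 * η * Complex.exp (-(Complex.log (1 + a * x 0)) / k))
    (fun i => η ^ k * x i.succ.succ / (1 + a * x 0))

variable {k m} {a η : ℝ}

lemma re_pos' (ha : |a| < 1) {z : ℂ} (hz : ‖z‖ ≤ 1) : 0 < (1 + (a : ℂ) * z).re := by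
  have h1 : |((a : ℂ) * z).re| ≤ ‖(a : ℂ) * z‖ := Complex.abs_re_le_norm _
  have h2 : ‖(a : ℂ) * z‖ ≤ |a| := by
    rw [norm_mul, Complex.norm_real, Real.norm_eq_abs]
    nlinarith [abs_nonneg a]
  rw [Complex.add_re, Complex.one_re]
  have := (abs_le.1 h1).1
  linarith

lemma u_ne (ha : |a| < 1) {z : ℂ} (hz : ‖z‖ ≤ 1) : (1 + (a : ℂ) * z) ≠ 0 := by
  intro h
  have := re_pos' ha hz
  rw [h] at this
  simp at this

lemma u_slit (ha : |a| < 1) {z : ℂ} (hz : ‖z‖ ≤ 1) : (1 + (a : ℂ) * z) ∈ Complex.slitPlane :=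
  Or.inl (re_pos' ha hz)

lemma PM_diff (hk : 1 ≤ k) (ha : |a| < 1) : DifferentiableOn ℂ (PM k m a η) (Egg k m) := by
  have hx0 : ∀ x ∈ Egg k m, ‖x 0‖ ≤ 1 := fun x hx => norm_le_egg k m hk (le_of_lt hx) 0
  have hd : ∀ x ∈ Egg k m, (1 : ℂ) + a * x 0 ≠ 0 := fun x hx => u_ne ha (hx0 x hx)
  apply mk_diff
  · refine div_diffOn ?_ ?_ hd <;> fun_prop
  · have h1 : DifferentiableOn ℂ (fun x : Fin (m + 2) → ℂ => Complex.log (1 + a * x 0))
        (Egg k m) := by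
      apply DifferentiableOn.clog
      · fun_prop
      · intro x hx
        exact u_slit ha (hx0 x hx)
    have h2 : DifferentiableOn ℂ (fun x : Fin (m + 2) → ℂ =>
        Complex.exp (-(Complex.log (1 + a * x 0)) / k)) (Egg k m) := by
      apply DifferentiableOn.cexp
      simp only [div_eq_mul_inv]
      exact h1.neg.mul_const _
    refine DifferentiableOn.mul ?_ h2
    fun_prop
  · intro i
    refine div_diffOn ?_ ?_ hd <;> fun_prop

lemma PM_Ph (hk : 1 ≤ k) (ha : |a| < 1) (h : a ^ 2 + η ^ (2 * k) = 1)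
    {x : Fin (m + 2) → ℂ} (hx0 : ‖x 0‖ ≤ 1) :
    1 - Ph k m (PM k m a η x) = η ^ (2 * k) * (1 - Ph k m x) / ‖1 + (a : ℂ) * x 0‖ ^ 2 := by
  have hu := u_ne ha hx0
  have hN : 0 < ‖1 + (a : ℂ) * x 0‖ ^ 2 := by positivity
  have hexp : ‖Complex.exp (-(Complex.log (1 + a * x 0)) / k)‖ ^ (2 * k) =
      (‖1 + (a : ℂ) * x 0‖ ^ 2)⁻¹ := by
    have h1 : Complex.exp (-(Complex.log (1 + a * x 0)) / k) ^ k = (1 + (a : ℂ) * x 0)⁻¹ := by
      rw [← Complex.exp_nat_mul]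
      have hk' : (k : ℂ) ≠ 0 := by
        have : k ≠ 0 := by omega
        exact_mod_cast this
      rw [mul_div_cancel₀ _ hk', Complex.exp_neg, Complex.exp_log hu]
    rw [mul_comm 2 k, pow_mul, ← norm_pow, h1, norm_inv, inv_pow]
  have habs : |η| ^ (2 * k) = η ^ (2 * k) := by
    rw [pow_mul, pow_mul, sq_abs]
  have e0 : ‖PM k m a η x 0‖ ^ 2 = ‖x 0 + a‖ ^ 2 / ‖1 + (a : ℂ) * x 0‖ ^ 2 := by
    simp only [PM, mk0, norm_div, div_pow]
  have e1 : ‖PM k m a η x 1‖ ^ (2 * k) =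
      η ^ (2 * k) * ‖x 1‖ ^ (2 * k) / ‖1 + (a : ℂ) * x 0‖ ^ 2 := by
    simp only [PM, mk1, norm_mul, mul_pow, Complex.norm_real, Real.norm_eq_abs]
    rw [hexp, habs]
    field_simp
  have es : rest m (PM k m a η x) = η ^ (2 * k) * rest m x / ‖1 + (a : ℂ) * x 0‖ ^ 2 := by
    unfold rest
    rw [Finset.mul_sum, Finset.sum_div]
    apply Finset.sum_congr rfl
    intro i _
    simp only [PM, mks, norm_mul, norm_div, norm_pow, mul_pow, div_pow, Complex.norm_real,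
      Real.norm_eq_abs]
    rw [← pow_mul, mul_comm k 2, habs]
  rw [Ph_eq, Ph_eq, e0, e1, es]
  have hm := mob' a (x 0)
  have e3 : 1 - a ^ 2 = η ^ (2 * k) := by linarith
  rw [e3] at hm
  rw [eq_div_iff hN.ne', sub_mul, one_mul, add_mul, add_mul, div_mul_cancel₀ _ hN.ne',
    div_mul_cancel₀ _ hN.ne', div_mul_cancel₀ _ hN.ne']
  linarith

lemma PM_maps (hk : 1 ≤ k) (ha : |a| < 1) (hη : 0 < η) (h : a ^ 2 + η ^ (2 * k) = 1) :
    MapsTo (PM k m a η) (Egg k m) (Egg k m) := by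
  intro x hx
  have hx0 := norm_le_egg k m hk (le_of_lt hx) 0
  have h1 := PM_Ph hk ha h hx0
  have hu := u_ne ha hx0
  have hN : 0 < ‖1 + (a : ℂ) * x 0‖ ^ 2 := by positivity
  have hx' : Ph k m x < 1 := hx
  have h2 : 0 < η ^ (2 * k) * (1 - Ph k m x) / ‖1 + (a : ℂ) * x 0‖ ^ 2 := by
    have : 0 < 1 - Ph k m x := by linarith
    positivity
  show Ph k m (PM k m a η x) < 1
  linarith

lemma PM_inv (hk : 1 ≤ k) (ha : |a| < 1) (hη : 0 < η) (h : a ^ 2 + η ^ (2 * k) = 1)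
    {x : Fin (m + 2) → ℂ} (hx : x ∈ Egg k m) : PM k m (-a) η (PM k m a η x) = x := by
  have hx0 := norm_le_egg k m hk (le_of_lt hx) 0
  have hu := u_ne ha hx0
  have hηC : (η : ℂ) ≠ 0 := by exact_mod_cast hη.ne'
  have hC : (a : ℂ) ^ 2 + (η : ℂ) ^ (2 * k) = 1 := by exact_mod_cast h
  have hk' : (k : ℂ) ≠ 0 := by
    have : k ≠ 0 := by omega
    exact_mod_cast this
  have e1 : (1 : ℂ) + ((-a : ℝ) : ℂ) * ((x 0 + a) / (1 + a * x 0)) =
      (η : ℂ) ^ (2 * k) / (1 + a * x 0) := by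
    rw [eq_div_iff hu, add_mul, mul_assoc, div_mul_cancel₀ _ hu]
    push_cast
    linear_combination - hC
  have hne : (η : ℂ) ^ (2 * k) / (1 + a * x 0) ≠ 0 := div_ne_zero (pow_ne_zero _ hηC) hu
  have elog : Complex.log ((η : ℂ) ^ (2 * k) / (1 + a * x 0)) =
      ((2 * k * Real.log η : ℝ) : ℂ) - Complex.log (1 + a * x 0) := by
    have h1 : (η : ℂ) ^ (2 * k) / (1 + a * x 0) = ((η ^ (2 * k) : ℝ) : ℂ) * (1 + a * x 0)⁻¹ := by
      push_cast
      rw [div_eq_mul_inv]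
    rw [h1, Complex.log_ofReal_mul (by positivity) (inv_ne_zero hu), Complex.log_inv,
      Real.log_pow]
    · push_cast; ring
    · exact Complex.slitPlane_arg_ne_pi (u_slit ha hx0)
  have hexp : Complex.exp (((Real.log η : ℝ)) : ℂ) = η := by
    rw [← Complex.ofReal_exp, Real.exp_log hη]
  apply ext3
  · simp only [PM, mk0]
    rw [e1]
    have e2 : (x 0 + a) / (1 + a * x 0) + ((-a : ℝ) : ℂ) =
        x 0 * ((η : ℂ) ^ (2 * k) / (1 + a * x 0)) := by
      rw [← sub_neg_eq_add]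
      apply alg1 hu
      push_cast
      linear_combination (-x 0) * hC
    rw [e2, mul_div_assoc, div_self hne, mul_one]
  · simp only [PM, mk0, mk1]
    rw [e1, elog]
    have e3 : x 1 * η * Complex.exp (-Complex.log (1 + a * x 0) / k) * η *
        Complex.exp (-(((2 * k * Real.log η : ℝ) : ℂ) - Complex.log (1 + a * x 0)) / k) =
        x 1 * (η * η * (Complex.exp (-Complex.log (1 + a * x 0) / k) *
        Complex.exp (-(((2 * k * Real.log η : ℝ) : ℂ) - Complex.log (1 + a * x 0)) / k))) := by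
      ring
    rw [e3, ← Complex.exp_add]
    have e4 : -Complex.log (1 + a * x 0) / k +
        -(((2 * k * Real.log η : ℝ) : ℂ) - Complex.log (1 + a * x 0)) / k =
        -(((Real.log η : ℝ) : ℂ) + ((Real.log η : ℝ) : ℂ)) := by
      push_cast
      field_simp
      ring
    rw [e4, Complex.exp_neg, Complex.exp_add, hexp, mul_inv_cancel₀ (mul_ne_zero hηC hηC), mul_one]
  · intro i
    simp only [PM, mk0, mks]
    rw [e1]
    have e5 : (η : ℂ) ^ (2 * k) = η ^ k * η ^ k := by ring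
    rw [e5]
    have : (η : ℂ) ^ k ≠ 0 := pow_ne_zero _ hηC
    field_simp

/-- the base point -/
noncomputable def qq (m : ℕ) (t : ℝ) : Fin (m + 2) → ℂ := mk 0 t 0

lemma qq_mem (hk : 1 ≤ k) {t : ℝ} (ht0 : 0 ≤ t) (ht : t < 1) : qq m t ∈ Egg k m := by
  show Ph k m _ < 1
  rw [Ph_eq]
  have : rest m (qq m t) = 0 := by
    unfold rest qq
    simp [mks]
  rw [this]
  simp only [qq, mk0, mk1, norm_zero, Complex.norm_real, Real.norm_of_nonneg ht0]
  have := pow_lt_one₀ ht0 ht (n := 2 * k) (by omega)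
  simpa using this

lemma PM_qq (t : ℝ) : PM k m a η (qq m t) = mk (a : ℂ) ((t * η : ℝ) : ℂ) 0 := by
  apply ext3
  · simp [PM, qq, mk0]
  · simp [PM, qq, mk0, mk1]
  · intro i
    simp [PM, qq, mks]

lemma GM_qq {c s t : ℝ} : GM m c s t (qq m t) = 0 := by
  apply ext3
  · simp [GM, qq, mk0]
  · simp [GM, qq, mk1]
  · intro i
    simp [GM, qq, mks]

lemma squeezing_set_le {n : ℕ} (hn : 1 ≤ n) {D : Set (Fin n → ℂ)} {z : Fin n → ℂ} {r : ℝ}
    (hr : r ∈ {r : ℝ | 0 < r ∧ ∃ F : (Fin n → ℂ) → (Fin n → ℂ), DifferentiableOn ℂ F D ∧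
      InjOn F D ∧ MapsTo F D (eball n 1) ∧ F z = 0 ∧ eball n r ⊆ F '' D}) : r ≤ 1 := by
  obtain ⟨h0, F, -, -, hmap, -, him⟩ := hr
  by_contra hcon
  push Not at hcon
  obtain ⟨n, rfl⟩ : ∃ m, n = m + 1 := ⟨n - 1, by omega⟩
  have hs : ∑ i : Fin (n + 1), ‖(Pi.single 0 1 : Fin (n + 1) → ℂ) i‖ ^ 2 = 1 := by
    rw [Finset.sum_eq_single 0]
    · simp
    · intro b _ hb
      rw [Pi.single_eq_of_ne hb]
      simp
    · simp
  have h1 : (Pi.single 0 1 : Fin (n + 1) → ℂ) ∈ eball (n + 1) r := by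
    show ∑ i : Fin (n + 1), ‖(Pi.single 0 1 : Fin (n + 1) → ℂ) i‖ ^ 2 < r ^ 2
    rw [hs]; nlinarith
  obtain ⟨x, hx, hxe⟩ := him h1
  have h2 : (∑ i : Fin (n + 1), ‖F x i‖ ^ 2) < 1 ^ 2 := hmap hx
  rw [hxe, hs] at h2
  norm_num at h2

lemma squeezing_le_one {n : ℕ} (hn : 1 ≤ n) (D : Set (Fin n → ℂ)) (z : Fin n → ℂ) :
    squeezing D z ≤ 1 := by
  apply Real.sSup_le
  · intro r hr
    exact squeezing_set_le hn hr
  · exact zero_le_one

lemma squeezing_ge (hk : 1 ≤ k) (ha0 : 0 ≤ a) (ha : a < 1) (hη : 0 < η)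
    (h : a ^ 2 + η ^ (2 * k) = 1) {t : ℝ} (ht0 : 0 ≤ t) (ht : t < 1) {r : ℝ} (hr0 : 0 < r)
    (hr1 : r < 1) (hsm : k * (1 - t ^ 2) < (1 - r ^ 2) * (1 - r) ^ 2) :
    r ≤ squeezing (Egg k m) (PM k m a η (qq m t)) := by
  have hkp : (0 : ℝ) < k := by exact_mod_cast hk
  set c := Real.sqrt k with hc
  have hc0 : 0 < c := Real.sqrt_pos.2 hkp
  have hck : c ^ 2 = k := Real.sq_sqrt hkp.le
  have ht2 : 0 < 1 - t ^ 2 := by nlinarith
  set s := Real.sqrt (1 - t ^ 2) with hs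
  have hs0 : 0 < s := Real.sqrt_pos.2 ht2
  have hs2 : s ^ 2 = 1 - t ^ 2 := Real.sq_sqrt ht2.le
  have hst : s ^ 2 + t ^ 2 = 1 := by linarith
  have ha' : |a| < 1 := by rw [abs_of_nonneg ha0]; exact ha
  have ha'' : |(-a)| < 1 := by rw [abs_neg]; exact ha'
  have h' : (-a) ^ 2 + η ^ (2 * k) = 1 := by rw [neg_sq]; exact h
  have hG : ∀ x ∈ Egg k m, HM m c s t (GM m c s t x) = x := fun x hx =>
    HM_GM hc0 hs0 ht0 ht hst (norm_le_egg k m hk (le_of_lt hx) 1)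
  have hP : ∀ x ∈ Egg k m, PM k m a η (PM k m (-a) η x) = x := fun x hx => by
    have := PM_inv hk ha'' hη h' hx
    rwa [neg_neg] at this
  unfold squeezing
  apply le_csSup
  · exact ⟨1, fun r hr => squeezing_set_le (by omega) hr⟩
  · refine ⟨hr0, fun x => GM m c s t (PM k m (-a) η x), ?_, ?_, ?_, ?_, ?_⟩
    · exact (GM_diff hk ht0 ht).comp (PM_diff hk ha'') (PM_maps hk ha'' hη h')
    · intro x hx y hy hxy
      have h1 := congrArg (HM m c s t) hxy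
      simp only at h1
      rw [hG _ (PM_maps hk ha'' hη h' hx), hG _ (PM_maps hk ha'' hη h' hy)] at h1
      have h2 := congrArg (PM k m a η) h1
      rwa [hP x hx, hP y hy] at h2
    · intro x hx
      exact GM_maps hk hck ht0 ht hs0 hst (PM_maps hk ha'' hη h' hx)
    · show GM m c s t (PM k m (-a) η (PM k m a η (qq m t))) = 0
      rw [PM_inv hk ha' hη h (qq_mem hk ht0 ht), GM_qq]
    · intro w hw
      have hw1 : ‖w 1‖ ≤ 1 := by
        have h1 : ‖w 1‖ ^ 2 ≤ ∑ i, ‖w i‖ ^ 2 :=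
          Finset.single_le_sum (f := fun l => ‖w l‖ ^ 2) (fun l _ => by positivity)
            (Finset.mem_univ _)
        have h2 : ∑ i, ‖w i‖ ^ 2 < r ^ 2 := hw
        have h3 : ‖w 1‖ ^ 2 < 1 ^ 2 := by nlinarith
        exact (lt_of_pow_lt_pow_left₀ 2 zero_le_one h3).le
      have hH : HM m c s t w ∈ Egg k m :=
        HM_maps hk hck ht0 ht hs0 hst hr0 hr1 (by rw [hs2]; exact hsm) hw
      refine ⟨PM k m a η (HM m c s t w), PM_maps hk ha' hη h hH, ?_⟩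
      show GM m c s t (PM k m (-a) η (PM k m a η (HM m c s t w))) = w
      rw [PM_inv hk ha' hη h hH, GM_HM hc0 hs0 ht0 ht hst hw1]

lemma Ph_lip (hk : 1 ≤ k) {x y : Fin (m + 2) → ℂ} (hx : Ph k m x ≤ 1) (hy : Ph k m y ≤ 1) :
    Ph k m y - Ph k m x ≤ 2 * k * (m + 2) * ‖y - x‖ := by
  unfold Ph
  rw [← Finset.sum_sub_distrib]
  have h1 : ∀ i : Fin (m + 2), ‖GG k m i y‖ ^ 2 - ‖GG k m i x‖ ^ 2 ≤ 2 * k * ‖y - x‖ := by
    intro i
    have e : ∀ z : Fin (m + 2) → ℂ, ‖GG k m i z‖ ^ 2 = ‖z i‖ ^ (2 * ee k m i) := by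
      intro z
      unfold GG
      rw [norm_pow, ← pow_mul, mul_comm]
    rw [e, e]
    have h2 := abs_pow_sub_pow_le ‖y i‖ ‖x i‖ (2 * ee k m i)
    rw [abs_norm, abs_norm] at h2
    have h3 : max ‖y i‖ ‖x i‖ ^ (2 * ee k m i - 1) ≤ 1 := by
      apply pow_le_one₀
      · exact le_max_of_le_left (norm_nonneg _)
      · exact max_le (norm_le_egg k m hk hy i) (norm_le_egg k m hk hx i)
    have h4 : |‖y i‖ - ‖x i‖| ≤ ‖y - x‖ := by
      refine (abs_norm_sub_norm_le _ _).trans ?_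
      have := norm_le_pi_norm (y - x) i
      simpa using this
    have h5 : ((2 * ee k m i : ℕ) : ℝ) ≤ 2 * k := by
      have := ee_le k m hk i
      have h6 : 2 * ee k m i ≤ 2 * k := by omega
      exact_mod_cast h6
    calc ‖y i‖ ^ (2 * ee k m i) - ‖x i‖ ^ (2 * ee k m i)
        ≤ |‖y i‖ ^ (2 * ee k m i) - ‖x i‖ ^ (2 * ee k m i)| := le_abs_self _
      _ ≤ |‖y i‖ - ‖x i‖| * ((2 * ee k m i : ℕ) : ℝ) * max ‖y i‖ ‖x i‖ ^ (2 * ee k m i - 1) := h2
      _ ≤ ‖y - x‖ * (2 * k) * 1 := by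
          gcongr
      _ = 2 * k * ‖y - x‖ := by ring
  calc ∑ i, (‖GG k m i y‖ ^ 2 - ‖GG k m i x‖ ^ 2) ≤ ∑ _i : Fin (m + 2), 2 * k * ‖y - x‖ :=
        Finset.sum_le_sum fun i _ => h1 i
    _ = 2 * k * (m + 2) * ‖y - x‖ := by
        rw [Finset.sum_const, Finset.card_univ, Fintype.card_fin, nsmul_eq_mul]
        push_cast
        ring

lemma exists_small {ω : ℝ → ℝ} (hω : Tendsto ω (𝓝[>] 0) atTop) (C : ℝ) :
    ∃ ε > 0, ∀ δ, 0 < δ → δ < ε → C ≤ ω δ := by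
  have h1 := hω.eventually_ge_atTop C
  rw [eventually_nhdsWithin_iff, Metric.eventually_nhds_iff] at h1
  obtain ⟨ε, hε, h⟩ := h1
  refine ⟨ε, hε, fun δ h0 h1 => h ?_ h0⟩
  rw [Real.dist_eq, sub_zero, abs_of_pos h0]
  exact h1

lemma egg_seq (hk : 1 ≤ k) {ω : ℝ → ℝ} (hω : Tendsto ω (𝓝[>] 0) atTop) :
    ∃ z : ℕ → (Fin (m + 2) → ℂ), (∀ ν, z ν ∈ Egg k m) ∧ Tendsto z atTop (𝓝 (pp m)) ∧
      Tendsto (fun ν => squeezing (Egg k m) (z ν)) atTop (𝓝 1) ∧
      ∀ ν, ‖z ν - pp m‖ ≤ ω (Metric.infDist (z ν) (frontier (Egg k m))) *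
        Metric.infDist (z ν) (frontier (Egg k m)) ^ (1 / (2 * (k : ℝ))) := by
  have hkp : (0 : ℝ) < k := by exact_mod_cast hk
  set c : ℝ := (2 * k * (m + 2))⁻¹ with hc
  have hc0 : 0 < c := by positivity
  set t : ℕ → ℝ := fun ν => 1 - 1 / ((ν : ℝ) + 2) with ht
  have ht0 : ∀ ν, 0 ≤ t ν := by
    intro ν
    have : 1 / ((ν : ℝ) + 2) ≤ 1 := by
      rw [div_le_one (by positivity)]
      have : (0 : ℝ) ≤ ν := Nat.cast_nonneg ν
      linarith
    simp only [ht]; linarith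
  have ht1 : ∀ ν, t ν < 1 := by
    intro ν
    have : 0 < 1 / ((ν : ℝ) + 2) := by positivity
    simp only [ht]; linarith
  set b : ℕ → ℝ := fun ν => c * (1 - t ν ^ (2 * k)) with hb
  have hb0 : ∀ ν, 0 < b ν := by
    intro ν
    have := pow_lt_one₀ (ht0 ν) (ht1 ν) (n := 2 * k) (by omega)
    have h2 : 0 < 1 - t ν ^ (2 * k) := by linarith
    simp only [hb]; positivity
  set e : ℝ := 1 / (2 * (k : ℝ)) with he
  have he0 : 0 < e := by positivity
  choose ε hε hεω using fun ν => exists_small hω ((b ν) ^ (-e))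
  set η : ℕ → ℝ := fun ν => min (ε ν / 2) (1 / ((ν : ℝ) + 2)) with hη
  have hη0 : ∀ ν, 0 < η ν := by
    intro ν
    simp only [hη]
    exact lt_min (by have := hε ν; linarith) (by positivity)
  have hηε : ∀ ν, η ν < ε ν := by
    intro ν
    have := hε ν
    exact (min_le_left _ _).trans_lt (by linarith)
  have hην : ∀ ν, η ν ≤ 1 / ((ν : ℝ) + 2) := fun ν => min_le_right _ _
  have hη1 : ∀ ν, η ν < 1 := by
    intro ν
    refine (hην ν).trans_lt ?_
    rw [div_lt_one (by positivity)]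
    have : (0 : ℝ) ≤ ν := Nat.cast_nonneg ν
    linarith
  have hη2 : ∀ ν, η ν ^ (2 * k) < 1 := fun ν => pow_lt_one₀ (hη0 ν).le (hη1 ν) (by omega)
  have hη3 : ∀ ν, η ν ^ (2 * k) ≤ η ν := fun ν =>
    pow_le_of_le_one (hη0 ν).le (hη1 ν).le (by omega)
  have hη4 : ∀ ν, 0 < η ν ^ (2 * k) := fun ν => pow_pos (hη0 ν) _
  set a : ℕ → ℝ := fun ν => Real.sqrt (1 - η ν ^ (2 * k)) with ha
  have ha0 : ∀ ν, 0 ≤ a ν := fun ν => Real.sqrt_nonneg _
  have ha2 : ∀ ν, a ν ^ 2 = 1 - η ν ^ (2 * k) := fun ν =>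
    Real.sq_sqrt (by have := hη2 ν; linarith)
  have ha3 : ∀ ν, a ν ^ 2 + η ν ^ (2 * k) = 1 := fun ν => by rw [ha2]; ring
  have ha1 : ∀ ν, a ν < 1 := by
    intro ν
    have h1 : a ν ^ 2 < 1 ^ 2 := by rw [ha2]; have := hη4 ν; linarith
    exact lt_of_pow_lt_pow_left₀ 2 zero_le_one h1
  have haη : ∀ ν, 1 - a ν ≤ η ν := by
    intro ν
    have h1 : a ν ^ 2 ≤ a ν := by nlinarith [ha0 ν, ha1 ν]
    have h2 := ha2 ν
    have h3 := hη3 ν
    linarith
  set z : ℕ → (Fin (m + 2) → ℂ) := fun ν => PM k m (a ν) (η ν) (qq m (t ν)) with hz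
  have hzmem : ∀ ν, z ν ∈ Egg k m := by
    intro ν
    apply PM_maps hk _ (hη0 ν) (ha3 ν) (qq_mem hk (ht0 ν) (ht1 ν))
    rw [abs_of_nonneg (ha0 ν)]; exact ha1 ν
  have hzn : ∀ ν, ‖z ν - pp m‖ ≤ η ν := by
    intro ν
    rw [pi_norm_le_iff_of_nonneg (hη0 ν).le]
    simp only [hz, PM_qq]
    intro i
    refine Fin.cases ?_ (fun i => ?_) i
    · rw [Pi.sub_apply, mk0, pp0]
      have : ((a ν : ℝ) : ℂ) - 1 = ((a ν - 1 : ℝ) : ℂ) := by push_cast; ring
      rw [this, Complex.norm_real, Real.norm_eq_abs, abs_le]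
      have := haη ν
      have := ha1 ν
      have := hη0 ν
      constructor <;> linarith
    · refine Fin.cases ?_ (fun i => ?_) i
      · have e1 : (Fin.succ (0 : Fin (m + 1)) : Fin (m + 2)) = 1 := rfl
        rw [e1, Pi.sub_apply, mk1, pp1, sub_zero, Complex.norm_real, Real.norm_eq_abs,
          abs_of_nonneg (mul_nonneg (ht0 ν) (hη0 ν).le)]
        nlinarith [ht1 ν, hη0 ν]
      · rw [Pi.sub_apply, mks, pps]
        simpa using (hη0 ν).le
  have hzPh : ∀ ν, 1 - Ph k m (z ν) = η ν ^ (2 * k) * (1 - t ν ^ (2 * k)) := by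
    intro ν
    have hr : rest m (mk ((a ν : ℝ) : ℂ) ((t ν * η ν : ℝ) : ℂ) 0) = 0 := by
      unfold rest
      simp [mks]
    simp only [hz, PM_qq]
    rw [Ph_eq, mk0, mk1, hr, Complex.norm_real, Complex.norm_real, Real.norm_of_nonneg (ha0 ν),
      Real.norm_of_nonneg (mul_nonneg (ht0 ν) (hη0 ν).le), ha2, mul_pow]
    ring
  refine ⟨z, hzmem, ?_, ?_, ?_⟩
  · rw [tendsto_iff_norm_sub_tendsto_zero]
    apply squeeze_zero (fun _ => norm_nonneg _) (fun ν => (hzn ν).trans (hην ν))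
    have h1 : Tendsto (fun ν : ℕ => 1 / ((ν : ℝ) + 2)) atTop (𝓝 0) := by
      apply Tendsto.div_atTop tendsto_const_nhds
      exact tendsto_atTop_add_const_right _ _ tendsto_natCast_atTop_atTop
    exact h1
  · rw [tendsto_order]
    constructor
    · intro r' hr'
      obtain ⟨r, hr1, hr2⟩ := exists_between (max_lt hr' one_pos)
      have hr0 : 0 < r := (le_max_right _ _).trans_lt hr1
      have hrr : r' < r := (le_max_left _ _).trans_lt hr1
      have h1 : Tendsto (fun ν : ℕ => (k : ℝ) * (1 - t ν ^ 2)) atTop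
          (𝓝 ((k : ℝ) * (1 - (1 - 0) ^ 2))) := by
        apply Tendsto.const_mul
        apply Tendsto.const_sub
        apply Tendsto.pow
        apply Tendsto.const_sub
        apply Tendsto.div_atTop tendsto_const_nhds
        exact tendsto_atTop_add_const_right _ _ tendsto_natCast_atTop_atTop
      have h2 : 0 < (1 - r ^ 2) * (1 - r) ^ 2 := by
        have : 0 < 1 - r ^ 2 := by nlinarith
        have : 0 < 1 - r := by linarith
        positivity
      have h3 : ∀ᶠ ν : ℕ in atTop, (k : ℝ) * (1 - t ν ^ 2) < (1 - r ^ 2) * (1 - r) ^ 2 := by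
        have e0 : (k : ℝ) * (1 - (1 - 0) ^ 2) = 0 := by ring
        rw [e0] at h1
        exact h1.eventually_lt_const h2
      filter_upwards [h3] with ν hν
      exact hrr.trans_le (squeezing_ge hk (ha0 ν) (ha1 ν) (hη0 ν) (ha3 ν) (ht0 ν) (ht1 ν)
        hr0 hr2 hν)
    · intro r hr
      apply Eventually.of_forall
      intro ν
      exact (squeezing_le_one (by omega) _ _).trans_lt hr
  · intro ν
    set δ := Metric.infDist (z ν) (frontier (Egg k m)) with hδ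
    have hpf := pp_frontier k m hk
    have hδη : δ ≤ η ν := by
      refine (Metric.infDist_le_dist_of_mem hpf).trans ?_
      rw [dist_eq_norm]
      exact hzn ν
    have hδl : b ν * η ν ^ (2 * k) ≤ δ := by
      rw [hδ, Metric.le_infDist ⟨_, hpf⟩]
      intro y hy
      have hy1 := frontier_Egg k m hy
      have h1 := Ph_lip hk (x := z ν) (y := y) (le_of_lt (hzmem ν)) hy1.le
      rw [hy1, hzPh] at h1
      have h2 : c * (η ν ^ (2 * k) * (1 - t ν ^ (2 * k))) ≤ c * (2 * k * (m + 2) * ‖y - z ν‖) :=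
        mul_le_mul_of_nonneg_left h1 hc0.le
      have h3 : c * (2 * k * (m + 2) * ‖y - z ν‖) = ‖y - z ν‖ := by
        rw [hc]; field_simp
      rw [h3] at h2
      rw [dist_comm, dist_eq_norm]
      simp only [hb]
      linarith
    have hδ0 : 0 < δ := lt_of_lt_of_le (mul_pos (hb0 ν) (hη4 ν)) hδl
    have hω1 := hεω ν δ hδ0 (hδη.trans_lt (hηε ν))
    have h5 : (b ν * η ν ^ (2 * k)) ^ e ≤ δ ^ e :=
      Real.rpow_le_rpow (mul_pos (hb0 ν) (hη4 ν)).le hδl he0.le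
    have h6 : (b ν * η ν ^ (2 * k)) ^ e = (b ν) ^ e * η ν := by
      rw [Real.mul_rpow (hb0 ν).le (hη4 ν).le]
      congr 1
      have e7 : e = ((2 * k : ℕ) : ℝ)⁻¹ := by
        rw [he]; push_cast; rw [one_div]
      rw [e7, Real.pow_rpow_inv_natCast (hη0 ν).le (by omega)]
    have h7 : (b ν) ^ (-e) * ((b ν) ^ e * η ν) = η ν := by
      rw [← mul_assoc, ← Real.rpow_add (hb0 ν)]
      simp
    calc ‖z ν - pp m‖ ≤ η ν := hzn ν
      _ = (b ν) ^ (-e) * ((b ν) ^ e * η ν) := h7.symm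
      _ ≤ (b ν) ^ (-e) * δ ^ e := by
          apply mul_le_mul_of_nonneg_left _ (Real.rpow_nonneg (hb0 ν).le _)
          rw [← h6]; exact h5
      _ ≤ ω δ * δ ^ e := mul_le_mul_of_nonneg_right hω1 (Real.rpow_nonneg hδ0.le _)

end

end Pool.Agent.R233.Egg
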