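import Pool.Agent.R233.SubMean

set_option autoImplicit false

open MeasureTheory Topology Filter Set

namespace Pool.Agent.R233.Kob

open Pool.Agent.R233

/-- The Poincaré distance of the unit disc. -/
noncomputable def poincare (a b : ℂ) : ℝ :=
  1 / 2 * Real.log ((1 + ‖(a - b) / (1 - starRingEnd ℂ b * a)‖) /
    (1 - ‖(a - b) / (1 - starRingEnd ℂ b * a)‖))

/-- `KobChain D z w s`: there is a finite chain of holomorphic discs in `D` from `z` to `w` with
sum of Poincaré distances `s`. -/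
inductive KobChain {E : Type*} [NormedAddCommGroup E] [NormedSpace ℂ E] (D : Set E) :
    E → E → ℝ → Prop
  | nil (z : E) : KobChain D z z 0
  | cons (f : ℂ → E) (a b : ℂ) (w : E) (s : ℝ) (hf : DifferentiableOn ℂ f (Metric.ball 0 1))
      (hD : MapsTo f (Metric.ball 0 1) D) (ha : a ∈ Metric.ball (0 : ℂ) 1)
      (hb : b ∈ Metric.ball (0 : ℂ) 1) (h : KobChain D (f b) w s) :
      KobChain D (f a) w (poincare a b + s)

/-- The Kobayashi pseudodistance. -/
noncomputable def kobayashi {E : Type*} [NormedAddCommGroup E] [NormedSpace ℂ E] (D : Set E)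
    (z w : E) : ℝ := sInf {s | KobChain D z w s}

lemma poincare_nonneg {a b : ℂ} (ha : a ∈ Metric.ball (0 : ℂ) 1)
    (hb : b ∈ Metric.ball (0 : ℂ) 1) : 0 ≤ poincare a b := by
  rw [mem_ball_zero_iff] at ha hb
  have h1 : ‖1 - starRingEnd ℂ b * a‖ ^ 2 - ‖a - b‖ ^ 2 = (1 - ‖a‖ ^ 2) * (1 - ‖b‖ ^ 2) := by
    simp only [Complex.sq_norm, Complex.normSq_apply, Complex.sub_re, Complex.sub_im,
      Complex.one_re, Complex.one_im, Complex.mul_re, Complex.mul_im, Complex.conj_re,
      Complex.conj_im]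
    ring
  have h2 : 0 < (1 - ‖a‖ ^ 2) * (1 - ‖b‖ ^ 2) := by
    have : 0 < 1 - ‖a‖ ^ 2 := by nlinarith [norm_nonneg a]
    have : 0 < 1 - ‖b‖ ^ 2 := by nlinarith [norm_nonneg b]
    positivity
  have h3 : ‖a - b‖ < ‖1 - starRingEnd ℂ b * a‖ := by
    apply lt_of_pow_lt_pow_left₀ 2 (norm_nonneg _)
    linarith
  have h4 : ‖(a - b) / (1 - starRingEnd ℂ b * a)‖ < 1 := by
    rw [norm_div, div_lt_one (lt_of_le_of_lt (norm_nonneg _) h3)]
    exact h3
  have h5 := norm_nonneg ((a - b) / (1 - starRingEnd ℂ b * a))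
  unfold poincare
  apply mul_nonneg (by norm_num)
  apply Real.log_nonneg
  rw [le_div_iff₀ (by linarith)]
  linarith

lemma poincare_zero_left (b : ℂ) : poincare 0 b = 1 / 2 * Real.log ((1 + ‖b‖) / (1 - ‖b‖)) := by
  simp [poincare]

lemma chain_nonneg {E : Type*} [NormedAddCommGroup E] [NormedSpace ℂ E] {D : Set E} {z w : E}
    {s : ℝ} (h : KobChain D z w s) : 0 ≤ s := by
  induction h with
  | nil z => exact le_refl _
  | cons f a b w s hf hD ha hb h ih => exact add_nonneg (poincare_nonneg ha hb) ih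

lemma kobayashi_le {E : Type*} [NormedAddCommGroup E] [NormedSpace ℂ E] {D : Set E} {z w : E}
    {s : ℝ} (h : KobChain D z w s) : kobayashi D z w ≤ s :=
  csInf_le ⟨0, fun _ hs => chain_nonneg hs⟩ h

/-- `D` is a Reinhardt set. -/
def IsReinhardt {n : ℕ} (D : Set (Fin n → ℂ)) : Prop :=
  ∀ z ∈ D, ∀ θ : Fin n → ℝ, (fun i => Complex.exp (θ i * Complex.I) * z i) ∈ D

/-- The Euclidean distance from `z` to the boundary of `D`. -/
noncomputable def bdist {n : ℕ} (D : Set (Fin n → ℂ)) (z : Fin n → ℂ) : ℝ :=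
  sInf ((fun y => Real.sqrt (∑ i, ‖z i - y i‖ ^ 2)) '' frontier D)

section

variable (m : ℕ)

/-- the monomials -/
noncomputable def uu (c : ℝ) (z : Fin (m + 3) → ℂ) : ℝ :=
  ‖z 0‖ * ‖z 1‖ ^ (c ^ 4) * ‖z 2‖ ^ (2 * |c|) * Real.exp (-c ^ 2)

/-- the modified monomials -/
noncomputable def GG (z : Fin (m + 3) → ℂ) (c : ℝ) : ℝ := max ‖z 0‖ (uu m c z)

lemma uu_cont_of_ne {c : ℝ} (hc : c ≠ 0) (z : Fin (m + 3) → ℂ) :
    ContinuousAt (fun p : (Fin (m + 3) → ℂ) × ℝ => uu m p.2 p.1) (z, c) := by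
  unfold uu
  have h1 : 0 < c ^ 4 := by positivity
  have h2 : 0 < 2 * |c| := by positivity
  apply ContinuousAt.mul
  · apply ContinuousAt.mul
    · apply ContinuousAt.mul
      · fun_prop
      · apply ContinuousAt.rpow
        · fun_prop
        · fun_prop
        · exact Or.inr h1
    · apply ContinuousAt.rpow
      · fun_prop
      · fun_prop
      · exact Or.inr h2
  · fun_prop

lemma uu_le (z : Fin (m + 3) → ℂ) (c : ℝ) : uu m c z ≤ ‖z 0‖ * (1 + ‖z‖) ^ (c ^ 4 + 2 * |c|) := by
  have hz : 0 ≤ ‖z‖ := norm_nonneg z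
  have h1 : ‖z 1‖ ^ (c ^ 4) ≤ (1 + ‖z‖) ^ (c ^ 4) := by
    apply Real.rpow_le_rpow (norm_nonneg _) _ (by positivity)
    have := norm_le_pi_norm z 1
    linarith
  have h2 : ‖z 2‖ ^ (2 * |c|) ≤ (1 + ‖z‖) ^ (2 * |c|) := by
    apply Real.rpow_le_rpow (norm_nonneg _) _ (by positivity)
    have := norm_le_pi_norm z 2
    linarith
  have h3 : Real.exp (-c ^ 2) ≤ 1 := by
    rw [Real.exp_le_one_iff]
    have := sq_nonneg c
    linarith
  unfold uu
  rw [Real.rpow_add (by linarith)]
  calc ‖z 0‖ * ‖z 1‖ ^ (c ^ 4) * ‖z 2‖ ^ (2 * |c|) * Real.exp (-c ^ 2)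
      ≤ ‖z 0‖ * (1 + ‖z‖) ^ (c ^ 4) * (1 + ‖z‖) ^ (2 * |c|) * 1 := by gcongr
    _ = ‖z 0‖ * ((1 + ‖z‖) ^ (c ^ 4) * (1 + ‖z‖) ^ (2 * |c|)) := by ring

lemma GG_cont : Continuous (fun p : (Fin (m + 3) → ℂ) × ℝ => GG m p.1 p.2) := by
  rw [continuous_iff_continuousAt]
  rintro ⟨z, c⟩
  by_cases hc : c = 0
  · subst hc
    have h0 : GG m z 0 = ‖z 0‖ := by simp [GG, uu]
    unfold ContinuousAt
    simp only [h0]
    apply tendsto_of_tendsto_of_tendsto_of_le_of_le
      (g := fun p : (Fin (m + 3) → ℂ) × ℝ => ‖p.1 0‖)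
      (h := fun p : (Fin (m + 3) → ℂ) × ℝ => ‖p.1 0‖ * (1 + ‖p.1‖) ^ (p.2 ^ 4 + 2 * |p.2|))
    · have : Continuous (fun p : (Fin (m + 3) → ℂ) × ℝ => ‖p.1 0‖) := by fun_prop
      exact this.tendsto _
    · have h1 : ContinuousAt (fun p : (Fin (m + 3) → ℂ) × ℝ =>
          ‖p.1 0‖ * (1 + ‖p.1‖) ^ (p.2 ^ 4 + 2 * |p.2|)) (z, 0) := by
        apply ContinuousAt.mul (by fun_prop)
        apply ContinuousAt.rpow (by fun_prop) (by fun_prop)
        left
        have := norm_nonneg z
        show 1 + ‖z‖ ≠ 0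
        linarith
      have h2 := h1.tendsto
      simpa using h2
    · intro p
      exact le_max_left _ _
    · intro p
      apply max_le
      · have h1 : (1 : ℝ) ≤ (1 + ‖p.1‖) ^ (p.2 ^ 4 + 2 * |p.2|) := by
          apply Real.one_le_rpow
          · have := norm_nonneg p.1
            linarith
          · positivity
        have := norm_nonneg (p.1 0)
        show ‖p.1 0‖ ≤ ‖p.1 0‖ * (1 + ‖p.1‖) ^ (p.2 ^ 4 + 2 * |p.2|)
        nlinarith
      · exact uu_le m p.1 p.2
  · have h1 : ContinuousAt (fun p : (Fin (m + 3) → ℂ) × ℝ => ‖p.1 0‖) (z, c) := by fun_prop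
    exact Filter.Tendsto.max h1 (uu_cont_of_ne m hc z)

/-- the Minkowski type function of the domain -/
noncomputable def MM (z : Fin (m + 3) → ℂ) : ℝ :=
  max (‖z‖ / Real.exp 1) (sSup (GG m z '' Icc 0 (1 / 4)))

lemma GG_cont_left (z : Fin (m + 3) → ℂ) : Continuous (GG m z) :=
  (GG_cont m).comp (by fun_prop : Continuous fun c : ℝ => (z, c))

lemma GG_cont_right (c : ℝ) : Continuous (fun z => GG m z c) :=
  (GG_cont m).comp (by fun_prop : Continuous fun z : Fin (m + 3) → ℂ => (z, c))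

lemma MM_cont : Continuous (MM m) := by
  apply Continuous.max (by fun_prop)
  exact isCompact_Icc.continuous_sSup (GG_cont m)

lemma GG_le_MM (z : Fin (m + 3) → ℂ) {c : ℝ} (hc : c ∈ Icc (0 : ℝ) (1 / 4)) :
    GG m z c ≤ MM m z := by
  apply le_max_of_le_right
  apply le_csSup
  · exact isCompact_Icc.bddAbove_image (GG_cont_left m z).continuousOn
  · exact mem_image_of_mem _ hc

/-- the domain -/
def DD : Set (Fin (m + 3) → ℂ) := {z | MM m z < 1}

lemma mem_DD (z : Fin (m + 3) → ℂ) : z ∈ DD m ↔ ‖z‖ < Real.exp 1 ∧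
    ∀ c ∈ Icc (0 : ℝ) (1 / 4), GG m z c < 1 := by
  have he : 0 < Real.exp 1 := Real.exp_pos 1
  show MM m z < 1 ↔ _
  unfold MM
  rw [max_lt_iff, div_lt_one he, isCompact_Icc.sSup_lt_iff_of_continuous
    ⟨0, by norm_num⟩ (GG_cont_left m z).continuousOn]

lemma DD_open : IsOpen (DD m) := isOpen_lt (MM_cont m) continuous_const

lemma DD_bounded : Bornology.IsBounded (DD m) := by
  apply (Metric.isBounded_ball (x := (0 : Fin (m + 3) → ℂ)) (r := Real.exp 1)).subset
  intro z hz
  rw [mem_ball_zero_iff]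
  exact ((mem_DD m z).1 hz).1

lemma zero_mem : (0 : Fin (m + 3) → ℂ) ∈ DD m := by
  rw [mem_DD]
  refine ⟨by simpa using Real.exp_pos 1, fun c _ => ?_⟩
  simp [GG, uu]

/-- `uu` is monotone in the moduli -/
lemma uu_mono {z w : Fin (m + 3) → ℂ} (h : ∀ i, ‖z i‖ ≤ ‖w i‖) (c : ℝ) : uu m c z ≤ uu m c w := by
  unfold uu
  have h1 : ‖z 1‖ ^ (c ^ 4) ≤ ‖w 1‖ ^ (c ^ 4) :=
    Real.rpow_le_rpow (norm_nonneg _) (h 1) (by positivity)
  have h2 : ‖z 2‖ ^ (2 * |c|) ≤ ‖w 2‖ ^ (2 * |c|) :=
    Real.rpow_le_rpow (norm_nonneg _) (h 2) (by positivity)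
  have h0 := h 0
  gcongr

lemma DD_mono {z w : Fin (m + 3) → ℂ} (h : ∀ i, ‖z i‖ ≤ ‖w i‖) (hw : w ∈ DD m) : z ∈ DD m := by
  rw [mem_DD] at hw ⊢
  refine ⟨lt_of_le_of_lt ?_ hw.1, fun c hc => lt_of_le_of_lt ?_ (hw.2 c hc)⟩
  · rw [pi_norm_le_iff_of_nonneg (norm_nonneg _)]
    intro i
    exact (h i).trans (norm_le_pi_norm w i)
  · exact max_le_max (h 0) (uu_mono m h c)

lemma DD_reinhardt : IsReinhardt (DD m) := by
  intro z hz θ
  apply DD_mono m _ hz
  intro i
  rw [norm_mul, Complex.norm_exp_ofReal_mul_I, one_mul]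

lemma DD_connected : IsConnected (DD m) := by
  have h1 : StarConvex ℝ 0 (DD m) := by
    rw [starConvex_zero_iff]
    intro z hz a ha0 ha1
    apply DD_mono m _ hz
    intro i
    rw [Pi.smul_apply, norm_smul, Real.norm_of_nonneg ha0]
    exact mul_le_of_le_one_left (norm_nonneg _) ha1
  exact (h1.isPathConnected (zero_mem m)).isConnected

lemma norm_submean (z b : Fin (m + 3) → ℂ) (i : Fin (m + 3)) {C : ℝ} (hC : 0 ≤ C) :
    C * ‖z i‖ ≤ Real.circleAverage (fun ζ : ℂ => C * ‖(z + ζ • b) i‖) 0 1 := by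
  have := submean_prod {i} z b (fun _ => 1) (fun _ _ => one_pos) hC
  simpa using this

lemma uu_submean (z b : Fin (m + 3) → ℂ) (c : ℝ) :
    uu m c z ≤ Real.circleAverage (fun ζ : ℂ => uu m c (z + ζ • b)) 0 1 := by
  by_cases hc : c = 0
  · subst hc
    have := norm_submean m z b 0 zero_le_one
    simpa [uu] using this
  · have h4 : 0 < c ^ 4 := by positivity
    have h2 : 0 < 2 * |c| := by positivity
    have h01 : (0 : Fin (m + 3)) ≠ 1 := by simp
    have h02 : (0 : Fin (m + 3)) ≠ 2 := by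
      intro h
      have := congrArg Fin.val h
      simp only [Fin.coe_ofNat_eq_mod] at this
      rw [Nat.mod_eq_of_lt (by omega : 2 < m + 3), Nat.mod_eq_of_lt (by omega : 0 < m + 3)] at this
      omega
    have h12 : (1 : Fin (m + 3)) ≠ 2 := by
      intro h
      have := congrArg Fin.val h
      simp only [Fin.coe_ofNat_eq_mod] at this
      rw [Nat.mod_eq_of_lt (by omega : 2 < m + 3), Nat.mod_eq_of_lt (by omega : 1 < m + 3)] at this
      omega
    have key : ∀ w : Fin (m + 3) → ℂ, uu m c w = Real.exp (-c ^ 2) *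
        ∏ i ∈ ({0, 1, 2} : Finset (Fin (m + 3))),
          ‖w i‖ ^ (if i = 0 then 1 else if i = 1 then c ^ 4 else 2 * |c|) := by
      intro w
      rw [Finset.prod_insert (by simp [h01, h02]), Finset.prod_insert (by simp [h12]),
        Finset.prod_singleton]
      simp only [if_true, h01.symm, h02.symm, h12.symm, if_false, Real.rpow_one]
      unfold uu
      ring
    rw [key]
    have := submean_prod ({0, 1, 2} : Finset (Fin (m + 3))) z b
      (fun i => if i = 0 then 1 else if i = 1 then c ^ 4 else 2 * |c|) (by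
        intro i _
        show 0 < (if i = 0 then 1 else if i = 1 then c ^ 4 else 2 * |c|)
        split_ifs
        · exact one_pos
        · exact h4
        · exact h2) (Real.exp_pos (-c ^ 2)).le
    simp only [key]
    exact this

lemma MM_submean (z b : Fin (m + 3) → ℂ) :
    MM m z ≤ Real.circleAverage (fun ζ : ℂ => MM m (z + ζ • b)) 0 1 := by
  have hMint : CircleIntegrable (fun ζ : ℂ => MM m (z + ζ • b)) 0 1 := by
    have : Continuous (fun ζ : ℂ => MM m (z + ζ • b)) := (MM_cont m).comp (by fun_prop)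
    exact this.continuousOn.circleIntegrable'
  have he : 0 < Real.exp 1 := Real.exp_pos 1
  have hn : ∀ i, (Real.exp 1)⁻¹ * ‖z i‖ ≤
      Real.circleAverage (fun ζ : ℂ => MM m (z + ζ • b)) 0 1 := by
    intro i
    refine (norm_submean m z b i (by positivity)).trans ?_
    apply Real.circleAverage_mono
    · have : Continuous (fun ζ : ℂ => (Real.exp 1)⁻¹ * ‖(z + ζ • b) i‖) := by
        simp only [Pi.add_apply, Pi.smul_apply]
        fun_prop
      exact this.continuousOn.circleIntegrable'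
    · exact hMint
    · intro ζ _
      apply le_max_of_le_left
      rw [div_eq_inv_mul]
      exact mul_le_mul_of_nonneg_left (norm_le_pi_norm _ i) (by positivity)
  unfold MM
  apply max_le
  · rw [div_le_iff₀ he, pi_norm_le_iff_of_nonneg]
    · intro i
      have := hn i
      unfold MM at this
      rw [inv_mul_le_iff₀ he] at this
      linarith
    · apply mul_nonneg _ he.le
      refine le_trans ?_ (hn 0)
      positivity
  · apply csSup_le
    · exact ⟨_, mem_image_of_mem _ (⟨le_refl _, by norm_num⟩ : (0 : ℝ) ∈ Icc (0 : ℝ) (1 / 4))⟩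
    · rintro _ ⟨c, hc, rfl⟩
      apply max_le
      · have h1 := norm_submean m z b 0 zero_le_one
        rw [one_mul] at h1
        refine h1.trans ?_
        apply Real.circleAverage_mono
        · have : Continuous (fun ζ : ℂ => 1 * ‖(z + ζ • b) 0‖) := by
            simp only [Pi.add_apply, Pi.smul_apply]
            fun_prop
          exact this.continuousOn.circleIntegrable'
        · exact hMint
        · intro ζ _
          rw [one_mul]
          exact (le_max_left _ _).trans (GG_le_MM m _ hc)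
      · refine (uu_submean m z b c).trans ?_
        apply Real.circleAverage_mono
        · have h1 : Continuous (fun w : Fin (m + 3) → ℂ => uu m c w) := by
            unfold uu
            refine Continuous.mul (Continuous.mul (Continuous.mul (by fun_prop) ?_) ?_)
              continuous_const
            · exact Continuous.rpow_const (by fun_prop) (fun _ => Or.inr (by positivity))
            · exact Continuous.rpow_const (by fun_prop) (fun _ => Or.inr (by positivity))
          have : Continuous (fun ζ : ℂ => uu m c (z + ζ • b)) := h1.comp (by fun_prop)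
          exact this.continuousOn.circleIntegrable'
        · exact hMint
        · intro ζ _
          exact (le_max_right _ _).trans (GG_le_MM m _ hc)

lemma DD_psc : IsPseudoconvex (DD m) :=
  psc_of_submean (MM m) (MM_cont m) (MM_submean m) (DD_bounded m)

end

end Pool.Agent.R233.Kob
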