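import Pool.Agent.R233.Kob

set_option autoImplicit false

open MeasureTheory Topology Filter Set

namespace Pool.Agent.R233.Kob

open Pool.Agent.R233

section

variable (m : ℕ)

lemma h01 : (0 : Fin (m + 3)) ≠ 1 := by simp

lemma h02 : (0 : Fin (m + 3)) ≠ 2 := by
  intro h
  have := congrArg Fin.val h
  simp only [Fin.coe_ofNat_eq_mod] at this
  rw [Nat.mod_eq_of_lt (by omega : 2 < m + 3), Nat.mod_eq_of_lt (by omega : 0 < m + 3)] at this
  omega

lemma h12 : (1 : Fin (m + 3)) ≠ 2 := by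
  intro h
  have := congrArg Fin.val h
  simp only [Fin.coe_ofNat_eq_mod] at this
  rw [Nat.mod_eq_of_lt (by omega : 2 < m + 3), Nat.mod_eq_of_lt (by omega : 1 < m + 3)] at this
  omega

/-- the vector `(u, v, w, 1, ..., 1)` -/
def vec (u v w : ℂ) : Fin (m + 3) → ℂ :=
  fun i => if i = 0 then u else if i = 1 then v else if i = 2 then w else 1

lemma vec0 (u v w : ℂ) : vec m u v w 0 = u := by simp [vec]
lemma vec1 (u v w : ℂ) : vec m u v w 1 = v := by simp [vec]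
lemma vec2 (u v w : ℂ) : vec m u v w 2 = w := by simp [vec, (h02 m).symm, (h12 m).symm]

lemma vec_norm_lt {u v w : ℂ} {r : ℝ} (hr : 1 < r) (hu : ‖u‖ < r) (hv : ‖v‖ < r) (hw : ‖w‖ < r) :
    ‖vec m u v w‖ < r := by
  rw [pi_norm_lt_iff (by linarith)]
  intro i
  unfold vec
  split_ifs
  · exact hu
  · exact hv
  · exact hw
  · simpa using hr

lemma uu_vec (u v w : ℂ) (c : ℝ) :
    uu m c (vec m u v w) = ‖u‖ * ‖v‖ ^ (c ^ 4) * ‖w‖ ^ (2 * |c|) * Real.exp (-c ^ 2) := by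
  unfold uu
  rw [vec0, vec1, vec2]

lemma mem_of_zero {z : Fin (m + 3) → ℂ} (h0 : z 0 = 0) (hz : ‖z‖ < Real.exp 1) : z ∈ DD m := by
  rw [mem_DD]
  refine ⟨hz, fun c _ => ?_⟩
  simp [GG, uu, h0]

lemma mem_of_zero1 {u w : ℂ} (hu : ‖u‖ < 1) (hw : ‖w‖ < Real.exp 1) : vec m u 0 w ∈ DD m := by
  have he : 1 < Real.exp 1 := by
    have := Real.add_one_lt_exp (one_ne_zero)
    linarith
  rw [mem_DD]
  refine ⟨vec_norm_lt m he (hu.trans he) (by simpa using Real.exp_pos 1) hw, fun c _ => ?_⟩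
  unfold GG
  rw [uu_vec, vec0]
  apply max_lt hu
  by_cases hc : c = 0
  · subst hc
    simpa using hu
  · have h4 : c ^ 4 ≠ 0 := by positivity
    rw [norm_zero, Real.zero_rpow h4]
    simp

lemma quart {c d : ℝ} (hc : 0 < c) (hc1 : c ≤ 1 / 32) (hd0 : 0 ≤ d) (hd : d ≤ 1 / 4) :
    d ^ 4 < (c - d) ^ 2 + c ^ 3 := by
  by_cases h : d ≤ 2 * c
  · have h1 : d ^ 4 ≤ (2 * c) ^ 4 := by gcongr
    have h2 : (2 * c) ^ 4 < c ^ 3 := by
      have : (2 * c) ^ 4 = 16 * c * c ^ 3 := by ring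
      rw [this]
      have h3 : 0 < c ^ 3 := by positivity
      nlinarith
    nlinarith [sq_nonneg (c - d)]
  · push Not at h
    have h1 : d ^ 4 ≤ d ^ 2 / 16 := by
      have h3 : d ^ 2 ≤ 1 / 16 := by nlinarith
      have h4 : d ^ 4 = d ^ 2 * d ^ 2 := by ring
      rw [h4]
      nlinarith [sq_nonneg d]
    have h5 : d ^ 2 / 4 ≤ (c - d) ^ 2 := by nlinarith
    have h6 : 0 < d := by linarith
    have h7 : 0 < d ^ 2 := by positivity
    have h8 : 0 < c ^ 3 := by positivity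
    linarith

lemma mem_pt {c : ℝ} (hc : 0 < c) (hc1 : c ≤ 1 / 32) {v : ℂ} (hv : ‖v‖ < Real.exp 1) :
    vec m ((Real.exp (-c ^ 2 - c ^ 3) : ℝ) : ℂ) v ((Real.exp c : ℝ) : ℂ) ∈ DD m := by
  have he : 1 < Real.exp 1 := by
    have := Real.add_one_lt_exp (one_ne_zero)
    linarith
  have hc3 : 0 < c ^ 3 := by positivity
  have h1 : ‖((Real.exp (-c ^ 2 - c ^ 3) : ℝ) : ℂ)‖ = Real.exp (-c ^ 2 - c ^ 3) := by
    rw [Complex.norm_real, Real.norm_of_nonneg (Real.exp_pos _).le]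
  have h2 : ‖((Real.exp c : ℝ) : ℂ)‖ = Real.exp c := by
    rw [Complex.norm_real, Real.norm_of_nonneg (Real.exp_pos _).le]
  have h3 : Real.exp (-c ^ 2 - c ^ 3) < 1 := by
    rw [Real.exp_lt_one_iff]
    nlinarith
  rw [mem_DD]
  refine ⟨vec_norm_lt m he ?_ hv ?_, fun d hd => ?_⟩
  · rw [h1]; linarith
  · rw [h2]; exact Real.exp_lt_exp.2 (by linarith)
  · unfold GG
    rw [uu_vec, vec0, h1, h2]
    apply max_lt h3
    have h5 : ‖v‖ ^ (d ^ 4) ≤ Real.exp 1 ^ (d ^ 4) :=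
      Real.rpow_le_rpow (norm_nonneg _) hv.le (by positivity)
    rw [← Real.exp_mul, one_mul] at h5
    have h6 : Real.exp c ^ (2 * |d|) = Real.exp (c * (2 * d)) := by
      rw [← Real.exp_mul, abs_of_nonneg hd.1]
    rw [h6]
    calc Real.exp (-c ^ 2 - c ^ 3) * ‖v‖ ^ (d ^ 4) * Real.exp (c * (2 * d)) * Real.exp (-d ^ 2)
        ≤ Real.exp (-c ^ 2 - c ^ 3) * Real.exp (d ^ 4) * Real.exp (c * (2 * d)) *
          Real.exp (-d ^ 2) := by gcongr
      _ = Real.exp (-c ^ 2 - c ^ 3 + d ^ 4 + c * (2 * d) + -d ^ 2) := by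
          rw [Real.exp_add, Real.exp_add, Real.exp_add]
      _ < 1 := by
          rw [Real.exp_lt_one_iff]
          have := quart hc hc1 hd.1 hd.2
          nlinarith

/-- the points tending to the boundary point `(1, ..., 1)` -/
noncomputable def pt (c : ℝ) : Fin (m + 3) → ℂ :=
  vec m ((Real.exp (-c ^ 2 - c ^ 3) : ℝ) : ℂ) 1 ((Real.exp c : ℝ) : ℂ)

lemma pt_mem {c : ℝ} (hc : 0 < c) (hc1 : c ≤ 1 / 32) : pt m c ∈ DD m := by
  apply mem_pt m hc hc1
  have := Real.add_one_lt_exp (one_ne_zero)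
  simp only [norm_one]
  linarith

lemma out_mem {c : ℝ} (hc : 0 < c) (hc1 : c ≤ 1 / 32) :
    vec m ((Real.exp (-c ^ 2) : ℝ) : ℂ) 1 ((Real.exp c : ℝ) : ℂ) ∉ DD m := by
  rw [mem_DD]
  rintro ⟨-, h⟩
  have h1 := h c ⟨hc.le, by linarith⟩
  unfold GG at h1
  rw [uu_vec] at h1
  have h2 := (max_lt_iff.1 h1).2
  rw [norm_one, Real.one_rpow, mul_one, Complex.norm_real, Complex.norm_real,
    Real.norm_of_nonneg (Real.exp_pos _).le, Real.norm_of_nonneg (Real.exp_pos _).le,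
    ← Real.exp_mul, ← Real.exp_add, ← Real.exp_add, Real.exp_lt_one_iff, abs_of_pos hc] at h2
  nlinarith

lemma precon_frontier {X : Type*} [TopologicalSpace X] {T D : Set X} (hT : IsPreconnected T)
    (hD : IsOpen D) (h1 : (T ∩ D).Nonempty) (h2 : (T ∩ Dᶜ).Nonempty) :
    (T ∩ frontier D).Nonempty := by
  by_contra hcon
  rw [not_nonempty_iff_eq_empty] at hcon
  have h3 : T ⊆ D ∪ (closure D)ᶜ := by
    intro x hx
    by_cases hxD : x ∈ D
    · exact Or.inl hxD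
    · right
      intro hxc
      have : x ∈ T ∩ frontier D := ⟨hx, by rw [hD.frontier_eq]; exact ⟨hxc, hxD⟩⟩
      rw [hcon] at this
      exact this
  have h4 : (T ∩ (closure D)ᶜ).Nonempty := by
    obtain ⟨x, hx, hxD⟩ := h2
    exact ⟨x, hx, (h3 hx).resolve_left hxD⟩
  obtain ⟨x, -, hx1, hx2⟩ := hT D (closure D)ᶜ hD isClosed_closure.isOpen_compl h3 h1 h4
  exact hx2 (subset_closure hx1)

lemma bdist_le {c : ℝ} (hc : 0 < c) (hc1 : c ≤ 1 / 32) : bdist (DD m) (pt m c) ≤ c ^ 3 := by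
  have hc3 : 0 < c ^ 3 := by positivity
  have hcont : Continuous (fun s : ℝ => vec m (s : ℂ) 1 ((Real.exp c : ℝ) : ℂ)) := by
    apply continuous_pi
    intro i
    unfold vec
    split_ifs <;> fun_prop
  have hle : Real.exp (-c ^ 2 - c ^ 3) ≤ Real.exp (-c ^ 2) := Real.exp_le_exp.2 (by linarith)
  have hpre : IsPreconnected ((fun s : ℝ => vec m (s : ℂ) 1 ((Real.exp c : ℝ) : ℂ)) ''
      Icc (Real.exp (-c ^ 2 - c ^ 3)) (Real.exp (-c ^ 2))) :=
    isPreconnected_Icc.image _ hcont.continuousOn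
  obtain ⟨y, ⟨s, hs, rfl⟩, hy⟩ := precon_frontier hpre (DD_open m)
    ⟨pt m c, ⟨_, ⟨le_refl _, hle⟩, rfl⟩, pt_mem m hc hc1⟩
    ⟨_, ⟨_, ⟨hle, le_refl _⟩, rfl⟩, out_mem m hc hc1⟩
  have h1 : bdist (DD m) (pt m c) ≤ Real.sqrt (∑ i, ‖pt m c i - vec m (s : ℂ) 1
      ((Real.exp c : ℝ) : ℂ) i‖ ^ 2) := by
    apply csInf_le
    · refine ⟨0, ?_⟩
      rintro _ ⟨y, _, rfl⟩
      exact Real.sqrt_nonneg _
    · exact mem_image_of_mem _ hy
  refine h1.trans ?_
  rw [Finset.sum_eq_single 0]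
  · unfold pt
    rw [vec0, vec0, Real.sqrt_sq (norm_nonneg _), ← Complex.ofReal_sub, Complex.norm_real,
      Real.norm_eq_abs, abs_sub_comm, abs_of_nonneg (by linarith [hs.1])]
    have h2 : Real.exp (-c ^ 2 - c ^ 3) = Real.exp (-c ^ 2) * Real.exp (-c ^ 3) := by
      rw [← Real.exp_add]; congr 1
    have h3 := Real.add_one_le_exp (-c ^ 3)
    have h4 : Real.exp (-c ^ 2) ≤ 1 := by
      rw [Real.exp_le_one_iff]; nlinarith
    have h5 := Real.exp_pos (-c ^ 2)
    have h6 := hs.2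
    have h7 : Real.exp (-c ^ 3) ≤ 1 := by
      rw [Real.exp_le_one_iff]; linarith
    rw [h2]
    nlinarith
  · intro i _ hi
    have : pt m c i - vec m (s : ℂ) 1 ((Real.exp c : ℝ) : ℂ) i = 0 := by
      unfold pt vec
      simp [hi]
    rw [this]
    simp
  · simp

lemma one_not_mem : (fun _ => 1 : Fin (m + 3) → ℂ) ∉ DD m := by
  rw [mem_DD]
  rintro ⟨-, h⟩
  have h1 := h 0 ⟨le_refl _, by norm_num⟩
  simp [GG, uu] at h1

lemma frontier_ne (hne : (frontier (DD m)).Nonempty) {z : Fin (m + 3) → ℂ} (hz : z ∈ DD m) :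
    0 < bdist (DD m) z := by
  obtain ⟨r, hr, hball⟩ := Metric.isOpen_iff.1 (DD_open m) z hz
  refine lt_of_lt_of_le hr ?_
  apply le_csInf (hne.image _)
  rintro _ ⟨y, hy, rfl⟩
  have h1 : y ∉ DD m := by
    rw [(DD_open m).frontier_eq] at hy
    exact hy.2
  have h2 : r ≤ dist y z := by
    by_contra hcon
    push Not at hcon
    exact h1 (hball hcon)
  refine h2.trans ?_
  rw [dist_comm, dist_pi_le_iff (Real.sqrt_nonneg _)]
  intro i
  rw [dist_eq_norm]
  apply Real.le_sqrt_of_sq_le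
  exact Finset.single_le_sum (f := fun j => ‖z j - y j‖ ^ 2) (fun _ _ => by positivity)
    (Finset.mem_univ i)

lemma pt_tendsto {c : ℕ → ℝ} (hc : Tendsto c atTop (𝓝 0)) :
    Tendsto (fun j => pt m (c j)) atTop (𝓝 (fun _ => 1 : Fin (m + 3) → ℂ)) := by
  have hcont : Continuous (fun c : ℝ => pt m c) := by
    apply continuous_pi
    intro i
    unfold pt vec
    split_ifs <;> fun_prop
  have h1 := (hcont.tendsto 0).comp hc
  have h2 : pt m 0 = fun _ => 1 := by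
    funext i
    unfold pt vec
    simp
  rw [h2] at h1
  exact h1

lemma chain_bound {z0 : Fin (m + 3) → ℂ} (hz0 : z0 ∈ DD m) : ∃ A : ℝ, ∀ c : ℝ, 0 < c →
    c ≤ 1 / 32 → kobayashi (DD m) z0 (pt m c) ≤ A + 1 / 2 * Real.log (4 / c ^ 2) := by
  have he : 1 < Real.exp 1 := by
    have := Real.add_one_lt_exp (one_ne_zero)
    linarith
  -- a dilation of z0 is in the domain
  obtain ⟨r, hr1, hr⟩ : ∃ r : ℝ, 1 < r ∧ r • z0 ∈ DD m := by
    have hcont : Continuous (fun t : ℝ => t • z0) := by fun_prop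
    have h1 : ∀ᶠ t in 𝓝 (1 : ℝ), t • z0 ∈ DD m := by
      apply hcont.continuousAt.eventually_mem
      apply (DD_open m).mem_nhds
      simpa using hz0
    obtain ⟨ε, hε, h2⟩ := Metric.eventually_nhds_iff.1 h1
    refine ⟨1 + ε / 2, by linarith, h2 ?_⟩
    rw [Real.dist_eq, add_sub_cancel_left, abs_of_pos (by linarith)]
    linarith
  set E1 : ℝ := Real.exp (-(7 / 8)) with hE1
  set E2 : ℝ := Real.exp (-1) with hE2
  have hE1' : E1 < 1 := by rw [hE1, Real.exp_lt_one_iff]; norm_num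
  have hE2' : E2 < 1 := by rw [hE2, Real.exp_lt_one_iff]; norm_num
  have hE1p : 0 < E1 := Real.exp_pos _
  have hE2p : 0 < E2 := Real.exp_pos _
  have hrp : 0 < r := by linarith
  refine ⟨poincare ((r⁻¹ : ℝ) : ℂ) 0 + (poincare 0 ((E1 : ℝ) : ℂ) + poincare 0 ((E2 : ℝ) : ℂ)), ?_⟩
  intro c hc hc1
  have hc3 : 0 < c ^ 3 := by positivity
  have hc2 : 0 < c ^ 2 := by positivity
  set b : ℝ := Real.exp (-c ^ 2 - c ^ 3) with hb
  have hbp : 0 < b := Real.exp_pos _
  have hb1 : b < 1 := by rw [hb, Real.exp_lt_one_iff]; linarith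
  have hec : ‖((Real.exp c : ℝ) : ℂ)‖ = Real.exp c := by
    rw [Complex.norm_real, Real.norm_of_nonneg (Real.exp_pos _).le]
  have hec1 : Real.exp c < Real.exp 1 := Real.exp_lt_exp.2 (by linarith)
  have hzero : (0 : ℂ) ∈ Metric.ball (0 : ℂ) 1 := by simp
  have hreal : ∀ t : ℝ, 0 ≤ t → t < 1 → ((t : ℝ) : ℂ) ∈ Metric.ball (0 : ℂ) 1 := by
    intro t ht0 ht1
    rw [mem_ball_zero_iff, Complex.norm_real, Real.norm_of_nonneg ht0]
    exact ht1
  -- last disc
  have c4 : KobChain (DD m) (vec m ((b : ℝ) : ℂ) 0 ((Real.exp c : ℝ) : ℂ)) (pt m c)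
      (poincare 0 ((E2 : ℝ) : ℂ) + 0) := by
    have h := KobChain.cons (D := DD m)
      (fun l : ℂ => vec m ((b : ℝ) : ℂ) (Real.exp 1 * l) ((Real.exp c : ℝ) : ℂ)) 0
      ((E2 : ℝ) : ℂ) (pt m c) 0 ?_ ?_ hzero (hreal _ hE2p.le hE2') ?_
    · simpa using h
    · rw [differentiableOn_pi]
      intro i
      unfold vec
      split_ifs <;> fun_prop
    · intro l hl
      apply mem_pt m hc hc1
      rw [norm_mul, Complex.norm_real, Real.norm_of_nonneg (Real.exp_pos _).le]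
      rw [mem_ball_zero_iff] at hl
      nlinarith [norm_nonneg l, Real.exp_pos 1]
    · have : vec m ((b : ℝ) : ℂ) (Real.exp 1 * ((E2 : ℝ) : ℂ)) ((Real.exp c : ℝ) : ℂ) =
          pt m c := by
        unfold pt
        congr 1
        rw [← Complex.ofReal_mul, hE2, ← Real.exp_add]
        simp
      rw [this]
      exact KobChain.nil _
  have c3 : KobChain (DD m) (vec m 0 0 ((Real.exp c : ℝ) : ℂ)) (pt m c)
      (poincare 0 ((b : ℝ) : ℂ) + (poincare 0 ((E2 : ℝ) : ℂ) + 0)) := by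
    refine KobChain.cons (D := DD m)
      (fun l : ℂ => vec m l 0 ((Real.exp c : ℝ) : ℂ)) 0
      ((b : ℝ) : ℂ) (pt m c) _ ?_ ?_ hzero (hreal _ hbp.le hb1) c4
    · rw [differentiableOn_pi]
      intro i
      unfold vec
      split_ifs <;> fun_prop
    · intro l hl
      rw [mem_ball_zero_iff] at hl
      exact mem_of_zero1 m hl (by rw [hec]; exact hec1)
  have c2 : KobChain (DD m) 0 (pt m c)
      (poincare 0 ((E1 : ℝ) : ℂ) + (poincare 0 ((b : ℝ) : ℂ) +
        (poincare 0 ((E2 : ℝ) : ℂ) + 0))) := by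
    have h := KobChain.cons (D := DD m)
      (fun l : ℂ => l • ((Real.exp (7 / 8) : ℝ) : ℂ) • vec m 0 0 ((Real.exp c : ℝ) : ℂ)) 0
      ((E1 : ℝ) : ℂ) (pt m c) ?_ ?_ hzero (hreal _ hE1p.le hE1') (s := poincare 0 ((b : ℝ) : ℂ) +
        (poincare 0 ((E2 : ℝ) : ℂ) + 0)) ?_
    · simpa using h
    · fun_prop
    · intro l hl
      rw [mem_ball_zero_iff] at hl
      apply mem_of_zero
      · simp [vec0]
      · have h1 : ‖vec m 0 0 ((Real.exp c : ℝ) : ℂ)‖ ≤ Real.exp (1 / 8) := by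
          refine (vec_norm_lt m ?_ ?_ ?_ ?_).le
          · have := Real.add_one_lt_exp (show (1 / 8 : ℝ) ≠ 0 by norm_num)
            linarith
          · simpa using Real.exp_pos _
          · simpa using Real.exp_pos _
          · rw [hec]
            exact Real.exp_lt_exp.2 (by linarith)
        rw [norm_smul, norm_smul, Complex.norm_real, Real.norm_of_nonneg (Real.exp_pos _).le]
        have h2 : Real.exp (7 / 8) * ‖vec m 0 0 ((Real.exp c : ℝ) : ℂ)‖ ≤ Real.exp 1 := by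
          calc Real.exp (7 / 8) * ‖vec m 0 0 ((Real.exp c : ℝ) : ℂ)‖
              ≤ Real.exp (7 / 8) * Real.exp (1 / 8) := by gcongr
            _ = Real.exp 1 := by rw [← Real.exp_add]; norm_num
        have h3 : 0 ≤ Real.exp (7 / 8) * ‖vec m 0 0 ((Real.exp c : ℝ) : ℂ)‖ := by positivity
        nlinarith [norm_nonneg l, Real.exp_pos 1]
    · have : ((E1 : ℝ) : ℂ) • ((Real.exp (7 / 8) : ℝ) : ℂ) • vec m 0 0 ((Real.exp c : ℝ) : ℂ) =
          vec m 0 0 ((Real.exp c : ℝ) : ℂ) := by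
        rw [smul_smul, ← Complex.ofReal_mul, hE1, ← Real.exp_add]
        simp
      rw [this]
      exact c3
  have c1 : KobChain (DD m) z0 (pt m c)
      (poincare ((r⁻¹ : ℝ) : ℂ) 0 + (poincare 0 ((E1 : ℝ) : ℂ) + (poincare 0 ((b : ℝ) : ℂ) +
        (poincare 0 ((E2 : ℝ) : ℂ) + 0)))) := by
    have h := KobChain.cons (D := DD m)
      (fun l : ℂ => l • ((r : ℝ) : ℂ) • z0) ((r⁻¹ : ℝ) : ℂ) 0 (pt m c) ?_ ?_
      (hreal _ (by positivity) (inv_lt_one_of_one_lt₀ hr1)) hzero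
      (s := poincare 0 ((E1 : ℝ) : ℂ) + (poincare 0 ((b : ℝ) : ℂ) +
        (poincare 0 ((E2 : ℝ) : ℂ) + 0))) ?_
    · have e : ((r⁻¹ : ℝ) : ℂ) • ((r : ℝ) : ℂ) • z0 = z0 := by
        rw [smul_smul, ← Complex.ofReal_mul, inv_mul_cancel₀ hrp.ne']
        simp
      rw [e] at h
      exact h
    · fun_prop
    · intro l hl
      rw [mem_ball_zero_iff] at hl
      apply DD_mono m _ hr
      intro i
      simp only [Pi.smul_apply, norm_smul]
      rw [Complex.norm_real]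
      have : 0 ≤ ‖r‖ * ‖z0 i‖ := by positivity
      nlinarith [norm_nonneg l]
    · simpa using c2
  have hk := kobayashi_le c1
  have hp : poincare 0 ((b : ℝ) : ℂ) ≤ 1 / 2 * Real.log (4 / c ^ 2) := by
    rw [poincare_zero_left, Complex.norm_real, Real.norm_of_nonneg hbp.le]
    apply mul_le_mul_of_nonneg_left _ (by norm_num)
    have hb2 : b ≤ 1 / (1 + c ^ 2) := by
      have h1 : b = (Real.exp (c ^ 2 + c ^ 3))⁻¹ := by
        rw [hb, ← Real.exp_neg]; congr 1; ring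
      rw [h1, inv_eq_one_div]
      apply one_div_le_one_div_of_le (by positivity)
      have := Real.add_one_le_exp (c ^ 2 + c ^ 3)
      linarith
    have hb3 : c ^ 2 / 2 ≤ 1 - b := by
      have h2 : c ^ 2 / 2 ≤ 1 - 1 / (1 + c ^ 2) := by
        rw [div_le_iff₀ (by norm_num : (0 : ℝ) < 2)]
        have h3 : 1 - 1 / (1 + c ^ 2) = c ^ 2 / (1 + c ^ 2) := by field_simp; ring
        rw [h3, div_mul_eq_mul_div, le_div_iff₀ (by positivity)]
        nlinarith
      linarith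
    have hb4 : 0 < 1 - b := by linarith
    apply Real.log_le_log
    · positivity
    · rw [div_le_div_iff₀ hb4 hc2]
      nlinarith
  linarith

end

/-- main theorem -/
theorem kob_main (n : ℕ) (hn : 3 ≤ n) :
    ∃ (D : Set (Fin n → ℂ)) (ζ : Fin n → ℂ) (z : ℕ → Fin n → ℂ),
      IsOpen D ∧ IsConnected D ∧ Bornology.IsBounded D ∧ IsPseudoconvex D ∧ IsReinhardt D ∧
      ζ ∈ frontier D ∧ (∀ i, ζ i ≠ 0) ∧ (∀ j, z j ∈ D) ∧ Tendsto z atTop (𝓝 ζ) ∧
      ∀ z₀ ∈ D, Tendsto (fun j => kobayashi D z₀ (z j) + 1 / 2 * Real.log (bdist D (z j)))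
        atTop atBot := by
  obtain ⟨m, rfl⟩ : ∃ m, n = m + 3 := ⟨n - 3, by omega⟩
  set c : ℕ → ℝ := fun j => 1 / ((j : ℝ) + 32) with hc
  have hc0 : ∀ j, 0 < c j := fun j => by simp only [hc]; positivity
  have hc1 : ∀ j, c j ≤ 1 / 32 := by
    intro j
    simp only [hc]
    apply one_div_le_one_div_of_le (by norm_num)
    have : (0 : ℝ) ≤ j := Nat.cast_nonneg j
    linarith
  have hclim : Tendsto c atTop (𝓝 0) := by
    apply Tendsto.div_atTop tendsto_const_nhds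
    exact tendsto_atTop_add_const_right _ _ tendsto_natCast_atTop_atTop
  have hlim := pt_tendsto m hclim
  have hmem : ∀ j, pt m (c j) ∈ DD m := fun j => pt_mem m (hc0 j) (hc1 j)
  have hfr : (fun _ => 1 : Fin (m + 3) → ℂ) ∈ frontier (DD m) := by
    rw [(DD_open m).frontier_eq]
    refine ⟨?_, one_not_mem m⟩
    exact mem_closure_of_tendsto hlim (Eventually.of_forall hmem)
  refine ⟨DD m, fun _ => 1, fun j => pt m (c j), DD_open m, DD_connected m, DD_bounded m,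
    DD_psc m, DD_reinhardt m, hfr, fun _ => one_ne_zero, hmem, hlim, ?_⟩
  intro z₀ hz₀
  obtain ⟨A, hA⟩ := chain_bound m hz₀
  have h1 : Tendsto (fun j => A + 1 / 2 * Real.log (4 * c j)) atTop atBot := by
    apply tendsto_atBot_add_const_left
    apply Tendsto.const_mul_atBot (by norm_num)
    apply Real.tendsto_log_nhdsGT_zero.comp
    rw [tendsto_nhdsWithin_iff]
    constructor
    · have := hclim.const_mul 4
      simpa using this
    · apply Eventually.of_forall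
      intro j
      have := hc0 j
      show 0 < 4 * c j
      positivity
  refine tendsto_atBot_mono ?_ h1
  intro j
  have h2 := hA (c j) (hc0 j) (hc1 j)
  have h3 := bdist_le m (hc0 j) (hc1 j)
  have h4 := frontier_ne m ⟨_, hfr⟩ (hmem j)
  have h5 := Real.log_le_log h4 h3
  have hcj := hc0 j
  have h6 : Real.log (4 / c j ^ 2) + Real.log (c j ^ 3) = Real.log (4 * c j) := by
    rw [← Real.log_mul (by positivity) (by positivity)]
    congr 1
    field_simp
  linarith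

end Pool.Agent.R233.Kob
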