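import Pool.Agent.R233.BergDom

set_option autoImplicit false

open Topology Filter Set Metric

namespace Pool.Agent.R233.Lem

open Pool.Agent.R233

/-- The Lempert function of `D`: the infimum of the `|α|`, `|α| < 1`, such that some holomorphic
`φ : 𝔻 → D` satisfies `φ 0 = z`, `φ α = w`. -/
noncomputable def lempert {E : Type*} [NormedAddCommGroup E] [NormedSpace ℂ E] (D : Set E)
    (z w : E) : ℝ :=
  sInf {t : ℝ | ∃ (α : ℂ) (φ : ℂ → E), DifferentiableOn ℂ φ (ball 0 1) ∧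
    MapsTo φ (ball 0 1) D ∧ α ∈ ball (0 : ℂ) 1 ∧ φ 0 = z ∧ φ α = w ∧ t = ‖α‖}

lemma lempert_le {E : Type*} [NormedAddCommGroup E] [NormedSpace ℂ E] {D : Set E}
    {z w : E} {α : ℂ} {φ : ℂ → E} (h1 : DifferentiableOn ℂ φ (ball 0 1))
    (h2 : MapsTo φ (ball 0 1) D) (h3 : α ∈ ball (0 : ℂ) 1) (h4 : φ 0 = z) (h5 : φ α = w) :
    lempert D z w ≤ ‖α‖ := by
  apply csInf_le
  · refine ⟨0, ?_⟩
    rintro t ⟨α, φ, -, -, -, -, -, rfl⟩
    exact norm_nonneg _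
  · exact ⟨α, φ, h1, h2, h3, h4, h5, rfl⟩

/-- Harnack type estimate: if `|h| < 1` and `h 0 = 1 - δ` then `|1 - h| ≤ 3 δ` on `|ζ| ≤ 1/2`. -/
lemma harnack {h : ℂ → ℂ} (hd : DifferentiableOn ℂ h (ball 0 1))
    (hb : ∀ ζ ∈ ball (0 : ℂ) 1, ‖h ζ‖ < 1) {δ : ℝ} (hδ : 0 < δ) (h0 : h 0 = ((1 - δ : ℝ) : ℂ))
    {ζ : ℂ} (hζ : ‖ζ‖ ≤ 1 / 2) : ‖1 - h ζ‖ ≤ 3 * δ := by
  set k : ℂ → ℂ := fun ζ => (1 - h ζ - δ) / (1 - h ζ + δ) with hk
  have hre : ∀ ζ ∈ ball (0 : ℂ) 1, 0 < (1 - h ζ).re := by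
    intro ζ hζ
    have h1 := hb ζ hζ
    have h2 := Complex.re_le_norm (h ζ)
    simp only [Complex.sub_re, Complex.one_re]
    linarith
  have hden : ∀ ζ ∈ ball (0 : ℂ) 1, (1 - h ζ + δ) ≠ 0 := by
    intro ζ hζ h1
    have h2 := hre ζ hζ
    have h3 : (1 - h ζ + δ).re = 0 := by rw [h1]; simp
    rw [Complex.add_re, Complex.ofReal_re] at h3
    linarith
  have hkd : DifferentiableOn ℂ k (ball 0 1) := by
    apply DifferentiableOn.div _ _ hden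
    · fun_prop
    · fun_prop
  have hk0 : k 0 = 0 := by
    simp only [hk, h0]
    have : (1 : ℂ) - ((1 - δ : ℝ) : ℂ) - δ = 0 := by push_cast; ring
    rw [this, zero_div]
  have hkm : MapsTo k (ball 0 1) (closedBall 0 1) := by
    intro ζ hζ
    rw [mem_closedBall_zero_iff]
    simp only [hk]
    rw [norm_div]
    apply div_le_one_of_le₀ _ (norm_nonneg _)
    rw [← sq_le_sq₀ (norm_nonneg _) (norm_nonneg _)]
    have h2 := hre ζ hζ
    rw [Complex.sq_norm, Complex.sq_norm, Complex.normSq_apply, Complex.normSq_apply]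
    simp only [Complex.sub_re, Complex.sub_im, Complex.add_re, Complex.add_im, Complex.ofReal_re,
      Complex.ofReal_im, Complex.one_re, Complex.one_im] at h2 ⊢
    nlinarith
  have hζ1 : ‖ζ‖ < 1 := by linarith
  have hζb : ζ ∈ ball (0 : ℂ) 1 := by rw [mem_ball_zero_iff]; exact hζ1
  have h1 := Complex.norm_le_norm_of_mapsTo_ball hkd hkm hk0 hζ1
  simp only [hk] at h1
  have hdp : 0 < ‖1 - h ζ + δ‖ := norm_pos_iff.2 (hden ζ hζb)
  rw [norm_div, div_le_iff₀ hdp] at h1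
  have h2 : ‖1 - h ζ‖ - δ ≤ ‖1 - h ζ - δ‖ := by
    have := norm_sub_norm_le (1 - h ζ) (δ : ℂ)
    rw [Complex.norm_real, Real.norm_of_nonneg hδ.le] at this
    exact this
  have h3 : ‖1 - h ζ + δ‖ ≤ ‖1 - h ζ‖ + δ := by
    have := norm_add_le (1 - h ζ) (δ : ℂ)
    rw [Complex.norm_real, Real.norm_of_nonneg hδ.le] at this
    exact this
  have h4 : ‖ζ‖ * ‖1 - h ζ + δ‖ ≤ 1 / 2 * (‖1 - h ζ‖ + δ) := by
    apply mul_le_mul hζ h3 (norm_nonneg _) (by norm_num)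
  linarith

/-- The main estimate for pairs of functions. -/
lemma pair_est {f g : ℂ → ℂ} (hf : DifferentiableOn ℂ f (ball 0 1))
    (hg : DifferentiableOn ℂ g (ball 0 1)) (hgb : ∀ ζ ∈ ball (0 : ℂ) 1, ‖g ζ‖ < 1)
    {B : ℝ} (hB : ∀ ζ : ℂ, ‖ζ‖ ≤ 1 / 2 → ‖f ζ‖ * ‖g ζ‖ ≤ B) {α : ℂ} (hα : α ≠ 0)
    (hα4 : ‖α‖ ≤ 1 / 4) {p q : ℝ} (hp : 0 ≤ p)
    (hf0 : ‖f 0‖ = p) (hfα : f α = 0) (hg0 : g 0 = 0) (hgα : ‖g α‖ = q) :
    (p / ‖α‖) * (q / ‖α‖ - ‖α‖ * 2) ≤ 8 * B := by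
  set τ := ‖α‖ with hτ
  have hτ0 : 0 < τ := norm_pos_iff.2 hα
  have hnh : ball (0 : ℂ) 1 ∈ 𝓝 (0 : ℂ) := ball_mem_nhds _ one_pos
  have hαb : α ∈ ball (0 : ℂ) 1 := by rw [mem_ball_zero_iff]; linarith
  have hnα : ball (0 : ℂ) 1 ∈ 𝓝 α := isOpen_ball.mem_nhds hαb
  set F := dslope f α with hF
  set G := dslope g 0 with hG
  have hFd : DifferentiableOn ℂ F (ball 0 1) := (Complex.differentiableOn_dslope hnα).2 hf
  have hGd : DifferentiableOn ℂ G (ball 0 1) := (Complex.differentiableOn_dslope hnh).2 hg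
  have hG1 : ∀ ζ ∈ ball (0 : ℂ) 1, ‖G ζ‖ ≤ 1 := by
    intro ζ hζ
    have h1 := Complex.norm_dslope_le_div_of_mapsTo_ball (f := g) (c := 0) (R₁ := 1) (R₂ := 1) hg
      (by
        intro z hz
        rw [hg0, mem_closedBall_zero_iff]
        exact (hgb z hz).le) hζ
    simpa using h1
  have hF0 : ‖F 0‖ = p / τ := by
    rw [hF, dslope_of_ne _ hα.symm, slope_def_field, hfα, sub_zero, zero_sub, norm_div, norm_neg,
      hf0]
  have hGα : ‖G α‖ = q / τ := by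
    rw [hG, dslope_of_ne _ hα, slope_def_field, hg0, sub_zero, sub_zero, norm_div, hgα]
  have hGdist : ‖G α - G 0‖ ≤ τ * 2 := by
    have h1 := Complex.dist_le_div_mul_dist_of_mapsTo_ball (f := G) (c := 0) (R₁ := 1) (R₂ := 2)
      hGd (by
        intro z hz
        rw [mem_closedBall, dist_eq_norm]
        have h2 := hG1 z hz
        have h3 := hG1 0 (by simp)
        have := norm_sub_le (G z) (G 0)
        linarith) hαb
    rw [dist_eq_norm, dist_eq_norm, sub_zero] at h1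
    linarith
  have hG0 : q / τ - τ * 2 ≤ ‖G 0‖ := by
    rw [← hGα]
    have := norm_sub_norm_le (G α) (G 0)
    linarith
  have hmax : ‖F 0 * G 0‖ ≤ 8 * B := by
    apply Complex.norm_le_of_forall_mem_frontier_norm_le (U := ball (0 : ℂ) (1 / 2))
      (f := fun z => F z * G z) isBounded_ball
    · refine ⟨?_, ?_⟩
      · exact (hFd.mul hGd).mono (ball_subset_ball (by norm_num))
      · rw [closure_ball _ (by norm_num)]
        exact (hFd.mul hGd).continuousOn.mono (closedBall_subset_ball (by norm_num))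
    · intro ζ hζ
      rw [frontier_ball _ (by norm_num), mem_sphere_zero_iff_norm] at hζ
      have hζ0 : ζ ≠ 0 := by
        intro h
        rw [h, norm_zero] at hζ
        norm_num at hζ
      have hζα : ζ ≠ α := by
        intro h
        rw [h] at hζ
        linarith
      have h1 : ‖F ζ‖ = ‖f ζ‖ / ‖ζ - α‖ := by
        rw [hF, dslope_of_ne _ hζα, slope_def_field, hfα, sub_zero, norm_div]
      have h2 : ‖G ζ‖ = ‖g ζ‖ / ‖ζ‖ := by
        rw [hG, dslope_of_ne _ hζ0, slope_def_field, hg0, sub_zero, sub_zero, norm_div]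
      have h3 : 1 / 4 ≤ ‖ζ - α‖ := by
        have := norm_sub_norm_le ζ α
        linarith
      have h4 := hB ζ hζ.le
      have h5 : 0 ≤ ‖f ζ‖ * ‖g ζ‖ := by positivity
      rw [norm_mul, h1, h2, hζ, div_mul_div_comm, div_le_iff₀ (by positivity)]
      nlinarith
    · rw [closure_ball _ (by norm_num)]
      simp
  rw [norm_mul, hF0] at hmax
  calc (p / τ) * (q / τ - τ * 2) ≤ (p / τ) * ‖G 0‖ := by gcongr
    _ ≤ 8 * B := hmax

section

variable (m : ℕ)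

/-- the vector `(u, v, w, 0, ..., 0)` -/
def vec (u v w : ℂ) : Fin (m + 3) → ℂ := Fin.cons u (Fin.cons v (Fin.cons w fun _ => 0))

lemma Phi_vec (u v w : ℂ) : Phi 1 m (vec m u v w) =
    ‖u‖ ^ 8 + ‖v‖ ^ 4 + ‖u‖ ^ 2 * ‖v‖ ^ 2 + ‖w‖ ^ 2 := by
  rw [Phi_eq]
  unfold psi
  rw [Fin.sum_univ_succ]
  have e0 : vec m u v w 0 = u := rfl
  have e1 : vec m u v w 1 = v := rfl
  have e2 : vec m u v w (Fin.succ (Fin.succ 0)) = w := rfl
  have e3 : ∀ i : Fin m, vec m u v w (Fin.succ (Fin.succ (Fin.succ i))) = 0 := fun i => rfl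
  simp only [e0, e1, e2, e3]
  simp

lemma vec_diff {u v w : ℂ → ℂ} (hu : Differentiable ℂ u) (hv : Differentiable ℂ v)
    (hw : Differentiable ℂ w) (s : Set ℂ) :
    DifferentiableOn ℂ (fun ζ => vec m (u ζ) (v ζ) (w ζ)) s := by
  rw [differentiableOn_pi]
  intro i
  refine Fin.cases hu.differentiableOn (fun i => ?_) i
  refine Fin.cases hv.differentiableOn (fun i => ?_) i
  refine Fin.cases hw.differentiableOn (fun i => ?_) i
  exact differentiableOn_const 0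

lemma mem_iff (x : Fin (m + 3) → ℂ) (hx : x ∈ Dom 1 m) :
    ‖x 0‖ ^ 2 * ‖x 1‖ ^ 2 + ‖x 2‖ ^ 2 < 1 ∧ ‖x 1‖ < 1 := by
  have h1 : Phi 1 m x < 1 := hx
  have h3 := norm_le_of_mem 1 m le_rfl h1.le
  rw [Phi_eq] at h1
  unfold psi at h1
  rw [Fin.sum_univ_succ] at h1
  have h2 : 0 ≤ ∑ i : Fin m, ‖x (Fin.succ (Fin.succ (Fin.succ i)))‖ ^ 2 :=
    Finset.sum_nonneg fun i _ => by positivity
  have e2 : (Fin.succ (Fin.succ 0) : Fin (m + 3)) = 2 := by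
    ext
    simp only [Fin.val_succ, Fin.coe_ofNat_eq_mod]
    rw [Nat.mod_eq_of_lt (by omega : 2 < m + 2 + 1), Nat.mod_eq_of_lt (by omega : 0 < m + 1)]
  rw [e2] at h1
  have h4 : 0 ≤ ‖x 0‖ ^ (8 * 1) := by positivity
  have h5 : 0 ≤ ‖x 1‖ ^ 4 := by positivity
  have h6 : 0 ≤ ‖x 2‖ ^ 2 := by positivity
  have h7 : 0 ≤ ‖x 0‖ ^ (2 * 1) * ‖x 1‖ ^ 2 := by positivity
  constructor
  · simp only [mul_one] at h7 h1 h4
    linarith
  · by_contra hcon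
    push Not at hcon
    have : 1 ≤ ‖x 1‖ ^ 4 := one_le_pow₀ hcon
    linarith

lemma vec_mem_iff (u v w : ℂ) : vec m u v w ∈ Dom 1 m ↔
    ‖u‖ ^ 8 + ‖v‖ ^ 4 + ‖u‖ ^ 2 * ‖v‖ ^ 2 + ‖w‖ ^ 2 < 1 := by
  show Phi 1 m (vec m u v w) < 1 ↔ _
  rw [Phi_vec]

lemma vec0 (u v w : ℂ) : vec m u v w 0 = u := rfl
lemma vec1 (u v w : ℂ) : vec m u v w 1 = v := rfl
lemma vec2 (u v w : ℂ) : vec m u v w 2 = w := by
  have e2 : (2 : Fin (m + 3)) = (Fin.succ (Fin.succ 0) : Fin (m + 3)) := by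
    ext
    simp only [Fin.val_succ, Fin.coe_ofNat_eq_mod]
    rw [Nat.mod_eq_of_lt (by omega : 2 < m + 2 + 1), Nat.mod_eq_of_lt (by omega : 0 < m + 1)]
  rw [e2]
  rfl

/-- lower bound for discs through the two points -/
lemma disc_lower {r ε K : ℝ} (hr0 : 0 < r) (hr1 : r < 1) (hε0 : 0 < ε) (hK : 1 ≤ K)
    (hKr : 41 * K ^ 2 * r ≤ 1) (hKε : 4 * K ^ 2 * ε ≤ r ^ 2) (hε4 : 4 * K * ε ≤ 1)
    {α : ℂ} {φ : ℂ → Fin (m + 3) → ℂ}
    (h1 : DifferentiableOn ℂ φ (ball 0 1)) (h2 : MapsTo φ (ball 0 1) (Dom 1 m))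
    (h3 : α ∈ ball (0 : ℂ) 1)
    (h4 : φ 0 = vec m ((-(ε * r) : ℝ) : ℂ) 0 ((1 - r ^ 8 : ℝ) : ℂ))
    (h5 : φ α = vec m 0 ((ε * r ^ 2 : ℝ) : ℂ) ((1 - r ^ 8 : ℝ) : ℂ)) : K * ε ≤ ‖α‖ := by
  by_contra hcon
  push Not at hcon
  have hα : α ≠ 0 := by
    rintro rfl
    rw [h4] at h5
    have := congrFun h5 0
    rw [vec0, vec0] at this
    have h6 : -(ε * r) = 0 := by exact_mod_cast this
    have : 0 < ε * r := by positivity
    linarith
  have hr8 : 0 < r ^ 8 := by positivity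
  have hK2 : 0 < K ^ 2 := by positivity
  have hα4 : ‖α‖ ≤ 1 / 4 := by linarith
  set f : ℂ → ℂ := fun ζ => φ ζ 0 with hf
  set g : ℂ → ℂ := fun ζ => φ ζ 1 with hg
  set h : ℂ → ℂ := fun ζ => φ ζ 2 with hh
  have hcoord := differentiableOn_pi.1 h1
  have hmem : ∀ ζ ∈ ball (0 : ℂ) 1, ‖f ζ‖ ^ 2 * ‖g ζ‖ ^ 2 + ‖h ζ‖ ^ 2 < 1 ∧ ‖g ζ‖ < 1 :=
    fun ζ hζ => mem_iff m (φ ζ) (h2 hζ)
  have hhb : ∀ ζ ∈ ball (0 : ℂ) 1, ‖h ζ‖ < 1 := by
    intro ζ hζ
    have h6 := (hmem ζ hζ).1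
    have h7 : 0 ≤ ‖f ζ‖ ^ 2 * ‖g ζ‖ ^ 2 := by positivity
    by_contra hc
    push Not at hc
    have : 1 ≤ ‖h ζ‖ ^ 2 := one_le_pow₀ hc
    linarith
  have hh0 : h 0 = ((1 - r ^ 8 : ℝ) : ℂ) := by
    simp only [hh, h4, vec2]
  have hB : ∀ ζ : ℂ, ‖ζ‖ ≤ 1 / 2 → ‖f ζ‖ * ‖g ζ‖ ≤ 5 / 2 * r ^ 4 := by
    intro ζ hζ
    have hζb : ζ ∈ ball (0 : ℂ) 1 := by rw [mem_ball_zero_iff]; linarith
    have h6 := harnack (hcoord 2) hhb hr8 hh0 hζ
    have h7 := (hmem ζ hζb).1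
    have h8 : 1 - ‖h ζ‖ ≤ ‖1 - h ζ‖ := by
      have := norm_sub_norm_le (1 : ℂ) (h ζ)
      rw [norm_one] at this
      exact this
    have h9 := hhb ζ hζb
    have h10 := norm_nonneg (h ζ)
    have h11 : (‖f ζ‖ * ‖g ζ‖) ^ 2 ≤ 6 * r ^ 8 := by
      rw [mul_pow]
      nlinarith
    have h12 : (‖f ζ‖ * ‖g ζ‖) ^ 2 ≤ (5 / 2 * r ^ 4) ^ 2 := by
      refine h11.trans ?_
      have : (5 / 2 * r ^ 4) ^ 2 = 25 / 4 * r ^ 8 := by ring
      rw [this]
      linarith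
    exact (sq_le_sq₀ (by positivity) (by positivity)).1 h12
  have hf0 : ‖f 0‖ = ε * r := by
    simp only [hf, h4, vec0]
    rw [Complex.norm_real, norm_neg, Real.norm_of_nonneg (by positivity)]
  have hfα : f α = 0 := by simp only [hf, h5, vec0]
  have hg0 : g 0 = 0 := by simp only [hg, h4, vec1]
  have hgα : ‖g α‖ = ε * r ^ 2 := by
    simp only [hg, h5, vec1]
    rw [Complex.norm_real, Real.norm_of_nonneg (by positivity)]
  have key := pair_est (hcoord 0) (hcoord 1) (fun ζ hζ => (hmem ζ hζ).2) hB hα hα4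
    (by positivity) hf0 hfα hg0 hgα
  set τ := ‖α‖ with hτ
  have hτ0 : 0 < τ := norm_pos_iff.2 hα
  have hK0 : 0 < K := by linarith
  have hs : 1 / K ≤ ε / τ := by
    rw [div_le_div_iff₀ hK0 hτ0]
    linarith
  have e1 : ε * r / τ = r * (ε / τ) := by ring
  have e2 : ε * r ^ 2 / τ = r ^ 2 * (ε / τ) := by ring
  rw [e1, e2] at key
  have hτ2 : τ * 2 ≤ r ^ 2 / (2 * K) := by
    rw [le_div_iff₀ (by positivity)]
    nlinarith
  have h13 : r ^ 2 / (2 * K) ≤ r ^ 2 * (ε / τ) - τ * 2 := by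
    have h14 : r ^ 2 * (1 / K) ≤ r ^ 2 * (ε / τ) := by gcongr
    have h15 : r ^ 2 * (1 / K) = r ^ 2 / (2 * K) + r ^ 2 / (2 * K) := by field_simp; ring
    linarith
  have h16 : r * (1 / K) * (r ^ 2 / (2 * K)) ≤ r * (ε / τ) * (r ^ 2 * (ε / τ) - τ * 2) := by
    gcongr
  have h17 : r * (1 / K) * (r ^ 2 / (2 * K)) ≤ 8 * (5 / 2 * r ^ 4) := h16.trans key
  have h18 : r * (1 / K) * (r ^ 2 / (2 * K)) = r ^ 3 / (2 * K ^ 2) := by field_simp
  rw [h18, div_le_iff₀ (by positivity)] at h17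
  have h19 : 0 < r ^ 3 := by positivity
  have h20 : 8 * (5 / 2 * r ^ 4) * (2 * K ^ 2) = r ^ 3 * (40 * K ^ 2 * r) := by ring
  rw [h20] at h17
  have h21 : 40 * K ^ 2 * r < 1 := by
    have : 0 < K ^ 2 * r := by positivity
    nlinarith
  nlinarith

lemma main_m (C : ℝ) : ∃ x ∈ Dom 1 m, ∃ y ∈ Dom 1 m, ∃ z ∈ Dom 1 m,
    C * (lempert (Dom 1 m) x y + lempert (Dom 1 m) y z) < lempert (Dom 1 m) x z := by
  set K : ℝ := 4 * |C| + 1 with hK
  have hK1 : 1 ≤ K := by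
    have := abs_nonneg C
    linarith
  have hK0 : 0 < K := by linarith
  set r : ℝ := 1 / (41 * K ^ 2) with hr
  have hK2 : 1 ≤ K ^ 2 := one_le_pow₀ hK1
  have hr0 : 0 < r := by positivity
  have hr1 : r ≤ 1 / 41 := by
    rw [hr]
    apply one_div_le_one_div_of_le (by norm_num)
    linarith
  have hKr : 41 * K ^ 2 * r ≤ 1 := by
    rw [hr]; field_simp; exact le_refl _
  set ε : ℝ := r ^ 2 / (4 * K ^ 2) with hε
  have hε0 : 0 < ε := by positivity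
  have hKε : 4 * K ^ 2 * ε ≤ r ^ 2 := by
    rw [hε]; field_simp; exact le_refl _
  have hεr : ε ≤ r ^ 2 / 4 := by
    rw [hε]
    apply div_le_div_of_nonneg_left (by positivity) (by norm_num)
    linarith
  have hr2 : r ^ 2 ≤ r := by nlinarith
  have hε1 : ε ≤ 1 / 100 := by nlinarith
  have hε4 : 4 * K * ε ≤ 1 := by
    have : K ≤ K ^ 2 := by nlinarith
    nlinarith
  set w0 : ℂ := ((1 - r ^ 8 : ℝ) : ℂ) with hw0
  have hr8 : 0 < r ^ 8 := by positivity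
  have hr81 : r ^ 8 < 1 := pow_lt_one₀ hr0.le (by linarith) (by norm_num)
  have hw0n : ‖w0‖ = 1 - r ^ 8 := by
    rw [hw0, Complex.norm_real, Real.norm_of_nonneg (by linarith)]
  -- membership criterion
  have hmem : ∀ u v : ℂ, ‖u‖ ^ 8 + ‖v‖ ^ 4 + ‖u‖ ^ 2 * ‖v‖ ^ 2 ≤ r ^ 8 →
      vec m u v w0 ∈ Dom 1 m := by
    intro u v h
    rw [vec_mem_iff, hw0n]
    nlinarith
  have hx : vec m ((-(ε * r) : ℝ) : ℂ) 0 w0 ∈ Dom 1 m := by
    apply hmem
    rw [Complex.norm_real, norm_neg, Real.norm_of_nonneg (by positivity), norm_zero]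
    have : (ε * r) ^ 8 ≤ r ^ 8 := by
      gcongr
      nlinarith
    simpa using this
  have hz : vec m 0 ((ε * r ^ 2 : ℝ) : ℂ) w0 ∈ Dom 1 m := by
    apply hmem
    rw [Complex.norm_real, Real.norm_of_nonneg (by positivity), norm_zero]
    have : (ε * r ^ 2) ^ 4 ≤ (r ^ 2) ^ 4 := by
      gcongr
      nlinarith [sq_nonneg r]
    have e : (r ^ 2) ^ 4 = r ^ 8 := by ring
    rw [e] at this
    simpa using this
  have hy : vec m 0 0 w0 ∈ Dom 1 m := by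
    apply hmem
    simpa using hr8.le
  refine ⟨_, hx, _, hy, _, hz, ?_⟩
  -- upper bounds
  have hxy : lempert (Dom 1 m) (vec m ((-(ε * r) : ℝ) : ℂ) 0 w0) (vec m 0 0 w0) ≤ 2 * ε := by
    have hne : (1 - ε) ≠ 0 := by linarith
    have h1 : lempert (Dom 1 m) (vec m ((-(ε * r) : ℝ) : ℂ) 0 w0) (vec m 0 0 w0) ≤
        ‖((ε / (1 - ε) : ℝ) : ℂ)‖ := by
      apply lempert_le (φ := fun ζ => vec m ((-(ε * r) : ℝ) + ((1 - ε) * r : ℝ) * ζ) 0 w0)
      · exact vec_diff m (by fun_prop) (by fun_prop) (by fun_prop) _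
      · intro ζ hζ
        rw [mem_ball_zero_iff] at hζ
        apply hmem
        have h2 : ‖((-(ε * r) : ℝ) : ℂ) + (((1 - ε) * r : ℝ) : ℂ) * ζ‖ ≤ r := by
          calc ‖((-(ε * r) : ℝ) : ℂ) + (((1 - ε) * r : ℝ) : ℂ) * ζ‖
              ≤ ‖((-(ε * r) : ℝ) : ℂ)‖ + ‖(((1 - ε) * r : ℝ) : ℂ) * ζ‖ := norm_add_le _ _
            _ ≤ ε * r + (1 - ε) * r * 1 := by
                rw [norm_mul, Complex.norm_real, Complex.norm_real, norm_neg,
                  Real.norm_of_nonneg (by positivity),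
                  Real.norm_of_nonneg (mul_nonneg (by linarith) hr0.le)]
                have : 0 ≤ (1 - ε) * r := mul_nonneg (by linarith) hr0.le
                gcongr
            _ = r := by ring
        have h3 : ‖((-(ε * r) : ℝ) : ℂ) + (((1 - ε) * r : ℝ) : ℂ) * ζ‖ ^ 8 ≤ r ^ 8 := by
          gcongr
        simpa using h3
      · rw [mem_ball_zero_iff, Complex.norm_real, Real.norm_of_nonneg (by
          apply div_nonneg hε0.le; linarith), div_lt_one (by linarith)]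
        linarith
      · simp
      · congr 1
        rw [← Complex.ofReal_mul, ← Complex.ofReal_add]
        have : -(ε * r) + (1 - ε) * r * (ε / (1 - ε)) = 0 := by field_simp; ring
        rw [this]; simp
    refine h1.trans ?_
    rw [Complex.norm_real, Real.norm_of_nonneg (by apply div_nonneg hε0.le; linarith),
      div_le_iff₀ (by linarith)]
    nlinarith
  have hyz : lempert (Dom 1 m) (vec m 0 0 w0) (vec m 0 ((ε * r ^ 2 : ℝ) : ℂ) w0) ≤ ε := by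
    have h1 : lempert (Dom 1 m) (vec m 0 0 w0) (vec m 0 ((ε * r ^ 2 : ℝ) : ℂ) w0) ≤
        ‖((ε : ℝ) : ℂ)‖ := by
      apply lempert_le (φ := fun ζ => vec m 0 (((r ^ 2 : ℝ) : ℂ) * ζ) w0)
      · exact vec_diff m (by fun_prop) (by fun_prop) (by fun_prop) _
      · intro ζ hζ
        rw [mem_ball_zero_iff] at hζ
        apply hmem
        have h2 : ‖((r ^ 2 : ℝ) : ℂ) * ζ‖ ≤ r ^ 2 := by
          rw [norm_mul, Complex.norm_real, Real.norm_of_nonneg (by positivity)]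
          have : 0 ≤ r ^ 2 := by positivity
          nlinarith [norm_nonneg ζ]
        have h3 : ‖((r ^ 2 : ℝ) : ℂ) * ζ‖ ^ 4 ≤ (r ^ 2) ^ 4 := by gcongr
        have e : (r ^ 2) ^ 4 = r ^ 8 := by ring
        rw [e] at h3
        simpa using h3
      · rw [mem_ball_zero_iff, Complex.norm_real, Real.norm_of_nonneg hε0.le]
        linarith
      · simp
      · congr 1
        push_cast
        ring
    refine h1.trans ?_
    rw [Complex.norm_real, Real.norm_of_nonneg hε0.le]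
  -- lower bound
  have hxz : K * ε ≤ lempert (Dom 1 m) (vec m ((-(ε * r) : ℝ) : ℂ) 0 w0)
      (vec m 0 ((ε * r ^ 2 : ℝ) : ℂ) w0) := by
    apply le_csInf
    · -- there is a disc through the two points
      refine ⟨_, ((1 / 2 : ℝ) : ℂ), fun ζ => vec m ((-(ε * r) : ℝ) + (2 * (ε * r) : ℝ) * ζ)
        ((2 * (ε * r ^ 2) : ℝ) * ζ) w0, ?_, ?_, ?_, ?_, ?_, rfl⟩
      · exact vec_diff m (by fun_prop) (by fun_prop) (by fun_prop) _
      · intro ζ hζ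
        rw [mem_ball_zero_iff] at hζ
        apply hmem
        have h2 : ‖((-(ε * r) : ℝ) : ℂ) + ((2 * (ε * r) : ℝ) : ℂ) * ζ‖ ≤ 3 * ε * r := by
          calc ‖((-(ε * r) : ℝ) : ℂ) + ((2 * (ε * r) : ℝ) : ℂ) * ζ‖
              ≤ ‖((-(ε * r) : ℝ) : ℂ)‖ + ‖((2 * (ε * r) : ℝ) : ℂ) * ζ‖ := norm_add_le _ _
            _ ≤ ε * r + 2 * (ε * r) * 1 := by
                rw [norm_mul, Complex.norm_real, Complex.norm_real, norm_neg,
                  Real.norm_of_nonneg (by positivity), Real.norm_of_nonneg (by positivity)]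
                gcongr
            _ = 3 * ε * r := by ring
        have h3 : ‖((2 * (ε * r ^ 2) : ℝ) : ℂ) * ζ‖ ≤ 2 * ε * r ^ 2 := by
          rw [norm_mul, Complex.norm_real, Real.norm_of_nonneg (by positivity)]
          have : 0 ≤ 2 * (ε * r ^ 2) := by positivity
          nlinarith [norm_nonneg ζ]
        calc ‖((-(ε * r) : ℝ) : ℂ) + ((2 * (ε * r) : ℝ) : ℂ) * ζ‖ ^ 8 +
              ‖((2 * (ε * r ^ 2) : ℝ) : ℂ) * ζ‖ ^ 4 +
              ‖((-(ε * r) : ℝ) : ℂ) + ((2 * (ε * r) : ℝ) : ℂ) * ζ‖ ^ 2 *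
                ‖((2 * (ε * r ^ 2) : ℝ) : ℂ) * ζ‖ ^ 2
            ≤ (3 * ε * r) ^ 8 + (2 * ε * r ^ 2) ^ 4 + (3 * ε * r) ^ 2 * (2 * ε * r ^ 2) ^ 2 := by
              gcongr
          _ = ((3 * ε) ^ 8 + (2 * ε) ^ 4) * r ^ 8 + (6 * ε) ^ 2 * ε ^ 2 * r ^ 6 := by ring
          _ ≤ ((1 / 2) ^ 8 + (1 / 2) ^ 4) * r ^ 8 + (1 / 2) ^ 2 * r ^ 2 * r ^ 6 := by
              have h4 : 3 * ε ≤ 1 / 2 := by linarith
              have h5 : 2 * ε ≤ 1 / 2 := by linarith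
              have h6 : 6 * ε ≤ 1 / 2 := by linarith
              have h7 : ε ≤ r := by nlinarith
              gcongr
          _ ≤ r ^ 8 := by nlinarith
      · rw [mem_ball_zero_iff, Complex.norm_real]
        norm_num
      · simp
      · have e1 : ((-(ε * r) : ℝ) : ℂ) + ((2 * (ε * r) : ℝ) : ℂ) * ((1 / 2 : ℝ) : ℂ) = 0 := by
          push_cast; ring
        have e2 : ((2 * (ε * r ^ 2) : ℝ) : ℂ) * ((1 / 2 : ℝ) : ℂ) = ((ε * r ^ 2 : ℝ) : ℂ) := by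
          push_cast; ring
        show vec m _ _ w0 = vec m _ _ w0
        rw [e1, e2]
    · rintro t ⟨α, φ, h1, h2, h3, h4, h5, rfl⟩
      exact disc_lower m hr0 (by linarith) hε0 hK1 hKr hKε hε4 h1 h2 h3 h4 h5
  have hnn1 : 0 ≤ lempert (Dom 1 m) (vec m ((-(ε * r) : ℝ) : ℂ) 0 w0) (vec m 0 0 w0) := by
    apply Real.sInf_nonneg
    rintro t ⟨α, φ, -, -, -, -, -, rfl⟩
    exact norm_nonneg _
  have hnn2 : 0 ≤ lempert (Dom 1 m) (vec m 0 0 w0) (vec m 0 ((ε * r ^ 2 : ℝ) : ℂ) w0) := by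
    apply Real.sInf_nonneg
    rintro t ⟨α, φ, -, -, -, -, -, rfl⟩
    exact norm_nonneg _
  refine lt_of_lt_of_le ?_ hxz
  have h1 : C * (lempert (Dom 1 m) (vec m ((-(ε * r) : ℝ) : ℂ) 0 w0) (vec m 0 0 w0) +
      lempert (Dom 1 m) (vec m 0 0 w0) (vec m 0 ((ε * r ^ 2 : ℝ) : ℂ) w0)) ≤
      |C| * (3 * ε) := by
    have h2 : lempert (Dom 1 m) (vec m ((-(ε * r) : ℝ) : ℂ) 0 w0) (vec m 0 0 w0) +
      lempert (Dom 1 m) (vec m 0 0 w0) (vec m 0 ((ε * r ^ 2 : ℝ) : ℂ) w0) ≤ 3 * ε := by linarith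
    exact mul_le_mul (le_abs_self C) h2 (add_nonneg hnn1 hnn2) (abs_nonneg C)
  have h3 : |C| * (3 * ε) < K * ε := by
    rw [hK]
    have := abs_nonneg C
    nlinarith
  linarith

end

theorem lem_main (n : ℕ) (hn : 3 ≤ n) : ∃ D : Set (Fin n → ℂ), IsFiniteTypeDomain D ∧
    ∀ C : ℝ, ∃ x ∈ D, ∃ y ∈ D, ∃ z ∈ D,
      C * (lempert D x y + lempert D y z) < lempert D x z := by
  obtain ⟨m, rfl⟩ : ∃ m, n = m + 3 := ⟨n - 3, by omega⟩
  exact ⟨Dom 1 m, Dom_finite 1 m le_rfl, main_m m⟩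

end Pool.Agent.R233.Lem
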