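import Pool.Agent.R233.Defs

set_option autoImplicit false

open MeasureTheory Topology Filter Asymptotics Set
open scoped ENNReal NNReal ContDiff

namespace Pool.Agent.R233

variable {E : Type*} [NormedAddCommGroup E] [NormedSpace ℂ E]

/-- mean value property -/
lemma re_mean (h : ℂ → ℂ) (hh : Differentiable ℂ h) (r : ℝ) :
    Real.circleAverage (fun ζ => (h ζ).re) 0 r = (h 0).re := by
  have h1 : Real.circleAverage h 0 r = h 0 := DiffContOnCl.circleAverage hh.diffContOnCl
  have hint : CircleIntegrable h 0 r := hh.continuous.continuousOn.circleIntegrable'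
  have h2 := Complex.reCLM.circleAverage_comp_comm (c := 0) (R := r) (f := h) hint
  have h3 : (Complex.reCLM ∘ h) = fun ζ => (h ζ).re := rfl
  rw [h3] at h2
  rw [h2, h1]
  rfl

/-- sub-mean value inequality for sums of squares of holomorphic functions -/
lemma submean_sq {ι : Type*} [Fintype ι] (F : ι → E → ℂ)
    (hF : ∀ i, Differentiable ℂ (F i)) (a b : E) :
    ∑ i, ‖F i a‖ ^ 2 ≤ Real.circleAverage (fun ζ : ℂ => ∑ i, ‖F i (a + ζ • b)‖ ^ 2) 0 1 := by
  have hline : Differentiable ℂ (fun ζ : ℂ => a + ζ • b) := by fun_prop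
  set h : ℂ → ℂ := fun ζ => ∑ i,
    (2 * (starRingEnd ℂ) (F i a) * F i (a + ζ • b) - (Complex.normSq (F i a) : ℂ)) with hh
  have hd : Differentiable ℂ h := by
    refine Differentiable.fun_sum fun i _ => ?_
    exact ((((hF i).comp hline).const_mul _).sub_const _)
  have hre : ∀ ζ, (h ζ).re = ∑ i,
      (2 * ((F i a).re * (F i (a + ζ • b)).re + (F i a).im * (F i (a + ζ • b)).im)
        - Complex.normSq (F i a)) := by
    intro ζ
    simp only [hh, Complex.re_sum]
    refine Finset.sum_congr rfl fun i _ => ?_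
    simp only [Complex.sub_re, Complex.mul_re, Complex.conj_re, Complex.ofReal_im,
      Complex.conj_im, Complex.mul_im, Complex.ofReal_re, Complex.re_ofNat, Complex.im_ofNat]
    ring
  have h0 : (h 0).re = ∑ i, ‖F i a‖ ^ 2 := by
    rw [hre]
    simp only [zero_smul, add_zero]
    refine Finset.sum_congr rfl fun i _ => ?_
    rw [← Complex.normSq_eq_norm_sq, Complex.normSq_apply]
    ring
  rw [← h0, ← re_mean h hd 1]
  apply Real.circleAverage_mono
  · exact (Complex.continuous_re.comp hd.continuous).continuousOn.circleIntegrable'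
  · refine ContinuousOn.circleIntegrable' (Continuous.continuousOn ?_)
    refine continuous_finset_sum _ fun i _ => ?_
    exact (((hF i).continuous.comp hline.continuous).norm.pow 2)
  · intro ζ _
    rw [hre]
    refine Finset.sum_le_sum fun i _ => ?_
    rw [← Complex.normSq_eq_norm_sq, Complex.normSq_apply, Complex.normSq_apply]
    nlinarith [sq_nonneg ((F i a).re - (F i (a + ζ • b)).re),
      sq_nonneg ((F i a).im - (F i (a + ζ • b)).im)]

/-- Sublevel sets of continuous plurisubharmonic functions are pseudoconvex. -/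
theorem psc_of_submean [ProperSpace E] (Φ : E → ℝ) (hc : Continuous Φ)
    (hs : ∀ a b : E, Φ a ≤ Real.circleAverage (fun ζ : ℂ => Φ (a + ζ • b)) 0 1)
    (hb : Bornology.IsBounded {z | Φ z < 1}) : IsPseudoconvex {z | Φ z < 1} := by
  refine ⟨fun z => (1 - Φ z)⁻¹, ?_, ?_, ?_⟩
  · refine ContinuousOn.inv₀ (by fun_prop) ?_
    intro z hz
    have : Φ z < 1 := hz
    linarith
  · intro a b hab
    have ha : Φ a < 1 := by
      have := hab 0 (by simp)
      simpa using this
    set x0 := Φ a with hx0
    have hpos : 0 < 1 - x0 := by linarith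
    have key : ∀ y : ℝ, y < 1 →
        (1 - x0)⁻¹ + (y - x0) * ((1 - x0) ^ 2)⁻¹ ≤ (1 - y)⁻¹ := by
      intro y hy
      have hy' : 0 < 1 - y := by linarith
      rw [← sub_nonneg]
      have e : (1 - y)⁻¹ - ((1 - x0)⁻¹ + (y - x0) * ((1 - x0) ^ 2)⁻¹) =
          (y - x0) ^ 2 / ((1 - y) * (1 - x0) ^ 2) := by
        field_simp
        ring
      rw [e]
      positivity
    have hline : Continuous (fun ζ : ℂ => Φ (a + ζ • b)) := by fun_prop
    have havg : Real.circleAverage (fun ζ : ℂ =>
        (1 - x0)⁻¹ + (Φ (a + ζ • b) - x0) * ((1 - x0) ^ 2)⁻¹) 0 1 =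
        (1 - x0)⁻¹ + (Real.circleAverage (fun ζ : ℂ => Φ (a + ζ • b)) 0 1 - x0) *
          ((1 - x0) ^ 2)⁻¹ := by
      have e : (fun ζ : ℂ => (1 - x0)⁻¹ + (Φ (a + ζ • b) - x0) * ((1 - x0) ^ 2)⁻¹) =
          (fun _ : ℂ => (1 - x0)⁻¹ - x0 * ((1 - x0) ^ 2)⁻¹) +
          ((1 - x0) ^ 2)⁻¹ • (fun ζ : ℂ => Φ (a + ζ • b)) := by
        funext ζ
        simp only [Pi.add_apply, Pi.smul_apply, smul_eq_mul]
        ring
      rw [e, Real.circleAverage_add, Real.circleAverage_const, Real.circleAverage_smul]
      · simp only [smul_eq_mul]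
        ring
      · exact continuous_const.continuousOn.circleIntegrable'
      · exact (hline.const_smul _).continuousOn.circleIntegrable'
    have h1 : (1 - x0)⁻¹ ≤ Real.circleAverage (fun ζ : ℂ =>
        (1 - x0)⁻¹ + (Φ (a + ζ • b) - x0) * ((1 - x0) ^ 2)⁻¹) 0 1 := by
      rw [havg]
      have := hs a b
      have h2 : 0 ≤ (Real.circleAverage (fun ζ : ℂ => Φ (a + ζ • b)) 0 1 - x0) *
          ((1 - x0) ^ 2)⁻¹ := mul_nonneg (by linarith) (by positivity)
      linarith
    refine h1.trans ?_
    apply Real.circleAverage_mono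
    · exact Continuous.continuousOn (by fun_prop) |>.circleIntegrable'
    · refine ContinuousOn.circleIntegrable' ?_
      refine ContinuousOn.inv₀ (by fun_prop) ?_
      intro ζ hζ
      have : Φ (a + ζ • b) < 1 := hab ζ (by
        simp only [mem_sphere_iff_norm, sub_zero] at hζ
        rw [hζ]; simp)
      linarith
    · intro ζ hζ
      apply key
      apply hab
      simp only [mem_sphere_iff_norm, sub_zero] at hζ
      rw [hζ]; simp
  · intro c
    by_cases hc0 : 0 < c
    · have e : {z | z ∈ {z | Φ z < 1} ∧ (1 - Φ z)⁻¹ ≤ c} = {z | Φ z ≤ 1 - c⁻¹} := by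
        ext z
        simp only [mem_setOf_eq]
        constructor
        · rintro ⟨h1, h2⟩
          have : 0 < 1 - Φ z := by linarith
          rw [inv_le_comm₀ this hc0] at h2
          linarith
        · intro h
          have h3 : 0 < c⁻¹ := by positivity
          have : 0 < 1 - Φ z := by linarith
          refine ⟨by linarith, ?_⟩
          rw [inv_le_comm₀ this hc0]
          linarith
      rw [e]
      apply Metric.isCompact_of_isClosed_isBounded
      · exact isClosed_le hc continuous_const
      · apply hb.subset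
        intro z hz
        have h3 : 0 < c⁻¹ := by positivity
        have : Φ z ≤ 1 - c⁻¹ := hz
        show Φ z < 1
        linarith
    · have e : {z | z ∈ {z | Φ z < 1} ∧ (1 - Φ z)⁻¹ ≤ c} = ∅ := by
        ext z
        simp only [mem_setOf_eq, mem_empty_iff_false, iff_false]
        rintro ⟨h1, h2⟩
        have : 0 < (1 - Φ z)⁻¹ := by
          have : 0 < 1 - Φ z := by linarith
          positivity
        linarith
      rw [e]
      exact isCompact_empty

end Pool.Agent.R233
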