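import Pool.Agent.R233.RLim

set_option autoImplicit false

open Metric Set Filter Topology Module

namespace Pool.Agent.R233.RG

theorem exists_F : ∃ (S : ℕ → Stage) (a : ℕ → V) (F : V → V), S 0 = S0 ∧ (∀ n, ‖a n‖ = 1) ∧
    (∀ x : V, ‖x‖ = 1 → ∀ δ > (0 : ℝ), ∀ N : ℕ, ∃ n ≥ N, ‖a n - x‖ < δ) ∧
    (∀ n, StepRel n (a n) (S n) (S (n + 1))) ∧
    (∀ n, ∀ z ∈ closedBall (0 : V) 1, ‖F z - (S n).f z‖ ≤ (S n).e) := by
  obtain ⟨a, ha, hdense⟩ := dense_seq
  obtain ⟨S, h0, h⟩ := stages a ha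
  obtain ⟨F, hF⟩ := limit_exists h0 h
  exact ⟨S, a, F, h0, ha, hdense, h, hF⟩

theorem poly_diff (p : MvPolynomial (Fin 3) ℂ) :
    Differentiable ℂ (fun z : V => MvPolynomial.eval (fun i => EuclideanSpace.proj i z) p) := by
  induction p using MvPolynomial.induction_on with
  | C c =>
    simp only [MvPolynomial.eval_C]
    fun_prop
  | add p q hp hq =>
    simp only [map_add]
    exact hp.add hq
  | mul_X p i hp =>
    simp only [map_mul, MvPolynomial.eval_X]
    exact hp.mul (EuclideanSpace.proj i : V →L[ℂ] ℂ).differentiable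

theorem not_runge {S : ℕ → Stage} {a : ℕ → V} {F : V → V} (h0 : S 0 = S0)
    (h : ∀ n, StepRel n (a n) (S n) (S (n + 1)))
    (hF : ∀ n, ∀ z ∈ closedBall (0 : V) 1, ‖F z - (S n).f z‖ ≤ (S n).e) :
    ¬ (∀ g : V → ℂ,
          DifferentiableOn ℂ g (F '' Metric.ball 0 1) →
          ∀ K : Set V, IsCompact K → K ⊆ F '' Metric.ball 0 1 →
          ∀ ε : ℝ, 0 < ε →
          ∃ p : MvPolynomial (Fin 3) ℂ, ∀ z ∈ K,
            ‖g z - MvPolynomial.eval (fun i => EuclideanSpace.proj i z) p‖ < ε) := by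
  intro hR
  have hFd := F_diff h0 h hF
  have hFi := F_inj h hF
  have hFc := F_cont h0 h hF
  have hFib : InjOn F (ball 0 1) := hFi.mono ball_subset_closedBall
  obtain ⟨A, r, hA, hr0, hr1, hAc, hAb, hA0, hAm⟩ := (h 0).gad
  set e := (S 1).e with he
  have he0 : 0 < e := (S 1).he
  set r' := (1 + r) / 2 with hr'
  have hr'1 : r' < 1 := by rw [hr']; linarith
  have hKb : closedBall (0 : V) r' ⊆ ball 0 1 := closedBall_subset_ball hr'1
  have hKc : IsCompact (F '' closedBall 0 r') :=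
    (isCompact_closedBall _ _).image_of_continuousOn (hFd.continuousOn.mono hKb)
  have hopen : IsOpen (F '' ball 0 1) := open_image isOpen_ball hFd hFib
  -- the inverse
  set v : V → V := Function.invFunOn F (ball 0 1) with hv
  have hvm : ∀ z ∈ F '' ball 0 1, v z ∈ ball (0 : V) 1 := fun z hz => Function.invFunOn_mem hz
  have hvF : ∀ z ∈ F '' ball 0 1, F (v z) = z := fun z hz => Function.invFunOn_eq hz
  have hvd : DifferentiableOn ℂ v (F '' ball 0 1) :=
    Pool.Agent.Helper540.differentiableOn_of_comp rfl isOpen_ball hopen hFd hFib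
      (g := id) differentiableOn_id hvm hvF
  have hvi : ∀ x ∈ ball (0 : V) 1, v (F x) = x := fun x hx =>
    hFib (hvm _ ⟨x, hx, rfl⟩) hx (hvF _ ⟨x, hx, rfl⟩)
  have huc := (isCompact_closedBall (0 : V) 1).uniformContinuousOn_of_continuous hFc
  rw [Metric.uniformContinuousOn_iff] at huc
  obtain ⟨δ, hδ, hδ2⟩ := huc e he0
  set ε := min (δ / 4) ((1 - r') / 8) with hε
  have hε0 : 0 < ε := lt_min (by linarith) (by linarith)
  have hεδ : ε ≤ δ / 4 := min_le_left _ _
  have hεr : ε ≤ (1 - r') / 8 := min_le_right _ _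
  have hex : ∀ i : Fin 3, ∃ p : MvPolynomial (Fin 3) ℂ, ∀ z ∈ F '' closedBall 0 r',
      ‖v z i - MvPolynomial.eval (fun i => EuclideanSpace.proj i z) p‖ < ε := by
    intro i
    refine hR (fun z => v z i) ?_ _ hKc (image_mono hKb) ε hε0
    exact (differentiableOn_euclidean.1 hvd) i
  choose p hp using hex
  set P : V → V := fun z => WithLp.toLp 2
    (fun i => MvPolynomial.eval (fun j => EuclideanSpace.proj j z) (p i)) with hP
  have hPd : Differentiable ℂ P := by
    rw [differentiable_euclidean]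
    intro i
    exact poly_diff (p i)
  have hPc : ∀ z ∈ F '' closedBall 0 r', ‖P z - v z‖ ≤ 3 * ε := by
    intro z hz
    have h1 := norm_le3 (P z - v z)
    have h2 : ∀ i : Fin 3, ‖(P z - v z) i‖ < ε := by
      intro i
      have := hp i z hz
      rw [norm_sub_rev] at this
      exact this
    have := h2 0
    have := h2 1
    have := h2 2
    linarith
  have hhit : ∀ w : ℂ, ‖w‖ = 1 → ∃ x : V, ‖x‖ ≤ r' ∧ F x = A w := by
    intro w hw
    obtain ⟨x, hx, hxw⟩ := hAb w hw
    exact hit he0 hr1 (hF 1) hFd hFib (fun z _ => by simp [he0.le]) hx hxw (hAm x hx)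
  refine trap (f := (S 1).f) (F := F) (e := e) (ρ := (1 + r') / 2) he0 (by linarith) hFd (hF 1) hA
    (φ := fun w => P (A w)) (hPd.comp_differentiableOn hA) hA0 ?_ ?_
  · intro w hw
    obtain ⟨x, hx, hxw⟩ := hhit w hw
    have h1 : A w ∈ F '' closedBall 0 r' := ⟨x, by rwa [mem_closedBall_zero_iff], hxw⟩
    have h2 := hPc _ h1
    have h3 : v (A w) = x := by
      rw [← hxw]; exact hvi x (by rw [mem_ball_zero_iff]; linarith)
    rw [h3] at h2
    have h4 := norm_add_le (P (A w) - x) x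
    rw [sub_add_cancel] at h4
    show ‖P (A w)‖ ≤ _
    linarith
  · intro w hw
    obtain ⟨x, hx, hxw⟩ := hhit w hw
    have h1 : A w ∈ F '' closedBall 0 r' := ⟨x, by rwa [mem_closedBall_zero_iff], hxw⟩
    have h2 := hPc _ h1
    have h3 : v (A w) = x := by
      rw [← hxw]; exact hvi x (by rw [mem_ball_zero_iff]; linarith)
    rw [h3] at h2
    have h4 := norm_add_le (P (A w) - x) x
    rw [sub_add_cancel] at h4
    have h5 := hδ2 (P (A w)) (by rw [mem_closedBall_zero_iff]; linarith) x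
      (by rw [mem_closedBall_zero_iff]; linarith) (by rw [dist_eq_norm]; linarith)
    rw [dist_eq_norm] at h5
    show ‖F (P (A w)) - A w‖ ≤ 2 * e
    rw [← hxw] at h5 ⊢
    linarith

theorem no_common {S : ℕ → Stage} {a : ℕ → V} {F : V → V} (h0 : S 0 = S0)
    (hdense : ∀ x : V, ‖x‖ = 1 → ∀ δ > (0 : ℝ), ∀ N : ℕ, ∃ n ≥ N, ‖a n - x‖ < δ)
    (ha : ∀ n, ‖a n‖ = 1)
    (h : ∀ n, StepRel n (a n) (S n) (S (n + 1)))
    (hF : ∀ n, ∀ z ∈ closedBall (0 : V) 1, ‖F z - (S n).f z‖ ≤ (S n).e)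
    {Ω : Set V} {Ψ : ℕ → V → V} (hd : ∀ k, Differentiable ℂ (Ψ k))
    (hi : ∀ k, Function.Injective (Ψ k)) (hz : ∀ k, Ψ k 0 = 0) (hr : ∀ k, range (Ψ k) = Ω)
    (hlim : TendstoLocallyUniformlyOn Ψ F atTop (ball 0 1)) : False := by
  have hFd := F_diff h0 h hF
  have hFi := F_inj h hF
  have hFc := F_cont h0 h hF
  have hFib : InjOn F (ball 0 1) := hFi.mono ball_subset_closedBall
  have hopen : IsOpen (F '' ball 0 1) := open_image isOpen_ball hFd hFib
  have hΩ : IsOpen Ω := by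
    rw [← hr 0, ← image_univ]
    exact open_image isOpen_univ (hd 0).differentiableOn (hi 0).injOn
  have hF0 := F_zero h0 h hF
  -- a boundary point in Ω
  obtain ⟨x, hx, hxΩ⟩ : ∃ x : V, ‖x‖ = 1 ∧ F x ∈ Ω := by
    by_contra hcon
    push Not at hcon
    have heq : Ψ 0 ⁻¹' (F '' ball 0 1) = Ψ 0 ⁻¹' (F '' closedBall 0 1) := by
      apply Subset.antisymm (preimage_mono (image_mono ball_subset_closedBall))
      rintro y ⟨x, hx, hxy⟩
      refine ⟨x, ?_, hxy⟩
      rw [mem_closedBall_zero_iff] at hx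
      rw [mem_ball_zero_iff]
      rcases hx.lt_or_eq with h1 | h1
      · exact h1
      · exfalso
        apply hcon x h1
        rw [hxy, ← hr 0]
        exact mem_range_self y
    have hcl : IsClopen (Ψ 0 ⁻¹' (F '' ball 0 1)) := by
      constructor
      · rw [heq]
        have h1 : IsCompact (F '' closedBall 0 1) :=
          (isCompact_closedBall _ _).image_of_continuousOn hFc
        exact h1.isClosed.preimage (hd 0).continuous
      · exact hopen.preimage (hd 0).continuous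
    have huniv := hcl.eq_univ ⟨0, by
      show Ψ 0 0 ∈ F '' ball 0 1
      rw [hz 0]
      exact ⟨0, by simp, hF0⟩⟩
    have hb : Bornology.IsBounded (range (Ψ 0)) := by
      have h1 : IsCompact (F '' closedBall 0 1) :=
        (isCompact_closedBall _ _).image_of_continuousOn hFc
      apply h1.isBounded.subset
      rintro _ ⟨y, rfl⟩
      have : y ∈ Ψ 0 ⁻¹' (F '' ball 0 1) := by rw [huniv]; exact mem_univ _
      exact image_mono ball_subset_closedBall this
    have h2 := (hd 0).apply_eq_apply_of_bounded hb 0 e3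
    have h3 := hi 0 h2
    have h4 := norm_e3
    rw [← h3, norm_zero] at h4
    exact zero_ne_one h4
  obtain ⟨δ, hδ, hδΩ⟩ := Metric.isOpen_iff.1 hΩ _ hxΩ
  have hxc : x ∈ closedBall (0 : V) 1 := by rw [mem_closedBall_zero_iff, hx]
  obtain ⟨η, hη, hη2⟩ := Metric.continuousWithinAt_iff.1 (hFc x hxc) (δ / 4) (by linarith)
  obtain ⟨N, hN⟩ := eventually_atTop.1 ((e_tendsto h0 h).eventually_lt_const
    (show (0 : ℝ) < δ / 4 by linarith))
  obtain ⟨n, hn, hnx⟩ := hdense x hx η hη N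
  obtain ⟨A, r, hA, hr0, hr1, hAc, hAb, hA0, hAm⟩ := (h n).gad
  have hac : a n ∈ closedBall (0 : V) 1 := by rw [mem_closedBall_zero_iff, ha]
  have hAΩ : ∀ w : ℂ, ‖w‖ < 2 → A w ∈ Ω := by
    intro w hw
    apply hδΩ
    rw [mem_ball, dist_eq_norm]
    have h1 := hAc w hw
    have h2 := hF n (a n) hac
    have h3 := hη2 hac (by rw [dist_eq_norm]; exact hnx)
    rw [dist_eq_norm] at h3
    have h4 := hN n hn
    have h5 : A w - F x = (A w - (S n).f (a n)) - (F (a n) - (S n).f (a n)) + (F (a n) - F x) := by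
      abel
    rw [h5]
    have h6 := norm_add_le ((A w - (S n).f (a n)) - (F (a n) - (S n).f (a n))) (F (a n) - F x)
    have h7 := norm_sub_le (A w - (S n).f (a n)) (F (a n) - (S n).f (a n))
    linarith
  set e := (S (n + 1)).e with he
  have he0 : 0 < e := (S (n + 1)).he
  set r' := (1 + r) / 2 with hr'
  have hr'1 : r' < 1 := by rw [hr']; linarith
  have hKb : closedBall (0 : V) r' ⊆ ball 0 1 := closedBall_subset_ball hr'1
  have hu := (tendstoLocallyUniformlyOn_iff_forall_isCompact isOpen_ball).1 hlim _ hKb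
    (isCompact_closedBall _ _)
  rw [Metric.tendstoUniformlyOn_iff] at hu
  obtain ⟨k, hk⟩ := (hu e he0).exists
  have hclose : ∀ z : V, ‖z‖ ≤ r' → ‖Ψ k z - F z‖ ≤ e := by
    intro z hz
    have := hk z (by rwa [mem_closedBall_zero_iff])
    rw [dist_comm, dist_eq_norm] at this
    exact this.le
  have hhit : ∀ w : ℂ, ‖w‖ = 1 → ∃ x : V, ‖x‖ ≤ r' ∧ Ψ k x = A w := by
    intro w hw
    obtain ⟨x, hx, hxw⟩ := hAb w hw
    exact hit he0 hr1 (hF (n + 1)) (hd k).differentiableOn (hi k).injOn hclose hx hxw (hAm x hx)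
  -- the inverse of Ψ k
  set v : V → V := Function.invFun (Ψ k) with hv
  have hvF : ∀ z ∈ Ω, Ψ k (v z) = z := by
    intro z hz
    rw [← hr k] at hz
    exact Function.invFun_eq hz
  have hvd : DifferentiableOn ℂ v Ω :=
    Pool.Agent.Helper540.differentiableOn_of_comp rfl isOpen_univ hΩ (hd k).differentiableOn
      (hi k).injOn (g := id) differentiableOn_id (fun _ _ => mem_univ _) hvF
  have hvi : ∀ x : V, v (Ψ k x) = x := Function.leftInverse_invFun (hi k)
  refine trap (f := (S (n + 1)).f) (F := F) (e := e) (ρ := r') he0 hr'1 hFd (hF (n + 1)) hA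
    (φ := fun w => v (A w)) ?_ hA0 ?_ ?_
  · exact hvd.comp hA (fun w hw => hAΩ w (by rwa [mem_ball_zero_iff] at hw))
  · intro w hw
    obtain ⟨x, hx, hxw⟩ := hhit w hw
    show ‖v (A w)‖ ≤ r'
    rw [← hxw, hvi]
    exact hx
  · intro w hw
    obtain ⟨x, hx, hxw⟩ := hhit w hw
    show ‖F (v (A w)) - A w‖ ≤ 2 * e
    rw [← hxw, hvi, norm_sub_rev]
    have := hclose x hx
    linarith

end Pool.Agent.R233.RG
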