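import Mathlib

set_option autoImplicit false

open Metric Set Filter Topology

namespace Pool.Agent.R233.RG

abbrev V := EuclideanSpace ℂ (Fin 3)

noncomputable def q (s : ℝ) (z : V) : ℂ := (s : ℂ) + 2 - 2 * z 2

noncomputable def Gs (s : ℝ) (z : V) : V :=
  WithLp.toLp 2 ![z 0, z 1 - 16 * s * z 0 * (z 1) ^ 2 / (q s z) ^ 2,
    z 2 + 16 * s * z 0 * z 1 / q s z]

theorem Gs_0 (s : ℝ) (z : V) : Gs s z 0 = z 0 := rfl
theorem Gs_1 (s : ℝ) (z : V) : Gs s z 1 = z 1 - 16 * s * z 0 * (z 1) ^ 2 / (q s z) ^ 2 := rfl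
theorem Gs_2 (s : ℝ) (z : V) : Gs s z 2 = z 2 + 16 * s * z 0 * z 1 / q s z := rfl

theorem q_re (s : ℝ) (z : V) : (q s z).re = s + 2 - 2 * (z 2).re := by simp [q]

theorem Gs_inj (s : ℝ) : InjOn (Gs s) {z | 0 < (q s z).re} := by
  intro z hz w hw h
  have hz' : 0 < (q s z).re := hz
  have hw' : 0 < (q s w).re := hw
  have h0 : z 0 = w 0 := by
    have := congrArg (fun x : V => x 0) h
    simpa [Gs_0] using this
  have h1 : z 1 - 16 * s * z 0 * (z 1) ^ 2 / (q s z) ^ 2 =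
      w 1 - 16 * s * w 0 * (w 1) ^ 2 / (q s w) ^ 2 := by
    have := congrArg (fun x : V => x 1) h
    simpa only [Gs_1] using this
  have h2 : z 2 + 16 * s * z 0 * z 1 / q s z = w 2 + 16 * s * w 0 * w 1 / q s w := by
    have := congrArg (fun x : V => x 2) h
    simpa only [Gs_2] using this
  have hqz : q s z ≠ 0 := by
    intro h; rw [h] at hz'; simp at hz'
  have hqw : q s w ≠ 0 := by
    intro h; rw [h] at hw'; simp at hw'
  have hz2 : z 2 = ((s : ℂ) + 2 - q s z) / 2 := by simp only [q]; ring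
  have hw2 : w 2 = ((s : ℂ) + 2 - q s w) / 2 := by simp only [q]; ring
  rw [← h0] at h1 h2
  rw [hz2, hw2] at h2
  obtain ⟨p, hp⟩ : ∃ p, z 1 = p * q s z := ⟨z 1 / q s z, by field_simp⟩
  obtain ⟨p', hp'⟩ : ∃ p, w 1 = p * q s w := ⟨w 1 / q s w, by field_simp⟩
  rw [hp, hp'] at h1 h2
  have e1 : p * q s z - 16 * s * z 0 * p ^ 2 = p' * q s w - 16 * s * z 0 * p' ^ 2 := by
    have a1 : 16 * s * z 0 * (p * q s z) ^ 2 / q s z ^ 2 = 16 * s * z 0 * p ^ 2 := by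
      field_simp
    have a2 : 16 * s * z 0 * (p' * q s w) ^ 2 / q s w ^ 2 = 16 * s * z 0 * p' ^ 2 := by
      field_simp
    rw [a1, a2] at h1
    exact h1
  have e2 : q s w = q s z + 2 * (16 * s * z 0) * (p' - p) := by
    have a1 : 16 * s * z 0 * (p * q s z) / q s z = 16 * s * z 0 * p := by
      field_simp
    have a2 : 16 * s * z 0 * (p' * q s w) / q s w = 16 * s * z 0 * p' := by
      field_simp
    rw [a1, a2] at h2
    linear_combination 2 * h2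
  have e3 : (p - p') * (q s z - 16 * s * z 0 * (p - p')) = 0 := by
    rw [e2] at e1
    linear_combination e1
  rcases mul_eq_zero.1 e3 with e4 | e4
  · have hpp : p = p' := sub_eq_zero.1 e4
    have hqq : q s w = q s z := by rw [e2, hpp]; ring
    have g1 : z 1 = w 1 := by rw [hp, hp', hpp, hqq]
    have g2 : z 2 = w 2 := by rw [hz2, hw2, hqq]
    ext i
    fin_cases i
    · exact h0
    · exact g1
    · exact g2
  · exfalso
    have : q s w = - q s z := by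
      rw [e2]
      linear_combination 2 * e4
    rw [this] at hw'
    simp at hw'
    linarith

theorem div_at {f g : V → ℂ} {z : V} (hf : DifferentiableAt ℂ f z) (hg : DifferentiableAt ℂ g z)
    (h : g z ≠ 0) : DifferentiableAt ℂ (fun x => f x / g x) z := by
  simp only [div_eq_mul_inv]
  exact hf.mul (hg.inv h)

theorem q_diff (s : ℝ) : Differentiable ℂ (q s) := by
  have hc : Differentiable ℂ (fun z : V => z 2) := by fun_prop
  unfold q
  exact (differentiable_const _).sub (hc.const_mul 2)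

theorem Gs_diff (s : ℝ) : DifferentiableOn ℂ (Gs s) {z | 0 < (q s z).re} := by
  have hc : ∀ i : Fin 3, Differentiable ℂ (fun z : V => z i) := fun i => by fun_prop
  have hq := q_diff s
  intro z hz
  have hz' : 0 < (q s z).re := hz
  have hqz : q s z ≠ 0 := by
    intro h; rw [h] at hz'; simp at hz'
  apply DifferentiableAt.differentiableWithinAt
  rw [differentiableAt_euclidean]
  intro i
  fin_cases i
  · exact (hc 0) z
  · show DifferentiableAt ℂ (fun z : V => z 1 - 16 * s * z 0 * (z 1) ^ 2 / (q s z) ^ 2) z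
    have h0 := (hc 0) z
    have h1 := (hc 1) z
    have hq1 := hq z
    have hq2 : q s z ^ 2 ≠ 0 := pow_ne_zero 2 hqz
    exact h1.sub (div_at (((differentiableAt_const _).mul h0).mul (h1.pow 2)) (hq1.pow 2) hq2)
  · show DifferentiableAt ℂ (fun z : V => z 2 + 16 * s * z 0 * z 1 / q s z) z
    have h0 := (hc 0) z
    have h1 := (hc 1) z
    have h2 := (hc 2) z
    have hq1 := hq z
    exact h2.add (div_at (((differentiableAt_const _).mul h0).mul h1) hq1 hqz)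

theorem norm_sq3 (z : V) : ‖z‖ ^ 2 = ‖z 0‖ ^ 2 + ‖z 1‖ ^ 2 + ‖z 2‖ ^ 2 := by
  rw [EuclideanSpace.norm_sq_eq, Fin.sum_univ_three]

theorem ball_bound {s : ℝ} (hs : 0 < s) (hs1 : s ≤ 1) {z : V} (hz : z ∈ ball (0 : V) (1 + s / 8)) :
    ‖z 0‖ ^ 2 + ‖z 1‖ ^ 2 ≤ (q s z).re ∧ 3 * s / 4 ≤ (q s z).re := by
  rw [mem_ball_zero_iff] at hz
  have h1 := norm_sq3 z
  have h2 : ‖z‖ ^ 2 < (1 + s / 8) ^ 2 := by
    apply pow_lt_pow_left₀ hz (norm_nonneg _) (by norm_num)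
  have h3 : (z 2).re ^ 2 ≤ ‖z 2‖ ^ 2 := by
    rw [← sq_abs (z 2).re]
    exact pow_le_pow_left₀ (abs_nonneg _) (Complex.abs_re_le_norm _) 2
  have h4 : (z 2).re ≤ 1 + s / 8 := by
    have : (z 2).re ≤ ‖z‖ := by
      calc (z 2).re ≤ ‖z 2‖ := Complex.re_le_norm _
        _ ≤ ‖z‖ := by
          apply le_of_sq_le_sq _ (norm_nonneg _)
          rw [h1]; nlinarith [sq_nonneg ‖z 0‖, sq_nonneg ‖z 1‖]
    linarith
  rw [q_re]
  refine ⟨?_, by linarith⟩
  nlinarith [sq_nonneg (1 - (z 2).re)]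

theorem Gs_close {s : ℝ} (hs : 0 < s) (hs1 : s ≤ 1) {z : V} (hz : z ∈ ball (0 : V) (1 + s / 8)) :
    ‖Gs s z - z‖ ^ 2 ≤ 164 * s := by
  obtain ⟨hb1, hb2⟩ := ball_bound hs hs1 hz
  have hqn : (q s z).re ≤ ‖q s z‖ := Complex.re_le_norm _
  have hq0 : 0 < ‖q s z‖ := by linarith
  set Q := ‖q s z‖ with hQ
  set A := ‖z 0‖ with hA
  set B := ‖z 1‖ with hB
  have hA0 : 0 ≤ A := norm_nonneg _
  have hB0 : 0 ≤ B := norm_nonneg _
  have hAB : A * B ≤ Q / 2 := by nlinarith [sq_nonneg (A - B)]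
  have hBB : B ^ 2 ≤ Q := by nlinarith [sq_nonneg A]
  rw [norm_sq3]
  have e0 : ‖(Gs s z - z) 0‖ = 0 := by
    rw [PiLp.sub_apply, Gs_0]; simp
  have e1 : ‖(Gs s z - z) 1‖ = 16 * s * A * B ^ 2 / Q ^ 2 := by
    rw [PiLp.sub_apply, Gs_1]
    have : z 1 - 16 * s * z 0 * (z 1) ^ 2 / (q s z) ^ 2 - z 1 =
      - (16 * s * z 0 * (z 1) ^ 2 / (q s z) ^ 2) := by ring
    rw [this, norm_neg, norm_div, norm_mul, norm_mul, norm_mul, norm_pow, norm_pow,
      Complex.norm_real, Real.norm_of_nonneg hs.le]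
    norm_num [← hA, ← hB, ← hQ]
  have e2 : ‖(Gs s z - z) 2‖ = 16 * s * A * B / Q := by
    rw [PiLp.sub_apply, Gs_2]
    have : z 2 + 16 * s * z 0 * z 1 / q s z - z 2 = 16 * s * z 0 * z 1 / q s z := by ring
    rw [this, norm_div, norm_mul, norm_mul, norm_mul, Complex.norm_real, Real.norm_of_nonneg hs.le]
    norm_num [← hA, ← hB, ← hQ]
  rw [e0, e1, e2]
  have f1 : 16 * s * A * B / Q ≤ 8 * s := by
    rw [div_le_iff₀ hq0]
    nlinarith
  have f2 : 16 * s * A * B ^ 2 / Q ^ 2 ≤ 8 * s * B / Q := by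
    rw [div_le_div_iff₀ (by positivity) hq0]
    have : 16 * s * A * B ^ 2 * Q = 16 * s * B * Q * (A * B) := by ring
    rw [this]
    have : 8 * s * B * Q ^ 2 = 16 * s * B * Q * (Q / 2) := by ring
    rw [this]
    exact mul_le_mul_of_nonneg_left hAB (by positivity)
  have f3 : (16 * s * A * B ^ 2 / Q ^ 2) ^ 2 ≤ 100 * s := by
    calc (16 * s * A * B ^ 2 / Q ^ 2) ^ 2 ≤ (8 * s * B / Q) ^ 2 :=
          pow_le_pow_left₀ (by positivity) f2 2
      _ = 64 * s ^ 2 * B ^ 2 / Q ^ 2 := by ring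
      _ ≤ 64 * s ^ 2 * Q / Q ^ 2 := by
          apply div_le_div_of_nonneg_right _ (by positivity)
          exact mul_le_mul_of_nonneg_left hBB (by positivity)
      _ = 64 * s ^ 2 / Q := by field_simp
      _ ≤ 100 * s := by
          rw [div_le_iff₀ hq0]
          nlinarith
  have f4 : (16 * s * A * B / Q) ^ 2 ≤ (8 * s) ^ 2 := pow_le_pow_left₀ (by positivity) f1 2
  nlinarith

theorem Gs_zero (s : ℝ) : Gs s 0 = 0 := by
  ext i
  fin_cases i
  · simp [Gs_0]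
  · simp [Gs_1]
  · simp [Gs_2]

theorem norm_le3 (z : V) : ‖z‖ ≤ ‖z 0‖ + ‖z 1‖ + ‖z 2‖ := by
  apply le_of_sq_le_sq _ (by positivity)
  rw [norm_sq3]
  nlinarith [mul_nonneg (norm_nonneg (z 0)) (norm_nonneg (z 1)),
    mul_nonneg (norm_nonneg (z 0)) (norm_nonneg (z 2)),
    mul_nonneg (norm_nonneg (z 1)) (norm_nonneg (z 2))]

theorem coord_le (z : V) (i : Fin 3) : ‖z i‖ ≤ ‖z‖ := by
  apply le_of_sq_le_sq _ (norm_nonneg _)
  rw [norm_sq3]
  fin_cases i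
  · show ‖z 0‖ ^ 2 ≤ _
    nlinarith [sq_nonneg ‖z 1‖, sq_nonneg ‖z 2‖]
  · show ‖z 1‖ ^ 2 ≤ _
    nlinarith [sq_nonneg ‖z 0‖, sq_nonneg ‖z 2‖]
  · show ‖z 2‖ ^ 2 ≤ _
    nlinarith [sq_nonneg ‖z 1‖, sq_nonneg ‖z 0‖]

theorem Gs_delta_1 {s : ℝ} (hs : 0 < s) (z : V) :
    ‖(Gs s z - z) 1‖ = 16 * s * ‖z 0‖ * ‖z 1‖ ^ 2 / ‖q s z‖ ^ 2 := by
  rw [PiLp.sub_apply, Gs_1]
  have : z 1 - 16 * s * z 0 * (z 1) ^ 2 / (q s z) ^ 2 - z 1 =
    - (16 * s * z 0 * (z 1) ^ 2 / (q s z) ^ 2) := by ring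
  rw [this, norm_neg, norm_div, norm_mul, norm_mul, norm_mul, norm_pow, norm_pow,
    Complex.norm_real, Real.norm_of_nonneg hs.le]
  norm_num

theorem Gs_delta_2 {s : ℝ} (hs : 0 < s) (z : V) :
    ‖(Gs s z - z) 2‖ = 16 * s * ‖z 0‖ * ‖z 1‖ / ‖q s z‖ := by
  rw [PiLp.sub_apply, Gs_2]
  have : z 2 + 16 * s * z 0 * z 1 / q s z - z 2 = 16 * s * z 0 * z 1 / q s z := by ring
  rw [this, norm_div, norm_mul, norm_mul, norm_mul, Complex.norm_real, Real.norm_of_nonneg hs.le]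
  norm_num

theorem Gs_quad {s : ℝ} (hs : 0 < s) {z : V} (hz : ‖z‖ ≤ 1 / 2) :
    ‖Gs s z - z‖ ≤ 32 * s * ‖z‖ ^ 2 := by
  have hq1 : 1 ≤ ‖q s z‖ := by
    have h1 : (q s z).re ≤ ‖q s z‖ := Complex.re_le_norm _
    rw [q_re] at h1
    have h2 : (z 2).re ≤ ‖z 2‖ := Complex.re_le_norm _
    have h3 := coord_le z 2
    linarith
  have h0 : ‖(Gs s z - z) 0‖ = 0 := by
    rw [PiLp.sub_apply, Gs_0]; simp
  have c0 := coord_le z 0
  have c1 := coord_le z 1
  have h1 : ‖(Gs s z - z) 1‖ ≤ 16 * s * ‖z‖ ^ 2 := by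
    rw [Gs_delta_1 hs]
    have e1 : 16 * s * ‖z 0‖ * ‖z 1‖ ^ 2 / ‖q s z‖ ^ 2 ≤ 16 * s * ‖z 0‖ * ‖z 1‖ ^ 2 :=
      div_le_self (by positivity) (one_le_pow₀ hq1)
    have e2 : ‖z 0‖ * ‖z 1‖ ^ 2 ≤ ‖z‖ ^ 2 := by
      calc ‖z 0‖ * ‖z 1‖ ^ 2 ≤ 1 * ‖z‖ ^ 2 := by
            apply mul_le_mul (by linarith) (pow_le_pow_left₀ (norm_nonneg _) c1 2)
              (by positivity) (by norm_num)
        _ = _ := one_mul _
    nlinarith
  have h2 : ‖(Gs s z - z) 2‖ ≤ 16 * s * ‖z‖ ^ 2 := by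
    rw [Gs_delta_2 hs]
    have e1 : 16 * s * ‖z 0‖ * ‖z 1‖ / ‖q s z‖ ≤ 16 * s * ‖z 0‖ * ‖z 1‖ :=
      div_le_self (by positivity) hq1
    have e2 : ‖z 0‖ * ‖z 1‖ ≤ ‖z‖ ^ 2 := by
      rw [sq]
      exact mul_le_mul c0 c1 (norm_nonneg _) (norm_nonneg _)
    nlinarith
  have := norm_le3 (Gs s z - z)
  linarith

theorem Gs_fderiv {s : ℝ} (hs : 0 < s) :
    HasFDerivAt (Gs s) (ContinuousLinearMap.id ℂ V) 0 := by
  rw [hasFDerivAt_iff_isLittleO_nhds_zero]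
  have h1 : (fun h : V => Gs s (0 + h) - Gs s 0 - (ContinuousLinearMap.id ℂ V) h) =O[𝓝 0]
      (fun h : V => ‖h‖ ^ 2) := by
    apply Asymptotics.IsBigO.of_bound (32 * s)
    filter_upwards [closedBall_mem_nhds (0 : V) (by norm_num : (0 : ℝ) < 1 / 2)] with h hh
    rw [mem_closedBall_zero_iff] at hh
    rw [zero_add, Gs_zero, sub_zero, ContinuousLinearMap.id_apply]
    have := Gs_quad hs hh
    rwa [Real.norm_of_nonneg (by positivity)]
  exact h1.trans_isLittleO (Asymptotics.isLittleO_norm_pow_id one_lt_two)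

noncomputable def xs (s : ℝ) (w : ℂ) : V :=
  WithLp.toLp 2 ![((√s / 2 : ℝ) : ℂ) * w, ((√s / 2 : ℝ) : ℂ) * (starRingEnd ℂ) w,
    ((1 - s / 2 : ℝ) : ℂ)]

noncomputable def al (s : ℝ) (w : ℂ) : V :=
  WithLp.toLp 2 ![((√s / 2 : ℝ) : ℂ) * w, 0, ((1 + 3 * s / 2 : ℝ) : ℂ)]

noncomputable def e3 : V := EuclideanSpace.single 2 1

theorem al_close {s : ℝ} (hs : 0 < s) (hs1 : s ≤ 1) {w : ℂ} (hw : ‖w‖ < 2) :
    ‖al s w - e3‖ ^ 2 ≤ 4 * s := by
  rw [norm_sq3]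
  have e0 : (al s w - e3) 0 = ((√s / 2 : ℝ) : ℂ) * w := by
    simp [al, e3]
  have e1 : (al s w - e3) 1 = 0 := by
    simp [al, e3]
  have e2 : (al s w - e3) 2 = ((3 * s / 2 : ℝ) : ℂ) := by
    simp [al, e3]
  rw [e0, e1, e2, norm_mul, Complex.norm_real, Complex.norm_real, norm_zero,
    Real.norm_of_nonneg (by positivity), Real.norm_of_nonneg (by positivity)]
  have h1 : (√s / 2 * ‖w‖) ^ 2 = s * ‖w‖ ^ 2 / 4 := by
    rw [mul_pow, div_pow, Real.sq_sqrt hs.le]; ring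
  rw [h1]
  have h2 : ‖w‖ ^ 2 ≤ 4 := by nlinarith [norm_nonneg w]
  nlinarith

theorem Gs_xs {s : ℝ} (hs : 0 < s) {w : ℂ} (hw : ‖w‖ = 1) : Gs s (xs s w) = al s w := by
  have hsC : (s : ℂ) ≠ 0 := by exact_mod_cast hs.ne'
  have hq : q s (xs s w) = 2 * s := by
    simp only [q, xs]
    show (s : ℂ) + 2 - 2 * (((1 - s / 2 : ℝ) : ℂ)) = 2 * s
    push_cast
    ring
  have h01 : (xs s w) 0 * (xs s w) 1 = s / 4 := by
    show (((√s / 2 : ℝ) : ℂ) * w) * (((√s / 2 : ℝ) : ℂ) * (starRingEnd ℂ) w) = s / 4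
    have h1 : w * (starRingEnd ℂ) w = 1 := by
      rw [Complex.mul_conj, Complex.normSq_eq_norm_sq, hw]; simp
    have h2 : ((√s / 2 : ℝ) : ℂ) * ((√s / 2 : ℝ) : ℂ) = s / 4 := by
      rw [← Complex.ofReal_mul]
      have : √s / 2 * (√s / 2) = s / 4 := by
        have := Real.mul_self_sqrt hs.le
        linarith
      rw [this]; push_cast; ring
    calc _ = (((√s / 2 : ℝ) : ℂ) * ((√s / 2 : ℝ) : ℂ)) * (w * (starRingEnd ℂ) w) := by ring
      _ = _ := by rw [h1, h2, mul_one]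
  ext i
  fin_cases i
  · rfl
  · show (Gs s (xs s w)) 1 = 0
    rw [Gs_1, hq]
    have : 16 * (s : ℂ) * (xs s w) 0 * ((xs s w) 1) ^ 2 =
        16 * s * ((xs s w) 0 * (xs s w) 1) * (xs s w) 1 := by ring
    rw [this, h01]
    field_simp
    ring
  · show (Gs s (xs s w)) 2 = ((1 + 3 * s / 2 : ℝ) : ℂ)
    rw [Gs_2, hq]
    have : 16 * (s : ℂ) * (xs s w) 0 * ((xs s w) 1) =
        16 * s * ((xs s w) 0 * (xs s w) 1) := by ring
    rw [this, h01]
    show ((1 - s / 2 : ℝ) : ℂ) + _ = _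
    push_cast
    field_simp
    ring

theorem xs_norm {s : ℝ} (hs : 0 < s) (hs1 : s ≤ 1) {w : ℂ} (hw : ‖w‖ = 1) :
    ‖xs s w‖ ^ 2 ≤ 1 - s / 4 := by
  rw [norm_sq3]
  have e0 : ‖(xs s w) 0‖ = √s / 2 := by
    show ‖((√s / 2 : ℝ) : ℂ) * w‖ = _
    rw [norm_mul, Complex.norm_real, hw, Real.norm_of_nonneg (by positivity), mul_one]
  have e1 : ‖(xs s w) 1‖ = √s / 2 := by
    show ‖((√s / 2 : ℝ) : ℂ) * (starRingEnd ℂ) w‖ = _
    rw [norm_mul, Complex.norm_real, RCLike.norm_conj, hw, Real.norm_of_nonneg (by positivity),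
      mul_one]
  have e2 : ‖(xs s w) 2‖ = 1 - s / 2 := by
    show ‖((1 - s / 2 : ℝ) : ℂ)‖ = _
    rw [Complex.norm_real, Real.norm_of_nonneg (by linarith)]
  rw [e0, e1, e2]
  have h1 : (√s / 2) ^ 2 = s / 4 := by rw [div_pow, Real.sq_sqrt hs.le]; ring
  rw [h1]
  nlinarith

theorem al_notin {s : ℝ} (hs : 0 < s) {z : V} (hz : 0 < (q s z).re) : Gs s z ≠ al s 0 := by
  intro h
  have h0 : z 0 = 0 := by
    have := congrArg (fun x : V => x 0) h
    simpa [Gs_0, al] using this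
  have h2 : z 2 = ((1 + 3 * s / 2 : ℝ) : ℂ) := by
    have := congrArg (fun x : V => x 2) h
    simp only [Gs_2, h0] at this
    simpa [al] using this
  rw [q_re, h2, Complex.ofReal_re] at hz
  linarith

theorem al_diff (s : ℝ) : Differentiable ℂ (al s) := by
  rw [differentiable_euclidean]
  intro i
  fin_cases i
  · show Differentiable ℂ (fun w : ℂ => ((√s / 2 : ℝ) : ℂ) * w)
    fun_prop
  · show Differentiable ℂ (fun _ : ℂ => (0 : ℂ))
    fun_prop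
  · show Differentiable ℂ (fun _ : ℂ => ((1 + 3 * s / 2 : ℝ) : ℂ))
    fun_prop

/-- a linear isometry sending a given unit vector to `e3` -/
theorem exists_rot {a : V} (ha : ‖a‖ = 1) : ∃ U : V ≃ₗᵢ[ℂ] V, U a = e3 := by
  have hv : Orthonormal ℂ (({2} : Set (Fin 3)).domRestrict (fun _ : Fin 3 => a)) := by
    constructor
    · intro i
      exact ha
    · intro i j hij
      exact absurd (Subsingleton.elim i j) hij
  obtain ⟨b, hb⟩ := hv.exists_orthonormalBasis_extension_of_card_eq (by simp)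
  refine ⟨b.repr, ?_⟩
  have h2 : b 2 = a := hb 2 (by simp)
  rw [← h2, OrthonormalBasis.repr_self]
  rfl

theorem gadget {a : V} (ha : ‖a‖ = 1) {ε : ℝ} (hε : 0 < ε) :
    ∃ (G : V → V) (R : ℝ) (α : ℂ → V) (r : ℝ), 1 < R ∧ DifferentiableOn ℂ G (ball 0 R) ∧
      InjOn G (ball 0 R) ∧ (∀ z ∈ ball (0 : V) R, ‖G z - z‖ < ε) ∧ G 0 = 0 ∧
      HasFDerivAt G (ContinuousLinearMap.id ℂ V) 0 ∧
      Differentiable ℂ α ∧ (∀ w : ℂ, ‖w‖ < 2 → ‖α w - a‖ < ε) ∧ 0 < r ∧ r < 1 ∧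
      (∀ w : ℂ, ‖w‖ = 1 → ∃ x : V, ‖x‖ ≤ r ∧ G x = α w) ∧
      (∀ z ∈ ball (0 : V) R, G z ≠ α 0) := by
  obtain ⟨U, hU⟩ := exists_rot ha
  obtain ⟨s, hs, hs1, hse⟩ : ∃ s : ℝ, 0 < s ∧ s ≤ 1 ∧ 164 * s < ε ^ 2 := by
    refine ⟨min 1 (ε ^ 2 / 200), lt_min one_pos (by positivity), min_le_left _ _, ?_⟩
    have := min_le_right 1 (ε ^ 2 / 200)
    have h2 : 0 < ε ^ 2 := by positivity
    linarith
  have hball : ∀ z ∈ ball (0 : V) (1 + s / 8), U z ∈ ball (0 : V) (1 + s / 8) := by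
    intro z hz
    rw [mem_ball_zero_iff] at hz ⊢
    rwa [U.norm_map]
  have hH : ∀ z ∈ ball (0 : V) (1 + s / 8), 0 < (q s z).re := by
    intro z hz
    have := (ball_bound hs hs1 hz).2
    linarith
  have hs4 : 0 < 1 - s / 4 := by linarith
  refine ⟨fun z => U.symm (Gs s (U z)), 1 + s / 8, fun w => U.symm (al s w), √(1 - s / 4),
    by linarith, ?_, ?_, ?_, ?_, ?_, ?_, ?_, Real.sqrt_pos.2 hs4, ?_, ?_, ?_⟩
  · have h1 : DifferentiableOn ℂ (fun z => Gs s (U z)) (ball 0 (1 + s / 8)) :=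
      (Gs_diff s).comp U.differentiable.differentiableOn (fun z hz => hH _ (hball z hz))
    exact U.symm.differentiable.comp_differentiableOn h1
  · intro z hz w hw h
    have h1 := U.symm.injective h
    exact U.injective (Gs_inj s (hH _ (hball z hz)) (hH _ (hball w hw)) h1)
  · intro z hz
    have h1 : U.symm (Gs s (U z)) - z = U.symm (Gs s (U z) - U z) := by
      rw [map_sub, U.symm_apply_apply]
    show ‖U.symm (Gs s (U z)) - z‖ < ε
    rw [h1, U.symm.norm_map]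
    apply lt_of_pow_lt_pow_left₀ 2 hε.le
    exact (Gs_close hs hs1 (hball z hz)).trans_lt hse
  · show U.symm (Gs s (U 0)) = 0
    rw [map_zero, Gs_zero, map_zero]
  · have h1 : HasFDerivAt (Gs s) (ContinuousLinearMap.id ℂ V) (U 0) := by
      rw [map_zero]; exact Gs_fderiv hs
    have h2 := h1.comp (0 : V) (U.toContinuousLinearEquiv.hasFDerivAt)
    have h3 := (U.symm.toContinuousLinearEquiv.hasFDerivAt (x := (Gs s ∘ U) 0)).comp (0 : V) h2
    have h4 : ((U.symm.toContinuousLinearEquiv : V →L[ℂ] V).comp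
        ((ContinuousLinearMap.id ℂ V).comp (U.toContinuousLinearEquiv : V →L[ℂ] V))) =
        ContinuousLinearMap.id ℂ V := by
      apply ContinuousLinearMap.ext
      intro v
      show U.symm (U v) = v
      exact U.symm_apply_apply v
    rw [h4] at h3
    exact h3
  · exact U.symm.differentiable.comp (al_diff s)
  · intro w hw
    have h1 : U.symm (al s w) - a = U.symm (al s w - e3) := by
      rw [map_sub, ← hU, U.symm_apply_apply]
    show ‖U.symm (al s w) - a‖ < ε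
    rw [h1, U.symm.norm_map]
    apply lt_of_pow_lt_pow_left₀ 2 hε.le
    have := al_close hs hs1 hw
    linarith
  · rw [Real.sqrt_lt' one_pos]
    linarith
  · intro w hw
    refine ⟨U.symm (xs s w), ?_, ?_⟩
    · rw [U.symm.norm_map]
      apply Real.le_sqrt_of_sq_le
      exact xs_norm hs hs1 hw
    · show U.symm (Gs s (U (U.symm (xs s w)))) = _
      rw [U.apply_symm_apply, Gs_xs hs hw]
  · intro z hz h
    have h1 := U.symm.injective h
    exact al_notin hs (hH _ (hball z hz)) h1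

end Pool.Agent.R233.RG
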