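import Pool.Agent.R233.RStep
import Pool.Agent.Helper540.Osgood

set_option autoImplicit false

open Metric Set Filter Topology Module

namespace Pool.Agent.R233.RG

noncomputable def S0 : Stage :=
  ⟨id, 2, 1, one_lt_two, one_pos, differentiableOn_id, injOn_id _, rfl, hasFDerivAt_id 0⟩

theorem norm_e3 : ‖e3‖ = 1 := by simp [e3]

theorem dense_seq : ∃ a : ℕ → V, (∀ n, ‖a n‖ = 1) ∧
    ∀ x : V, ‖x‖ = 1 → ∀ δ > (0 : ℝ), ∀ N : ℕ, ∃ n ≥ N, ‖a n - x‖ < δ := by
  have hne : Nonempty (sphere (0 : V) 1) := ⟨⟨e3, by rw [mem_sphere_zero_iff_norm, norm_e3]⟩⟩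
  refine ⟨fun n => (TopologicalSpace.denseSeq (sphere (0 : V) 1) (Nat.unpair n).1 : V), ?_, ?_⟩
  · intro n
    exact mem_sphere_zero_iff_norm.1 (TopologicalSpace.denseSeq (sphere (0 : V) 1) _).2
  · intro x hx δ hδ N
    have hd := TopologicalSpace.denseRange_denseSeq (sphere (0 : V) 1)
    obtain ⟨j, hj⟩ := Metric.denseRange_iff.1 hd ⟨x, mem_sphere_zero_iff_norm.2 hx⟩ δ hδ
    refine ⟨Nat.pair j N, Nat.right_le_pair j N, ?_⟩
    simp only [Nat.unpair_pair]
    rw [dist_comm, Subtype.dist_eq, dist_eq_norm] at hj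
    exact hj

theorem stages (a : ℕ → V) (ha : ∀ n, ‖a n‖ = 1) :
    ∃ S : ℕ → Stage, S 0 = S0 ∧ ∀ n, StepRel n (a n) (S n) (S (n + 1)) := by
  choose T hT using fun (n : ℕ) (S : Stage) => step_exists n (ha n) S
  refine ⟨fun n => Nat.rec S0 (fun n S => T n S) n, rfl, fun n => ?_⟩
  exact hT n _

theorem e_pow {S : ℕ → Stage} {a : ℕ → V} (h0 : S 0 = S0)
    (h : ∀ n, StepRel n (a n) (S n) (S (n + 1))) (n : ℕ) : (S n).e ≤ (1 / 2) ^ n := by
  induction n with
  | zero => rw [h0]; simp [S0]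
  | succ n ih =>
    have := (h n).ehalf
    rw [pow_succ]
    linarith

theorem e_tendsto {S : ℕ → Stage} {a : ℕ → V} (h0 : S 0 = S0)
    (h : ∀ n, StepRel n (a n) (S n) (S (n + 1))) : Tendsto (fun n => (S n).e) atTop (𝓝 0) := by
  refine squeeze_zero (fun n => (S n).he.le) (e_pow h0 h) ?_
  exact tendsto_pow_atTop_nhds_zero_of_lt_one (by norm_num) (by norm_num)

theorem tele {S : ℕ → Stage} {a : ℕ → V}
    (h : ∀ n, StepRel n (a n) (S n) (S (n + 1))) (n k : ℕ) {z : V}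
    (hz : z ∈ closedBall (0 : V) 1) :
    ‖(S (n + k)).f z - (S n).f z‖ ≤ (S n).e - (S (n + k)).e := by
  induction k with
  | zero => simp
  | succ k ih =>
    have h1 := (h (n + k)).close z hz
    have h2 := (h (n + k)).ehalf
    show ‖(S (n + k + 1)).f z - (S n).f z‖ ≤ (S n).e - (S (n + k + 1)).e
    have h3 : ‖(S (n + k + 1)).f z - (S n).f z‖ ≤
        ‖(S (n + k + 1)).f z - (S (n + k)).f z‖ + ‖(S (n + k)).f z - (S n).f z‖ := by
      have := norm_add_le ((S (n + k + 1)).f z - (S (n + k)).f z)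
        ((S (n + k)).f z - (S n).f z)
      rwa [sub_add_sub_cancel] at this
    linarith

theorem limit_exists {S : ℕ → Stage} {a : ℕ → V} (h0 : S 0 = S0)
    (h : ∀ n, StepRel n (a n) (S n) (S (n + 1))) :
    ∃ F : V → V, ∀ n, ∀ z ∈ closedBall (0 : V) 1, ‖F z - (S n).f z‖ ≤ (S n).e := by
  have he := e_tendsto h0 h
  have hex : ∀ z ∈ closedBall (0 : V) 1, ∃ y, Tendsto (fun n => (S n).f z) atTop (𝓝 y) := by
    intro z hz
    apply cauchySeq_tendsto_of_complete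
    apply cauchySeq_of_le_tendsto_0 (fun n => 2 * (S n).e)
    · intro n m N hn hm
      obtain ⟨k, rfl⟩ := Nat.exists_eq_add_of_le hn
      obtain ⟨l, rfl⟩ := Nat.exists_eq_add_of_le hm
      have h1 := tele h N k hz
      have h2 := tele h N l hz
      have h3 := (S (N + k)).he
      have h4 := (S (N + l)).he
      calc dist ((S (N + k)).f z) ((S (N + l)).f z)
          ≤ dist ((S (N + k)).f z) ((S N).f z) + dist ((S N).f z) ((S (N + l)).f z) :=
            dist_triangle _ _ _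
        _ = ‖(S (N + k)).f z - (S N).f z‖ + ‖(S (N + l)).f z - (S N).f z‖ := by
            rw [dist_eq_norm, dist_comm, dist_eq_norm]
        _ ≤ 2 * (S N).e := by linarith
    · have := he.const_mul 2
      simpa using this
  choose! F hF using hex
  refine ⟨F, fun n z hz => ?_⟩
  have h1 : Tendsto (fun k => ‖(S (n + k)).f z - (S n).f z‖) atTop (𝓝 ‖F z - (S n).f z‖) := by
    have h2 : Tendsto (fun k => (S (n + k)).f z) atTop (𝓝 (F z)) := by
      have := (tendsto_add_atTop_iff_nat n).2 (hF z hz)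
      refine this.congr (fun k => ?_)
      rw [add_comm]
    exact (h2.sub_const _).norm
  apply le_of_tendsto h1
  filter_upwards with k
  have := tele h n k hz
  have := (S (n + k)).he
  linarith

section Limit

variable {S : ℕ → Stage} {a : ℕ → V} {F : V → V}

theorem F_unif (h0 : S 0 = S0) (h : ∀ n, StepRel n (a n) (S n) (S (n + 1)))
    (hF : ∀ n, ∀ z ∈ closedBall (0 : V) 1, ‖F z - (S n).f z‖ ≤ (S n).e) :
    TendstoUniformlyOn (fun n => (S n).f) F atTop (closedBall 0 1) := by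
  rw [Metric.tendstoUniformlyOn_iff]
  intro ε hε
  filter_upwards [(e_tendsto h0 h).eventually_lt_const hε] with n hn z hz
  rw [dist_eq_norm]
  exact (hF n z hz).trans_lt hn

theorem F_cont (h0 : S 0 = S0) (h : ∀ n, StepRel n (a n) (S n) (S (n + 1)))
    (hF : ∀ n, ∀ z ∈ closedBall (0 : V) 1, ‖F z - (S n).f z‖ ≤ (S n).e) :
    ContinuousOn F (closedBall 0 1) := by
  apply (F_unif h0 h hF).continuousOn
  apply Eventually.frequently
  filter_upwards with n
  exact (S n).hd.continuousOn.mono (closedBall_subset_ball (S n).hR)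

theorem F_diff (h0 : S 0 = S0) (h : ∀ n, StepRel n (a n) (S n) (S (n + 1)))
    (hF : ∀ n, ∀ z ∈ closedBall (0 : V) 1, ‖F z - (S n).f z‖ ≤ (S n).e) :
    DifferentiableOn ℂ F (ball 0 1) := by
  intro c hc
  obtain ⟨R, hR, hb⟩ := Metric.isOpen_iff.1 isOpen_ball c hc
  have h1 : DifferentiableOn ℂ F (ball c (R / 2)) := by
    apply Pool.Agent.Helper540.differentiableOn_of_uniform_limit (f := fun n => (S n).f)
    · intro n
      exact (S n).hd.mono (hb.trans (ball_subset_ball (S n).hR.le))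
    · exact (F_unif h0 h hF).mono (hb.trans ball_subset_closedBall)
  exact (h1.differentiableAt (ball_mem_nhds c (half_pos hR))).differentiableWithinAt

theorem F_inj (h : ∀ n, StepRel n (a n) (S n) (S (n + 1)))
    (hF : ∀ n, ∀ z ∈ closedBall (0 : V) 1, ‖F z - (S n).f z‖ ≤ (S n).e) :
    InjOn F (closedBall 0 1) := by
  intro x hx y hy hxy
  by_contra hne
  have hpos : 0 < ‖x - y‖ := norm_pos_iff.2 (sub_ne_zero.2 hne)
  obtain ⟨n, hn⟩ := exists_nat_one_div_lt hpos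
  have h1 := (h n).inj x hx y hy hn.le
  have h2 := hF (n + 1) x hx
  have h3 := hF (n + 1) y hy
  have h4 : ‖(S (n + 1)).f x - (S (n + 1)).f y‖ ≤ ‖F x - (S (n + 1)).f x‖ +
      ‖F y - (S (n + 1)).f y‖ := by
    have : (S (n + 1)).f x - (S (n + 1)).f y =
        (F y - (S (n + 1)).f y) - (F x - (S (n + 1)).f x) := by rw [hxy]; abel
    rw [this]
    have := norm_sub_le (F y - (S (n + 1)).f y) (F x - (S (n + 1)).f x)
    linarith
  have h5 := (S (n + 1)).he
  linarith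

theorem F_zero (h0 : S 0 = S0) (h : ∀ n, StepRel n (a n) (S n) (S (n + 1)))
    (hF : ∀ n, ∀ z ∈ closedBall (0 : V) 1, ‖F z - (S n).f z‖ ≤ (S n).e) : F 0 = 0 := by
  have h1 : ∀ n, ‖F 0‖ ≤ (S n).e := by
    intro n
    have := hF n 0 (by simp)
    rwa [(S n).h0, sub_zero] at this
  have h2 := ge_of_tendsto' (e_tendsto h0 h) h1
  exact norm_le_zero_iff.1 h2

theorem F_fderiv (h0 : S 0 = S0) (h : ∀ n, StepRel n (a n) (S n) (S (n + 1)))
    (hF : ∀ n, ∀ z ∈ closedBall (0 : V) 1, ‖F z - (S n).f z‖ ≤ (S n).e) :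
    fderiv ℂ F 0 = ContinuousLinearMap.id ℂ V := by
  have hd := F_diff h0 h hF
  have h1 : ∀ n, ‖fderiv ℂ F 0 - ContinuousLinearMap.id ℂ V‖ ≤ 4 * (S n).e := by
    intro n
    have hdn : DifferentiableOn ℂ (S n).f (ball 0 1) := (S n).hd.mono (ball_subset_ball (S n).hR.le)
    have e1 : fderiv ℂ (fun z => F z - (S n).f z) 0 =
        fderiv ℂ F 0 - ContinuousLinearMap.id ℂ V := by
      rw [fderiv_fun_sub (hd.differentiableAt (ball_mem_nhds _ one_pos))
        (hdn.differentiableAt (ball_mem_nhds _ one_pos)), (S n).h1.fderiv]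
    rw [← e1]
    have := Pool.Agent.Helper540.norm_fderiv_le_half (f := fun z => F z - (S n).f z) (c := 0)
      (R := 1) (M := (S n).e) (hd.sub hdn) (fun z hz => hF n z (ball_subset_closedBall hz))
      (w := 0) (by simp)
    simpa using this
  have h2 : Tendsto (fun n => 4 * (S n).e) atTop (𝓝 0) := by
    have := (e_tendsto h0 h).const_mul 4
    simpa using this
  have h3 := ge_of_tendsto' h2 h1
  exact sub_eq_zero.1 (norm_le_zero_iff.1 h3)

end Limit

/-- injective holomorphic maps are open -/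
theorem nhds_image {U : Set V} (hU : IsOpen U) {f : V → V} (hf : DifferentiableOn ℂ f U)
    (hinj : InjOn f U) {z : V} (hz : z ∈ U) : Filter.map f (𝓝 z) = 𝓝 (f z) := by
  have hinjd := Pool.Agent.Helper540.osgood (finrank ℂ V) V V rfl rfl U hU f hf hinj z hz
  let T : V ≃ₗ[ℂ] V := LinearEquiv.ofInjectiveOfFinrankEq (fderiv ℂ f z : V →ₗ[ℂ] V) hinjd rfl
  have hT : (T.toContinuousLinearEquiv : V →L[ℂ] V) = fderiv ℂ f z := by
    ext1 y
    rfl
  have hstr : HasStrictFDerivAt f (T.toContinuousLinearEquiv : V →L[ℂ] V) z := by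
    rw [hT]
    have h1 : ContDiffAt ℂ (1 : ℕ) f z :=
      (Pool.Agent.Helper540.contDiffOn_of_differentiableOn hU hf 1).contDiffAt (hU.mem_nhds hz)
    exact h1.hasStrictFDerivAt (by simp)
  exact hstr.map_nhds_eq_of_equiv

theorem open_image {U : Set V} (hU : IsOpen U) {f : V → V} (hf : DifferentiableOn ℂ f U)
    (hinj : InjOn f U) : IsOpen (f '' U) := by
  rw [isOpen_iff_mem_nhds]
  rintro _ ⟨z, hz, rfl⟩
  rw [← nhds_image hU hf hinj hz]
  exact image_mem_map (hU.mem_nhds hz)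

/-- the minimum principle for injective holomorphic maps -/
theorem hit_aux {Ψ : V → V} (hΨ : DifferentiableOn ℂ Ψ (ball 0 1)) (hΨi : InjOn Ψ (ball 0 1))
    {x y : V} {δ m : ℝ} (hδ : 0 < δ) (hsub : closedBall x δ ⊆ ball (0 : V) 1)
    (h1 : ‖Ψ x - y‖ < m) (h2 : ∀ z, ‖z - x‖ = δ → m ≤ ‖Ψ z - y‖) :
    ∃ z ∈ closedBall x δ, Ψ z = y := by
  have hcont : ContinuousOn (fun z => ‖Ψ z - y‖) (closedBall x δ) :=
    ((hΨ.continuousOn.mono hsub).sub continuousOn_const).norm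
  obtain ⟨z, hz, hmin⟩ := (isCompact_closedBall x δ).exists_isMinOn ⟨x, by simp [hδ.le]⟩ hcont
  refine ⟨z, hz, ?_⟩
  by_contra hne
  have hzx : ‖Ψ z - y‖ ≤ ‖Ψ x - y‖ := isMinOn_iff.1 hmin x (by simp [hδ.le])
  have hzi : z ∈ ball x δ := by
    rw [mem_closedBall, dist_eq_norm] at hz
    rw [mem_ball, dist_eq_norm]
    rcases hz.lt_or_eq with h | h
    · exact h
    · have := h2 z h
      linarith
  have hopen := nhds_image isOpen_ball hΨ hΨi (hsub hz)
  have himg : Ψ '' (ball x δ) ∈ 𝓝 (Ψ z) := by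
    rw [← hopen]
    exact image_mem_map (isOpen_ball.mem_nhds hzi)
  have hpath : Tendsto (fun t : ℝ => Ψ z + t • (y - Ψ z)) (𝓝[>] 0) (𝓝 (Ψ z)) := by
    have : Tendsto (fun t : ℝ => Ψ z + t • (y - Ψ z)) (𝓝 0) (𝓝 (Ψ z + (0 : ℝ) • (y - Ψ z))) := by
      apply Continuous.tendsto
      fun_prop
    rw [zero_smul, add_zero] at this
    exact this.mono_left nhdsWithin_le_nhds
  have hev := (hpath.eventually himg).and
    ((self_mem_nhdsWithin : Ioi (0 : ℝ) ∈ 𝓝[>] 0)) |>.and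
      (mem_nhdsWithin_of_mem_nhds (Iio_mem_nhds (one_pos : (0 : ℝ) < 1)))
  obtain ⟨t, ⟨⟨w, hw, hwt⟩, ht0⟩, ht1⟩ := hev.exists
  have ht0' : 0 < t := ht0
  have ht1' : t < 1 := ht1
  have h5 : ‖Ψ z - y‖ ≤ ‖Ψ w - y‖ := isMinOn_iff.1 hmin w (ball_subset_closedBall hw)
  have h6 : Ψ w - y = (1 - t) • (Ψ z - y) := by
    rw [hwt]
    module
  rw [h6, norm_smul, Real.norm_of_nonneg (by linarith)] at h5
  have h7 : 0 < ‖Ψ z - y‖ := norm_pos_iff.2 (sub_ne_zero.2 hne)
  nlinarith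

/-- maps close to the limit hit the boundaries of the traps -/
theorem hit {f F Ψ : V → V} {e r : ℝ} (he : 0 < e) (hr1 : r < 1)
    (hF : ∀ z ∈ closedBall (0 : V) 1, ‖F z - f z‖ ≤ e)
    (hΨ : DifferentiableOn ℂ Ψ (ball 0 1)) (hΨi : InjOn Ψ (ball 0 1))
    (hclose : ∀ z : V, ‖z‖ ≤ (1 + r) / 2 → ‖Ψ z - F z‖ ≤ e)
    {x y : V} (hx : ‖x‖ ≤ r) (hxy : f x = y)
    (hm : ∀ z, ‖z - x‖ = (1 - r) / 2 → 8 * e ≤ ‖f z - f x‖) :
    ∃ z : V, ‖z‖ ≤ (1 + r) / 2 ∧ Ψ z = y := by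
  have hb : ∀ z ∈ closedBall x ((1 - r) / 2), ‖z‖ ≤ (1 + r) / 2 := by
    intro z hz
    rw [mem_closedBall, dist_eq_norm] at hz
    have := norm_add_le (z - x) x
    rw [sub_add_cancel] at this
    linarith
  have hb1 : ∀ z : V, ‖z‖ ≤ (1 + r) / 2 → ‖Ψ z - f z‖ ≤ 2 * e := by
    intro z hz
    have h1 := hclose z hz
    have h2 := hF z (by rw [mem_closedBall_zero_iff]; linarith)
    have := norm_add_le (Ψ z - F z) (F z - f z)
    rw [sub_add_sub_cancel] at this
    linarith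
  obtain ⟨z, hz, hzy⟩ := hit_aux hΨ hΨi (x := x) (y := y) (δ := (1 - r) / 2) (m := 6 * e)
    (by linarith) (fun z hz => by
      rw [mem_ball_zero_iff]
      have := hb z hz
      linarith) (by
      rw [← hxy]
      have := hb1 x (by linarith)
      linarith) (fun z hz => by
      rw [← hxy]
      have h1 := hm z hz
      have h2 := hb1 z (hb z (by rw [mem_closedBall, dist_eq_norm]; exact hz.le))
      have h3 : ‖f z - f x‖ ≤ ‖Ψ z - f z‖ + ‖Ψ z - f x‖ := by
        have : f z - f x = (Ψ z - f x) - (Ψ z - f z) := by abel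
        rw [this]
        have := norm_sub_le (Ψ z - f x) (Ψ z - f z)
        linarith
      linarith)
  exact ⟨z, hb z hz, hzy⟩

/-- the trap -/
theorem trap {f F : V → V} {e ρ : ℝ} (he : 0 < e) (hρ : ρ < 1)
    (hFd : DifferentiableOn ℂ F (ball 0 1))
    (hF : ∀ z ∈ closedBall (0 : V) 1, ‖F z - f z‖ ≤ e)
    {A φ : ℂ → V} (hA : DifferentiableOn ℂ A (ball 0 2)) (hφ : DifferentiableOn ℂ φ (ball 0 2))
    (hA0 : ∀ x ∈ closedBall (0 : V) 1, 4 * e ≤ ‖f x - A 0‖)
    (h1 : ∀ w : ℂ, ‖w‖ = 1 → ‖φ w‖ ≤ ρ) (h2 : ∀ w : ℂ, ‖w‖ = 1 → ‖F (φ w) - A w‖ ≤ 2 * e) :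
    False := by
  have hcb : closedBall (0 : ℂ) 1 ⊆ ball 0 2 := closedBall_subset_ball one_lt_two
  have hbb : ball (0 : ℂ) 1 ⊆ ball 0 2 := ball_subset_ball one_le_two
  have hfr : ∀ w : ℂ, w ∈ frontier (ball (0 : ℂ) 1) → ‖w‖ = 1 := by
    intro w hw
    rw [frontier_ball (0 : ℂ) one_ne_zero] at hw
    exact mem_sphere_zero_iff_norm.1 hw
  have hcl : closure (ball (0 : ℂ) 1) = closedBall 0 1 := closure_ball (0 : ℂ) one_ne_zero
  have hφc : DiffContOnCl ℂ φ (ball 0 1) := by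
    refine ⟨hφ.mono hbb, ?_⟩
    rw [hcl]
    exact hφ.continuousOn.mono hcb
  have h3 : ∀ w ∈ closedBall (0 : ℂ) 1, ‖φ w‖ ≤ ρ := by
    intro w hw
    apply Complex.norm_le_of_forall_mem_frontier_norm_le isBounded_ball hφc
      (fun z hz => h1 z (hfr z hz))
    rw [hcl]; exact hw
  have hmaps : ∀ w ∈ closedBall (0 : ℂ) 1, φ w ∈ ball (0 : V) 1 := by
    intro w hw
    rw [mem_ball_zero_iff]
    exact (h3 w hw).trans_lt hρ
  have hcomp : DiffContOnCl ℂ (fun w => F (φ w) - A w) (ball 0 1) := by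
    constructor
    · apply DifferentiableOn.sub _ (hA.mono hbb)
      exact hFd.comp (hφ.mono hbb) (fun w hw => hmaps w (ball_subset_closedBall hw))
    · rw [hcl]
      apply ContinuousOn.sub _ (hA.continuousOn.mono hcb)
      exact hFd.continuousOn.comp (hφ.continuousOn.mono hcb) hmaps
  have h4 : ‖F (φ 0) - A 0‖ ≤ 2 * e := by
    apply Complex.norm_le_of_forall_mem_frontier_norm_le isBounded_ball hcomp
      (fun z hz => h2 z (hfr z hz))
    rw [hcl]; simp
  have h5 : φ 0 ∈ closedBall (0 : V) 1 := ball_subset_closedBall (hmaps 0 (by simp))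
  have h6 := hA0 _ h5
  have h7 := hF _ h5
  have h8 : ‖f (φ 0) - A 0‖ ≤ ‖F (φ 0) - A 0‖ + ‖F (φ 0) - f (φ 0)‖ := by
    have : f (φ 0) - A 0 = (F (φ 0) - A 0) - (F (φ 0) - f (φ 0)) := by abel
    rw [this]
    exact norm_sub_le _ _
  linarith

end Pool.Agent.R233.RG
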