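import Pool.Agent.R233.RGad

set_option autoImplicit false

open Metric Set Filter Topology

namespace Pool.Agent.R233.RG

/-- A map that is holomorphic and injective near the closed ball, with a tolerance. -/
structure Stage where
  f : V → V
  R : ℝ
  e : ℝ
  hR : 1 < R
  he : 0 < e
  hd : DifferentiableOn ℂ f (ball 0 R)
  hinj : InjOn f (ball 0 R)
  h0 : f 0 = 0
  h1 : HasFDerivAt f (ContinuousLinearMap.id ℂ V) 0

structure StepRel (n : ℕ) (a : V) (S S' : Stage) : Prop where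
  close : ∀ z ∈ closedBall (0 : V) 1, ‖S'.f z - S.f z‖ ≤ S.e / 2
  ehalf : S'.e ≤ S.e / 2
  inj : ∀ x ∈ closedBall (0 : V) 1, ∀ y ∈ closedBall (0 : V) 1, 1 / ((n : ℝ) + 1) ≤ ‖x - y‖ →
    4 * S'.e ≤ ‖S'.f x - S'.f y‖
  gad : ∃ (A : ℂ → V) (r : ℝ), DifferentiableOn ℂ A (ball 0 2) ∧ 0 < r ∧ r < 1 ∧
     (∀ w : ℂ, ‖w‖ < 2 → ‖A w - S.f a‖ ≤ S.e) ∧
     (∀ w : ℂ, ‖w‖ = 1 → ∃ x : V, ‖x‖ ≤ r ∧ S'.f x = A w) ∧
     (∀ x ∈ closedBall (0 : V) 1, 4 * S'.e ≤ ‖S'.f x - A 0‖) ∧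
     (∀ x : V, ‖x‖ ≤ r → ∀ z, ‖z - x‖ = (1 - r) / 2 → 8 * S'.e ≤ ‖S'.f z - S'.f x‖)

theorem modulus {f : V → V} (hc : ContinuousOn f (closedBall 0 1))
    (hinj : InjOn f (closedBall 0 1)) {δ : ℝ} (hδ : 0 < δ) :
    ∃ m : ℝ, 0 < m ∧ ∀ x ∈ closedBall (0 : V) 1, ∀ y ∈ closedBall (0 : V) 1, δ ≤ ‖x - y‖ →
      m ≤ ‖f x - f y‖ := by
  obtain ⟨K, hK⟩ : ∃ K : Set (V × V), K = (closedBall (0 : V) 1 ×ˢ closedBall (0 : V) 1) ∩
    {p | δ ≤ ‖p.1 - p.2‖} := ⟨_, rfl⟩
  have hKm : ∀ p : V × V, p ∈ K ↔ (p.1 ∈ closedBall (0 : V) 1 ∧ p.2 ∈ closedBall (0 : V) 1) ∧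
      δ ≤ ‖p.1 - p.2‖ := by
    intro p
    rw [hK]
    rfl
  have hKc : IsCompact K := by
    rw [hK]
    apply ((isCompact_closedBall _ _).prod (isCompact_closedBall _ _)).inter_right
    exact isClosed_le continuous_const (by fun_prop)
  rcases K.eq_empty_or_nonempty with hemp | hne
  · refine ⟨1, one_pos, fun x hx y hy hxy => ?_⟩
    have : (x, y) ∈ K := (hKm _).2 ⟨⟨hx, hy⟩, hxy⟩
    rw [hemp] at this
    exact absurd this (notMem_empty _)
  · have hcont : ContinuousOn (fun p : V × V => ‖f p.1 - f p.2‖) K := by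
      apply ContinuousOn.norm
      apply ContinuousOn.sub
      · exact hc.comp continuousOn_fst (fun p hp => ((hKm p).1 hp).1.1)
      · exact hc.comp continuousOn_snd (fun p hp => ((hKm p).1 hp).1.2)
    obtain ⟨p0, hp0, hmin⟩ := hKc.exists_isMinOn hne hcont
    refine ⟨‖f p0.1 - f p0.2‖, ?_, fun x hx y hy hxy => ?_⟩
    · rw [norm_pos_iff, sub_ne_zero]
      intro h
      have hp1 := (hKm p0).1 hp0
      have h2 := hinj hp1.1.1 hp1.1.2 h
      have h3 : δ ≤ ‖p0.1 - p0.2‖ := hp1.2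
      rw [h2, sub_self, norm_zero] at h3
      linarith
    · have hmem : (x, y) ∈ K := (hKm _).2 ⟨⟨hx, hy⟩, hxy⟩
      have h5 := isMinOn_iff.1 hmin (x, y) hmem
      exact h5

theorem step_exists (n : ℕ) {a : V} (ha : ‖a‖ = 1) (S : Stage) :
    ∃ S' : Stage, StepRel n a S S' := by
  have hR := S.hR
  set ρ : ℝ := (1 + S.R) / 2 with hρ
  have hρ1 : 1 < ρ := by rw [hρ]; linarith
  have hρR : ρ < S.R := by rw [hρ]; linarith
  have hsub : closedBall (0 : V) ρ ⊆ ball 0 S.R := closedBall_subset_ball hρR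
  have hcf : ContinuousOn S.f (closedBall (0 : V) ρ) := S.hd.continuousOn.mono hsub
  have huc := (isCompact_closedBall (0 : V) ρ).uniformContinuousOn_of_continuous hcf
  rw [Metric.uniformContinuousOn_iff] at huc
  obtain ⟨δ, hδ, hδ2⟩ := huc (S.e / 2) (half_pos S.he)
  set ε : ℝ := min δ ((S.R - 1) / 4) with hε
  have hε0 : 0 < ε := lt_min hδ (by linarith)
  have hεδ : ε ≤ δ := min_le_left _ _
  have hεR : ε ≤ (S.R - 1) / 4 := min_le_right _ _
  obtain ⟨G, RG, α, r, hRG, hGd, hGinj, hGc, hG0, hG1, hαd, hαc, hr0, hr1, hbd, hno⟩ :=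
    gadget ha hε0
  set R' : ℝ := min RG ρ with hR'
  have hR'1 : 1 < R' := lt_min hRG hρ1
  have hGmaps : ∀ z ∈ ball (0 : V) R', G z ∈ ball (0 : V) S.R := by
    intro z hz
    have hz1 : z ∈ ball (0 : V) RG := ball_subset_ball (min_le_left _ _) hz
    rw [mem_ball_zero_iff] at hz ⊢
    have h1 := hGc z hz1
    have h2 : ‖G z‖ ≤ ‖G z - z‖ + ‖z‖ := by
      have := norm_add_le (G z - z) z
      rwa [sub_add_cancel] at this
    have h3 : R' ≤ ρ := min_le_right _ _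
    rw [hρ] at h3
    linarith
  have hcb : closedBall (0 : V) 1 ⊆ ball (0 : V) R' := closedBall_subset_ball hR'1
  have hcbG : closedBall (0 : V) 1 ⊆ ball (0 : V) RG :=
    hcb.trans (ball_subset_ball (min_le_left _ _))
  have hd' : DifferentiableOn ℂ (fun z => S.f (G z)) (ball (0 : V) R') :=
    S.hd.comp (hGd.mono (ball_subset_ball (min_le_left _ _))) hGmaps
  have hinj' : InjOn (fun z => S.f (G z)) (ball (0 : V) R') := by
    intro x hx y hy hxy
    have h1 := S.hinj (hGmaps x hx) (hGmaps y hy) hxy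
    exact hGinj (ball_subset_ball (min_le_left _ _) hx) (ball_subset_ball (min_le_left _ _) hy) h1
  have hαmaps : ∀ w : ℂ, ‖w‖ < 2 → α w ∈ closedBall (0 : V) ρ := by
    intro w hw
    rw [mem_closedBall_zero_iff]
    have h1 := hαc w hw
    have h2 : ‖α w‖ ≤ ‖α w - a‖ + ‖a‖ := by
      have := norm_add_le (α w - a) a
      rwa [sub_add_cancel] at this
    rw [ha] at h2
    rw [hρ]
    linarith
  have haρ : a ∈ closedBall (0 : V) ρ := by
    rw [mem_closedBall_zero_iff, ha]; exact hρ1.le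
  have hcont' : ContinuousOn (fun z => S.f (G z)) (closedBall (0 : V) 1) :=
    hd'.continuousOn.mono hcb
  -- the constants
  obtain ⟨m1, hm1, hm1'⟩ : ∃ m : ℝ, 0 < m ∧ ∀ x ∈ closedBall (0 : V) 1,
      m ≤ ‖S.f (G x) - S.f (α 0)‖ := by
    have hcn : ContinuousOn (fun z => ‖S.f (G z) - S.f (α 0)‖) (closedBall (0 : V) 1) :=
      (hcont'.sub continuousOn_const).norm
    obtain ⟨x0, hx0, hmin⟩ := (isCompact_closedBall (0 : V) 1).exists_isMinOn
      ⟨0, by simp⟩ hcn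
    refine ⟨_, ?_, fun x hx => hmin hx⟩
    rw [norm_pos_iff, sub_ne_zero]
    intro h
    have h1 := S.hinj (hGmaps x0 (hcb hx0)) (hsub (hαmaps 0 (by simp))) h
    exact hno x0 (hcbG hx0) h1
  obtain ⟨m2, hm2, hm2'⟩ := modulus hcont' (hinj'.mono hcb)
    (show (0 : ℝ) < 1 / ((n : ℝ) + 1) by positivity)
  obtain ⟨m3, hm3, hm3'⟩ := modulus hcont' (hinj'.mono hcb)
    (show (0 : ℝ) < (1 - r) / 2 by linarith)
  set e' : ℝ := min (S.e / 2) (min (m1 / 4) (min (m2 / 4) (m3 / 8))) with he'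
  have he'0 : 0 < e' := by
    have := S.he
    apply lt_min (by linarith) (lt_min (by linarith) (lt_min (by linarith) (by linarith)))
  have g1 : e' ≤ S.e / 2 := min_le_left _ _
  have g2 : e' ≤ m1 / 4 := (min_le_right _ _).trans (min_le_left _ _)
  have g3 : e' ≤ m2 / 4 := (min_le_right _ _).trans ((min_le_right _ _).trans (min_le_left _ _))
  have g4 : e' ≤ m3 / 8 := (min_le_right _ _).trans ((min_le_right _ _).trans (min_le_right _ _))
  refine ⟨⟨fun z => S.f (G z), R', e', hR'1, he'0, hd', hinj', ?_, ?_⟩, ⟨?_, g1, ?_,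
    ⟨fun w => S.f (α w), r, ?_, hr0, hr1, ?_, ?_, ?_, ?_⟩⟩⟩
  · show S.f (G 0) = 0
    rw [hG0, S.h0]
  · have h1 : HasFDerivAt S.f (ContinuousLinearMap.id ℂ V) (G 0) := by
      rw [hG0]; exact S.h1
    exact h1.comp (0 : V) hG1
  · intro z hz
    have h1 : z ∈ closedBall (0 : V) ρ := closedBall_subset_closedBall hρ1.le hz
    have h2 : G z ∈ closedBall (0 : V) ρ := by
      rw [mem_closedBall_zero_iff] at hz ⊢
      have h1 := hGc z (hcbG (by rwa [mem_closedBall_zero_iff]))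
      have h2 : ‖G z‖ ≤ ‖G z - z‖ + ‖z‖ := by
        have := norm_add_le (G z - z) z
        rwa [sub_add_cancel] at this
      rw [hρ]
      linarith
    have h3 := hδ2 _ h2 _ h1 (by rw [dist_eq_norm]; exact (hGc z (hcbG hz)).trans_le hεδ)
    rw [dist_eq_norm] at h3
    exact h3.le
  · intro x hx y hy hxy
    have := hm2' x hx y hy hxy
    show 4 * e' ≤ ‖S.f (G x) - S.f (G y)‖
    linarith
  · have hmap : MapsTo α (ball 0 2) (ball (0 : V) S.R) := by
      intro w hw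
      rw [mem_ball_zero_iff] at hw
      exact hsub (hαmaps w hw)
    exact S.hd.comp hαd.differentiableOn hmap
  · intro w hw
    have h3 := hδ2 _ (hαmaps w hw) _ haρ (by rw [dist_eq_norm]; exact (hαc w hw).trans_le hεδ)
    rw [dist_eq_norm] at h3
    have := S.he
    show ‖S.f (α w) - S.f a‖ ≤ S.e
    linarith
  · intro w hw
    obtain ⟨x, hx, hxw⟩ := hbd w hw
    refine ⟨x, hx, ?_⟩
    show S.f (G x) = S.f (α w)
    rw [hxw]
  · intro x hx
    have := hm1' x hx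
    show 4 * e' ≤ ‖S.f (G x) - S.f (α 0)‖
    linarith
  · intro x hx z hz
    have hx1 : x ∈ closedBall (0 : V) 1 := by
      rw [mem_closedBall_zero_iff]; linarith
    have hz1 : z ∈ closedBall (0 : V) 1 := by
      rw [mem_closedBall_zero_iff]
      have := norm_add_le (z - x) x
      rw [sub_add_cancel] at this
      linarith
    have := hm3' z hz1 x hx1 hz.ge
    show 8 * e' ≤ ‖S.f (G z) - S.f (G x)‖
    linarith

end Pool.Agent.R233.RG
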