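import Pool.Agent.R233.Psc

set_option autoImplicit false

open MeasureTheory Topology Filter Set

namespace Pool.Agent.R233

lemma circleAverage_mono_off {f g : ℂ → ℝ} (hf : CircleIntegrable f 0 1)
    (hg : CircleIntegrable g 0 1) {S : Set ℂ} (hS : S.Countable) (h : ∀ z, z ∉ S → f z ≤ g z) :
    Real.circleAverage f 0 1 ≤ Real.circleAverage g 0 1 := by
  unfold Real.circleAverage
  have hpi : (0 : ℝ) ≤ 2 * Real.pi := by positivity
  rw [smul_eq_mul, smul_eq_mul]
  apply mul_le_mul_of_nonneg_left _ (by positivity)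
  apply intervalIntegral.integral_mono_ae hpi
  · exact hf
  · exact hg
  · have h1 : (circleMap 0 1 ⁻¹' S).Countable := hS.preimage_circleMap 0 one_ne_zero
    have h2 := h1.measure_zero (volume : Measure ℝ)
    rw [Filter.EventuallyLE, ae_iff]
    refine measure_mono_null ?_ h2
    intro θ hθ
    by_contra hcon
    exact hθ (h _ hcon)

lemma log_line (x b : ℂ) (hx : x ≠ 0) : ∃ (l : ℂ → ℝ) (S : Set ℂ), CircleIntegrable l 0 1 ∧
    Real.log ‖x‖ ≤ Real.circleAverage l 0 1 ∧ S.Countable ∧
    ∀ ζ, ζ ∉ S → x + ζ * b ≠ 0 ∧ l ζ = Real.log ‖x + ζ * b‖ := by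
  by_cases hb : b = 0
  · refine ⟨fun _ => Real.log ‖x‖, ∅, ?_, ?_, countable_empty, ?_⟩
    · exact continuous_const.continuousOn.circleIntegrable'
    · rw [Real.circleAverage_const]
    · intro ζ _
      subst hb
      simp [hx]
  · set a := -x / b with ha
    have hab : ∀ ζ : ℂ, x + ζ * b = b * (ζ - a) := by
      intro ζ
      rw [ha]; field_simp; ring
    refine ⟨fun ζ => Real.log ‖b‖ + Real.log ‖ζ - a‖, {a}, ?_, ?_, countable_singleton _, ?_⟩
    · exact (continuous_const.continuousOn.circleIntegrable').add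
        (circleIntegrable_log_norm_sub_const 1)
    · rw [Real.circleAverage_fun_add (continuous_const.continuousOn.circleIntegrable')
        (circleIntegrable_log_norm_sub_const 1), Real.circleAverage_const,
        circleAverage_log_norm_sub_const_eq_posLog]
      have h1 : Real.log ‖a‖ ≤ Real.posLog ‖a‖ := by
        unfold Real.posLog; exact le_max_right _ _
      have h2 : Real.log ‖x‖ = Real.log ‖b‖ + Real.log ‖a‖ := by
        rw [← Real.log_mul (norm_ne_zero_iff.2 hb), ← norm_mul]
        · congr 1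
          rw [ha, mul_div_cancel₀ _ hb, norm_neg]
        · rw [norm_ne_zero_iff, ha]
          exact div_ne_zero (neg_ne_zero.2 hx) hb
      linarith
    · intro ζ hζ
      have h3 : ζ - a ≠ 0 := sub_ne_zero.2 hζ
      rw [hab]
      refine ⟨mul_ne_zero hb h3, ?_⟩
      rw [norm_mul, Real.log_mul (norm_ne_zero_iff.2 hb) (norm_ne_zero_iff.2 h3)]

/-- sub-mean value inequality for products of real powers of moduli of affine functions -/
theorem submean_prod {ι : Type*} (s : Finset ι) (x b : ι → ℂ) (α : ι → ℝ)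
    (hα : ∀ i ∈ s, 0 < α i) {C : ℝ} (hC : 0 ≤ C) :
    C * ∏ i ∈ s, ‖x i‖ ^ α i ≤
      Real.circleAverage (fun ζ : ℂ => C * ∏ i ∈ s, ‖x i + ζ * b i‖ ^ α i) 0 1 := by
  have hcont : Continuous (fun ζ : ℂ => C * ∏ i ∈ s, ‖x i + ζ * b i‖ ^ α i) := by
    apply continuous_const.mul
    apply continuous_finsetProd
    intro i hi
    exact Continuous.rpow_const (by fun_prop) (fun _ => Or.inr (hα i hi).le)
  by_cases h0 : C * ∏ i ∈ s, ‖x i‖ ^ α i = 0
  · rw [h0]
    apply Real.circleAverage_nonneg_of_nonneg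
    intro ζ _
    have : ∀ i ∈ s, 0 ≤ ‖x i + ζ * b i‖ ^ α i := fun i _ => by positivity
    exact mul_nonneg hC (Finset.prod_nonneg this)
  · have hC0 : C ≠ 0 := left_ne_zero_of_mul h0
    have hP0 : ∏ i ∈ s, ‖x i‖ ^ α i ≠ 0 := right_ne_zero_of_mul h0
    have hCp : 0 < C := lt_of_le_of_ne hC (Ne.symm hC0)
    have hx : ∀ i ∈ s, x i ≠ 0 := by
      intro i hi h
      apply hP0
      apply Finset.prod_eq_zero hi
      rw [h, norm_zero, Real.zero_rpow (hα i hi).ne']
    have hx' : ∀ i ∈ s, 0 < ‖x i‖ := fun i hi => norm_pos_iff.2 (hx i hi)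
    choose! l S hl1 hl2 hl3 hl4 using fun i (hi : i ∈ s) => log_line (x i) (b i) (hx i hi)
    set u0 := C * ∏ i ∈ s, ‖x i‖ ^ α i with hu0
    have hu0p : 0 < u0 := by
      apply mul_pos hCp
      apply Finset.prod_pos
      intro i hi
      exact Real.rpow_pos_of_pos (hx' i hi) _
    have hint : ∀ i ∈ s, CircleIntegrable (fun ζ => α i * (l i ζ - Real.log ‖x i‖)) 0 1 := by
      intro i hi
      have h1 := ((hl1 i hi).sub
        (continuous_const (y := Real.log ‖x i‖)).continuousOn.circleIntegrable').const_smul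
        (a := α i)
      exact h1
    have hsum : CircleIntegrable (fun ζ => ∑ i ∈ s, α i * (l i ζ - Real.log ‖x i‖)) 0 1 := by
      have := CircleIntegrable.sum s hint
      convert this using 1
      funext ζ
      simp
    have hconst : ∀ c : ℝ, CircleIntegrable (fun _ : ℂ => c) 0 1 := fun c =>
      continuous_const.continuousOn.circleIntegrable'
    have hrhs : CircleIntegrable
        (fun ζ => u0 * (1 + ∑ i ∈ s, α i * (l i ζ - Real.log ‖x i‖))) 0 1 := by
      have := ((hconst 1).add hsum).const_smul (a := u0)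
      exact this
    have havg : Real.circleAverage
        (fun ζ => u0 * (1 + ∑ i ∈ s, α i * (l i ζ - Real.log ‖x i‖))) 0 1 =
        u0 * (1 + ∑ i ∈ s, α i * (Real.circleAverage (l i) 0 1 - Real.log ‖x i‖)) := by
      have e1 : (fun ζ => u0 * (1 + ∑ i ∈ s, α i * (l i ζ - Real.log ‖x i‖))) =
          fun ζ => u0 • ((fun _ => (1 : ℝ)) ζ + (fun ζ => ∑ i ∈ s, α i * (l i ζ - Real.log ‖x i‖)) ζ) := by
        funext ζ; simp
      rw [e1, Real.circleAverage_fun_smul, Real.circleAverage_fun_add (hconst 1) hsum,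
        Real.circleAverage_const, smul_eq_mul]
      congr 2
      rw [Real.circleAverage_fun_sum hint]
      apply Finset.sum_congr rfl
      intro i hi
      have e2 : (fun ζ => α i * (l i ζ - Real.log ‖x i‖)) =
          fun ζ => α i • (l i ζ - (fun _ => Real.log ‖x i‖) ζ) := by
        funext ζ; simp
      rw [e2, Real.circleAverage_fun_smul, Real.circleAverage_fun_sub (hl1 i hi) (hconst _),
        Real.circleAverage_const, smul_eq_mul]
    have h1 : u0 ≤ Real.circleAverage
        (fun ζ => u0 * (1 + ∑ i ∈ s, α i * (l i ζ - Real.log ‖x i‖))) 0 1 := by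
      rw [havg]
      have : 0 ≤ ∑ i ∈ s, α i * (Real.circleAverage (l i) 0 1 - Real.log ‖x i‖) := by
        apply Finset.sum_nonneg
        intro i hi
        have := hl2 i hi
        exact mul_nonneg (hα i hi).le (by linarith)
      nlinarith
    refine h1.trans ?_
    apply circleAverage_mono_off hrhs hcont.continuousOn.circleIntegrable'
      (S := ⋃ i ∈ s, S i)
    · exact s.countable_toSet.biUnion fun i hi => hl3 i hi
    · intro ζ hζ
      have hζ' : ∀ i ∈ s, ζ ∉ S i := by
        intro i hi h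
        apply hζ
        exact mem_biUnion hi h
      have e3 : C * ∏ i ∈ s, ‖x i + ζ * b i‖ ^ α i =
          u0 * Real.exp (∑ i ∈ s, α i * (l i ζ - Real.log ‖x i‖)) := by
        rw [hu0, mul_assoc, Real.exp_sum, ← Finset.prod_mul_distrib]
        congr 1
        apply Finset.prod_congr rfl
        intro i hi
        obtain ⟨hne, hl⟩ := hl4 i hi ζ (hζ' i hi)
        have hp : 0 < ‖x i + ζ * b i‖ := norm_pos_iff.2 hne
        rw [hl, Real.rpow_def_of_pos hp, Real.rpow_def_of_pos (hx' i hi), ← Real.exp_add]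
        congr 1
        ring
      rw [e3]
      apply mul_le_mul_of_nonneg_left _ hu0p.le
      have := Real.add_one_le_exp (∑ i ∈ s, α i * (l i ζ - Real.log ‖x i‖))
      linarith

end Pool.Agent.R233
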