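import Mathlib

set_option autoImplicit false

open MeasureTheory Topology Filter Set Real
open scoped ENNReal NNReal ComplexConjugate

namespace Pool.Agent.R233

/-- multiplication of the coordinates in `S` by `c` -/
def mulS {n : ℕ} (S : Finset (Fin n)) (c : ℂ) (x : Fin n → ℂ) : Fin n → ℂ :=
  fun i => if i ∈ S then c * x i else x i

lemma mulS_continuous {n : ℕ} (S : Finset (Fin n)) :
    Continuous (fun q : ℂ × (Fin n → ℂ) => mulS S q.1 q.2) := by
  unfold mulS
  refine continuous_pi fun i => ?_
  by_cases h : i ∈ S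
  · simp only [h, if_true]; fun_prop
  · simp only [h, if_false]; fun_prop

lemma mulS_mp {n : ℕ} (S : Finset (Fin n)) (c : ℂ) (hc : ‖c‖ = 1) :
    MeasurePreserving (mulS S c) volume volume := by
  have hrot : MeasurePreserving (fun z : ℂ => c * z) volume volume := by
    have := (rotation ⟨c, by simpa [Submonoid.unitSphere] using hc⟩).measurePreserving
    exact this
  have h2 : MeasurePreserving (fun (x : Fin n → ℂ) i => (if i ∈ S then (fun z : ℂ => c * z) else id)
      (x i)) volume volume := by
    apply volume_preserving_pi (f := fun i : Fin n => if i ∈ S then (fun z : ℂ => c * z) else id)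
    intro i
    by_cases h : i ∈ S
    · simp only [h, if_true]; exact hrot
    · simp only [h, if_false]; exact MeasurePreserving.id _
  convert h2 using 2 with x
  funext i
  unfold mulS
  by_cases h : i ∈ S
  · simp [h]
  · simp [h]

/-- the average of `λ^(-k) h (mulS S λ x)` over the unit circle -/
noncomputable def avg {n : ℕ} (S : Finset (Fin n)) (k : ℕ) (h : (Fin n → ℂ) → ℂ)
    (x : Fin n → ℂ) : ℂ :=
  circleAverage (fun c : ℂ => (c ^ k)⁻¹ * h (mulS S c x)) 0 1

lemma norm_circleMap_one (θ : ℝ) : ‖circleMap 0 1 θ‖ = 1 := by simp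

lemma avg_int {n : ℕ} (S : Finset (Fin n)) (k : ℕ) {Ω : Set (Fin n → ℂ)}
    (hΩ : MeasurableSet Ω) (hinv : ∀ c : ℂ, ‖c‖ = 1 → ∀ x ∈ Ω, mulS S c x ∈ Ω)
    {h : (Fin n → ℂ) → ℂ} (hh : IntegrableOn h Ω)
    {u : (Fin n → ℂ) → ℂ} (hu : Measurable u) {M : ℝ} (hM : ∀ x ∈ Ω, ‖u x‖ ≤ M)
    (hrot : ∀ c : ℂ, ‖c‖ = 1 → ∀ x, u (mulS S c x) = c ^ k * u x) :
    IntegrableOn (avg S k h) Ω ∧
      ∫ x in Ω, u x * conj (h x) = ∫ x in Ω, u x * conj (avg S k h x) := by
  set μ : Measure (Fin n → ℂ) := volume.restrict Ω with hμ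
  set ν : Measure ℝ := volume.restrict (Ioc 0 (2 * π)) with hν
  have hpre : ∀ c : ℂ, ‖c‖ = 1 → mulS S c ⁻¹' Ω = Ω := by
    intro c hc
    ext x
    refine ⟨fun hx => ?_, fun hx => hinv c hc x hx⟩
    have h1 := hinv (c⁻¹) (by rw [norm_inv, hc, inv_one]) _ hx
    have hc0 : c ≠ 0 := by
      intro h0; rw [h0, norm_zero] at hc; exact zero_ne_one hc
    have h2 : mulS S c⁻¹ (mulS S c x) = x := by
      funext i
      unfold mulS
      by_cases h : i ∈ S
      · simp [h, hc0]
      · simp [h]
    rwa [h2] at h1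
  have hmp : ∀ c : ℂ, ‖c‖ = 1 → MeasurePreserving (mulS S c) μ μ := by
    intro c hc
    have := (mulS_mp S c hc).restrict_preimage hΩ
    rwa [hpre c hc] at this
  have hgm : Measurable (Function.uncurry fun (θ : ℝ) (x : Fin n → ℂ) =>
      mulS S (circleMap 0 1 θ) x) := by
    have h1 : Continuous (fun q : ℝ × (Fin n → ℂ) => mulS S (circleMap 0 1 q.1) q.2) :=
      (mulS_continuous S).comp
        (((continuous_circleMap 0 1).comp continuous_fst).prodMk continuous_snd)
    exact h1.measurable
  have hskew : MeasurePreserving (fun p : ℝ × (Fin n → ℂ) =>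
      (p.1, mulS S (circleMap 0 1 p.1) p.2)) (ν.prod μ) (ν.prod μ) := by
    refine (MeasurePreserving.id ν).skew_product hgm ?_
    exact ae_of_all _ fun θ => (hmp _ (norm_circleMap_one θ)).map_eq
  have hK : Integrable (fun p : ℝ × (Fin n → ℂ) => h (mulS S (circleMap 0 1 p.1) p.2))
      (ν.prod μ) := by
    have h1 : Integrable (fun p : ℝ × (Fin n → ℂ) => h p.2) (ν.prod μ) := by
      have : Integrable h μ := hh
      exact this.comp_snd ν
    exact hskew.integrable_comp_of_integrable h1
  have hcm : Continuous (fun p : ℝ × (Fin n → ℂ) => ((circleMap 0 1 p.1) ^ k)⁻¹) := by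
    refine Continuous.inv₀ ?_ ?_
    · exact ((continuous_circleMap 0 1).comp continuous_fst).pow k
    · intro p
      exact pow_ne_zero _ (by
        intro h0
        have := norm_circleMap_one p.1
        rw [h0, norm_zero] at this
        exact zero_ne_one this)
  have hK2 : Integrable (fun p : ℝ × (Fin n → ℂ) =>
      ((circleMap 0 1 p.1) ^ k)⁻¹ * h (mulS S (circleMap 0 1 p.1) p.2)) (ν.prod μ) := by
    refine hK.bdd_mul (c := 1) hcm.aestronglyMeasurable (ae_of_all _ fun p => ?_)
    rw [norm_inv, norm_pow, norm_circleMap_one]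
    simp
  have hav : ∀ x, avg S k h x = (2 * π)⁻¹ • ∫ θ, ((circleMap 0 1 θ) ^ k)⁻¹ *
      h (mulS S (circleMap 0 1 θ) x) ∂ν := by
    intro x
    unfold avg
    rw [circleAverage_def, intervalIntegral.integral_of_le (by positivity)]
  constructor
  · have h1 := hK2.integral_prod_right
    have h2 : Integrable (avg S k h) μ := by
      have h3 := h1.smul ((2 * π)⁻¹ : ℝ)
      refine h3.congr (ae_of_all _ fun x => ?_)
      rw [Pi.smul_apply, hav]
    exact h2
  · have hcc : ∀ c : ℂ, ‖c‖ = 1 → conj ((c ^ k)⁻¹) = c ^ k := by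
      intro c hc
      rw [map_inv₀, map_pow]
      have h1 : conj c = c⁻¹ := by
        rw [Complex.inv_def, Complex.normSq_eq_norm_sq, hc]
        simp
      rw [h1, inv_pow, inv_inv]
    have hfull : Integrable (fun p : ℝ × (Fin n → ℂ) => u p.2 *
        conj (((circleMap 0 1 p.1) ^ k)⁻¹ * h (mulS S (circleMap 0 1 p.1) p.2))) (ν.prod μ) := by
      have h1 : Integrable (fun p : ℝ × (Fin n → ℂ) => conj (((circleMap 0 1 p.1) ^ k)⁻¹ *
          h (mulS S (circleMap 0 1 p.1) p.2))) (ν.prod μ) :=
        (LinearIsometryEquiv.integrable_comp_iff Complex.conjLIE).2 hK2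
      refine h1.bdd_mul (c := M) (hu.comp measurable_snd).aestronglyMeasurable ?_
      have h2 : ∀ᵐ x ∂μ, ‖u x‖ ≤ M := by
        rw [hμ, ae_restrict_iff' hΩ]
        exact ae_of_all _ hM
      exact Measure.quasiMeasurePreserving_snd.ae h2
    have e1 : ∀ x, u x * conj (avg S k h x) = ((2 * π)⁻¹ : ℝ) • ∫ θ, u x *
        conj (((circleMap 0 1 θ) ^ k)⁻¹ * h (mulS S (circleMap 0 1 θ) x)) ∂ν := by
      intro x
      rw [hav, integral_const_mul, integral_conj]
      simp only [Complex.real_smul, map_mul, Complex.conj_ofReal]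
      ring
    have e2 : ∫ x, u x * conj (avg S k h x) ∂μ = ((2 * π)⁻¹ : ℝ) • ∫ θ, ∫ x, u x *
        conj (((circleMap 0 1 θ) ^ k)⁻¹ * h (mulS S (circleMap 0 1 θ) x)) ∂μ ∂ν := by
      rw [integral_integral_swap hfull]
      simp_rw [e1]
      exact integral_smul ((2 * π)⁻¹ : ℝ) _
    have e3 : ∀ θ, ∫ x, u x *
        conj (((circleMap 0 1 θ) ^ k)⁻¹ * h (mulS S (circleMap 0 1 θ) x)) ∂μ =
        ∫ x, u x * conj (h x) ∂μ := by
      intro θ
      have hc := norm_circleMap_one θ
      set c := circleMap 0 1 θ with hcdef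
      have e4 : ∀ x, u x * conj ((c ^ k)⁻¹ * h (mulS S c x)) =
          (fun y => u y * conj (h y)) (mulS S c x) := by
        intro x
        simp only [map_mul]
        rw [hcc c hc, hrot c hc]
        ring
      simp_rw [e4]
      have hemb : MeasurableEmbedding (mulS S c) := by
        have hc0 : c ≠ 0 := by
          intro h0; rw [h0, norm_zero] at hc; exact zero_ne_one hc
        refine MeasurableEmbedding.of_measurable_inverse (g := mulS S c⁻¹) ?_ ?_ ?_ ?_
        · exact ((mulS_continuous S).comp (by fun_prop : Continuous fun x : Fin n → ℂ => (c, x))).measurable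
        · have : range (mulS S c) = univ := by
            rw [range_eq_univ]
            intro y
            refine ⟨mulS S c⁻¹ y, ?_⟩
            funext i
            unfold mulS
            by_cases h : i ∈ S
            · simp [h, hc0]
            · simp [h]
          rw [this]; exact MeasurableSet.univ
        · exact ((mulS_continuous S).comp (by fun_prop : Continuous fun x : Fin n → ℂ => (c⁻¹, x))).measurable
        · intro x
          funext i
          unfold mulS
          by_cases h : i ∈ S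
          · simp [h, hc0]
          · simp [h]
      exact (hmp c hc).integral_comp hemb (fun y => u y * conj (h y))
    rw [e2]
    simp_rw [e3]
    rw [integral_const, hν]
    simp only [Measure.real, Measure.restrict_apply MeasurableSet.univ, univ_inter, volume_Ioc,
      sub_zero, Complex.real_smul, hμ]
    rw [ENNReal.toReal_ofReal (by positivity)]
    rw [← mul_assoc, ← Complex.ofReal_mul, inv_mul_cancel₀ (by positivity), Complex.ofReal_one,
      one_mul]

/-- scaling of Taylor coefficients -/
lemma coeff_scale {g : ℂ → ℂ} (hg : ∀ z : ℂ, ‖z‖ ≤ 1 → DifferentiableAt ℂ g z) (k : ℕ) (s : ℂ)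
    (hs : ‖s‖ ≤ 1) :
    circleAverage (fun c : ℂ => (c ^ k)⁻¹ * g (c * s)) 0 1 =
      s ^ k * circleAverage (fun c : ℂ => (c ^ k)⁻¹ * g c) 0 1 := by
  have cauchy : ∀ G : ℂ → ℂ, (∀ z : ℂ, ‖z‖ ≤ 1 → DifferentiableAt ℂ G z) →
      circleAverage (fun c : ℂ => (c ^ k)⁻¹ * G c) 0 1 =
        (1 / k.factorial : ℂ) * iteratedDerivWithin k G (Metric.ball 0 1) 0 := by
    intro G hG
    have h1 : DiffContOnCl ℂ G (Metric.ball 0 1) := by
      apply DifferentiableOn.diffContOnCl
      rw [closure_ball _ one_ne_zero]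
      intro z hz
      exact (hG z (by simpa using hz)).differentiableWithinAt
    have h2 := h1.circleIntegral_one_div_sub_center_pow_smul one_pos k
    rw [circleAverage_eq_circleIntegral one_ne_zero]
    have h3 : (∮ z in C(0, 1), (z - 0)⁻¹ • ((z ^ k)⁻¹ * G z)) =
        ∮ z in C(0, 1), (1 / (z - 0) ^ (k + 1)) • G z := by
      congr 1
      funext z
      simp only [sub_zero, smul_eq_mul, pow_succ, one_div, mul_inv]
      ring
    rw [h3, h2, iteratedDerivWithin_of_isOpen Metric.isOpen_ball (Metric.mem_ball_self one_pos)]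
    simp only [smul_eq_mul]
    have : (2 * (π : ℂ) * Complex.I) ≠ 0 := Complex.two_pi_I_ne_zero
    field_simp
  rw [cauchy (fun z => g (z * s)) ?_, cauchy g hg]
  · have h2 := iteratedDerivWithin_comp_const_smul (n := k) (f := g) (s := Metric.ball (0 : ℂ) 1)
      (x := 0) (Metric.mem_ball_self one_pos) (Metric.isOpen_ball.uniqueDiffOn) ?_ s ?_
    · have e : (fun z => g (z * s)) = fun z => g (s * z) := by
        funext z; rw [mul_comm]
      rw [e, h2, mul_zero, smul_eq_mul]
      ring
    · apply DifferentiableOn.contDiffOn _ Metric.isOpen_ball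
      intro z hz
      rw [mem_ball_zero_iff] at hz
      exact (hg z hz.le).differentiableWithinAt
    · intro z hz
      rw [mem_ball_zero_iff] at hz ⊢
      rw [norm_mul]
      calc ‖s‖ * ‖z‖ ≤ 1 * ‖z‖ := by gcongr
        _ < 1 := by linarith
  · intro z hz
    have h1 : DifferentiableAt ℂ g (z * s) := hg _ (by
      rw [norm_mul]
      calc ‖z‖ * ‖s‖ ≤ 1 * 1 := by gcongr
        _ = 1 := one_mul 1)
    exact h1.comp z (by fun_prop)

end Pool.Agent.R233
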